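import Pool.Agent.PRS.Defs
import Pool.Agent.Helper7.Burnside

/-!
# An invariant Hermitian form
-/

set_option autoImplicit false

namespace Pool.Agent.PRS

open Matrix Pool.Agent.HZ

variable {r : ℕ}

theorem toLin'_unit (g : GL (Fin r) ℂ) (v : Fin r → ℂ) :
    Matrix.toLin' (g : Matrix (Fin r) (Fin r) ℂ) v = (g : Matrix (Fin r) (Fin r) ℂ) *ᵥ v := rfl

/-- **Burnside**: an irreducible group spans all matrices. -/
theorem span_irr (hr : 0 < r) (Γ : Subgroup (GL (Fin r) ℂ)) (h : Irr Γ) :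
    Submodule.span ℂ {M : Matrix (Fin r) (Fin r) ℂ | ∃ g ∈ Γ, M = g} = ⊤ := by
  haveI : Nonempty (Fin r) := ⟨⟨0, hr⟩⟩
  let φ : Γ →* Module.End ℂ (Fin r → ℂ) :=
    ((Matrix.toLinAlgEquiv' (R := ℂ) (n := Fin r) :
      Matrix (Fin r) (Fin r) ℂ →* Module.End ℂ (Fin r → ℂ)).comp
        (Units.coeHom (Matrix (Fin r) (Fin r) ℂ))).comp Γ.subtype
  have hφv : ∀ (g : Γ) (v : Fin r → ℂ), φ g v =
      ((g : GL (Fin r) ℂ) : Matrix (Fin r) (Fin r) ℂ) *ᵥ v := fun g v => rfl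
  have hirr : ∀ X : Submodule ℂ (Fin r → ℂ), (∀ s ∈ Set.range φ, ∀ v ∈ X, s v ∈ X) →
      X = ⊥ ∨ X = ⊤ := by
    intro X hX
    exact h X fun g hg v hv => hX _ ⟨⟨g, hg⟩, rfl⟩ v hv
  have hcomm : ∀ t : Module.End ℂ (Fin r → ℂ), (∀ s ∈ Set.range φ, s * t = t * s) →
      ∃ c : ℂ, t = c • 1 := by
    intro t ht
    obtain ⟨c, hc⟩ := Module.End.exists_eigenvalue t
    refine ⟨c, ?_⟩
    have h1 : t.eigenspace c ≠ ⊥ := hc
    have h2 := hirr (t.eigenspace c) (by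
      intro s hs v hv
      rw [Module.End.mem_eigenspace_iff] at hv ⊢
      have h3 : s (t v) = t (s v) := congrArg (fun f => f v) (ht s hs)
      rw [← h3, hv, map_smul])
    have h3 := h2.resolve_left h1
    refine LinearMap.ext fun v => ?_
    have h4 : v ∈ t.eigenspace c := by
      rw [h3]
      trivial
    rw [Module.End.mem_eigenspace_iff] at h4
    exact h4
  have hbur := Helper7.burnside (Set.range φ) hirr hcomm
  have hspan : Submodule.span ℂ (Set.range φ) = ⊤ := by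
    have h1 := Algebra.adjoin_eq_span ℂ (Set.range φ)
    rw [hbur, ← MonoidHom.coe_mrange, Submonoid.closure_eq] at h1
    rw [← MonoidHom.coe_mrange, ← h1]
    rfl
  have h5 : Set.range φ = (Matrix.toLin' : Matrix (Fin r) (Fin r) ℂ ≃ₗ[ℂ] _).toLinearMap ''
      {M : Matrix (Fin r) (Fin r) ℂ | ∃ g ∈ Γ, M = g} := by
    ext f
    constructor
    · rintro ⟨g, rfl⟩
      exact ⟨_, ⟨g, g.2, rfl⟩, rfl⟩
    · rintro ⟨_, ⟨g, hg, rfl⟩, rfl⟩
      exact ⟨⟨g, hg⟩, rfl⟩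
  rw [h5, Submodule.span_image] at hspan
  have h6 := congrArg (Submodule.comap
    (Matrix.toLin' : Matrix (Fin r) (Fin r) ℂ ≃ₗ[ℂ] _).toLinearMap) hspan
  rw [Submodule.comap_map_eq_of_injective (Matrix.toLin' (R := ℂ) (m := Fin r)
    (n := Fin r)).injective, Submodule.comap_top] at h6
  exact h6

/-- the trace form is nondegenerate -/
theorem eq_zero_of_trace {X : Matrix (Fin r) (Fin r) ℂ} (h : ∀ Y, (X * Y).trace = 0) : X = 0 := by
  ext i j
  have h1 := h (Matrix.single j i 1)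
  rw [Matrix.trace_mul_single] at h1
  simpa using h1

/-- two representations with the same character on a group, the first irreducible: there is an
algebra homomorphism between them -/
theorem exists_algHom {G : Type*} [Group G] (ρ σ : G →* Matrix (Fin r) (Fin r) ℂ)
    (hρ : Submodule.span ℂ (Set.range ρ) = ⊤) (hσ : Submodule.span ℂ (Set.range σ) = ⊤)
    (htr : ∀ g, (ρ g).trace = (σ g).trace) :
    ∃ Θ : Matrix (Fin r) (Fin r) ℂ ≃ₐ[ℂ] Matrix (Fin r) (Fin r) ℂ, ∀ g, Θ (ρ g) = σ g := by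
  let π := MonoidAlgebra.lift ℂ (Matrix (Fin r) (Fin r) ℂ) G ρ
  let π' := MonoidAlgebra.lift ℂ (Matrix (Fin r) (Fin r) ℂ) G σ
  have hπ : ∀ g, π (MonoidAlgebra.of ℂ G g) = ρ g := fun g => MonoidAlgebra.lift_of ρ g
  have hπ' : ∀ g, π' (MonoidAlgebra.of ℂ G g) = σ g := fun g => MonoidAlgebra.lift_of σ g
  have hs : Function.Surjective π := by
    intro Y
    have hY : Y ∈ Submodule.span ℂ (Set.range ρ) := by rw [hρ]; trivial
    have h1 : Submodule.span ℂ (Set.range ρ) ≤ LinearMap.range π.toLinearMap := by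
      rw [Submodule.span_le]
      rintro _ ⟨g, rfl⟩
      exact ⟨_, hπ g⟩
    exact h1 hY
  have hs' : Function.Surjective π' := by
    intro Y
    have hY : Y ∈ Submodule.span ℂ (Set.range σ) := by rw [hσ]; trivial
    have h1 : Submodule.span ℂ (Set.range σ) ≤ LinearMap.range π'.toLinearMap := by
      rw [Submodule.span_le]
      rintro _ ⟨g, rfl⟩
      exact ⟨_, hπ' g⟩
    exact h1 hY
  have htr' : ∀ x, (π x).trace = (π' x).trace := by
    have h1 : (Matrix.traceLinearMap (Fin r) ℂ ℂ).comp π.toLinearMap =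
        (Matrix.traceLinearMap (Fin r) ℂ ℂ).comp π'.toLinearMap := by
      refine MonoidAlgebra.lhom_ext' fun g => LinearMap.ext_ring ?_
      show (π (MonoidAlgebra.of ℂ G g)).trace = (π' (MonoidAlgebra.of ℂ G g)).trace
      rw [hπ, hπ', htr]
    intro x
    exact LinearMap.congr_fun h1 x
  have hker : ∀ x, π x = 0 → π' x = 0 := by
    intro x hx
    apply eq_zero_of_trace
    intro Y
    obtain ⟨y, rfl⟩ := hs' Y
    rw [← map_mul, ← htr', map_mul, hx, zero_mul, Matrix.trace_zero]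
  have hker' : ∀ x, π' x = 0 → π x = 0 := by
    intro x hx
    apply eq_zero_of_trace
    intro Y
    obtain ⟨y, rfl⟩ := hs Y
    rw [← map_mul, htr', map_mul, hx, zero_mul, Matrix.trace_zero]
  obtain ⟨s, hs1⟩ := π.toLinearMap.exists_rightInverse_of_surjective (LinearMap.range_eq_top.2 hs)
  have hs2 : ∀ Y, π (s Y) = Y := fun Y => LinearMap.congr_fun hs1 Y
  have h1 : ∀ x, π' (s (π x)) = π' x := by
    intro x
    have := hker (s (π x) - x) (by rw [map_sub, hs2, sub_self])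
    rwa [map_sub, sub_eq_zero] at this
  let Θ : Matrix (Fin r) (Fin r) ℂ →ₐ[ℂ] Matrix (Fin r) (Fin r) ℂ :=
    AlgHom.ofLinearMap (π'.toLinearMap ∘ₗ s) (by
      show π' (s 1) = 1
      have := h1 1
      rwa [map_one π, map_one π'] at this) (by
      intro X Y
      show π' (s (X * Y)) = π' (s X) * π' (s Y)
      obtain ⟨x, rfl⟩ := hs X
      obtain ⟨y, rfl⟩ := hs Y
      rw [← map_mul, h1, h1, h1, map_mul])
  have hΘ : ∀ x, Θ (π x) = π' x := h1
  have hinj : Function.Injective Θ := by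
    rw [injective_iff_map_eq_zero]
    intro X hX
    obtain ⟨x, rfl⟩ := hs X
    rw [hΘ] at hX
    exact hker' x hX
  have hsur : Function.Surjective Θ := by
    intro Y
    obtain ⟨y, rfl⟩ := hs' Y
    exact ⟨π y, hΘ y⟩
  refine ⟨AlgEquiv.ofBijective Θ ⟨hinj, hsur⟩, fun g => ?_⟩
  show Θ (ρ g) = σ g
  rw [← hπ, hΘ, hπ']

/-- **Skolem-Noether** for matrices -/
theorem skolem (Θ : Matrix (Fin r) (Fin r) ℂ ≃ₐ[ℂ] Matrix (Fin r) (Fin r) ℂ) :
    ∃ P : Matrix (Fin r) (Fin r) ℂ, IsUnit P ∧ ∀ X, Θ X * P = P * X := by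
  let F : Module.End ℂ (Fin r → ℂ) ≃ₐ[ℂ] Module.End ℂ (Fin r → ℂ) :=
    (Matrix.toLinAlgEquiv' (R := ℂ) (n := Fin r)).symm.trans
      (Θ.trans (Matrix.toLinAlgEquiv' (R := ℂ) (n := Fin r)))
  obtain ⟨T, hT⟩ := F.eq_linearEquivConjAlgEquiv
  refine ⟨LinearMap.toMatrix' (T : (Fin r → ℂ) →ₗ[ℂ] (Fin r → ℂ)), ?_, ?_⟩
  · refine ⟨⟨_, LinearMap.toMatrix' (T.symm : (Fin r → ℂ) →ₗ[ℂ] (Fin r → ℂ)), ?_, ?_⟩, rfl⟩
    · rw [← LinearMap.toMatrix'_comp, LinearEquiv.comp_coe, LinearEquiv.symm_trans_self,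
        LinearEquiv.refl_toLinearMap, LinearMap.toMatrix'_id]
    · rw [← LinearMap.toMatrix'_comp, LinearEquiv.comp_coe, LinearEquiv.self_trans_symm,
        LinearEquiv.refl_toLinearMap, LinearMap.toMatrix'_id]
  · intro X
    have h1 : F (Matrix.toLin' X) = Matrix.toLin' (Θ X) := by
      show Matrix.toLin' (Θ ((Matrix.toLinAlgEquiv' (R := ℂ) (n := Fin r)).symm
        (Matrix.toLinAlgEquiv' X))) = _
      rw [AlgEquiv.symm_apply_apply]
    have h2 : Matrix.toLin' (Θ X) ∘ₗ (T : (Fin r → ℂ) →ₗ[ℂ] (Fin r → ℂ)) =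
        (T : (Fin r → ℂ) →ₗ[ℂ] (Fin r → ℂ)) ∘ₗ Matrix.toLin' X := by
      rw [← h1, hT, LinearEquiv.conjAlgEquiv_apply]
      refine LinearMap.ext fun v => ?_
      simp only [LinearMap.comp_apply, LinearEquiv.coe_coe, LinearEquiv.symm_apply_apply]
    have h3 := congrArg LinearMap.toMatrix' h2
    rwa [LinearMap.toMatrix'_comp, LinearMap.toMatrix'_comp, LinearMap.toMatrix'_toLin',
      LinearMap.toMatrix'_toLin'] at h3

/-- `(g⁻¹)ᴴ` as a homomorphism -/
noncomputable def dual (Γ : Subgroup (GL (Fin r) ℂ)) : Γ →* Matrix (Fin r) (Fin r) ℂ where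
  toFun g := (((g : GL (Fin r) ℂ)⁻¹ : GL (Fin r) ℂ) : Matrix (Fin r) (Fin r) ℂ)ᴴ
  map_one' := by simp
  map_mul' g h := by
    rw [Subgroup.coe_mul, _root_.mul_inv_rev, Units.val_mul, Matrix.conjTranspose_mul]

theorem thm_Her : St_Her := by
  intro r Γ hr hirr htr
  have hspan := span_irr hr Γ hirr
  let ρ : Γ →* Matrix (Fin r) (Fin r) ℂ := (Units.coeHom (Matrix (Fin r) (Fin r) ℂ)).comp Γ.subtype
  have hρ : Submodule.span ℂ (Set.range ρ) = ⊤ := by
    rw [← hspan]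
    congr 1
    ext M
    constructor
    · rintro ⟨g, rfl⟩
      exact ⟨g, g.2, rfl⟩
    · rintro ⟨g, hg, rfl⟩
      exact ⟨⟨g, hg⟩, rfl⟩
  have hσ : Submodule.span ℂ (Set.range (dual Γ)) = ⊤ := by
    rw [eq_top_iff]
    rintro Y -
    have hY : Yᴴ ∈ Submodule.span ℂ (Set.range ρ) := by rw [hρ]; trivial
    have h1 : ∀ Z ∈ Submodule.span ℂ (Set.range ρ), Zᴴ ∈ Submodule.span ℂ (Set.range (dual Γ)) := by
      intro Z hZ
      induction hZ using Submodule.span_induction with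
      | mem x hx =>
        obtain ⟨g, rfl⟩ := hx
        refine Submodule.subset_span ⟨g⁻¹, ?_⟩
        show (((g⁻¹ : Γ) : GL (Fin r) ℂ)⁻¹ : GL (Fin r) ℂ).valᴴ = (ρ g)ᴴ
        rw [Subgroup.coe_inv, inv_inv]
        rfl
      | zero => rw [Matrix.conjTranspose_zero]; exact Submodule.zero_mem _
      | add x y _ _ hx hy => rw [Matrix.conjTranspose_add]; exact Submodule.add_mem _ hx hy
      | smul a x _ hx => rw [Matrix.conjTranspose_smul]; exact Submodule.smul_mem _ _ hx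
    have := h1 _ hY
    rwa [Matrix.conjTranspose_conjTranspose] at this
  obtain ⟨Θ, hΘ⟩ := exists_algHom ρ (dual Γ) hρ hσ fun g => by
    show ((g : GL (Fin r) ℂ) : Matrix (Fin r) (Fin r) ℂ).trace =
      ((((g : GL (Fin r) ℂ)⁻¹ : GL (Fin r) ℂ) : Matrix (Fin r) (Fin r) ℂ)ᴴ).trace
    rw [Matrix.trace_conjTranspose, htr g g.2, star_star]
  obtain ⟨P, hP, hΘP⟩ := skolem Θ
  have hinv : ∀ g ∈ Γ, (g : Matrix (Fin r) (Fin r) ℂ)ᴴ * P * (g : Matrix (Fin r) (Fin r) ℂ) = P := by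
    intro g hg
    have h1 := hΘP (ρ ⟨g, hg⟩)
    rw [hΘ] at h1
    have h2 : (g : Matrix (Fin r) (Fin r) ℂ)ᴴ * dual Γ ⟨g, hg⟩ = 1 := by
      show (g : Matrix (Fin r) (Fin r) ℂ)ᴴ * ((g⁻¹ : GL (Fin r) ℂ) : Matrix (Fin r) (Fin r) ℂ)ᴴ = 1
      rw [← Matrix.conjTranspose_mul, ← Units.val_mul, inv_mul_cancel, Units.val_one,
        Matrix.conjTranspose_one]
    have h3 : P * (g : Matrix (Fin r) (Fin r) ℂ) = dual Γ ⟨g, hg⟩ * P := h1.symm
    rw [mul_assoc, h3, ← mul_assoc, h2, one_mul]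
  have hinvH : ∀ g ∈ Γ, (g : Matrix (Fin r) (Fin r) ℂ)ᴴ * Pᴴ * (g : Matrix (Fin r) (Fin r) ℂ) =
      Pᴴ := by
    intro g hg
    have := congrArg Matrix.conjTranspose (hinv g hg)
    rwa [Matrix.conjTranspose_mul, Matrix.conjTranspose_mul, Matrix.conjTranspose_conjTranspose,
      ← mul_assoc] at this
  -- a nonzero invariant matrix is invertible
  have hunit : ∀ H : Matrix (Fin r) (Fin r) ℂ, H ≠ 0 →
      (∀ g ∈ Γ, (g : Matrix (Fin r) (Fin r) ℂ)ᴴ * H * (g : Matrix (Fin r) (Fin r) ℂ) = H) →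
      IsUnit H := by
    intro H hH hg
    have h1 : LinearMap.ker (Matrix.mulVecLin H) = ⊥ ∨ LinearMap.ker (Matrix.mulVecLin H) = ⊤ := by
      apply hirr
      intro g hgΓ v hv
      rw [LinearMap.mem_ker, Matrix.mulVecLin_apply] at hv ⊢
      have h2 : ((g⁻¹ : GL (Fin r) ℂ) : Matrix (Fin r) (Fin r) ℂ)ᴴ *
          (g : Matrix (Fin r) (Fin r) ℂ)ᴴ = 1 := by
        rw [← Matrix.conjTranspose_mul, ← Units.val_mul, mul_inv_cancel, Units.val_one,
          Matrix.conjTranspose_one]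
      have h3 : H * (g : Matrix (Fin r) (Fin r) ℂ) =
          ((g⁻¹ : GL (Fin r) ℂ) : Matrix (Fin r) (Fin r) ℂ)ᴴ * H := by
        conv_rhs => rw [← hg g hgΓ]
        rw [← mul_assoc, ← mul_assoc, h2, one_mul]
      rw [Matrix.mulVec_mulVec, h3, ← Matrix.mulVec_mulVec, hv, Matrix.mulVec_zero]
    rcases h1 with h1 | h1
    · rw [← Matrix.mulVec_injective_iff_isUnit]
      exact LinearMap.ker_eq_bot.1 h1
    · exfalso
      apply hH
      apply Matrix.ext_of_mulVec_single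
      intro i
      have : Pi.single i (1 : ℂ) ∈ LinearMap.ker (Matrix.mulVecLin H) := by rw [h1]; trivial
      rw [LinearMap.mem_ker, Matrix.mulVecLin_apply] at this
      rw [this, Matrix.zero_mulVec]
  have hP0 : P ≠ 0 := by
    rintro rfl
    haveI : Nonempty (Fin r) := ⟨⟨0, hr⟩⟩
    exact not_isUnit_zero hP
  by_cases h0 : P + Pᴴ = 0
  · have h1 : ∀ g ∈ Γ, (g : Matrix (Fin r) (Fin r) ℂ)ᴴ * (Complex.I • P) *
        (g : Matrix (Fin r) (Fin r) ℂ) = Complex.I • P := by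
      intro g hg
      rw [mul_smul_comm, smul_mul_assoc, hinv g hg]
    refine ⟨Complex.I • P, ?_, hunit _ (smul_ne_zero Complex.I_ne_zero hP0) h1, h1⟩
    rw [Matrix.IsHermitian, Matrix.conjTranspose_smul, eq_neg_of_add_eq_zero_right h0]
    simp
  · have h1 : ∀ g ∈ Γ, (g : Matrix (Fin r) (Fin r) ℂ)ᴴ * (P + Pᴴ) *
        (g : Matrix (Fin r) (Fin r) ℂ) = P + Pᴴ := by
      intro g hg
      rw [mul_add, add_mul, hinv g hg, hinvH g hg]
    refine ⟨P + Pᴴ, ?_, hunit _ h0 h1, h1⟩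
    rw [Matrix.IsHermitian, Matrix.conjTranspose_add, Matrix.conjTranspose_conjTranspose, add_comm]

end Pool.Agent.PRS
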