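import Pool.Agent.PRS.Ent

/-!
# PRS module CYC
-/

set_option autoImplicit false

namespace Pool.Agent.PRS

open Matrix Pool.Agent.HZ

theorem thm_CYC (hG : St_Gen) (hL : St_Lam) : St_Cyc := by
  intro M n r ρ hM hgood w
  obtain ⟨lam, hconj, hlam⟩ := hL
  set S : Subring ℂ := (Algebra.adjoin ℤ {x : ℂ | x ^ M = 1}).toSubring with hS
  have hmem : ∀ x : ℂ, x ^ M = 1 → x ∈ S := fun x hx => Algebra.subset_adjoin hx
  have hinv : ∀ x : ℂ, x ^ M = 1 → x⁻¹ ∈ S := fun x hx => hmem _ (by rw [inv_pow, hx, inv_one])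
  let ρ' : FreeGroup (Fin n) →* Matrix (Fin r) (Fin r) ℂ := (Units.coeHom _).comp ρ
  have hρ' : ∀ y, ρ' y = (ρ y : Matrix (Fin r) (Fin r) ℂ) := fun y => rfl
  have hsys : Sys S ρ' (std n) (fun y => (lam r (ρ y))⁻¹) (fun y => lam r (ρ y))
      (fun y => 1 + ((lam r (ρ y))⁻¹ • (ρ y : Matrix (Fin r) (Fin r) ℂ) - 1).trace)
      (fun y => (1 + ((lam r (ρ y))⁻¹ • (ρ y : Matrix (Fin r) (Fin r) ℂ) - 1).trace)⁻¹) :=
    { conj := fun a b => by
        simp only [map_mul, map_inv, hconj]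
      mem := fun L hL' y hy => by
        obtain ⟨h1, h2, h3, h4⟩ := hlam r (ρ y) (pre_PR hgood.1 hL' hy)
        obtain ⟨h5, h6⟩ := h4 M (hgood.2 y (pre_simple hL' hy))
        exact ⟨hinv _ h5, hmem _ h5, hmem _ h6, hinv _ h6⟩
      unit := fun L hL' y hy => by
        obtain ⟨h1, h2, h3, h4⟩ := hlam r (ρ y) (pre_PR hgood.1 hL' hy)
        exact ⟨inv_mul_cancel₀ h1, mul_inv_cancel₀ h2⟩
      tr := fun L hL' y hy => by
        rw [hρ', add_sub_cancel_left]
      one := fun L hL' y hy X => by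
        obtain ⟨h1, h2, h3, h4⟩ := hlam r (ρ y) (pre_PR hgood.1 hL' hy)
        exact h3 X
      loops := fun L hL' => by
        rw [hρ']
        exact trace_mem _ S fun x hx => hmem x (hgood.2 _ (pre_prod hL') x hx) }
  have h := hG ℂ (FreeGroup (Fin n)) r S ρ' (std n) _ _ _ _ hsys w (by
    rw [closure_std]
    exact Subgroup.mem_top w)
  exact h

end Pool.Agent.PRS
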