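import Mathlib

/-!
# The trace of the inverse
-/

set_option autoImplicit false

namespace Pool.Agent.PRS

open Matrix

variable {r : ℕ}

/-- the trace of the inverse is the conjugate of the trace if all eigenvalues are on the unit
circle -/
theorem trace_inv (g : GL (Fin r) ℂ)
    (h : ∀ x : ℂ, (g : Matrix (Fin r) (Fin r) ℂ).charpoly.IsRoot x → ‖x‖ = 1) :
    ((g⁻¹ : GL (Fin r) ℂ) : Matrix (Fin r) (Fin r) ℂ).trace =
      star (g : Matrix (Fin r) (Fin r) ℂ).trace := by
  set A : Matrix (Fin r) (Fin r) ℂ := (g : Matrix (Fin r) (Fin r) ℂ) with hA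
  set B : Matrix (Fin r) (Fin r) ℂ := ((g⁻¹ : GL (Fin r) ℂ) : Matrix (Fin r) (Fin r) ℂ) with hB
  have hBA : B⁻¹ = A := by
    rw [hA, hB, Matrix.coe_units_inv, Matrix.nonsing_inv_nonsing_inv]
    exact g.isUnit.map Matrix.detMonoidHom
  have hBu : IsUnit B := (g⁻¹).isUnit
  have hdet : B.det ≠ 0 := ((Matrix.isUnit_iff_isUnit_det B).1 hBu).ne_zero
  have h1 := Matrix.charpoly_inv B hBu
  rw [hBA] at h1
  have h2 : A.charpoly = Polynomial.C ((-1) ^ r * (B.det)⁻¹) * B.charpolyRev := by
    rw [h1, Fintype.card_fin, Ring.inverse_eq_inv', map_mul, map_pow, map_neg, map_one]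
  have hs : (-1 : ℂ) ^ r * (B.det)⁻¹ ≠ 0 := mul_ne_zero (pow_ne_zero _ (by norm_num)) (inv_ne_zero hdet)
  have h3 : A.charpoly.eval 0 = (-1) ^ r * (B.det)⁻¹ := by
    rw [h2, Polynomial.eval_mul, Polynomial.eval_C, Matrix.eval_charpolyRev, mul_one]
  have h4 : A.charpoly.derivative.eval 0 = -((-1) ^ r * (B.det)⁻¹ * B.trace) := by
    rw [h2, Polynomial.derivative_C_mul, Polynomial.eval_mul, Polynomial.eval_C,
      ← Polynomial.coeff_zero_eq_eval_zero, Polynomial.coeff_derivative,
      Matrix.coeff_charpolyRev_eq_neg_trace]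
    push_cast
    ring
  have h5 := (IsAlgClosed.splits A.charpoly).eval_derivative_div_eval_of_ne_zero (x := 0)
    (by rw [h3]; exact hs)
  rw [h3, h4] at h5
  have h6 : B.trace = (A.charpoly.roots.map fun z => z⁻¹).sum := by
    have h7 : -((-1 : ℂ) ^ r * (B.det)⁻¹ * B.trace) / ((-1) ^ r * (B.det)⁻¹) = -B.trace := by
      field_simp
    rw [h7] at h5
    rw [← neg_neg B.trace, h5, ← Multiset.sum_map_neg', Multiset.map_map]
    congr 1
    apply Multiset.map_congr rfl
    intro z _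
    rw [Function.comp_apply, zero_sub, one_div, inv_neg, neg_neg]
  rw [h6, Matrix.trace_eq_sum_roots_charpoly]
  have h8 : star A.charpoly.roots.sum = (A.charpoly.roots.map star).sum := by
    exact map_multiset_sum (starAddEquiv (R := ℂ)) _
  rw [h8]
  congr 1
  apply Multiset.map_congr rfl
  intro z hz
  have hz1 := h z (Polynomial.isRoot_of_mem_roots hz)
  have hz0 : z ≠ 0 := by
    rintro rfl
    simp at hz1
  rw [inv_eq_of_mul_eq_one_left]
  rw [Complex.star_def, Complex.conj_mul', hz1]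
  norm_num

end Pool.Agent.PRS
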