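import Pool.Agent.PRS.Ent
import Pool.Agent.PRS.Inv

/-!
# Systems of pseudo-reflections, module DUA: the character of the conjugate dual
-/

set_option autoImplicit false

namespace Pool.Agent.PRS

open Matrix Pool.Agent.HZ
open scoped ComplexOrder

variable {r : ℕ}

/-- the values of matrices of functions -/
def DUA_ev {Ω : Type} (r : ℕ) (β : Ω) :
    Matrix (Fin r) (Fin r) (Ω → ℂ) →+* Matrix (Fin r) (Fin r) ℂ :=
  (Pi.evalRingHom (fun _ : Ω => ℂ) β).mapMatrix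

theorem DUA_ext {Ω : Type} {r : ℕ} {A B : Matrix (Fin r) (Fin r) (Ω → ℂ)}
    (h : ∀ β, DUA_ev r β A = DUA_ev r β B) : A = B := by
  ext i j β
  exact congrFun (congrFun (h β) i) j

theorem DUA_tr {Ω : Type} {r : ℕ} (A : Matrix (Fin r) (Fin r) (Ω → ℂ)) (β : Ω) :
    A.trace β = (DUA_ev r β A).trace := by
  simp only [Matrix.trace, Matrix.diag_apply, Finset.sum_apply]
  rfl

theorem DUA_smul {Ω : Type} {r : ℕ} (f : Ω → ℂ) (A : Matrix (Fin r) (Fin r) (Ω → ℂ)) (β : Ω) :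
    DUA_ev r β (f • A) = f β • DUA_ev r β A := rfl

/-- a family of representations -/
def DUA_rep {n r : ℕ} (Ω : Type) (ρ : Ω → FreeGroup (Fin n) →* GL (Fin r) ℂ) :
    FreeGroup (Fin n) →* Matrix (Fin r) (Fin r) (Ω → ℂ) where
  toFun y := Matrix.of fun i j β => (ρ β y : Matrix (Fin r) (Fin r) ℂ) i j
  map_one' := by
    refine DUA_ext fun β => ?_
    rw [map_one]
    ext i j
    show (ρ β 1 : Matrix (Fin r) (Fin r) ℂ) i j = _
    rw [map_one, Units.val_one]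
  map_mul' x y := by
    refine DUA_ext fun β => ?_
    rw [map_mul]
    have h1 : ∀ z, DUA_ev r β (Matrix.of fun i j β => (ρ β z : Matrix (Fin r) (Fin r) ℂ) i j) =
        (ρ β z : Matrix (Fin r) (Fin r) ℂ) := fun z => rfl
    rw [h1, h1, h1, map_mul, Units.val_mul]

theorem DUA_rep_ev {n r : ℕ} {Ω : Type} (ρ : Ω → FreeGroup (Fin n) →* GL (Fin r) ℂ)
    (y : FreeGroup (Fin n)) (β : Ω) :
    DUA_ev r β (DUA_rep Ω ρ y) = (ρ β y : Matrix (Fin r) (Fin r) ℂ) := rfl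

/-- the conjugate dual -/
noncomputable def DUA_du (g : GL (Fin r) ℂ) : GL (Fin r) ℂ where
  val := ((g⁻¹ : GL (Fin r) ℂ) : Matrix (Fin r) (Fin r) ℂ)ᴴ
  inv := (g : Matrix (Fin r) (Fin r) ℂ)ᴴ
  val_inv := by
    rw [← Matrix.conjTranspose_mul, ← Units.val_mul, mul_inv_cancel, Units.val_one,
      Matrix.conjTranspose_one]
  inv_val := by
    rw [← Matrix.conjTranspose_mul, ← Units.val_mul, inv_mul_cancel, Units.val_one,
      Matrix.conjTranspose_one]

theorem DUA_du_val (g : GL (Fin r) ℂ) : (DUA_du g : Matrix (Fin r) (Fin r) ℂ) =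
    ((g⁻¹ : GL (Fin r) ℂ) : Matrix (Fin r) (Fin r) ℂ)ᴴ := rfl

/-- the conjugate dual representation -/
noncomputable def DUA_hom {G : Type} [Group G] (ρ : G →* GL (Fin r) ℂ) : G →* GL (Fin r) ℂ where
  toFun y := DUA_du (ρ y)
  map_one' := by
    apply Units.ext
    rw [DUA_du_val, map_one, inv_one, Units.val_one, Matrix.conjTranspose_one]
  map_mul' x y := by
    apply Units.ext
    rw [Units.val_mul, DUA_du_val, DUA_du_val, DUA_du_val, map_mul, _root_.mul_inv_rev,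
      Units.val_mul, Matrix.conjTranspose_mul]

/-- the pair of representations -/
noncomputable def DUA_fam {G : Type} [Group G] (ρ : G →* GL (Fin r) ℂ) : Bool → G →* GL (Fin r) ℂ :=
  fun i => if i then DUA_hom ρ else ρ

theorem DUA_key (g : GL (Fin r) ℂ) {b : ℂ} (hb : b ≠ 0) (hb' : star b = b⁻¹)
    (hz : 1 + (b⁻¹ • (g : Matrix (Fin r) (Fin r) ℂ) - 1).trace ≠ 0)
    (hz' : star (1 + (b⁻¹ • (g : Matrix (Fin r) (Fin r) ℂ) - 1).trace) =
      (1 + (b⁻¹ • (g : Matrix (Fin r) (Fin r) ℂ) - 1).trace)⁻¹)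
    (h : (b⁻¹ • (g : Matrix (Fin r) (Fin r) ℂ) - 1) * (b⁻¹ • (g : Matrix (Fin r) (Fin r) ℂ) - 1) =
      (b⁻¹ • (g : Matrix (Fin r) (Fin r) ℂ) - 1).trace •
        (b⁻¹ • (g : Matrix (Fin r) (Fin r) ℂ) - 1)) :
    b⁻¹ • (DUA_du g : Matrix (Fin r) (Fin r) ℂ) - 1 =
      -(1 + (b⁻¹ • (g : Matrix (Fin r) (Fin r) ℂ) - 1).trace) •
        (b⁻¹ • (g : Matrix (Fin r) (Fin r) ℂ) - 1)ᴴ := by
  have hg : (g : Matrix (Fin r) (Fin r) ℂ) =
      b • (1 + (b⁻¹ • (g : Matrix (Fin r) (Fin r) ℂ) - 1)) := by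
    rw [add_sub_cancel, smul_smul, mul_inv_cancel₀ hb, one_smul]
  set e : Matrix (Fin r) (Fin r) ℂ := b⁻¹ • (g : Matrix (Fin r) (Fin r) ℂ) - 1 with he
  set z : ℂ := 1 + e.trace with hzd
  have hinv : ((g⁻¹ : GL (Fin r) ℂ) : Matrix (Fin r) (Fin r) ℂ) = b⁻¹ • (1 - z⁻¹ • e) := by
    apply Units.inv_eq_of_mul_eq_one_left
    rw [hg, smul_mul_smul_comm, inv_mul_cancel₀ hb, one_smul, sub_mul, one_mul, smul_mul_assoc,
      mul_add, mul_one, h, smul_add, smul_smul]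
    have h1 : e.trace = z - 1 := by rw [hzd]; ring
    rw [h1]
    have h2 : z⁻¹ • e + (z⁻¹ * (z - 1)) • e = e := by
      rw [← add_smul]
      have : z⁻¹ + z⁻¹ * (z - 1) = 1 := by
        field_simp
        ring
      rw [this, one_smul]
    rw [h2, add_sub_cancel_right]
  rw [DUA_du_val, hinv, Matrix.conjTranspose_smul, Matrix.conjTranspose_sub,
    Matrix.conjTranspose_one, Matrix.conjTranspose_smul, smul_smul, star_inv₀, hb', inv_inv,
    inv_mul_cancel₀ hb, one_smul, star_inv₀, hz', inv_inv, neg_smul]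
  abel

theorem thm_Dua (hG : St_Gen) (hL : St_Lam) : St_Dua := by
  intro M n r ρ hM hρ w
  obtain ⟨lam, hlam, hlam'⟩ := hL
  have hnorm : ∀ x : ℂ, x ^ M = 1 → ‖x‖ = 1 := fun x hx =>
    Complex.norm_eq_one_of_pow_eq_one hx hM.ne'
  have hstar : ∀ x : ℂ, x ^ M = 1 → star x = x⁻¹ := by
    intro x hx
    have h1 := hnorm x hx
    have h2 : star x * x = 1 := by
      rw [Complex.star_def, Complex.conj_mul', h1]
      norm_num
    exact eq_inv_of_mul_eq_one_left h2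
  let S : Subring (Bool → ℂ) := RingHom.eqLocus (Pi.evalRingHom (fun _ : Bool => ℂ) false)
    (Pi.evalRingHom (fun _ : Bool => ℂ) true)
  have hS : ∀ f : Bool → ℂ, f false = f true → f ∈ S := fun f h => h
  have hsys : Sys S (DUA_rep Bool (DUA_fam ρ)) (std n)
      (fun y _ => (lam r (ρ y))⁻¹) (fun y _ => lam r (ρ y))
      (fun y _ => 1 + ((lam r (ρ y))⁻¹ • (ρ y : Matrix (Fin r) (Fin r) ℂ) - 1).trace)
      (fun y _ => (1 + ((lam r (ρ y))⁻¹ • (ρ y : Matrix (Fin r) (Fin r) ℂ) - 1).trace)⁻¹) := by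
    have hev : ∀ (y : FreeGroup (Fin n)) (β : Bool),
        DUA_ev r β ((fun _ => (lam r (ρ y))⁻¹ : Bool → ℂ) • DUA_rep Bool (DUA_fam ρ) y - 1) =
          (lam r (ρ y))⁻¹ • (DUA_fam ρ β y : Matrix (Fin r) (Fin r) ℂ) - 1 := by
      intro y β
      rw [map_sub, map_one, DUA_smul, DUA_rep_ev]
    have hkey : ∀ L, Pre (std n) L → ∀ y ∈ L,
        (lam r (ρ y))⁻¹ • (DUA_fam ρ true y : Matrix (Fin r) (Fin r) ℂ) - 1 =
          -(1 + ((lam r (ρ y))⁻¹ • (ρ y : Matrix (Fin r) (Fin r) ℂ) - 1).trace) •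
            ((lam r (ρ y))⁻¹ • (ρ y : Matrix (Fin r) (Fin r) ℂ) - 1)ᴴ := by
      intro L hL y hy
      obtain ⟨h1, h2⟩ : PR (ρ y) ∧ _ := ⟨pre_PR hρ.1 hL hy, hρ.2 _ (pre_simple hL hy)⟩
      obtain ⟨h3, h4, h5, h6⟩ := hlam' r (ρ y) h1
      obtain ⟨h7, h8⟩ := h6 M h2
      refine DUA_key (ρ y) h3 (hstar _ h7) h4 (hstar _ h8) ?_
      have := h5 1
      rwa [mul_one] at this
    refine ⟨fun a b => ?_, fun L hL y hy => ?_, fun L hL y hy => ?_, fun L hL y hy => ?_,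
      fun L hL y hy X => ?_, fun L hL => ?_⟩
    · funext β
      simp only [map_mul, map_inv, hlam]
    · exact ⟨hS _ rfl, hS _ rfl, hS _ rfl, hS _ rfl⟩
    · obtain ⟨h1, h2⟩ := (⟨pre_PR hρ.1 hL hy, hρ.2 _ (pre_simple hL hy)⟩ : PR (ρ y) ∧ _)
      obtain ⟨h3, h4, -, -⟩ := hlam' r (ρ y) h1
      exact ⟨funext fun β => inv_mul_cancel₀ h3, funext fun β => mul_inv_cancel₀ h4⟩
    · funext β
      rw [DUA_tr, hev]
      rcases β with _ | _
      · exact (add_sub_cancel_left _ _).symm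
      · rw [hkey L hL y hy]
        obtain ⟨h1, h2⟩ : PR (ρ y) ∧ _ := ⟨pre_PR hρ.1 hL hy, hρ.2 _ (pre_simple hL hy)⟩
        obtain ⟨h3, h4, h5, h6⟩ := hlam' r (ρ y) h1
        obtain ⟨h7, h8⟩ := h6 M h2
        have h9 := hstar _ h8
        set e : Matrix (Fin r) (Fin r) ℂ :=
          (lam r (ρ y))⁻¹ • (ρ y : Matrix (Fin r) (Fin r) ℂ) - 1 with he
        rw [Matrix.trace_smul, Matrix.trace_conjTranspose]
        have h10 : star e.trace = (1 + e.trace)⁻¹ - 1 := by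
          rw [← h9, star_add, star_one]
          ring
        rw [h10]
        show -(1 + e.trace) • ((1 + e.trace)⁻¹ - 1) = 1 + e.trace - 1
        rw [smul_eq_mul]
        field_simp
        ring
    · refine DUA_ext fun β => ?_
      rw [DUA_smul, DUA_tr, map_mul, map_mul, hev]
      obtain ⟨h1, h2⟩ : PR (ρ y) ∧ _ := ⟨pre_PR hρ.1 hL hy, hρ.2 _ (pre_simple hL hy)⟩
      obtain ⟨h3, h4, h5, h6⟩ := hlam' r (ρ y) h1
      rcases β with _ | _
      · exact h5 _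
      · rw [hkey L hL y hy]
        set e : Matrix (Fin r) (Fin r) ℂ :=
          (lam r (ρ y))⁻¹ • (ρ y : Matrix (Fin r) (Fin r) ℂ) - 1 with he
        set Y := DUA_ev r true X
        have h7 := congrArg Matrix.conjTranspose (h5 Yᴴ)
        rw [Matrix.conjTranspose_mul, Matrix.conjTranspose_mul, Matrix.conjTranspose_smul,
          Matrix.conjTranspose_conjTranspose, ← Matrix.trace_conjTranspose,
          Matrix.conjTranspose_mul, Matrix.conjTranspose_conjTranspose] at h7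
        rw [smul_mul_assoc, smul_mul_assoc, mul_smul_comm, Matrix.trace_smul, smul_smul, smul_smul,
          mul_assoc, h7, Matrix.trace_mul_comm, smul_smul, smul_eq_mul]
        congr 1
        ring
    · apply hS
      rw [DUA_tr, DUA_tr, DUA_rep_ev, DUA_rep_ev]
      show (ρ L.prod : Matrix (Fin r) (Fin r) ℂ).trace =
        (((ρ L.prod)⁻¹ : GL (Fin r) ℂ) : Matrix (Fin r) (Fin r) ℂ)ᴴ.trace
      rw [Matrix.trace_conjTranspose, trace_inv (ρ L.prod) fun x hx =>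
        hnorm x (hρ.2 _ (pre_prod hL) x hx), star_star]
  have h1 := hG (Bool → ℂ) (FreeGroup (Fin n)) r S _ (std n) _ _ _ _ hsys w (by
    rw [closure_std]
    exact Subgroup.mem_top w)
  have h2 : (DUA_rep Bool (DUA_fam ρ) w).trace false = (DUA_rep Bool (DUA_fam ρ) w).trace true := h1
  rw [DUA_tr, DUA_tr, DUA_rep_ev, DUA_rep_ev] at h2
  have h3 : (ρ w : Matrix (Fin r) (Fin r) ℂ).trace =
      (((ρ w)⁻¹ : GL (Fin r) ℂ) : Matrix (Fin r) (Fin r) ℂ)ᴴ.trace := h2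
  rw [h3, Matrix.trace_conjTranspose, star_star, map_inv]

end Pool.Agent.PRS
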