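import Pool.Agent.HZ.RedA
import Pool.Agent.HZ.RedB
import Pool.Agent.HZ.Stm2

/-!
# Systems of pseudo-reflections: definitions and statements

Helper20, for MP_0707f5_ag.  A representation `ρ` of the free group on `x_1, ..., x_n` such that all
`ρ x_i` are scalar multiples of pseudo-reflections.  The statements `St_X` are the modules; the
proofs are in the docstrings and in the paper `GC_PR_h20.md` of the store.
-/

set_option autoImplicit false

namespace Pool.Agent.PRS

open Matrix Pool.Agent.HZ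
open scoped ComplexOrder

/-- a scalar multiple of a pseudo-reflection (or a scalar) -/
def PR {r : ℕ} (g : GL (Fin r) ℂ) : Prop :=
  ∃ c : ℂ, ((g : Matrix (Fin r) (Fin r) ℂ) - c • (1 : Matrix (Fin r) (Fin r) ℂ)).rank ≤ 1

/-- The hypotheses of the generation theorem, over a commutative ring `R` with a subring `S`:
`L₀` is a list of elements of a group `G`, `ρ` a representation over `R`, the images of the
entries `y` of the lists in the braid orbit of `L₀` are `c' y` times `1 + e y` with `e y` of rank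
one, `e y = c y • ρ y - 1`, the constants and the traces of the simple loops are in `S`. -/
structure Sys {R : Type} [CommRing R] {G : Type} [Group G] {r : ℕ} (S : Subring R)
    (ρ : G →* Matrix (Fin r) (Fin r) R) (L₀ : List G) (c c' z z' : G → R) : Prop where
  conj : ∀ a b, c (b⁻¹ * a * b) = c a
  mem : ∀ L, Pre L₀ L → ∀ y ∈ L, c y ∈ S ∧ c' y ∈ S ∧ z y ∈ S ∧ z' y ∈ S
  unit : ∀ L, Pre L₀ L → ∀ y ∈ L, c y * c' y = 1 ∧ z y * z' y = 1
  tr : ∀ L, Pre L₀ L → ∀ y ∈ L, (c y • ρ y - 1).trace = z y - 1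
  one : ∀ L, Pre L₀ L → ∀ y ∈ L, ∀ X : Matrix (Fin r) (Fin r) R,
    (c y • ρ y - 1) * X * (c y • ρ y - 1) =
      ((c y • ρ y - 1) * X).trace • (c y • ρ y - 1)
  loops : ∀ L, Pre L₀ L → (ρ L.prod).trace ∈ S

/-- **GEN** (helper20): the traces of the simple loops generate the traces of all elements. -/
def St_Gen : Prop := ∀ (R : Type) [CommRing R] (G : Type) [Group G] (r : ℕ) (S : Subring R)
    (ρ : G →* Matrix (Fin r) (Fin r) R) (L₀ : List G) (c c' z z' : G → R),
    Sys S ρ L₀ c c' z z' → ∀ w ∈ Subgroup.closure {x | x ∈ L₀}, (ρ w).trace ∈ S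

/-- **LAM**.  The scalar `c` of a multiple of a pseudo-reflection, as a class function.
PROOF. `PR g` is invariant under conjugation; choose for every conjugacy class (`ConjClasses`) with
`PR` some `c` with `rank (g - c) ≤ 1` and `c ≠ 0` (if `r ≥ 2` then `c = 0` is impossible because `g`
has rank `r`; if `r = 1` take `c = g 0 0`, if `r = 0` take `c = 1`), and, if `r = 1`, take
`c = g 0 0` always.  Put `e = c⁻¹ g - 1`, rank at most one: `e = u ⊗ f`, so
`e X e = tr (e X) e`.  `z = 1 + tr e` is the determinant of `1 + e = c⁻¹ g` (`det (1 + u ⊗ f) =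
1 + f u`), so `z ≠ 0`.  If all eigenvalues of `g` have `M`-th power `1`: for `r ≥ 2` the kernel of
`g - c` is not zero, so `c` is an eigenvalue; if `z ≠ 1` then `e u = (z - 1) u`, `u ≠ 0`, so
`g u = c z u` and `c z` is an eigenvalue, `z ^ M = 1`.  For `r = 1`, `e = 0` and `z = 1`, `c` is the
eigenvalue. For `r = 0` everything is trivial (`c = 1`, `z = 1`). -/
def St_Lam : Prop := ∃ lam : ∀ r : ℕ, GL (Fin r) ℂ → ℂ,
    (∀ r (g h : GL (Fin r) ℂ), lam r (h⁻¹ * g * h) = lam r g) ∧
    ∀ r (g : GL (Fin r) ℂ), PR g → lam r g ≠ 0 ∧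
      1 + ((lam r g)⁻¹ • (g : Matrix (Fin r) (Fin r) ℂ) - 1).trace ≠ 0 ∧
      (∀ X : Matrix (Fin r) (Fin r) ℂ,
        ((lam r g)⁻¹ • (g : Matrix (Fin r) (Fin r) ℂ) - 1) * X *
          ((lam r g)⁻¹ • (g : Matrix (Fin r) (Fin r) ℂ) - 1) =
        (((lam r g)⁻¹ • (g : Matrix (Fin r) (Fin r) ℂ) - 1) * X).trace •
          ((lam r g)⁻¹ • (g : Matrix (Fin r) (Fin r) ℂ) - 1)) ∧
      ∀ M : ℕ, (∀ x : ℂ, (g : Matrix (Fin r) (Fin r) ℂ).charpoly.IsRoot x → x ^ M = 1) →
        (lam r g) ^ M = 1 ∧
        (1 + ((lam r g)⁻¹ • (g : Matrix (Fin r) (Fin r) ℂ) - 1).trace) ^ M = 1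

/-- the simple loops have eigenvalues with `M`-th power one, and the letters are multiples of
pseudo-reflections -/
def Good (M : ℕ) {n r : ℕ} (ρ : FreeGroup (Fin n) →* GL (Fin r) ℂ) : Prop :=
  (∀ i, PR (ρ (FreeGroup.of i))) ∧
  ∀ γ, IsSimpleLoop γ → ∀ x : ℂ,
    (ρ γ : Matrix (Fin r) (Fin r) ℂ).charpoly.IsRoot x → x ^ M = 1

/-- **CYC**.  All traces are cyclotomic integers.
PROOF. `St_Gen` with `R = ℂ`, `G = FreeGroup (Fin n)`, `L₀ = std n`,
`S = (Algebra.adjoin ℤ {x | x ^ M = 1}).toSubring`, `c y = (lam (ρ y))⁻¹`, `c' y = lam (ρ y)`,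
`z y = 1 + tr (c y • ρ y - 1)`, `z' = z⁻¹` (roots of unity: `x⁻¹ = x ^ (M - 1)`).  Entries of lists
with `Pre (std n) L` are conjugates of generators, so `PR`; they are simple loops (`Pre.sublist` for
the list `[y]`), and so are the products `L.prod`; a trace is the sum of the eigenvalues
(`Matrix.trace_eq_sum_roots_charpoly`). `closure_std` : the generators generate. -/
def St_Cyc : Prop := ∀ (M n r : ℕ) (ρ : FreeGroup (Fin n) →* GL (Fin r) ℂ), 0 < M → Good M ρ →
    ∀ w, (ρ w : Matrix (Fin r) (Fin r) ℂ).trace ∈ Algebra.adjoin ℤ {x : ℂ | x ^ M = 1}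

/-- **DUA**.  The character is equal to the character of the conjugate dual.
PROOF. `St_Gen` with `R = ℂ × ℂ`, `S` = the pairs `(a, a)`, and the representation
`(ρ y, conj (ρ y⁻¹)ᵀ)` (entries in `ℂ × ℂ`), `c y = (b⁻¹, b⁻¹)` with `b = lam (ρ y)` a root of
unity, so that `conj b⁻¹ = b`: the second component of `c y • ρ' y - 1` is
`e* = b⁻¹ • conj (ρ y⁻¹)ᵀ - 1`; since `(1 + e)⁻¹ = 1 - z⁻¹ e`, it is `- z (conj e)ᵀ`, rank one
identity and trace `- z conj (z - 1) = z - 1` since `conj z = z⁻¹`.  Simple loops: the trace of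
`ρ γ⁻¹` is the sum of the inverses `= ` conjugates of the eigenvalues. -/
def St_Dua : Prop := ∀ (M n r : ℕ) (ρ : FreeGroup (Fin n) →* GL (Fin r) ℂ), 0 < M → Good M ρ →
    ∀ w, (ρ w⁻¹ : Matrix (Fin r) (Fin r) ℂ).trace =
      star (ρ w : Matrix (Fin r) (Fin r) ℂ).trace

/-- **ORB**.  The orbit of the character is finite.
PROOF. `St_Gen` with `R` = functions on `Ω = {β // IsBraid β}` with values in `ℂ`, `S` = the
functions with finite range, `ρ' y = fun β => ρ (β y)` (entrywise), `c y = fun β => (lam (ρ (β y)))⁻¹`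
etc. (values: `M`-th roots of unity and their inverses).  If `Pre (std n) L` then
`Pre (std n) (L.map β)`, so `(L.map β).prod` is a simple loop and its trace is in the finite set
`finite_traces_of_roots`.  So for every `w` the function `β ↦ tr ρ (β w)` has finite range.  Then
`exists_words` (HZ/RedC; the character is determined by finitely many words) gives `FinOrb`. -/
def St_Orb : Prop := ∀ (M n r : ℕ) (ρ : FreeGroup (Fin n) →* GL (Fin r) ℂ), 0 < M → Good M ρ →
    FinOrb ρ

/-- **HER**.  An irreducible group with `tr g⁻¹ = conj (tr g)` preserves a nondegenerate Hermitian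
form.
PROOF. `Γ` spans `M_r(ℂ)` (`Helper7.burnside`; see HZ/Kol.lean for the use with Schur's lemma).  The
linear map `Θ` with `Θ g = (g⁻¹)ᴴ` for `g ∈ Γ` is well defined: if `∑ a_g g = 0` then for all `h`,
`tr (∑ a_g (g⁻¹)ᴴ (h⁻¹)ᴴ) = ∑ a_g conj (tr (g h)⁻¹) = ∑ a_g tr (g h) = 0`, and the `(h⁻¹)ᴴ` span
`M_r(ℂ)` too.  `Θ` is an algebra automorphism of `M_r(ℂ)`, so `Θ X = P X P⁻¹`
(Skolem-Noether: `AlgEquiv.eq_linearEquivConjAlgEquiv` in
Mathlib/LinearAlgebra/GeneralLinearGroup/AlgEquiv), so `gᴴ P g = P`.  `P + Pᴴ` and `i (P - Pᴴ)` are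
Hermitian and invariant, not both zero; the kernel of an invariant matrix is stable, so a nonzero
one is invertible. -/
def St_Her : Prop := ∀ (r : ℕ) (Γ : Subgroup (GL (Fin r) ℂ)), 0 < r → Irr Γ →
    (∀ g ∈ Γ, ((g⁻¹ : GL (Fin r) ℂ) : Matrix (Fin r) (Fin r) ℂ).trace =
      star (g : Matrix (Fin r) (Fin r) ℂ).trace) →
    ∃ H : Matrix (Fin r) (Fin r) ℂ, H.IsHermitian ∧ IsUnit H ∧
      ∀ g ∈ Γ, (g : Matrix (Fin r) (Fin r) ℂ)ᴴ * H * (g : Matrix (Fin r) (Fin r) ℂ) = H

/-- **POS**.  The invariant Hermitian form is definite.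
`L` is a list of multiples of pseudo-reflections which generate an irreducible group preserving the
nondegenerate Hermitian matrix `H`, such that for every sublist `A ++ [y]` of `L` the group generated
by `A.prod` and `y` is finite.
PROOF. Write `y_i = b_i (1 + u_i ⊗ f_i)` for the entries of `L`, `I` = the set of `i` with
`y_i` not scalar (so `u_i, f_i ≠ 0`), `h (v, w) = star v ⬝ᵥ H *ᵥ w`.  If `I` is empty then `r = 1`
by irreducibility (every line is stable) and a nonzero real `1 × 1` matrix is definite.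
(0) `y_i` has finite order, `|b_i| = 1` (if `r ≥ 2`, `b_i` is an eigenvalue) and `f_i u_i ≠ 0`
(otherwise `(1 + e)^N = 1 + N e`, not scalar).  For an invariant Hermitian form `g` (`H` or any
other) `g (u_i, w) = 0` for `w ∈ ker f_i`: `g (y v, y w) = g (v, w)` with `y w = b w`,
`y v = b (v + f v u)` gives `conj (f v) g (u, w) = 0`.  So `g (u_i, .) = k f_i`.
(1) The `u_i`, `i ∈ I`, span `ℂ^r` (their span is stable and not zero).  `h (u_i, u_i) ≠ 0`, since
`h (u_i, .) = k f_i`, `k ≠ 0` by nondegeneracy and `f_i u_i ≠ 0`.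
(2) Let `A ++ [y_k]` be a sublist, `K` the finite group generated by `A.prod` and `y_k`, `h'` the sum
of the `gᴴ g`, `g ∈ K`: positive definite and `K`-invariant.  `h (u_k, .)` and `h' (u_k, .)` are both
nonzero multiples of `f_k`, so `h (u_k, .) = s h' (u_k, .)`, and by invariance
`h (g u_k, .) = s h' (g u_k, .)` for all `g ∈ K`, hence `h (w, .) = s h' (w, .)` for `w` in the span
`W` of the `g u_k`; `s` is real, `s = h(u_k,u_k) / h'(u_k,u_k)`.  So `h (w, w)` has the sign of
`h (u_k, u_k)` for `0 ≠ w ∈ W`.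
(3) `i < k`, `f_i u_k ≠ 0`: with `A = [y_i]`, `y_i u_k = b_i (u_k + (f_i u_k) u_i)`, so `u_i ∈ W`: the
signs of `h (u_i, u_i)` and `h (u_k, u_k)` agree.  (`f_i u_k ≠ 0 ↔ h (u_i, u_k) ≠ 0 ↔ f_k u_i ≠ 0`.)
If both signs occur, the span of the `u_i` with sign `+` is stable under all `y_j` and orthogonal to
the `u_j` with sign `-`: contradiction with irreducibility and nondegeneracy.  So, after replacing
`H` by `-H`, all `h (u_i, u_i) > 0`.
(4) For `J ⊆ I` the form `h` is positive definite on `V_J = span (u_j, j ∈ J)`, by induction on `J`: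
`J = J' ∪ {k}`, `k = max J`.  Choose `J'' ⊆ J'` such that the `u_j`, `j ∈ J''`, are a basis of
`V_J'` and let `A` be the list of the `y_j`, `j ∈ J''`; `c = A.prod / b`, `b` the product of the
scalars.  `ℂ^r = V_J' ⊕ V_J'^⊥`, `u_k = v + v'`.  `c v' = v'` since `f_j v' = 0`.  `c` has no fixed
vector in `V_J'` but `0`: if `c w = w` then, by the independence of the `u_j`, `f_j w = 0` for
`j ∈ J''` (`c w - w = ∑ g_j u_j`, the last coefficient is `f_last w`, and so on), so `w ⊥ V_J'`.  If
`v' ≠ 0` then `c` has finite order `m` (`A.prod` has finite order and acts on `v'` by `b`), so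
`∑_{t < m} c^t u_k = m v' + ∑ c^t v` and the last sum is a fixed vector in `V_J'`, so zero.  So
`v' ∈ W` (of (2)) and `h (v', v') > 0`; `V_J = V_J' ⊕ ℂ v'`. -/
def St_Pos : Prop := ∀ (r : ℕ) (L : List (GL (Fin r) ℂ)) (H : Matrix (Fin r) (Fin r) ℂ), 0 < r →
    Irr (Subgroup.closure {x | x ∈ L}) → (∀ y ∈ L, PR y) →
    (∀ (A : List (GL (Fin r) ℂ)) (y : GL (Fin r) ℂ), (A ++ [y]).Sublist L →
      Finite (Subgroup.closure {A.prod, y} : Subgroup (GL (Fin r) ℂ))) →
    H.IsHermitian → IsUnit H →
    (∀ y ∈ L, (y : Matrix (Fin r) (Fin r) ℂ)ᴴ * H * (y : Matrix (Fin r) (Fin r) ℂ) = H) →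
    ∃ s : ℝ, ((s : ℂ) • H).PosDef

/-- **UNI**.  Eigenvalues of a matrix preserving a positive definite Hermitian form have absolute
value one (`h (v, v) = |z|² h (v, v)`), and the trace, the sum of the eigenvalues, is at most `r` in
absolute value. -/
def St_Uni : Prop := ∀ (r : ℕ) (H g : Matrix (Fin r) (Fin r) ℂ), H.PosDef → gᴴ * H * g = H →
    ‖g.trace‖ ≤ r

/-- **KRO**.  Cyclotomic integers all conjugates of which are bounded: finitely many.
PROOF. `K = CyclotomicField M ℚ` or the subfield of `ℂ` generated by the `M`-th roots of unity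
(`IntermediateField.adjoin ℚ {x | x ^ M = 1}`, finite dimensional over `ℚ`); an element of
`Algebra.adjoin ℤ {x | x ^ M = 1}` is an algebraic integer of `K`; every embedding `K → ℂ` extends to
an automorphism of `ℂ` (Helper12/ScAuts has `exists_aut` and similar; or: the roots of the minimal
polynomial of an algebraic number `x` are the `σ x`, `σ ∈ Aut ℂ`, so its coefficients are bounded).
`NumberField.Embeddings.finite_of_norm_le`. -/
def St_Kro : Prop := ∀ (M : ℕ) (B : ℝ), 0 < M →
    {x : ℂ | x ∈ Algebra.adjoin ℤ {x : ℂ | x ^ M = 1} ∧ ∀ σ : RingAut ℂ, ‖σ x‖ ≤ B}.Finite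

/-- **TRA**.  A matrix the powers of which have finitely many traces has only roots of unity (and
zero) as eigenvalues.
PROOF. The sequence `s k = tr (g ^ k)` satisfies the linear recurrence of the characteristic
polynomial, so there are `k₀` and `P > 0` with `s (k + P) = s k` for `k ≥ k₀` (pigeonhole for the
vectors `(s k, ..., s (k + r - 1))`).  So `tr (q(g) g^k₀ (g^P - 1)) = 0` for all polynomials `q`.  If
`x` is an eigenvalue with `x^k₀ (x^P - 1) ≠ 0`, take `q` such that `q(g)` is the projection on the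
generalised eigenspace of `x` times the inverse of `g^k₀ (g^P - 1)` there (compare `root_of_traces`
in HZ/RedB): its trace is the multiplicity of `x`, not zero. -/
def St_Tra : Prop := ∀ (r : ℕ) (g : Matrix (Fin r) (Fin r) ℂ),
    {t : ℂ | ∃ k : ℕ, t = (g ^ k).trace}.Finite →
    ∀ x : ℂ, g.charpoly.IsRoot x → x ≠ 0 → ∃ k > 0, x ^ k = 1

/-- the hypothesis of part (b), for a general representation: the restriction to every pair of pants
one hole of which is one puncture has finite image -/
def Pants {F : Type} [Group F] (L₀ : List F) {V : Type} [AddCommGroup V] [Module ℂ V]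
    (σ : Representation ℂ F V) : Prop :=
  ∀ (A B : List F) (y : F), BReach L₀ (A ++ y :: B) →
    (σ '' (Subgroup.closure {A.prod, y} : Subgroup F)).Finite

/-- **IRR**.  Part (b) for irreducible representations by matrices.
PROOF. `Pants` gives `Good M` with `M = ` a common exponent (`exists_exponent` for `ρ.range`; simple
loops have finite order: `A ++ B` in the orbit, `A = A' ++ [y]`, the product is in the finite group;
`A = []` is trivial).  `St_Dua` and `St_Her` give `H`, `St_Pos` (for `L = (std n).map ρ`; a sublist of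
`std n` is a beginning, `Pre.sublist`) the definiteness.  The same for `σ ∘ ρ`, `σ ∈ Aut ℂ`
(`GL.map`; irreducibility, `PR` and finiteness are preserved), so by `St_Uni` all conjugates of
`tr ρ w` are at most `r`, by `St_Cyc` and `St_Kro` finitely many traces, `St_Tra` for the powers of
`ρ w`. -/
def St_Irr : Prop := ∀ (n r : ℕ) (ρ : FreeGroup (Fin n) →* GL (Fin r) ℂ), 0 < r →
    Irr ρ.range → (∀ i, PR (ρ (FreeGroup.of i))) →
    (∀ (A B : List (FreeGroup (Fin n))) (y : FreeGroup (Fin n)), BReach (std n) (A ++ y :: B) →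
      (ρ '' (Subgroup.closure {A.prod, y} : Subgroup (FreeGroup (Fin n)))).Finite) →
    ∀ w, Quasi (ρ w)

/-- **RED**.  Part (b) for all representations from the irreducible ones.
PROOF. Strong induction on the dimension for `Representation ℂ (FreeGroup (Fin n)) V` (as in
`exists_css`, HZ/RedS): if `V` is irreducible choose a basis and use `St_Irr`, otherwise there is a
stable subspace `W`, and all hypotheses (multiples of pseudo-reflections: `range (σ y - c)` has
dimension at most one; finiteness of images) pass to `W` and `V ⧸ W`; an eigenvalue on `V` is an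
eigenvalue on `W` or on `V ⧸ W`. -/
def St_Red : Prop := St_Irr → ∀ (n r : ℕ) (ρ : FreeGroup (Fin n) →* GL (Fin r) ℂ),
    (∀ i, PR (ρ (FreeGroup.of i))) →
    (∀ (A B : List (FreeGroup (Fin n))) (y : FreeGroup (Fin n)), BReach (std n) (A ++ y :: B) →
      (ρ '' (Subgroup.closure {A.prod, y} : Subgroup (FreeGroup (Fin n)))).Finite) →
    ∀ w, Quasi (ρ w)

end Pool.Agent.PRS
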