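import Pool.Agent.PRS.Defs

/-!
# Entries of lists in the braid group orbit
-/

set_option autoImplicit false

namespace Pool.Agent.PRS

open Matrix Pool.Agent.HZ

theorem move_conj {G : Type*} [Group G] {L L' : List G} (h : BMove L L') :
    ∀ y ∈ L', ∃ x ∈ L, ∃ g : G, y = g⁻¹ * x * g := by
  cases h with
  | r P S a b =>
    intro y hy
    simp only [List.mem_append, List.mem_cons] at hy
    rcases hy with hy | rfl | rfl | hy
    · exact ⟨y, by simp [hy], 1, by group⟩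
    · exact ⟨y, by simp, 1, by group⟩
    · exact ⟨a, by simp, b, rfl⟩
    · exact ⟨y, by simp [hy], 1, by group⟩
  | l P S a b =>
    intro y hy
    simp only [List.mem_append, List.mem_cons] at hy
    rcases hy with hy | rfl | rfl | hy
    · exact ⟨y, by simp [hy], 1, by group⟩
    · exact ⟨b, by simp, a⁻¹, by group⟩
    · exact ⟨y, by simp, 1, by group⟩
    · exact ⟨y, by simp [hy], 1, by group⟩

theorem reach_conj {G : Type*} [Group G] {L L' : List G} (h : BReach L L') :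
    ∀ y ∈ L', ∃ x ∈ L, ∃ g : G, y = g⁻¹ * x * g := by
  induction h with
  | refl => exact fun y hy => ⟨y, hy, 1, by group⟩
  | tail _ hs ih =>
    intro y hy
    obtain ⟨x, hx, g, rfl⟩ := move_conj hs y hy
    obtain ⟨u, hu, k, rfl⟩ := ih x hx
    exact ⟨u, hu, k * g, by group⟩

theorem pre_conj {G : Type*} [Group G] {L L' : List G} (h : Pre L L') :
    ∀ y ∈ L', ∃ x ∈ L, ∃ g : G, y = g⁻¹ * x * g := by
  obtain ⟨B, hB⟩ := h
  exact fun y hy => reach_conj hB y (List.mem_append_left B hy)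

theorem pre_simple {n : ℕ} {L : List (FreeGroup (Fin n))} (h : Pre (std n) L)
    {y : FreeGroup (Fin n)} (hy : y ∈ L) : IsSimpleLoop y := by
  have h1 : Pre (std n) [y] := h.trans (Pre.sublist (List.singleton_sublist.2 hy))
  exact (loop_iff _ _).2 ⟨[y], h1, List.prod_singleton⟩

theorem pre_prod {n : ℕ} {L : List (FreeGroup (Fin n))} (h : Pre (std n) L) :
    IsSimpleLoop L.prod := (loop_iff _ _).2 ⟨L, h, rfl⟩

theorem PR.conj {r : ℕ} {g : GL (Fin r) ℂ} (hg : PR g) (h : GL (Fin r) ℂ) :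
    PR (h⁻¹ * g * h) := by
  obtain ⟨c, hc⟩ := hg
  refine ⟨c, ?_⟩
  have e : ((h⁻¹ * g * h : GL (Fin r) ℂ) : Matrix (Fin r) (Fin r) ℂ) -
      c • (1 : Matrix (Fin r) (Fin r) ℂ) =
      ((h⁻¹ : GL (Fin r) ℂ) : Matrix (Fin r) (Fin r) ℂ) *
        ((g : Matrix (Fin r) (Fin r) ℂ) - c • (1 : Matrix (Fin r) (Fin r) ℂ)) *
        (h : Matrix (Fin r) (Fin r) ℂ) := by
    have h1 : ((h⁻¹ : GL (Fin r) ℂ) : Matrix (Fin r) (Fin r) ℂ) *
        (h : Matrix (Fin r) (Fin r) ℂ) = 1 := by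
      rw [← Units.val_mul, inv_mul_cancel, Units.val_one]
    rw [mul_sub, sub_mul, mul_smul_comm, mul_one, smul_mul_assoc, h1, Units.val_mul, Units.val_mul]
  rw [e]
  exact (Matrix.rank_mul_le_left _ _).trans ((Matrix.rank_mul_le_right _ _).trans hc)

theorem pre_PR {n r : ℕ} {ρ : FreeGroup (Fin n) →* GL (Fin r) ℂ}
    (hρ : ∀ i, PR (ρ (FreeGroup.of i))) {L : List (FreeGroup (Fin n))} (h : Pre (std n) L)
    {y : FreeGroup (Fin n)} (hy : y ∈ L) : PR (ρ y) := by
  obtain ⟨x, hx, g, rfl⟩ := pre_conj h y hy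
  obtain ⟨i, -, rfl⟩ := List.mem_map.1 hx
  rw [map_mul, map_mul, map_inv]
  exact (hρ i).conj _

theorem trace_mem {r : ℕ} (U : Matrix (Fin r) (Fin r) ℂ) (S : Subring ℂ)
    (h : ∀ x : ℂ, U.charpoly.IsRoot x → x ∈ S) : U.trace ∈ S := by
  rw [Matrix.trace_eq_sum_roots_charpoly]
  exact multiset_sum_mem _ fun x hx => h x (Polynomial.isRoot_of_mem_roots hx)

end Pool.Agent.PRS
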