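import Pool.Agent.PRS.Rk
import Pool.Agent.HZ.RedE

/-!
# Irreducible systems of pseudo-reflections

`thm_Irr`: if the restrictions to the pairs of pants are finite, then all eigenvalues are roots of
unity.
-/

set_option autoImplicit false

namespace Pool.Agent.PRS

open Matrix Pool.Agent.HZ
open scoped ComplexOrder

variable {n r : ℕ}

/-- the hypothesis on pairs of pants for a representation of the free group by matrices -/
def PantsM (ρ : FreeGroup (Fin n) →* GL (Fin r) ℂ) : Prop :=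
  ∀ (A B : List (FreeGroup (Fin n))) (y : FreeGroup (Fin n)), BReach (std n) (A ++ y :: B) →
    (ρ '' (Subgroup.closure {A.prod, y} : Subgroup (FreeGroup (Fin n)))).Finite

theorem finite_closure (ρ : FreeGroup (Fin n) →* GL (Fin r) ℂ) (a y : FreeGroup (Fin n))
    (h : (ρ '' (Subgroup.closure {a, y} : Subgroup (FreeGroup (Fin n)))).Finite) :
    Finite (Subgroup.closure {ρ a, ρ y} : Subgroup (GL (Fin r) ℂ)) := by
  have h1 : (Subgroup.closure {ρ a, ρ y} : Subgroup (GL (Fin r) ℂ)) =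
      (Subgroup.closure {a, y}).map ρ := by
    rw [MonoidHom.map_closure, Set.image_pair]
  rw [h1]
  exact h

/-- elements of finite image have finite order -/
theorem quasi_of_finite (g : GL (Fin r) ℂ) (T : Set (GL (Fin r) ℂ)) (hT : T.Finite)
    (h : ∀ k : ℕ, g ^ k ∈ T) : ∀ z : ℂ, (g : Matrix (Fin r) (Fin r) ℂ).charpoly.IsRoot z →
      ∃ k > 0, z ^ k = 1 := by
  intro z hz
  obtain ⟨a, -, b, -, hab, he⟩ := Set.infinite_univ.exists_lt_map_eq_of_mapsTo
    (f := fun k : ℕ => g ^ k) (t := T) (fun k _ => h k) hT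
  refine ⟨b - a, by omega, ?_⟩
  have h1 : g ^ (b - a) = 1 := by
    have h2 : g ^ a * g ^ (b - a) = g ^ a := by
      rw [← pow_add, Nat.add_sub_cancel' hab.le]
      exact he.symm
    exact mul_eq_left.1 h2
  have h2 : (g : Matrix (Fin r) (Fin r) ℂ) ^ (b - a) = (1 : Matrix (Fin r) (Fin r) ℂ) ^ (b - a) := by
    rw [← Units.val_pow_eq_pow_val, h1, one_pow, Units.val_one]
  obtain ⟨y, hy, hzy⟩ := root_of_pow _ _ (b - a) (by omega) h2 z hz
  have h3 : y = 1 := by
    rw [Matrix.charpoly_one, Polynomial.IsRoot.def, Polynomial.eval_pow, Polynomial.eval_sub,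
      Polynomial.eval_X, Polynomial.eval_one] at hy
    exact sub_eq_zero.1 (eq_zero_of_pow_eq_zero hy)
  rw [hzy, h3, one_pow]

/-- simple loops have only roots of unity as eigenvalues -/
theorem quasi_loop (ρ : FreeGroup (Fin n) →* GL (Fin r) ℂ) (hp : PantsM ρ)
    (γ : FreeGroup (Fin n)) (hγ : IsSimpleLoop γ) : Quasi (ρ γ) := by
  obtain ⟨A, B, hAB, rfl⟩ := hγ
  induction A using List.reverseRecOn with
  | nil =>
    refine quasi_of_finite _ {1} (Set.finite_singleton _) ?_
    intro k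
    simp
  | append_singleton A y _ =>
    have h1 := hp A B y (by simpa using hAB)
    refine quasi_of_finite _ _ h1 ?_
    intro k
    refine ⟨(A ++ [y]).prod ^ k, ?_, by rw [map_pow]⟩
    refine Subgroup.pow_mem _ ?_ k
    rw [List.prod_append, List.prod_singleton]
    exact Subgroup.mul_mem _ (Subgroup.subset_closure (by simp))
      (Subgroup.subset_closure (by simp))

theorem good_of_pants (ρ : FreeGroup (Fin n) →* GL (Fin r) ℂ)
    (hpr : ∀ i, PR (ρ (FreeGroup.of i))) (hp : PantsM ρ) : ∃ M > 0, Good M ρ := by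
  obtain ⟨M, hM, hexp⟩ := exists_exponent ρ.range (range_fg ρ)
  exact ⟨M, hM, hpr, fun γ hγ x hx => hexp _ ⟨γ, rfl⟩ x hx (quasi_loop ρ hp γ hγ x hx)⟩

theorem range_eq (ρ : FreeGroup (Fin n) →* GL (Fin r) ℂ) :
    Subgroup.closure {x | x ∈ (std n).map ρ} = ρ.range := by
  have h1 : {x | x ∈ (std n).map ρ} = ρ '' {x | x ∈ std n} := by
    ext x
    simp
  rw [h1, ← MonoidHom.map_closure, closure_std, MonoidHom.range_eq_map]

/-- the traces are bounded by the rank -/
theorem trace_le (hD : St_Dua) (hH : St_Her) (hP : St_Pos) (hU : St_Uni)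
    (ρ : FreeGroup (Fin n) →* GL (Fin r) ℂ) (hr : 0 < r) (hirr : Irr ρ.range)
    (hpr : ∀ i, PR (ρ (FreeGroup.of i))) (hp : PantsM ρ) (w : FreeGroup (Fin n)) :
    ‖(ρ w : Matrix (Fin r) (Fin r) ℂ).trace‖ ≤ r := by
  obtain ⟨M, hM, hgood⟩ := good_of_pants ρ hpr hp
  obtain ⟨H, hH1, hH2, hH3⟩ := hH r ρ.range hr hirr (by
    rintro _ ⟨x, rfl⟩
    rw [← map_inv]
    exact hD M n r ρ hM hgood x)
  obtain ⟨s, hs⟩ := hP r ((std n).map ρ) H hr (by rw [range_eq]; exact hirr) (by
    intro y hy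
    obtain ⟨y', hy', rfl⟩ := List.mem_map.1 hy
    exact PR_std ρ hpr y' hy') (by
    intro A y hA
    obtain ⟨L', hL', e⟩ := List.sublist_map_iff.1 hA
    have e' := e.symm
    rw [List.map_eq_append_iff] at e'
    obtain ⟨A', y', rfl, rfl, e2⟩ := e'
    rw [List.map_eq_singleton_iff] at e2
    obtain ⟨y'', rfl, rfl⟩ := e2
    obtain ⟨B, hB⟩ := Pre.sublist hL'
    have h1 := hp A' B y'' (by simpa using hB)
    have h2 := finite_closure ρ A'.prod y'' h1
    rwa [map_list_prod] at h2) hH1 hH2 (by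
    intro y hy
    refine hH3 y ?_
    rw [← range_eq]
    exact Subgroup.subset_closure hy)
  refine hU r ((s : ℂ) • H) _ hs ?_
  rw [mul_smul_comm, smul_mul_assoc, hH3 _ ⟨w, rfl⟩]

/-! ### Galois conjugates -/

/-- the conjugate of a representation by an automorphism of the field -/
noncomputable def gal (σ : RingAut ℂ) (ρ : FreeGroup (Fin n) →* GL (Fin r) ℂ) :
    FreeGroup (Fin n) →* GL (Fin r) ℂ :=
  (GeneralLinearGroup.map (σ : ℂ →+* ℂ)).comp ρ

theorem gal_coe (σ : RingAut ℂ) (ρ : FreeGroup (Fin n) →* GL (Fin r) ℂ) (w : FreeGroup (Fin n)) :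
    (gal σ ρ w : Matrix (Fin r) (Fin r) ℂ) = (ρ w : Matrix (Fin r) (Fin r) ℂ).map σ := rfl

theorem gal_trace (σ : RingAut ℂ) (ρ : FreeGroup (Fin n) →* GL (Fin r) ℂ)
    (w : FreeGroup (Fin n)) : (gal σ ρ w : Matrix (Fin r) (Fin r) ℂ).trace =
      σ (ρ w : Matrix (Fin r) (Fin r) ℂ).trace := by
  rw [gal_coe]
  simp only [trace, map_sum, diag_apply, map_apply]

theorem gal_PR (σ : RingAut ℂ) (ρ : FreeGroup (Fin n) →* GL (Fin r) ℂ) (w : FreeGroup (Fin n))
    (h : PR (ρ w)) : PR (gal σ ρ w) := by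
  rw [PR_iff] at h ⊢
  obtain ⟨c, u, f, e⟩ := h
  refine ⟨σ c, fun i => σ (u i), fun i => σ (f i), ?_⟩
  rw [gal_coe, e]
  ext i j
  simp only [Matrix.map_apply, Matrix.add_apply, Matrix.smul_apply, smul_eq_mul, vecMulVec_apply,
    map_add, map_mul]
  by_cases hij : i = j
  · subst hij
    simp
  · simp [one_apply_ne hij]

theorem gal_pants (σ : RingAut ℂ) (ρ : FreeGroup (Fin n) →* GL (Fin r) ℂ) (h : PantsM ρ) :
    PantsM (gal σ ρ) := by
  intro A B y hy
  have h1 := (h A B y hy).image (GeneralLinearGroup.map (n := Fin r) (σ : ℂ →+* ℂ))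
  rw [← Set.image_comp] at h1
  exact h1

theorem gal_irr (σ : RingAut ℂ) (ρ : FreeGroup (Fin n) →* GL (Fin r) ℂ) (h : Irr ρ.range) :
    Irr (gal σ ρ).range := by
  intro W hW
  let W' : Submodule ℂ (Fin r → ℂ) :=
    { carrier := {v | (fun i => σ (v i)) ∈ W}
      add_mem' := by
        intro a b ha hb
        have h1 := W.add_mem ha hb
        have h2 : (fun i => σ ((a + b) i)) = (fun i => σ (a i)) + fun i => σ (b i) := by
          funext i
          simp
        change (fun i => σ ((a + b) i)) ∈ W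
        rw [h2]
        exact h1
      zero_mem' := by
        have h2 : (fun i => σ ((0 : Fin r → ℂ) i)) = 0 := by
          funext i
          simp
        change (fun i => σ ((0 : Fin r → ℂ) i)) ∈ W
        rw [h2]
        exact W.zero_mem
      smul_mem' := by
        intro c a ha
        have h1 := W.smul_mem (σ c) ha
        have h2 : (fun i => σ ((c • a) i)) = σ c • fun i => σ (a i) := by
          funext i
          simp
        change (fun i => σ ((c • a) i)) ∈ W
        rw [h2]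
        exact h1 }
  have hW' : Stab ρ.range W' := by
    rintro _ ⟨x, rfl⟩ v hv
    have h1 := hW (gal σ ρ x) ⟨x, rfl⟩ _ hv
    have h2 : (fun i => σ (((ρ x : Matrix (Fin r) (Fin r) ℂ) *ᵥ v) i)) =
        (gal σ ρ x : Matrix (Fin r) (Fin r) ℂ) *ᵥ fun i => σ (v i) := by
      funext i
      rw [gal_coe]
      simp only [mulVec, dotProduct, map_sum, map_mul, map_apply]
    change (fun i => σ (((ρ x : Matrix (Fin r) (Fin r) ℂ) *ᵥ v) i)) ∈ W
    rw [h2]
    exact h1
  have hsurj : ∀ v : Fin r → ℂ, (fun i => σ (σ.symm (v i))) = v := by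
    intro v
    funext i
    exact σ.apply_symm_apply (v i)
  rcases h W' hW' with h1 | h1
  · left
    rw [eq_bot_iff]
    intro v hv
    have h2 : (fun i => σ.symm (v i)) ∈ W' := by
      change (fun i => σ (σ.symm (v i))) ∈ W
      rw [hsurj]
      exact hv
    rw [h1, Submodule.mem_bot] at h2
    rw [Submodule.mem_bot, ← hsurj v]
    funext i
    have h3 := congrFun h2 i
    simp only [Pi.zero_apply] at h3
    rw [h3]
    simp
  · right
    rw [eq_top_iff]
    intro v _
    have h2 : (fun i => σ.symm (v i)) ∈ W' := by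
      rw [h1]
      trivial
    have h3 : (fun i => σ (σ.symm (v i))) ∈ W := h2
    rwa [hsurj] at h3

theorem thm_Irr (hC : St_Cyc) (hD : St_Dua) (hH : St_Her) (hP : St_Pos) (hU : St_Uni)
    (hK : St_Kro) (hT : St_Tra) : St_Irr := by
  intro n r ρ hr hirr hpr hp w
  have hp' : PantsM ρ := hp
  obtain ⟨M, hM, hgood⟩ := good_of_pants ρ hpr hp'
  have hfin := hK M r hM
  have hmem : ∀ v : FreeGroup (Fin n), (ρ v : Matrix (Fin r) (Fin r) ℂ).trace ∈
      {x : ℂ | x ∈ Algebra.adjoin ℤ {x : ℂ | x ^ M = 1} ∧ ∀ σ : RingAut ℂ, ‖σ x‖ ≤ (r : ℝ)} := by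
    intro v
    refine ⟨hC M n r ρ hM hgood v, fun σ => ?_⟩
    rw [← gal_trace]
    exact trace_le hD hH hP hU (gal σ ρ) hr (gal_irr σ ρ hirr) (fun i => gal_PR σ ρ _ (hpr i))
      (gal_pants σ ρ hp') v
  have h1 := hT r (ρ w : Matrix (Fin r) (Fin r) ℂ) (hfin.subset (by
    rintro t ⟨k, rfl⟩
    have h2 := hmem (w ^ k)
    rwa [map_pow, Units.val_pow_eq_pow_val] at h2))
  intro z hz
  refine h1 z hz ?_
  rintro rfl
  have h2 : (0 : ℂ) ∈ spectrum ℂ (ρ w : Matrix (Fin r) (Fin r) ℂ) :=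
    Matrix.mem_spectrum_iff_isRoot_charpoly.2 hz
  rw [spectrum.zero_mem_iff] at h2
  exact h2 (ρ w).isUnit

end Pool.Agent.PRS
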