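import Pool.Agent.PRS.Defs
import Pool.Agent.H2G.UniR

/-!
# PRS module KRO
-/

set_option autoImplicit false

namespace Pool.Agent.PRS

theorem mem_closure_of_adjoin {s : Set ℂ} {x : ℂ} (hx : x ∈ Algebra.adjoin ℤ s) :
    x ∈ Subring.closure s := by
  induction hx using Algebra.adjoin_induction with
  | mem z hz => exact Subring.subset_closure hz
  | algebraMap k => exact intCast_mem _ k
  | add x y _ _ hx hy => exact Subring.add_mem _ hx hy
  | mul x y _ _ hx hy => exact Subring.mul_mem _ hx hy

theorem thm_KRO : St_Kro := by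
  intro M B hM
  refine (H2G.finite_conj M hM B).subset ?_
  rintro x ⟨hx, hb⟩
  exact ⟨mem_closure_of_adjoin hx, fun τ => hb τ⟩

end Pool.Agent.PRS
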