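import Pool.Agent.PRS.Defs

/-!
# The scalar of a multiple of a pseudo-reflection as a class function (helper33)
-/

set_option autoImplicit false

namespace Pool.Agent.PRS

open Matrix Pool.Agent.HZ

private theorem LAM_uf {r : ℕ} {e : Matrix (Fin r) (Fin r) ℂ} (h : e.rank ≤ 1) :
    ∃ u f : Fin r → ℂ, ∀ i j, e i j = u i * f j := by
  have h1 : Module.finrank ℂ (LinearMap.range e.mulVecLin) ≤ 1 := h
  obtain ⟨v, hv⟩ := finrank_le_one_iff.1 h1
  have h2 : ∀ j : Fin r, ∃ c : ℂ, ∀ i, e i j = c * v.1 i := by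
    intro j
    obtain ⟨c, hc⟩ := hv ⟨e.mulVecLin (Pi.single j 1), LinearMap.mem_range_self _ _⟩
    refine ⟨c, fun i => ?_⟩
    have h3 := congrFun (congrArg Subtype.val hc) i
    have h4 : e.mulVecLin (Pi.single j 1) i = e i j := by simp
    rw [← h4]
    exact h3.symm
  choose f hf using h2
  exact ⟨v.1, f, fun i j => by rw [hf, mul_comm]⟩

/-- the good scalars -/
private def LAM_P {r : ℕ} (g : GL (Fin r) ℂ) (c : ℂ) : Prop :=
  ((g : Matrix (Fin r) (Fin r) ℂ) - c • (1 : Matrix (Fin r) (Fin r) ℂ)).rank ≤ 1 ∧ c ≠ 0 ∧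
    (0 < r → ((g : Matrix (Fin r) (Fin r) ℂ) - c • (1 : Matrix (Fin r) (Fin r) ℂ)).det = 0) ∧
    (r = 0 → c = 1)

private theorem LAM_conj {r : ℕ} {g h : GL (Fin r) ℂ} {c : ℂ} (hg : LAM_P g c) :
    LAM_P (h⁻¹ * g * h) c := by
  have e : ((h⁻¹ * g * h : GL (Fin r) ℂ) : Matrix (Fin r) (Fin r) ℂ) -
      c • (1 : Matrix (Fin r) (Fin r) ℂ) =
      ((h⁻¹ : GL (Fin r) ℂ) : Matrix (Fin r) (Fin r) ℂ) *
        ((g : Matrix (Fin r) (Fin r) ℂ) - c • (1 : Matrix (Fin r) (Fin r) ℂ)) *
        (h : Matrix (Fin r) (Fin r) ℂ) := by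
    rw [Matrix.mul_sub, Matrix.sub_mul, Matrix.mul_smul, Matrix.smul_mul, Matrix.mul_one,
      Units.val_mul, Units.val_mul, ← Units.val_mul h⁻¹ h, inv_mul_cancel, Units.val_one]
  refine ⟨?_, hg.2.1, fun hr => ?_, hg.2.2.2⟩
  · rw [e]
    exact ((Matrix.rank_mul_le_left _ _).trans (Matrix.rank_mul_le_right _ _)).trans hg.1
  · rw [e, Matrix.det_mul, Matrix.det_mul, hg.2.2.1 hr, mul_zero, zero_mul]

private theorem LAM_exists {r : ℕ} {g : GL (Fin r) ℂ} (hg : PR g) : ∃ c, LAM_P g c := by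
  obtain ⟨c, hc⟩ := hg
  have hdet : (g : Matrix (Fin r) (Fin r) ℂ).det ≠ 0 :=
    ((Matrix.isUnit_iff_isUnit_det _).1 g.isUnit).ne_zero
  have hne : ∀ c : ℂ, 0 < r → ((g : Matrix (Fin r) (Fin r) ℂ) -
      c • (1 : Matrix (Fin r) (Fin r) ℂ)).det = 0 → c ≠ 0 := by
    rintro c _ h rfl
    rw [zero_smul, sub_zero] at h
    exact hdet h
  rcases Nat.lt_or_ge r 2 with hr | hr
  · rcases Nat.eq_zero_or_pos r with rfl | hr0
    · refine ⟨1, ?_, one_ne_zero, fun h => absurd h (lt_irrefl 0), fun _ => rfl⟩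
      refine (Matrix.rank_le_card_width _).trans ?_
      simp
    · have hr1 : r = 1 := by omega
      subst hr1
      refine ⟨(g : Matrix (Fin 1) (Fin 1) ℂ) 0 0, ?_, ?_, fun _ => ?_, fun h => absurd h one_ne_zero⟩
      · refine (Matrix.rank_le_card_width _).trans ?_
        simp
      · intro h
        apply hdet
        rw [Matrix.det_fin_one, h]
      · rw [Matrix.det_fin_one]
        simp
  · have h0 : ((g : Matrix (Fin r) (Fin r) ℂ) - c • (1 : Matrix (Fin r) (Fin r) ℂ)).det = 0 := by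
      by_contra h
      have h1 := Matrix.rank_of_isUnit ((g : Matrix (Fin r) (Fin r) ℂ) -
        c • (1 : Matrix (Fin r) (Fin r) ℂ)) ((Matrix.isUnit_iff_isUnit_det _).2 (Ne.isUnit h))
      rw [Fintype.card_fin] at h1
      omega
    exact ⟨c, hc, hne c (by omega) h0, fun _ => h0, fun h => by omega⟩

private theorem LAM_root {r : ℕ} {g : Matrix (Fin r) (Fin r) ℂ} {c : ℂ}
    (h : (g - c • (1 : Matrix (Fin r) (Fin r) ℂ)).det = 0) : g.charpoly.IsRoot c := by
  rw [Polynomial.IsRoot, Matrix.eval_charpoly]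
  have e : scalar (Fin r) c - g = -(g - c • (1 : Matrix (Fin r) (Fin r) ℂ)) := by
    rw [neg_sub]
    congr 1
    ext i j
    simp [Matrix.scalar_apply, Matrix.diagonal_apply, Matrix.one_apply]
  rw [e, Matrix.det_neg, h, mul_zero]

/-- **LAM** -/
theorem thm_LAM : St_Lam := by
  classical
  let Q : ∀ r : ℕ, ConjClasses (GL (Fin r) ℂ) → ℂ → Prop := fun r q c =>
    ∃ g', ConjClasses.mk g' = q ∧ LAM_P g' c
  let lam : ∀ r : ℕ, GL (Fin r) ℂ → ℂ := fun r g =>
    if h : ∃ c, Q r (ConjClasses.mk g) c then Classical.choose h else 1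
  have hlam : ∀ (r : ℕ) (g : GL (Fin r) ℂ), PR g → LAM_P g (lam r g) := by
    intro r g hg
    have h : ∃ c, Q r (ConjClasses.mk g) c := by
      obtain ⟨c, hc⟩ := LAM_exists hg
      exact ⟨c, g, rfl, hc⟩
    have h1 : Q r (ConjClasses.mk g) (lam r g) := by
      show Q r (ConjClasses.mk g) (if h : ∃ c, Q r (ConjClasses.mk g) c then Classical.choose h
        else 1)
      rw [dif_pos h]
      exact Classical.choose_spec h
    obtain ⟨g', hg', hP⟩ := h1
    obtain ⟨x, hx⟩ := isConj_iff.1 (ConjClasses.mk_eq_mk_iff_isConj.1 hg')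
    have := LAM_conj (h := x⁻¹) hP
    rwa [inv_inv, hx] at this
  refine ⟨lam, fun r g h => ?_, fun r g hg => ?_⟩
  · have e : ConjClasses.mk (h⁻¹ * g * h) = ConjClasses.mk g := by
      rw [ConjClasses.mk_eq_mk_iff_isConj, isConj_iff]
      exact ⟨h, by group⟩
    show (if h' : ∃ c, Q r (ConjClasses.mk (h⁻¹ * g * h)) c then Classical.choose h' else 1) =
      (if h' : ∃ c, Q r (ConjClasses.mk g) c then Classical.choose h' else 1)
    rw [e]
  · obtain ⟨h1, h2, h3, h4⟩ := hlam r g hg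
    set c := lam r g with hc
    -- the rank one matrix
    have he : (c⁻¹ • (g : Matrix (Fin r) (Fin r) ℂ) - 1) =
        c⁻¹ • ((g : Matrix (Fin r) (Fin r) ℂ) - c • (1 : Matrix (Fin r) (Fin r) ℂ)) := by
      rw [smul_sub, smul_smul, inv_mul_cancel₀ h2, one_smul]
    obtain ⟨u, f, huf⟩ := LAM_uf h1
    have huf' : ∀ i j, (c⁻¹ • (g : Matrix (Fin r) (Fin r) ℂ) - 1) i j = (c⁻¹ * u i) * f j := by
      intro i j
      rw [he, Matrix.smul_apply, huf, smul_eq_mul, mul_assoc]
    set e : Matrix (Fin r) (Fin r) ℂ := c⁻¹ • (g : Matrix (Fin r) (Fin r) ℂ) - 1 with hedef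
    have hdet : (1 + e).det = 1 + e.trace := by
      have e1 : e = Matrix.replicateCol Unit (fun i => c⁻¹ * u i) * Matrix.replicateRow Unit f := by
        ext i j
        rw [huf', Matrix.mul_apply]
        simp
      have e2 := Matrix.det_one_add_replicateCol_mul_replicateRow (ι := Unit) (fun i => c⁻¹ * u i) f
      rw [← e1] at e2
      rw [e2, Matrix.trace, dotProduct]
      congr 1
      refine Finset.sum_congr rfl fun i _ => ?_
      rw [Matrix.diag_apply, huf', mul_comm]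
    have h1e : 1 + e = c⁻¹ • (g : Matrix (Fin r) (Fin r) ℂ) := by
      rw [hedef]
      abel
    rw [h1e, Matrix.det_smul, Fintype.card_fin] at hdet
    have hgdet : (g : Matrix (Fin r) (Fin r) ℂ).det ≠ 0 :=
      ((Matrix.isUnit_iff_isUnit_det _).1 g.isUnit).ne_zero
    refine ⟨h2, ?_, fun X => ?_, fun M hM => ?_⟩
    · rw [← hdet]
      exact mul_ne_zero (pow_ne_zero _ (inv_ne_zero h2)) hgdet
    · ext i j
      simp only [Matrix.mul_apply, Matrix.smul_apply, smul_eq_mul, Matrix.trace, Matrix.diag_apply,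
        huf', Finset.sum_mul]
      refine Finset.sum_congr rfl fun k _ => ?_
      refine Finset.sum_congr rfl fun l _ => ?_
      ring
    · have hcM : c ^ M = 1 := by
        rcases Nat.eq_zero_or_pos r with h5 | h5
        · rw [h4 h5, one_pow]
        · exact hM c (LAM_root (h3 h5))
      refine ⟨hcM, ?_⟩
      have hd : (g : Matrix (Fin r) (Fin r) ℂ).det ^ M = 1 := by
        have key : ∀ s : Multiset ℂ, (∀ x ∈ s, x ^ M = 1) → s.prod ^ M = 1 := by
          intro s
          refine Multiset.induction_on s (fun _ => by rw [Multiset.prod_zero, one_pow]) ?_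
          intro a s ih hs
          rw [Multiset.prod_cons, mul_pow, hs a (Multiset.mem_cons_self a s), one_mul]
          exact ih fun x hx => hs x (Multiset.mem_cons_of_mem hx)
        rw [Matrix.det_eq_prod_roots_charpoly]
        exact key _ fun x hx => hM x (Polynomial.isRoot_of_mem_roots hx)
      rw [← hdet, mul_pow, hd, mul_one, ← pow_mul, mul_comm r M, pow_mul, inv_pow, hcM, inv_one,
        one_pow]

end Pool.Agent.PRS
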