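import Pool.Agent.PRS.Ent
import Pool.Agent.HZ.RedC

/-!
# PRS module ORB
-/

set_option autoImplicit false

namespace Pool.Agent.PRS

open Matrix Pool.Agent.HZ

/-- functions with finitely many values -/
def finR (Ω : Type) : Subring (Ω → ℂ) where
  carrier := {f | (Set.range f).Finite}
  mul_mem' := by
    intro f g hf hg
    refine (hf.image2 (· * ·) hg).subset ?_
    rintro _ ⟨x, rfl⟩
    exact ⟨f x, ⟨x, rfl⟩, g x, ⟨x, rfl⟩, rfl⟩
  one_mem' := by
    refine (Set.finite_singleton (1 : ℂ)).subset ?_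
    rintro _ ⟨x, rfl⟩
    rfl
  add_mem' := by
    intro f g hf hg
    refine (hf.image2 (· + ·) hg).subset ?_
    rintro _ ⟨x, rfl⟩
    exact ⟨f x, ⟨x, rfl⟩, g x, ⟨x, rfl⟩, rfl⟩
  zero_mem' := by
    refine (Set.finite_singleton (0 : ℂ)).subset ?_
    rintro _ ⟨x, rfl⟩
    rfl
  neg_mem' := by
    intro f hf
    refine (hf.image Neg.neg).subset ?_
    rintro _ ⟨x, rfl⟩
    exact ⟨f x, ⟨x, rfl⟩, rfl⟩

theorem mem_finR {Ω : Type} {f : Ω → ℂ} {F : Set ℂ} (hF : F.Finite) (h : ∀ x, f x ∈ F) :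
    f ∈ finR Ω := hF.subset (by rintro _ ⟨x, rfl⟩; exact h x)

/-- evaluation of matrices of functions -/
theorem fun_ext {Ω : Type} {r : ℕ} {A B : Matrix (Fin r) (Fin r) (Ω → ℂ)}
    (h : ∀ x, A.map (fun f => f x) = B.map (fun f => f x)) : A = B := by
  ext i j x
  exact congrFun (congrFun (h x) i) j

theorem thm_ORB (hG : St_Gen) (hL : St_Lam) : St_Orb := by
  intro M n r ρ hM hgood
  obtain ⟨lam, hconj, hlam⟩ := hL
  let Ω : Type := {β : FreeGroup (Fin n) →* FreeGroup (Fin n) // IsBraid β}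
  let S : Subring (Ω → ℂ) := finR Ω
  have hroots : {x : ℂ | x ^ M = 1}.Finite := by
    classical
    refine ((Polynomial.nthRoots M (1 : ℂ)).toFinset.finite_toSet).subset ?_
    intro z hz
    rw [Finset.mem_coe, Multiset.mem_toFinset, Polynomial.mem_nthRoots hM]
    exact hz
  -- the evaluations
  let ev : Ω → ((Ω → ℂ) →+* ℂ) := fun β => Pi.evalRingHom (fun _ => ℂ) β
  let ρ' : FreeGroup (Fin n) →* Matrix (Fin r) (Fin r) (Ω → ℂ) :=
    { toFun := fun y => Matrix.of fun i j => fun β : Ω => (ρ (β.1 y) : Matrix (Fin r) (Fin r) ℂ) i j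
      map_one' := by
        refine fun_ext fun β => ?_
        ext i j
        by_cases hij : i = j
        · subst hij
          simp
        · simp [hij]
      map_mul' := by
        intro x y
        refine fun_ext fun β => ?_
        ext i j
        simp only [map_mul, Units.val_mul, Matrix.map_apply, Matrix.of_apply, Matrix.mul_apply,
          Finset.sum_apply, Pi.mul_apply] }
  have hρ' : ∀ y β, (ev β).mapMatrix (ρ' y) = (ρ (β.1 y) : Matrix (Fin r) (Fin r) ℂ) :=
    fun y β => rfl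
  have hevext : ∀ {A B : Matrix (Fin r) (Fin r) (Ω → ℂ)},
      (∀ β, (ev β).mapMatrix A = (ev β).mapMatrix B) → A = B := fun h => fun_ext h
  have hsmul : ∀ (β : Ω) (f : Ω → ℂ) (A : Matrix (Fin r) (Fin r) (Ω → ℂ)),
      (ev β).mapMatrix (f • A) = f β • (ev β).mapMatrix A := by
    intro β f A
    ext i j
    rfl
  have htr : ∀ (β : Ω) (A : Matrix (Fin r) (Fin r) (Ω → ℂ)),
      A.trace β = ((ev β).mapMatrix A).trace := by
    intro β A
    exact AddMonoidHom.map_trace (ev β) A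
  have hpre : ∀ (β : Ω) (L : List (FreeGroup (Fin n))), Pre (std n) L →
      Pre (std n) (L.map β.1) := fun β L h => (Pre.of_reach β.2).trans (h.map β.1)
  let c : FreeGroup (Fin n) → Ω → ℂ := fun y β => (lam r (ρ (β.1 y)))⁻¹
  let c' : FreeGroup (Fin n) → Ω → ℂ := fun y β => lam r (ρ (β.1 y))
  let z : FreeGroup (Fin n) → Ω → ℂ := fun y β =>
    1 + ((lam r (ρ (β.1 y)))⁻¹ • (ρ (β.1 y) : Matrix (Fin r) (Fin r) ℂ) - 1).trace
  let z' : FreeGroup (Fin n) → Ω → ℂ := fun y β => (z y β)⁻¹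
  have hev : ∀ y (β : Ω), (ev β).mapMatrix (c y • ρ' y - 1) =
      (lam r (ρ (β.1 y)))⁻¹ • (ρ (β.1 y) : Matrix (Fin r) (Fin r) ℂ) - 1 := by
    intro y β
    rw [map_sub, map_one, hsmul, hρ']
  have hsys : Sys S ρ' (std n) c c' z z' :=
    { conj := fun a b => by
        funext β
        simp only [c, map_mul, map_inv, hconj]
      mem := fun L hL' y hy => by
        have key : ∀ β : Ω, (lam r (ρ (β.1 y))) ^ M = 1 ∧ (z y β) ^ M = 1 := fun β => by
          have hy' : β.1 y ∈ L.map β.1 := List.mem_map.2 ⟨y, hy, rfl⟩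
          obtain ⟨h1, h2, h3, h4⟩ := hlam r (ρ (β.1 y)) (pre_PR hgood.1 (hpre β L hL') hy')
          exact h4 M (hgood.2 _ (pre_simple (hpre β L hL') hy'))
        refine ⟨mem_finR hroots fun β => ?_, mem_finR hroots fun β => (key β).1,
          mem_finR hroots fun β => (key β).2, mem_finR hroots fun β => ?_⟩
        · show ((lam r (ρ (β.1 y)))⁻¹) ^ M = 1
          rw [inv_pow, (key β).1, inv_one]
        · show ((z y β)⁻¹) ^ M = 1
          rw [inv_pow, (key β).2, inv_one]
      unit := fun L hL' y hy => by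
        have key : ∀ β : Ω, lam r (ρ (β.1 y)) ≠ 0 ∧ z y β ≠ 0 := fun β => by
          have hy' : β.1 y ∈ L.map β.1 := List.mem_map.2 ⟨y, hy, rfl⟩
          obtain ⟨h1, h2, h3, h4⟩ := hlam r (ρ (β.1 y)) (pre_PR hgood.1 (hpre β L hL') hy')
          exact ⟨h1, h2⟩
        constructor
        · funext β
          exact inv_mul_cancel₀ (key β).1
        · funext β
          exact mul_inv_cancel₀ (key β).2
      tr := fun L hL' y hy => by
        funext β
        rw [htr, hev]
        show _ = z y β - 1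
        rw [add_sub_cancel_left]
      one := fun L hL' y hy X => by
        refine hevext fun β => ?_
        have hy' : β.1 y ∈ L.map β.1 := List.mem_map.2 ⟨y, hy, rfl⟩
        obtain ⟨h1, h2, h3, h4⟩ := hlam r (ρ (β.1 y)) (pre_PR hgood.1 (hpre β L hL') hy')
        rw [map_mul, map_mul, hsmul, htr, map_mul, hev]
        exact h3 _
      loops := fun L hL' => by
        have h1 := finite_traces_of_roots r {x : ℂ | x ^ M = 1} hroots
        refine mem_finR h1 fun β => ?_
        rw [htr, hρ']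
        refine ⟨_, fun x hx => ?_, rfl⟩
        have h2 := pre_prod (hpre β L hL')
        rw [← map_list_prod] at h2
        exact hgood.2 _ h2 x hx }
  have hfin : ∀ w : FreeGroup (Fin n),
      {t : ℂ | ∃ β : Ω, t = (ρ (β.1 w) : Matrix (Fin r) (Fin r) ℂ).trace}.Finite := by
    intro w
    have h : (Set.range ((ρ' w).trace)).Finite := hG (Ω → ℂ) (FreeGroup (Fin n)) r S ρ' (std n)
      c c' z z' hsys w (by
        rw [closure_std]
        exact Subgroup.mem_top w)
    refine h.subset ?_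
    rintro _ ⟨β, rfl⟩
    exact ⟨β, by rw [htr, hρ']⟩
  obtain ⟨s, hs⟩ := exists_words r n
  have hpi : (Set.univ.pi fun x : s =>
      {t : ℂ | ∃ β : Ω, t = (ρ (β.1 x) : Matrix (Fin r) (Fin r) ℂ).trace}).Finite :=
    Set.Finite.pi fun x => hfin x
  refine Set.Finite.of_finite_image (f := fun (χ : FreeGroup (Fin n) → ℂ) (x : s) => χ x)
    (hpi.subset ?_) ?_
  · rintro _ ⟨_, ⟨β, hβ, rfl⟩, rfl⟩ x _
    exact ⟨⟨β, hβ⟩, rfl⟩
  · rintro _ ⟨β, hβ, rfl⟩ _ ⟨β', hβ', rfl⟩ h1
    funext x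
    exact hs (ρ.comp β) (ρ.comp β') (fun y hy => congrFun h1 ⟨y, hy⟩) x

end Pool.Agent.PRS
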