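import Pool.Agent.PRS.PosC

/-!
# Definiteness of the invariant Hermitian form
-/

set_option autoImplicit false

namespace Pool.Agent.PRS.Pos

open Matrix Pool.Agent.HZ Pool.Agent.PRS
open scoped ComplexOrder

variable {r : ℕ} {H : Matrix (Fin r) (Fin r) ℂ}
variable {c : GL (Fin r) ℂ → ℂ} {u f : GL (Fin r) ℂ → (Fin r → ℂ)}

theorem exists_good (hr : 2 ≤ r) (hH : H.IsHermitian) (hU : IsUnit H)
    {L : List (GL (Fin r) ℂ)} (D : Dat H L c u f)
    (hfin : ∀ (A : List (GL (Fin r) ℂ)) (y : GL (Fin r) ℂ), (A ++ [y]).Sublist L →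
      Finite (Subgroup.closure {A.prod, y} : Subgroup (GL (Fin r) ℂ)))
    (hpos : ∀ y ∈ L, u y ≠ 0 → 0 < qf H (u y)) (L' : List (GL (Fin r) ℂ)) (hL' : L'.Sublist L) :
    ∃ A : List (GL (Fin r) ℂ), A.Sublist L' ∧ (∀ y ∈ L', u y ∈ VA u A) ∧ Good H c u f A := by
  induction L' using List.reverseRecOn with
  | nil => exact ⟨[], List.Sublist.refl _, fun y hy => absurd hy List.not_mem_nil, good_nil⟩
  | append_singleton L' k ih =>
    obtain ⟨A, hA, h1, h2⟩ := ih ((List.sublist_append_left L' [k]).trans hL')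
    by_cases hk : u k ∈ VA u A
    · refine ⟨A, hA.trans (List.sublist_append_left L' [k]), fun y hy => ?_, h2⟩
      rw [List.mem_append, List.mem_singleton] at hy
      rcases hy with hy | rfl
      · exact h1 y hy
      · exact hk
    · have h3 : (A ++ [k]).Sublist (L' ++ [k]) := hA.append (List.Sublist.refl [k])
      have h4 := h3.trans hL'
      have hk0 : u k ≠ 0 := by
        intro h
        rw [h] at hk
        exact hk (Submodule.zero_mem _)
      have hkL : k ∈ L := h4.subset (by simp)
      refine ⟨A ++ [k], h3, fun y hy => ?_, step hr hH hU D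
        (fun y hy => h4.subset (by simp [hy])) hkL h2 hk (hfin A k h4) (hpos k hkL hk0)⟩
      rw [List.mem_append, List.mem_singleton] at hy
      rcases hy with hy | rfl
      · exact VA_mono (u := u) (A := A) (B := A ++ [k]) (fun z hz => by simp [hz]) (h1 y hy)
      · exact mem_VA (by simp)

/-- all signs positive -/
theorem posDef_of_pos (hr : 2 ≤ r) (hH : H.IsHermitian) (hU : IsUnit H)
    {L : List (GL (Fin r) ℂ)} (D : Dat H L c u f)
    (hfin : ∀ (A : List (GL (Fin r) ℂ)) (y : GL (Fin r) ℂ), (A ++ [y]).Sublist L →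
      Finite (Subgroup.closure {A.prod, y} : Subgroup (GL (Fin r) ℂ)))
    (hpos : ∀ y ∈ L, u y ≠ 0 → 0 < qf H (u y)) (htop : VA u L = ⊤) : H.PosDef := by
  obtain ⟨A, -, h1, h2⟩ := exists_good hr hH hU D hfin hpos L (List.Sublist.refl L)
  have h3 : VA u A = ⊤ := by
    rw [eq_top_iff, ← htop]
    refine Submodule.span_le.mpr ?_
    rintro _ ⟨y, hy, rfl⟩
    exact h1 y hy
  refine Matrix.PosDef.of_dotProduct_mulVec_pos hH fun x hx => ?_
  have h4 := h2.pos x (by
    rw [h3]
    exact Submodule.mem_top) hx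
  have h5 : star x ⬝ᵥ (H *ᵥ x) = ((qf H x : ℝ) : ℂ) := hf_self hH x
  rw [h5]
  exact_mod_cast h4

theorem pair_sublist {α : Type} {L : List α} {a b : α} (ha : a ∈ L) (hb : b ∈ L) :
    a = b ∨ [a, b].Sublist L ∨ [b, a].Sublist L := by
  induction L with
  | nil => exact absurd ha List.not_mem_nil
  | cons x L ih =>
    rcases List.mem_cons.mp ha with rfl | ha'
    · rcases List.mem_cons.mp hb with rfl | hb'
      · exact Or.inl rfl
      · exact Or.inr (Or.inl ((List.singleton_sublist.mpr hb').cons_cons a))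
    · rcases List.mem_cons.mp hb with rfl | hb'
      · exact Or.inr (Or.inr ((List.singleton_sublist.mpr ha').cons_cons b))
      · rcases ih ha' hb' with h | h | h
        · exact Or.inl h
        · exact Or.inr (Or.inl (h.trans (List.sublist_cons_self x L)))
        · exact Or.inr (Or.inr (h.trans (List.sublist_cons_self x L)))

theorem finite_pair {L : List (GL (Fin r) ℂ)}
    (hfin : ∀ (A : List (GL (Fin r) ℂ)) (y : GL (Fin r) ℂ), (A ++ [y]).Sublist L →
      Finite (Subgroup.closure {A.prod, y} : Subgroup (GL (Fin r) ℂ)))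
    {a b : GL (Fin r) ℂ} (ha : a ∈ L) (hb : b ∈ L) :
    Finite (Subgroup.closure {a, b} : Subgroup (GL (Fin r) ℂ)) := by
  rcases pair_sublist ha hb with rfl | h | h
  · have h1 := hfin [] a (by
      rw [List.nil_append]
      exact List.singleton_sublist.mpr ha)
    have h2 : Subgroup.closure {a, a} ≤
        Subgroup.closure ({([] : List (GL (Fin r) ℂ)).prod, a} : Set (GL (Fin r) ℂ)) := by
      refine Subgroup.closure_mono ?_
      rintro x (rfl | rfl)
      · exact Or.inr rfl
      · exact Or.inr rfl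
    exact Finite.of_injective (Subgroup.inclusion h2) (Subgroup.inclusion_injective h2)
  · have h1 := hfin [a] b h
    rw [List.prod_singleton] at h1
    exact h1
  · have h1 := hfin [b] a h
    rw [List.prod_singleton, Set.pair_comm] at h1
    exact h1

theorem qf_neg (x : Fin r → ℂ) : qf (-H) x = - qf H x := by
  unfold qf hf
  rw [neg_mulVec, dotProduct_neg, Complex.neg_re]

theorem main (hr : 2 ≤ r) {L : List (GL (Fin r) ℂ)}
    (hirr : Irr (Subgroup.closure {x | x ∈ L})) (hPR : ∀ y ∈ L, PR y)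
    (hfin : ∀ (A : List (GL (Fin r) ℂ)) (y : GL (Fin r) ℂ), (A ++ [y]).Sublist L →
      Finite (Subgroup.closure {A.prod, y} : Subgroup (GL (Fin r) ℂ)))
    (hH : H.IsHermitian) (hU : IsUnit H)
    (hiso : ∀ y ∈ L, (y : Matrix (Fin r) (Fin r) ℂ)ᴴ * H * (y : Matrix (Fin r) (Fin r) ℂ) = H) :
    H.PosDef ∨ (-H).PosDef := by
  have D1 : ∀ y ∈ L, ∃ (c : ℂ) (u f : Fin r → ℂ), (y : Matrix (Fin r) (Fin r) ℂ) =
      c • (1 : Matrix (Fin r) (Fin r) ℂ) + vecMulVec u f ∧ (u ≠ 0 → f ≠ 0) := by
    intro y hy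
    obtain ⟨c, u, f, h⟩ := (PR_iff y).mp (hPR y hy)
    by_cases hf0 : f = 0
    · refine ⟨c, 0, 0, ?_, fun h => absurd rfl h⟩
      rw [h, hf0]
      simp
    · exact ⟨c, u, f, h, fun _ => hf0⟩
  choose! c u f hy huf using D1
  have hc0 : ∀ y ∈ L, c y ≠ 0 := by
    intro y hyL h
    obtain ⟨w, hw, hw'⟩ := exists_ker hr (f y)
    have h1 : (y : Matrix (Fin r) (Fin r) ℂ) *ᵥ w = 0 := by
      rw [hy y hyL, pr_mulVec, hw', h, zero_smul, zero_smul, add_zero]
    exact hw (Matrix.mulVec_injective_of_isUnit y.isUnit (by rw [h1, mulVec_zero]))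
  have hK : ∀ a ∈ L, ∀ b ∈ L, ∀ g ∈ Subgroup.closure ({a, b} : Set (GL (Fin r) ℂ)),
      (g : Matrix (Fin r) (Fin r) ℂ)ᴴ * H * (g : Matrix (Fin r) (Fin r) ℂ) = H := by
    intro a ha b hb
    refine isometry_closure ?_
    rintro g (rfl | rfl)
    · exact hiso _ ha
    · exact hiso _ hb
  have horb : ∀ a ∈ L, ∀ b ∈ L, u b ≠ 0 → star (c b) * c b = 1 ∧ f b ⬝ᵥ u b ≠ 0 ∧
      (∃ k : ℂ, k ≠ 0 ∧ ∀ w, hf H (u b) w = k * (f b ⬝ᵥ w)) ∧
      ∀ w ∈ Submodule.span ℂ {x | ∃ g ∈ Subgroup.closure ({a, b} : Set (GL (Fin r) ℂ)),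
        x = (g : Matrix (Fin r) (Fin r) ℂ) *ᵥ u b}, w ≠ 0 → 0 < qf H (u b) * qf H w := by
    intro a ha b hb hub
    have := finite_pair hfin ha hb
    exact orbit_sign hr hH hU _ (hK a ha b hb) (Subgroup.subset_closure (by simp)) (hy b hb) hub
      (huf b hb hub)
  have D : Dat H L c u f := ⟨hy, huf, hc0, fun y hyL h => (horb y hyL y hyL h).2.2.1, hiso⟩
  -- the signs of adjacent vectors agree
  have hsign : ∀ a ∈ L, ∀ b ∈ L, u a ≠ 0 → u b ≠ 0 → f a ⬝ᵥ u b ≠ 0 →
      0 < qf H (u b) * qf H (u a) := by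
    intro a ha b hb hua hub hab
    refine (horb a ha b hb hub).2.2.2 (u a) ?_ hua
    have h1 : u a = (f a ⬝ᵥ u b)⁻¹ • ((a : Matrix (Fin r) (Fin r) ℂ) *ᵥ u b - c a • u b) := by
      rw [hy a ha, pr_mulVec, add_sub_cancel_left, smul_smul, inv_mul_cancel₀ hab, one_smul]
    rw [h1]
    refine Submodule.smul_mem _ _ (Submodule.sub_mem _ (Submodule.subset_span ?_)
      (Submodule.smul_mem _ _ (Submodule.subset_span ?_)))
    · exact ⟨a, Subgroup.subset_closure (by simp), rfl⟩
    · exact ⟨1, Subgroup.one_mem _, by rw [Units.val_one, one_mulVec]⟩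
  have hself : ∀ b ∈ L, u b ≠ 0 → qf H (u b) ≠ 0 := by
    intro b hb hub h
    have h1 := hsign b hb b hb hub hub (horb b hb b hb hub).2.1
    rw [h, mul_zero] at h1
    exact lt_irrefl _ h1
  -- the span of all vectors
  have htop : VA u L = ⊤ := by
    have h1 : Stab (Subgroup.closure {x | x ∈ L}) (VA u L) := by
      refine stab_closure ?_
      intro g (hg : g ∈ L) v hv
      rw [hy g hg, pr_mulVec]
      exact Submodule.add_mem _ (Submodule.smul_mem _ _ hv) (Submodule.smul_mem _ _ (mem_VA hg))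
    rcases hirr _ h1 with h2 | h2
    · exfalso
      have h3 : ∀ y ∈ L, u y = 0 := by
        intro y hyL
        have h4 := mem_VA (u := u) hyL
        rw [h2] at h4
        exact (Submodule.mem_bot ℂ).mp h4
      let i : Fin r := ⟨0, by omega⟩
      let j : Fin r := ⟨1, by omega⟩
      have hij : i ≠ j := by
        intro h
        have := congrArg Fin.val h
        simp [i, j] at this
      have h4 : Stab (Subgroup.closure {x | x ∈ L}) (ℂ ∙ (Pi.single i 1 : Fin r → ℂ)) := by
        refine stab_closure ?_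
        intro g (hg : g ∈ L) v hv
        rw [hy g hg, pr_mulVec, h3 g hg, smul_zero, add_zero]
        exact Submodule.smul_mem _ _ hv
      rcases hirr _ h4 with h5 | h5
      · have h6 := Submodule.mem_span_singleton_self (R := ℂ) (Pi.single i 1 : Fin r → ℂ)
        rw [h5] at h6
        have h7 := congrFun ((Submodule.mem_bot ℂ).mp h6) i
        simp at h7
      · have h6 : (Pi.single j 1 : Fin r → ℂ) ∈ (ℂ ∙ (Pi.single i 1 : Fin r → ℂ)) := by
          rw [h5]
          exact Submodule.mem_top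
        obtain ⟨t, ht⟩ := Submodule.mem_span_singleton.mp h6
        have h7 := congrFun ht j
        rw [Pi.smul_apply, Pi.single_eq_of_ne hij.symm, Pi.single_eq_same, smul_zero] at h7
        exact zero_ne_one h7
    · exact h2
  -- the vectors of positive sign
  have hstab : Stab (Subgroup.closure {x | x ∈ L})
      (Submodule.span ℂ {x | ∃ y ∈ L, 0 < qf H (u y) ∧ x = u y}) := by
    refine stab_closure ?_
    intro g (hg : g ∈ L) v hv
    rw [hy g hg, pr_mulVec]
    refine Submodule.add_mem _ (Submodule.smul_mem _ _ hv) ?_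
    induction hv using Submodule.span_induction with
    | mem v hv =>
      obtain ⟨y, hyL, hq, rfl⟩ := hv
      by_cases h1 : f g ⬝ᵥ u y = 0
      · rw [h1, zero_smul]
        exact Submodule.zero_mem _
      by_cases h2 : u g = 0
      · rw [h2, smul_zero]
        exact Submodule.zero_mem _
      have h3 : u y ≠ 0 := by
        intro h
        rw [h, dotProduct_zero] at h1
        exact h1 rfl
      have h4 := hsign g hg y hyL h2 h3 h1
      exact Submodule.smul_mem _ _ (Submodule.subset_span
        ⟨g, hg, (mul_pos_iff_of_pos_left hq).mp h4, rfl⟩)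
    | zero =>
      rw [dotProduct_zero, zero_smul]
      exact Submodule.zero_mem _
    | add a b _ _ ha hb =>
      rw [dotProduct_add, add_smul]
      exact Submodule.add_mem _ ha hb
    | smul t a _ ha =>
      rw [dotProduct_smul, smul_assoc]
      exact Submodule.smul_mem _ _ ha
  rcases hirr _ hstab with h1 | h1
  · -- no positive sign
    right
    have h2 : ∀ y ∈ L, u y ≠ 0 → 0 < qf (-H) (u y) := by
      intro y hyL hu
      rw [qf_neg]
      rcases lt_or_gt_of_ne (hself y hyL hu) with h | h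
      · linarith
      · exfalso
        have h3 : u y ∈ Submodule.span ℂ {x | ∃ y ∈ L, 0 < qf H (u y) ∧ x = u y} :=
          Submodule.subset_span ⟨y, hyL, h, rfl⟩
        rw [h1] at h3
        exact hu ((Submodule.mem_bot ℂ).mp h3)
    have hiso' : ∀ y ∈ L, (y : Matrix (Fin r) (Fin r) ℂ)ᴴ * (-H) *
        (y : Matrix (Fin r) (Fin r) ℂ) = -H := by
      intro y hyL
      rw [mul_neg, neg_mul, hiso y hyL]
    refine posDef_of_pos hr hH.neg hU.neg ⟨hy, huf, hc0, fun y hyL h => ?_, hiso'⟩ hfin h2 htop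
    obtain ⟨k, hk, hk'⟩ := (horb y hyL y hyL h).2.2.1
    refine ⟨-k, neg_ne_zero.mpr hk, fun w => ?_⟩
    have h3 := hk' w
    unfold hf at h3 ⊢
    rw [neg_mulVec, dotProduct_neg, h3, neg_mul]
  · left
    refine posDef_of_pos hr hH hU D hfin ?_ htop
    intro b hb hub
    rcases lt_or_gt_of_ne (hself b hb hub) with h | h
    · exfalso
      refine huf b hb hub ?_
      have h2 : ∀ v : Fin r → ℂ, f b ⬝ᵥ v = 0 := by
        intro v
        have hv : v ∈ Submodule.span ℂ {x | ∃ y ∈ L, 0 < qf H (u y) ∧ x = u y} := by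
          rw [h1]
          exact Submodule.mem_top
        induction hv using Submodule.span_induction with
        | mem v hv =>
          obtain ⟨y, hyL, hq, rfl⟩ := hv
          by_contra h3
          have h4 : u y ≠ 0 := by
            intro h
            rw [h, dotProduct_zero] at h3
            exact h3 rfl
          have h5 := hsign b hb y hyL hub h4 h3
          have h6 := (mul_pos_iff_of_pos_left hq).mp h5
          exact absurd h (not_lt.mpr h6.le)
        | zero => exact dotProduct_zero _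
        | add a b _ _ ha hb => rw [dotProduct_add, ha, hb, add_zero]
        | smul t a _ ha => rw [dotProduct_smul, ha, smul_zero]
      funext i
      have h3 := h2 (Pi.single i 1)
      rw [dotProduct_single, mul_one] at h3
      exact h3
    · exact h

end Pool.Agent.PRS.Pos

namespace Pool.Agent.PRS

open Matrix Pool.Agent.HZ Pool.Agent.PRS.Pos
open scoped ComplexOrder

/-- **POS** -/
theorem thm_POS : St_Pos := by
  intro r L H hr hirr hPR hfin hH hU hiso
  rcases Nat.lt_or_ge r 2 with h | h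
  · obtain rfl : r = 1 := by omega
    have h1 : star (H 0 0) = H 0 0 := hH.apply 0 0
    have h2 : H 0 0 = ((H 0 0).re : ℂ) := (Complex.conj_eq_iff_re.mp h1).symm
    have h3 : H 0 0 ≠ 0 := by
      intro h3
      have h4 := (Matrix.isUnit_iff_isUnit_det H).mp hU
      rw [Matrix.det_fin_one, h3] at h4
      exact not_isUnit_zero h4
    have h4 : (H 0 0).re ≠ 0 := by
      intro h4
      rw [h4] at h2
      exact h3 h2
    refine ⟨(H 0 0).re, Matrix.PosDef.of_dotProduct_mulVec_pos ?_ fun x hx => ?_⟩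
    · have h5 : ((H 0 0).re : ℂ) • Hᴴ = ((H 0 0).re : ℂ) • H := by rw [hH.eq]
      unfold Matrix.IsHermitian
      rw [conjTranspose_smul, ← h5, Complex.star_def, Complex.conj_ofReal]
    · have h5 : x 0 ≠ 0 := by
        intro h5
        refine hx ?_
        funext i
        rw [Subsingleton.elim i 0, h5]
        rfl
      have h6 : star x ⬝ᵥ ((((H 0 0).re : ℂ) • H) *ᵥ x) =
          (((H 0 0).re * (H 0 0).re * Complex.normSq (x 0) : ℝ) : ℂ) := by
        rw [smul_mulVec, dotProduct_smul]
        simp only [dotProduct, mulVec, Finset.univ_unique, Fin.default_eq_zero, Fin.isValue,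
          Finset.sum_singleton, Pi.star_apply, smul_eq_mul]
        rw [h2]
        push_cast
        rw [← Complex.mul_conj (x 0)]
        simp only [Complex.ofReal_re, Complex.star_def]
        ring
      rw [h6]
      exact_mod_cast mul_pos (mul_self_pos.mpr h4) (Complex.normSq_pos.mpr h5)
  · rcases main h hirr hPR hfin hH hU hiso with h1 | h1
    · refine ⟨1, ?_⟩
      rw [Complex.ofReal_one, one_smul]
      exact h1
    · refine ⟨-1, ?_⟩
      rw [Complex.ofReal_neg, Complex.ofReal_one, neg_smul, one_smul]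
      exact h1

end Pool.Agent.PRS
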