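import Pool.Agent.PRS.Defs
import Pool.Agent.HZ.ClfI

/-!
# Reduction to irreducible representations

Helper33.  `Sub ρ σ`: the representation `σ` is a subrepresentation or a quotient of `ρ`.
`quasi_of_sub` is the reduction principle; `PR_sub` and `finite_sub` show that the hypotheses of
the theorem pass to subrepresentations and quotients.
-/

set_option autoImplicit false

namespace Pool.Agent.PRS

open Matrix Pool.Agent.HZ

variable {F : Type} [Group F]

/-- `σ` is a subrepresentation or a quotient of `ρ` -/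
def Sub {r s : ℕ} (ρ : F →* GL (Fin r) ℂ) (σ : F →* GL (Fin s) ℂ) : Prop :=
  (∃ (A : Matrix (Fin r) (Fin s) ℂ) (L : Matrix (Fin s) (Fin r) ℂ), L * A = 1 ∧
    ∀ w, (ρ w : Matrix (Fin r) (Fin r) ℂ) * A = A * (σ w : Matrix (Fin s) (Fin s) ℂ)) ∨
  (∃ (B : Matrix (Fin s) (Fin r) ℂ) (R : Matrix (Fin r) (Fin s) ℂ), B * R = 1 ∧
    ∀ w, B * (ρ w : Matrix (Fin r) (Fin r) ℂ) = (σ w : Matrix (Fin s) (Fin s) ℂ) * B)

theorem exists_sub {r s : ℕ} (ρ : F →* GL (Fin r) ℂ) (A : Matrix (Fin r) (Fin s) ℂ)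
    (L : Matrix (Fin s) (Fin r) ℂ) (hL : L * A = 1)
    (h : ∀ w, ∃ B : Matrix (Fin s) (Fin s) ℂ, (ρ w : Matrix (Fin r) (Fin r) ℂ) * A = A * B) :
    ∃ σ : F →* GL (Fin s) ℂ,
      ∀ w, (ρ w : Matrix (Fin r) (Fin r) ℂ) * A = A * (σ w : Matrix (Fin s) (Fin s) ℂ) := by
  have key : ∀ w, A * (L * (ρ w : Matrix (Fin r) (Fin r) ℂ) * A) =
      (ρ w : Matrix (Fin r) (Fin r) ℂ) * A := by
    intro w
    obtain ⟨B, hB⟩ := h w
    rw [Matrix.mul_assoc, hB, ← Matrix.mul_assoc L, hL, Matrix.one_mul]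
  let f : F →* Matrix (Fin s) (Fin s) ℂ :=
    { toFun := fun w => L * (ρ w : Matrix (Fin r) (Fin r) ℂ) * A
      map_one' := by rw [map_one, Units.val_one, Matrix.mul_one, hL]
      map_mul' := fun w w' => by
        rw [map_mul, Units.val_mul]
        have h1 := key w'
        calc L * ((ρ w : Matrix (Fin r) (Fin r) ℂ) * (ρ w' : Matrix (Fin r) (Fin r) ℂ)) * A
            = L * (ρ w : Matrix (Fin r) (Fin r) ℂ) *
              ((ρ w' : Matrix (Fin r) (Fin r) ℂ) * A) := by simp only [Matrix.mul_assoc]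
          _ = _ := by rw [← h1]; simp only [Matrix.mul_assoc] }
  refine ⟨f.toHomUnits, fun w => ?_⟩
  exact (key w).symm

theorem exists_quo {r s : ℕ} (ρ : F →* GL (Fin r) ℂ) (B : Matrix (Fin s) (Fin r) ℂ)
    (R : Matrix (Fin r) (Fin s) ℂ) (hR : B * R = 1)
    (h : ∀ w, ∃ C : Matrix (Fin s) (Fin s) ℂ, B * (ρ w : Matrix (Fin r) (Fin r) ℂ) = C * B) :
    ∃ σ : F →* GL (Fin s) ℂ,
      ∀ w, B * (ρ w : Matrix (Fin r) (Fin r) ℂ) = (σ w : Matrix (Fin s) (Fin s) ℂ) * B := by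
  have key : ∀ w, (B * (ρ w : Matrix (Fin r) (Fin r) ℂ) * R) * B =
      B * (ρ w : Matrix (Fin r) (Fin r) ℂ) := by
    intro w
    obtain ⟨C, hC⟩ := h w
    rw [hC, Matrix.mul_assoc C, hR, Matrix.mul_one]
  let f : F →* Matrix (Fin s) (Fin s) ℂ :=
    { toFun := fun w => B * (ρ w : Matrix (Fin r) (Fin r) ℂ) * R
      map_one' := by rw [map_one, Units.val_one, Matrix.mul_one, hR]
      map_mul' := fun w w' => by
        rw [map_mul, Units.val_mul]
        have h1 := key w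
        calc B * ((ρ w : Matrix (Fin r) (Fin r) ℂ) * (ρ w' : Matrix (Fin r) (Fin r) ℂ)) * R
            = (B * (ρ w : Matrix (Fin r) (Fin r) ℂ)) *
              (ρ w' : Matrix (Fin r) (Fin r) ℂ) * R := by simp only [Matrix.mul_assoc]
          _ = ((B * (ρ w : Matrix (Fin r) (Fin r) ℂ) * R) * B) *
              (ρ w' : Matrix (Fin r) (Fin r) ℂ) * R := by rw [h1]
          _ = _ := by simp only [Matrix.mul_assoc] }
  refine ⟨f.toHomUnits, fun w => ?_⟩
  exact (key w).symm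

/-- **The reduction principle.** -/
theorem quasi_of_sub (Q : ∀ r : ℕ, (F →* GL (Fin r) ℂ) → Prop)
    (hQ : ∀ (r s : ℕ) (ρ : F →* GL (Fin r) ℂ) (σ : F →* GL (Fin s) ℂ), Q r ρ → Sub ρ σ → Q s σ)
    (hirr : ∀ (r : ℕ) (ρ : F →* GL (Fin r) ℂ), 0 < r → Irr ρ.range → Q r ρ → ∀ w, Quasi (ρ w)) :
    ∀ (r : ℕ) (ρ : F →* GL (Fin r) ℂ), Q r ρ → ∀ w, Quasi (ρ w) := by
  intro r
  induction r using Nat.strong_induction_on with
  | _ r ih =>
    intro ρ hρ w
    rcases Nat.eq_zero_or_pos r with rfl | hr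
    · intro z hz
      obtain ⟨v, hv, -⟩ := exists_eigvec _ z hz
      exact absurd (Subsingleton.elim v 0) hv
    by_cases hI : Irr ρ.range
    · exact hirr r ρ hr hI hρ w
    unfold Irr at hI
    push Not at hI
    obtain ⟨W, hW, hbot, htop⟩ := hI
    obtain ⟨W', hc⟩ := exists_isCompl W
    have hdim := Submodule.finrank_add_eq_of_isCompl hc
    rw [Module.finrank_fin_fun] at hdim
    have hs0 : 0 < Module.finrank ℂ W := by
      rw [Nat.pos_iff_ne_zero]
      intro h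
      exact hbot (Submodule.finrank_eq_zero.1 h)
    have ht0 : 0 < Module.finrank ℂ W' := by
      rw [Nat.pos_iff_ne_zero]
      intro h
      rw [Submodule.finrank_eq_zero.1 h] at hc
      exact htop (by have := hc.sup_eq_top; rwa [sup_bot_eq] at this)
    let s := Module.finrank ℂ W
    let t := Module.finrank ℂ W'
    let e : W ≃ₗ[ℂ] (Fin s → ℂ) := (Module.finBasis ℂ W).equivFun
    let e' : W' ≃ₗ[ℂ] (Fin t → ℂ) := (Module.finBasis ℂ W').equivFun
    let p : (Fin r → ℂ) →ₗ[ℂ] W := W.projectionOnto W' hc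
    let p' : (Fin r → ℂ) →ₗ[ℂ] W' := W'.projectionOnto W hc.symm
    have hp : ∀ v : W, p (v : Fin r → ℂ) = v := fun v => Submodule.projectionOnto_apply_left hc v
    have hp' : ∀ v : W', p' (v : Fin r → ℂ) = v := fun v =>
      Submodule.projectionOnto_apply_left hc.symm v
    have hp0 : ∀ v : Fin r → ℂ, p' v = 0 ↔ v ∈ W := fun v =>
      Submodule.projectionOnto_apply_eq_zero_iff hc.symm
    let A : Matrix (Fin r) (Fin s) ℂ := LinearMap.toMatrix' (W.subtype ∘ₗ e.symm.toLinearMap)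
    let L : Matrix (Fin s) (Fin r) ℂ := LinearMap.toMatrix' (e.toLinearMap ∘ₗ p)
    let B : Matrix (Fin t) (Fin r) ℂ := LinearMap.toMatrix' (e'.toLinearMap ∘ₗ p')
    let R : Matrix (Fin r) (Fin t) ℂ := LinearMap.toMatrix' (W'.subtype ∘ₗ e'.symm.toLinearMap)
    have hA : ∀ v, A *ᵥ v = (e.symm v : Fin r → ℂ) := fun v => by
      simp only [A]
      rw [LinearMap.toMatrix'_mulVec]
      rfl
    have hLv : ∀ v, L *ᵥ v = e (p v) := fun v => by
      simp only [L]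
      rw [LinearMap.toMatrix'_mulVec]
      rfl
    have hB : ∀ v, B *ᵥ v = e' (p' v) := fun v => by
      simp only [B]
      rw [LinearMap.toMatrix'_mulVec]
      rfl
    have hR : ∀ v, R *ᵥ v = (e'.symm v : Fin r → ℂ) := fun v => by
      simp only [R]
      rw [LinearMap.toMatrix'_mulVec]
      rfl
    have hLA : L * A = 1 := by
      apply Matrix.toLin'.injective
      ext1 i
      apply LinearMap.ext
      intro v
      simp only [LinearMap.comp_apply, Matrix.toLin'_apply, Matrix.toLin'_one, LinearMap.id_apply]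
      rw [← Matrix.mulVec_mulVec, hA, hLv, hp, e.apply_symm_apply]
    have hBR : B * R = 1 := by
      apply Matrix.toLin'.injective
      ext1 i
      apply LinearMap.ext
      intro v
      simp only [LinearMap.comp_apply, Matrix.toLin'_apply, Matrix.toLin'_one, LinearMap.id_apply]
      rw [← Matrix.mulVec_mulVec, hR, hB, hp', e'.apply_symm_apply]
    have hstab : ∀ (x : F) (v : Fin r → ℂ), v ∈ W →
        (ρ x : Matrix (Fin r) (Fin r) ℂ) *ᵥ v ∈ W := fun x v hv => hW (ρ x) ⟨x, rfl⟩ v hv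
    have h1 : ∀ x, ∃ C : Matrix (Fin s) (Fin s) ℂ,
        (ρ x : Matrix (Fin r) (Fin r) ℂ) * A = A * C := by
      intro x
      refine ⟨L * (ρ x : Matrix (Fin r) (Fin r) ℂ) * A, ?_⟩
      apply Matrix.toLin'.injective
      apply LinearMap.ext
      intro v
      simp only [Matrix.toLin'_apply, ← Matrix.mulVec_mulVec]
      rw [hA v, hLv, hA]
      have h2 := hstab x _ (e.symm v).2
      rw [show p ((ρ x : Matrix (Fin r) (Fin r) ℂ) *ᵥ (e.symm v : Fin r → ℂ)) =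
        ⟨_, h2⟩ from hp ⟨_, h2⟩, e.symm_apply_apply]
    have h2 : ∀ x, ∃ C : Matrix (Fin t) (Fin t) ℂ,
        B * (ρ x : Matrix (Fin r) (Fin r) ℂ) = C * B := by
      intro x
      refine ⟨B * (ρ x : Matrix (Fin r) (Fin r) ℂ) * R, ?_⟩
      apply Matrix.toLin'.injective
      apply LinearMap.ext
      intro v
      simp only [Matrix.toLin'_apply, ← Matrix.mulVec_mulVec]
      rw [hB v, hR, e'.symm_apply_apply, hB, hB]
      congr 1
      rw [← sub_eq_zero, ← map_sub, ← Matrix.mulVec_sub, hp0]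
      apply hstab
      rw [← hp0, map_sub, hp', sub_self]
    obtain ⟨σ, hσ⟩ := exists_sub ρ A L hLA h1
    obtain ⟨τ, hτ⟩ := exists_quo ρ B R hBR h2
    have hQσ := ih s (by omega) σ (hQ r s ρ σ hρ (Or.inl ⟨A, L, hLA, hσ⟩)) w
    have hQτ := ih t (by omega) τ (hQ r t ρ τ hρ (Or.inr ⟨B, R, hBR, hτ⟩)) w
    intro z hz
    obtain ⟨v, hv, hz⟩ := exists_eigvec _ z hz
    by_cases hvW : v ∈ W
    · refine hQσ z (root_of_eigvec _ z (L *ᵥ v) ?_ ?_)
      · intro h0
        rw [hLv] at h0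
        have h3 : p v = ⟨v, hvW⟩ := hp ⟨v, hvW⟩
        rw [h3] at h0
        have h4 := e.map_eq_zero_iff.1 h0
        exact hv (congrArg Subtype.val h4)
      · have h3 : A *ᵥ (L *ᵥ v) = v := by
          rw [hLv, hA, e.symm_apply_apply]
          have h3 : p v = ⟨v, hvW⟩ := hp ⟨v, hvW⟩
          rw [h3]
        have h4 : (σ w : Matrix (Fin s) (Fin s) ℂ) =
            L * ((ρ w : Matrix (Fin r) (Fin r) ℂ) * A) := by
          rw [hσ w, ← Matrix.mul_assoc, hLA, Matrix.one_mul]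
        rw [h4, ← Matrix.mulVec_mulVec, ← Matrix.mulVec_mulVec, h3, hz, Matrix.mulVec_smul]
    · refine hQτ z (root_of_eigvec _ z (B *ᵥ v) ?_ ?_)
      · intro h0
        rw [hB] at h0
        exact hvW ((hp0 v).1 (e'.map_eq_zero_iff.1 h0))
      · rw [Matrix.mulVec_mulVec, ← hτ w, ← Matrix.mulVec_mulVec, hz, Matrix.mulVec_smul]

/-- Multiples of pseudo-reflections. -/
theorem PR_sub {r s : ℕ} {ρ : F →* GL (Fin r) ℂ} {σ : F →* GL (Fin s) ℂ} (h : Sub ρ σ) {x : F}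
    (hx : PR (ρ x)) : PR (σ x) := by
  obtain ⟨c, hc⟩ := hx
  refine ⟨c, ?_⟩
  rcases h with ⟨A, L, hLA, h⟩ | ⟨B, R, hBR, h⟩
  · have e : (σ x : Matrix (Fin s) (Fin s) ℂ) - c • (1 : Matrix (Fin s) (Fin s) ℂ) =
        L * (((ρ x : Matrix (Fin r) (Fin r) ℂ) - c • (1 : Matrix (Fin r) (Fin r) ℂ)) * A) := by
      rw [Matrix.sub_mul, h x, Matrix.smul_mul, Matrix.one_mul, Matrix.mul_sub, Matrix.mul_smul, hLA, ← Matrix.mul_assoc, hLA,
        Matrix.one_mul]
    rw [e]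
    exact (Matrix.rank_mul_le_right _ _).trans ((Matrix.rank_mul_le_left _ _).trans hc)
  · have e : (σ x : Matrix (Fin s) (Fin s) ℂ) - c • (1 : Matrix (Fin s) (Fin s) ℂ) =
        B * ((ρ x : Matrix (Fin r) (Fin r) ℂ) - c • (1 : Matrix (Fin r) (Fin r) ℂ)) * R := by
      rw [Matrix.mul_sub, h x, Matrix.sub_mul, Matrix.mul_assoc, hBR, Matrix.mul_one, Matrix.mul_smul, Matrix.mul_one, Matrix.smul_mul,
        hBR]
    rw [e]
    exact (Matrix.rank_mul_le_left _ _).trans ((Matrix.rank_mul_le_right _ _).trans hc)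

/-- Finite images. -/
theorem finite_sub {r s : ℕ} {ρ : F →* GL (Fin r) ℂ} {σ : F →* GL (Fin s) ℂ} (h : Sub ρ σ)
    {S : Set F} (hS : (ρ '' S).Finite) : (σ '' S).Finite := by
  rcases h with ⟨A, L, hLA, h⟩ | ⟨B, R, hBR, h⟩
  · have h1 := hS.image fun g : GL (Fin r) ℂ => L * ((g : Matrix (Fin r) (Fin r) ℂ) * A)
    refine Set.Finite.of_finite_image (f := fun g : GL (Fin s) ℂ => (g : Matrix (Fin s) (Fin s) ℂ))
      (h1.subset ?_) Units.val_injective.injOn
    rintro _ ⟨_, ⟨x, hx, rfl⟩, rfl⟩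
    refine ⟨ρ x, ⟨x, hx, rfl⟩, ?_⟩
    simp only
    rw [h x, ← Matrix.mul_assoc, hLA, Matrix.one_mul]
  · have h1 := hS.image fun g : GL (Fin r) ℂ => B * (g : Matrix (Fin r) (Fin r) ℂ) * R
    refine Set.Finite.of_finite_image (f := fun g : GL (Fin s) ℂ => (g : Matrix (Fin s) (Fin s) ℂ))
      (h1.subset ?_) Units.val_injective.injOn
    rintro _ ⟨_, ⟨x, hx, rfl⟩, rfl⟩
    refine ⟨ρ x, ⟨x, hx, rfl⟩, ?_⟩
    simp only
    rw [h x, Matrix.mul_assoc, hBR, Matrix.mul_one]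

theorem thm_RED : St_Red := by
  intro hIrr n r ρ hPR hfin
  refine quasi_of_sub (F := FreeGroup (Fin n)) (fun r ρ => (∀ i, PR (ρ (FreeGroup.of i))) ∧
    ∀ (A B : List (FreeGroup (Fin n))) (y : FreeGroup (Fin n)), BReach (std n) (A ++ y :: B) →
      (ρ '' (Subgroup.closure {A.prod, y} : Subgroup (FreeGroup (Fin n)))).Finite) ?_ ?_ r ρ
    ⟨hPR, hfin⟩
  · rintro r s ρ σ ⟨h1, h2⟩ hs
    exact ⟨fun i => PR_sub hs (h1 i), fun A B y hy => finite_sub hs (h2 A B y hy)⟩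
  · rintro r ρ hr hI ⟨h1, h2⟩
    exact hIrr n r ρ hr hI h1 h2

end Pool.Agent.PRS
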