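import Pool.Agent.PRS.Defs
import Pool.Agent.H2G.UniR

/-!
# PRS module TRA
-/

set_option autoImplicit false

namespace Pool.Agent.PRS

theorem thm_TRA : St_Tra := by
  intro r g h x hx h0
  refine H2G.root_of_finite g (h.subset ?_) x hx h0
  rintro _ ⟨k, rfl⟩
  exact ⟨k, rfl⟩

end Pool.Agent.PRS
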