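import Pool.Agent.PRS.Defs
import Pool.Agent.H2G.UniR

/-!
# PRS module UNI
-/

set_option autoImplicit false

namespace Pool.Agent.PRS

theorem thm_UNI : St_Uni := fun _ _ _ hH hg => H2G.norm_trace_le hH hg

end Pool.Agent.PRS
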