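import Pool.Agent.PRS.GEN
import Pool.Agent.PRS.CYC
import Pool.Agent.PRS.ORB
import Pool.Agent.PRS.LAM
import Pool.Agent.PRS.DUA
import Pool.Agent.PRS.HER
import Pool.Agent.PRS.POS
import Pool.Agent.PRS.UNI
import Pool.Agent.PRS.KRO
import Pool.Agent.PRS.TRA
import Pool.Agent.PRS.IRR
import Pool.Agent.PRS.RED
import Pool.Agent.HZ.RedE

/-!
# Systems of pseudo-reflections: assembly of the pure case
-/

set_option autoImplicit false

namespace Pool.Agent.PRS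

open Matrix Pool.Agent.HZ

/-- finite order on simple loops: finite orbit of the character, and cyclotomic integers as
traces -/
theorem pure_a (m r : ℕ) (ρ : FreeGroup (Fin m) →* GL (Fin r) ℂ)
    (hPR : ∀ i, PR (ρ (FreeGroup.of i))) (hQ : ∀ γ, IsSimpleLoop γ → Quasi (ρ γ)) :
    FinOrb ρ ∧ ∃ M > 0, ∀ w, (ρ w : Matrix (Fin r) (Fin r) ℂ).trace ∈
      Algebra.adjoin ℤ {x : ℂ | x ^ M = 1} := by
  obtain ⟨M, hM, hexp⟩ := exists_exponent ρ.range (range_fg ρ)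
  have hG : Good M ρ := ⟨hPR, fun γ hγ x hx => hexp _ ⟨γ, rfl⟩ x hx (hQ γ hγ x hx)⟩
  exact ⟨thm_ORB thm_Gen thm_LAM M m r ρ hM hG,
    M, hM, fun w => thm_CYC thm_Gen thm_LAM M m r ρ hM hG w⟩

/-- the pure case of part (b) -/
theorem pure_b (m r : ℕ) (ρ : FreeGroup (Fin m) →* GL (Fin r) ℂ)
    (hPR : ∀ i, PR (ρ (FreeGroup.of i)))
    (hp : ∀ (A B : List (FreeGroup (Fin m))) (y : FreeGroup (Fin m)),
      BReach (std m) (A ++ y :: B) →
      (ρ '' (Subgroup.closure {A.prod, y} : Subgroup (FreeGroup (Fin m)))).Finite) :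
    ∀ w, Quasi (ρ w) := by
  refine thm_RED ?_ m r ρ hPR hp
  exact thm_Irr (thm_CYC thm_Gen thm_LAM) (thm_Dua thm_Gen thm_LAM) thm_Her thm_POS thm_UNI
    thm_KRO thm_TRA

/-- finite image of completely reducible representations -/
theorem fin_of_quasi (m r : ℕ) (ρ : FreeGroup (Fin m) →* GL (Fin r) ℂ) (h : ∀ w, Quasi (ρ w))
    (hc : CRed ρ.range) : Finite ρ.range := by
  refine finite_of_roots ρ.range ρ.range (range_fg ρ) le_rfl ?_ ?_ hc
  · intro γ hγ n hn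
    exact Subgroup.mul_mem _ (Subgroup.mul_mem _ hγ hn) (Subgroup.inv_mem _ hγ)
  · rintro _ ⟨w, rfl⟩ z hz
    exact h w z hz

end Pool.Agent.PRS
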