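import Pool.Agent.PRS.StX1

/-!
# Module TWO: two letter words (helper12)
-/

set_option autoImplicit false

namespace Pool.Agent.PRS

open Matrix

section Two

variable {R : Type} [CommRing R] {r : ℕ} {S : Subring R}

/-- multiplicativity -/
theorem TWO_mult {e e' : Matrix (Fin r) (Fin r) R} (he : RO e) (he' : RO e')
    (X Y : Matrix (Fin r) (Fin r) R) :
    (e * X * e' * Y).trace * (e * e').trace = (e * X * e').trace * (e * e' * Y).trace := by
  have h1 : (e' * Y * e * X).trace = (e * X * e' * Y).trace := by
    rw [mul_assoc (e' * Y) e X, Matrix.trace_mul_comm, ← mul_assoc]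
  have h2 := he' (Y * e * X)
  have h3 : e' * (Y * e * X) = e' * Y * e * X := by
    rw [← mul_assoc, ← mul_assoc]
  rw [h3, h1] at h2
  have h4 : (e * X * e' * Y).trace * (e * e').trace = (e * (e' * Y * e * X * e')).trace := by
    rw [h2, mul_smul_comm, Matrix.trace_smul, smul_eq_mul]
  have h5 : e * (e' * Y * e * X * e') = e * (e' * Y) * e * (X * e') := by
    simp only [mul_assoc]
  rw [h4, h5, he (e' * Y), smul_mul_assoc, Matrix.trace_smul, smul_eq_mul, ← mul_assoc,
    ← mul_assoc, mul_comm]

theorem TWO_mem {e e' : Matrix (Fin r) (Fin r) R} (he : RO e) (he' : RO e') {p' : R}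
    (hp : p' * (e * e').trace = 1) (hp' : p' ∈ S) {X Y : Matrix (Fin r) (Fin r) R}
    (hX : (e * X * e').trace ∈ S) (hY : (e * e' * Y).trace ∈ S) :
    (e * X * e' * Y).trace ∈ S := by
  have h1 := TWO_mult he he' X Y
  have h2 : (e * X * e' * Y).trace = p' * ((e * X * e').trace * (e * e' * Y).trace) := by
    rw [← h1, mul_comm (e * X * e' * Y).trace, ← mul_assoc, hp, one_mul]
  rw [h2]
  exact S.mul_mem hp' (S.mul_mem hX hY)

/-- the relation of the moved letter -/
theorem TWO_rel {e e' : Matrix (Fin r) (Fin r) R} (he' : RO e') {z' : R} (hz : z' ∈ S)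
    (hp : (e * e').trace ∈ S) {X : Matrix (Fin r) (Fin r) R} (h1 : (X * e).trace ∈ S)
    (h2 : (X * e').trace ∈ S) (h3 : (X * ((1 - z' • e') * e * (1 + e'))).trace ∈ S) :
    (e * e' * X).trace - z' * (e * X * e').trace ∈ S := by
  have e1 : X * ((1 - z' • e') * e * (1 + e')) = X * e + X * (e * e') - z' • (X * (e' * e)) -
      (z' * (e * e').trace) • (X * e') := by
    have e2 : e' * e * e' = (e * e').trace • e' := by
      rw [he' e, Matrix.trace_mul_comm]
    have e3 : (1 - z' • e') * e * (1 + e') = e + e * e' - z' • (e' * e) - z' • (e' * e * e') := by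
      rw [mul_add, mul_one, sub_mul, one_mul, sub_mul, smul_mul_assoc, smul_mul_assoc]
      abel
    rw [e3, e2, smul_smul, mul_sub, mul_sub, mul_add, mul_smul_comm, mul_smul_comm]
  rw [e1, Matrix.trace_sub, Matrix.trace_sub, Matrix.trace_add, Matrix.trace_smul,
    Matrix.trace_smul, smul_eq_mul, smul_eq_mul] at h3
  have e4 : (X * (e * e')).trace = (e * e' * X).trace := Matrix.trace_mul_comm _ _
  have e5 : (X * (e' * e)).trace = (e * X * e').trace := by
    rw [← mul_assoc, Matrix.trace_mul_comm, ← mul_assoc]
  rw [e4, e5] at h3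
  have h4 : (e * e' * X).trace - z' * (e * X * e').trace =
      ((X * e).trace + (e * e' * X).trace - z' * (e * X * e').trace -
        z' * (e * e').trace * (X * e').trace) - (X * e).trace +
        z' * (e * e').trace * (X * e').trace := by ring
  rw [h4]
  exact S.add_mem (S.sub_mem h3 h1) (S.mul_mem (S.mul_mem hz hp) h2)

/-- nonnegative exponents -/
theorem TWO_pos {A e e' : Matrix (Fin r) (Fin r) R} {z' p' : R} (he : RO e) (he' : RO e')
    (ht' : e'.trace ∈ S) (hz' : z' ∈ S) (hp' : p' ∈ S) (hzz' : z' * (1 + e'.trace) = 1)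
    (hpp : p' * (e * e').trace = 1) (hp : (e * e').trace ∈ S)
    (hA : ∀ m : ℕ, (A ^ m * e).trace ∈ S) (hA' : ∀ m : ℕ, (A ^ m * e').trace ∈ S)
    (hg : ∀ m : ℕ, ((A * (1 + e)) ^ m * e').trace ∈ S)
    (h1 : ∀ m : ℕ, (A ^ m * ((1 - z' • e') * e * (1 + e'))).trace ∈ S) (m : ℕ) :
    (e * A ^ m * e').trace ∈ S ∧ (e * e' * A ^ m).trace ∈ S := by
  induction m using Nat.strong_induction_on with
  | _ m ih =>
    -- words with `g`
    have hc : ∀ j i, i + j < m → (e * (A ^ i * (A * (1 + e)) ^ j) * e').trace ∈ S := by
      intro j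
      induction j with
      | zero =>
        intro i hi
        rw [pow_zero, mul_one]
        exact (ih i hi).1
      | succ j ihj =>
        intro i hi
        have h2 := ihj (i + 1) (by omega)
        have h3 := ihj 0 (by omega)
        rw [pow_zero, one_mul] at h3
        have h4 : e * (A ^ i * (A * (1 + e)) ^ (j + 1)) * e' =
            e * (A ^ (i + 1) * (A * (1 + e)) ^ j) * e' +
              e * A ^ (i + 1) * e * ((A * (1 + e)) ^ j * e') := by
          rw [pow_succ' (A * (1 + e)) j, pow_succ A i]
          noncomm_ring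
        rw [h4, he, smul_mul_assoc, Matrix.trace_add, Matrix.trace_smul, smul_eq_mul]
        refine S.add_mem h2 (S.mul_mem ?_ ?_)
        · rw [Matrix.trace_mul_comm]
          exact hA _
        · rw [← mul_assoc]
          exact h3
    -- the second trace
    have hb : (e * e' * A ^ m).trace ∈ S := by
      rcases m with _ | m
      · rw [pow_zero, mul_one]
        exact hp
      have hstep : ∀ i, i ≤ m → (A ^ i * (A * (1 + e)) ^ (m + 1 - i) * e').trace ∈ S := by
        intro i
        induction i with
        | zero =>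
          intro _
          rw [pow_zero, one_mul]
          exact hg _
        | succ i ihi =>
          intro hi
          have h2 := ihi (by omega)
          obtain ⟨j, hj⟩ : ∃ j, m + 1 - i = j + 1 := ⟨m - i, by omega⟩
          have hj' : m + 1 - (i + 1) = j := by omega
          rw [hj] at h2
          rw [hj']
          have h4 : A ^ i * (A * (1 + e)) ^ (j + 1) * e' =
              A ^ (i + 1) * (A * (1 + e)) ^ j * e' +
                A ^ (i + 1) * (e * (A * (1 + e)) ^ j * e') := by
            rw [pow_succ' (A * (1 + e)) j, pow_succ A i]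
            noncomm_ring
          rw [h4, Matrix.trace_add] at h2
          have h5 : (A ^ (i + 1) * (e * (A * (1 + e)) ^ j * e')).trace ∈ S := by
            rw [Matrix.trace_mul_comm]
            refine TWO_mem he he' hpp hp' ?_ (ih (i + 1) (by omega)).2
            have := hc j 0 (by omega)
            rwa [pow_zero, one_mul] at this
          have h6 := S.sub_mem h2 h5
          rwa [add_sub_cancel_right] at h6
      have h2 := hstep m (le_refl _)
      have e1 : m + 1 - m = 1 := by omega
      rw [e1, pow_one] at h2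
      have h4 : A ^ m * (A * (1 + e)) * e' = A ^ (m + 1) * e' + A ^ (m + 1) * (e * e') := by
        rw [pow_succ A m]
        noncomm_ring
      rw [h4, Matrix.trace_add] at h2
      have h6 := S.sub_mem h2 (hA' (m + 1))
      rw [add_sub_cancel_left, Matrix.trace_mul_comm] at h6
      exact h6
    refine ⟨?_, hb⟩
    have h2 := TWO_rel he' hz' hp (hA m) (hA' m) (h1 m)
    have h3 := S.sub_mem hb h2
    rw [sub_sub_cancel] at h3
    have h4 : (e * A ^ m * e').trace = (1 + e'.trace) * (z' * (e * A ^ m * e').trace) := by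
      rw [← mul_assoc, mul_comm (1 + e'.trace), hzz', one_mul]
    rw [h4]
    exact S.mul_mem (S.add_mem S.one_mem ht') h3

/-- negative exponents -/
theorem TWO_neg {B e e' : Matrix (Fin r) (Fin r) R} {z z' p' : R} (he : RO e) (he' : RO e')
    (ht : e.trace ∈ S) (hz : z ∈ S) (hz' : z' ∈ S) (hp' : p' ∈ S)
    (hzz : z * (1 + e.trace) = 1) (hpp : p' * (e * e').trace = 1) (hp : (e * e').trace ∈ S)
    (hB : ∀ m : ℕ, (B ^ m * e).trace ∈ S) (hB' : ∀ m : ℕ, (B ^ m * e').trace ∈ S)
    (hg : ∀ m : ℕ, (((1 - z • e) * B) ^ m * e').trace ∈ S)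
    (h1 : ∀ m : ℕ, (B ^ m * ((1 - z' • e') * e * (1 + e'))).trace ∈ S) (m : ℕ) :
    (e * B ^ m * e').trace ∈ S ∧ (e * e' * B ^ m).trace ∈ S := by
  induction m using Nat.strong_induction_on with
  | _ m ih =>
    have hd : ∀ j i, i + j < m → (e * e' * (((1 - z • e) * B) ^ j * B ^ i)).trace ∈ S := by
      intro j
      induction j with
      | zero =>
        intro i hi
        rw [pow_zero, one_mul]
        exact (ih i hi).2
      | succ j ihj =>
        intro i hi
        have h2 := ihj (i + 1) (by omega)
        have h3 := ihj 0 (by omega)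
        rw [pow_zero, mul_one] at h3
        have h4 : e * e' * (((1 - z • e) * B) ^ (j + 1) * B ^ i) =
            e * e' * (((1 - z • e) * B) ^ j * B ^ (i + 1)) -
              z • (e * (e' * ((1 - z • e) * B) ^ j) * e * B ^ (i + 1)) := by
          rw [pow_succ ((1 - z • e) * B) j, pow_succ' B i]
          have h5 : ∀ W : Matrix (Fin r) (Fin r) R, e * e' * (W * ((1 - z • e) * B) * B ^ i) =
              e * e' * (W * (B * B ^ i)) - z • (e * (e' * W) * e * (B * B ^ i)) := by
            intro W
            rw [sub_mul, one_mul, mul_sub, sub_mul, mul_sub, smul_mul_assoc, mul_smul_comm,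
              smul_mul_assoc, mul_smul_comm]
            simp only [mul_assoc]
          exact h5 _
        rw [h4, he, smul_mul_assoc, Matrix.trace_sub, Matrix.trace_smul, Matrix.trace_smul,
          smul_eq_mul, smul_eq_mul]
        refine S.sub_mem h2 (S.mul_mem hz (S.mul_mem ?_ ?_))
        · rw [← mul_assoc]
          exact h3
        · rw [Matrix.trace_mul_comm]
          exact hB _
    have ha : (e * B ^ m * e').trace ∈ S := by
      rcases m with _ | m
      · rw [pow_zero, mul_one]
        exact hp
      have key : ∀ (W : Matrix (Fin r) (Fin r) R) (i : ℕ),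
          (W * ((1 - z • e) * B) * B ^ i * e').trace =
            (W * B ^ (i + 1) * e').trace - z * (e * B ^ (i + 1) * e' * W).trace := by
        intro W i
        have h4 : W * ((1 - z • e) * B) * B ^ i * e' =
            W * B ^ (i + 1) * e' - z • (W * (e * B ^ (i + 1) * e')) := by
          rw [pow_succ' B i, sub_mul, one_mul, mul_sub, sub_mul, sub_mul, smul_mul_assoc,
            mul_smul_comm, smul_mul_assoc, smul_mul_assoc]
          simp only [mul_assoc]
        rw [h4, Matrix.trace_sub, Matrix.trace_smul, smul_eq_mul,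
          Matrix.trace_mul_comm W (e * B ^ (i + 1) * e')]
      have hstep : ∀ i, i ≤ m → (((1 - z • e) * B) ^ (m + 1 - i) * B ^ i * e').trace ∈ S := by
        intro i
        induction i with
        | zero =>
          intro _
          rw [pow_zero, mul_one]
          exact hg _
        | succ i ihi =>
          intro hi
          have h2 := ihi (by omega)
          obtain ⟨j, hj⟩ : ∃ j, m + 1 - i = j + 1 := ⟨m - i, by omega⟩
          have hj' : m + 1 - (i + 1) = j := by omega
          rw [hj, pow_succ ((1 - z • e) * B) j, key] at h2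
          rw [hj']
          have h5 : (e * B ^ (i + 1) * e' * ((1 - z • e) * B) ^ j).trace ∈ S := by
            refine TWO_mem he he' hpp hp' (ih (i + 1) (by omega)).1 ?_
            have := hd j 0 (by omega)
            rwa [pow_zero, mul_one] at this
          have h6 := S.add_mem h2 (S.mul_mem hz h5)
          rwa [sub_add_cancel] at h6
      have h2 := hstep m (le_refl _)
      have e1 : m + 1 - m = 1 := by omega
      rw [e1, pow_one, ← one_mul ((1 - z • e) * B), key, one_mul, mul_one] at h2
      have h6 := S.sub_mem (hB' (m + 1)) h2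
      rw [sub_sub_cancel] at h6
      have h4 : (e * B ^ (m + 1) * e').trace =
          (1 + e.trace) * (z * (e * B ^ (m + 1) * e').trace) := by
        rw [← mul_assoc, mul_comm (1 + e.trace), hzz, one_mul]
      rw [h4]
      exact S.mul_mem (S.add_mem S.one_mem ht) h6
    refine ⟨ha, ?_⟩
    have h2 := TWO_rel he' hz' hp (hB m) (hB' m) (h1 m)
    have h3 := S.add_mem h2 (S.mul_mem hz' ha)
    rwa [sub_add_cancel] at h3

end Two

theorem thm_Two : St_Two := by
  intro R _ r S A e e' g z z' p' he he' hg ht ht' hz hz' hp' hzz hzz' hpp hp hA hA' hG h1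
  -- powers
  have hpos : ∀ (X : GL (Fin r) R) (m : ℕ),
      ((X ^ (m : ℤ) : GL (Fin r) R) : Matrix (Fin r) (Fin r) R) =
        (X : Matrix (Fin r) (Fin r) R) ^ m := by
    intro X m
    rw [zpow_natCast, Units.val_pow_eq_pow_val]
  have hneg : ∀ (X : GL (Fin r) R) (m : ℕ),
      ((X ^ (-(m : ℤ)) : GL (Fin r) R) : Matrix (Fin r) (Fin r) R) =
        ((X⁻¹ : GL (Fin r) R) : Matrix (Fin r) (Fin r) R) ^ m := by
    intro X m
    rw [_root_.zpow_neg, zpow_natCast, ← inv_pow, Units.val_pow_eq_pow_val]
  have hee : e * e = e.trace • e := by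
    have := he 1
    rwa [mul_one] at this
  have hginv : ((g⁻¹ : GL (Fin r) R) : Matrix (Fin r) (Fin r) R) =
      (1 - z • e) * ((A⁻¹ : GL (Fin r) R) : Matrix (Fin r) (Fin r) R) := by
    apply Units.inv_eq_of_mul_eq_one_left
    have h2 : (1 - z • e) * (1 + e) = 1 := by
      rw [mul_add, mul_one, sub_mul, one_mul, smul_mul_assoc, hee, smul_smul]
      have h3 : z • e + (z * e.trace) • e = e := by
        rw [← add_smul]
        have h4 : z + z * e.trace = 1 := by rw [← hzz]; ring
        rw [h4, one_smul]
      have h5 : (1 : Matrix (Fin r) (Fin r) R) - z • e + (e - (z * e.trace) • e) =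
          1 + e - (z • e + (z * e.trace) • e) := by abel
      rw [h5, h3, add_sub_cancel_right]
    rw [hg, mul_assoc, ← mul_assoc ((A⁻¹ : GL (Fin r) R) : Matrix (Fin r) (Fin r) R),
      ← Units.val_mul, inv_mul_cancel, Units.val_one, one_mul, h2]
  have P := TWO_pos (S := S) (A := (A : Matrix (Fin r) (Fin r) R)) (z' := z') (p' := p') he he'
    ht' hz' hp' hzz' hpp hp
    (fun m => by rw [← hpos]; exact hA m) (fun m => by rw [← hpos]; exact hA' m)
    (fun m => by rw [← hg, ← hpos]; exact hG m) (fun m => by rw [← hpos]; exact h1 m)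
  have N := TWO_neg (S := S) (B := ((A⁻¹ : GL (Fin r) R) : Matrix (Fin r) (Fin r) R)) (z := z)
    (z' := z') (p' := p') he he' ht hz hz' hp' hzz hpp hp
    (fun m => by rw [← hneg]; exact hA _) (fun m => by rw [← hneg]; exact hA' _)
    (fun m => by rw [← hginv, ← hneg]; exact hG _) (fun m => by rw [← hneg]; exact h1 _)
  have all : ∀ i : ℤ, (e * ((A ^ i : GL (Fin r) R) : Matrix (Fin r) (Fin r) R) * e').trace ∈ S ∧
      (e * e' * ((A ^ i : GL (Fin r) R) : Matrix (Fin r) (Fin r) R)).trace ∈ S := by
    intro i
    obtain ⟨m, rfl | rfl⟩ := i.eq_nat_or_neg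
    · rw [hpos]
      exact P m
    · rw [hneg]
      exact N m
  intro i j
  exact TWO_mem he he' hpp hp' (all i).1 (all j).2

end Pool.Agent.PRS
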