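import Pool.Agent.PRS.StX3
import Pool.Agent.PRS.IRR

/-!
# One arbitrary generator: consequences of the hypotheses

`thm_Bas : St_Bas`: the simple loops have eigenvalues which are `M`-th roots of unity, and the
reachable tuples consist of simple loops and satisfy the finiteness conditions.
-/

set_option autoImplicit false

namespace Pool.Agent.PRS

open Matrix Pool.Agent.HZ

variable {n r : ℕ}

/-- conjugates of the generators different from the first -/
private def Nr (y : FreeGroup (Fin (n + 1))) : Prop :=
  ∃ i : Fin (n + 1), i ≠ 0 ∧ ∃ h, y = h * FreeGroup.of i * h⁻¹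

private theorem Nr.conj {y : FreeGroup (Fin (n + 1))} (h : Nr y) (g : FreeGroup (Fin (n + 1))) :
    Nr (g * y * g⁻¹) := by
  obtain ⟨i, hi, k, rfl⟩ := h
  exact ⟨i, hi, g * k, by group⟩

private theorem Nr.conj' {y : FreeGroup (Fin (n + 1))} (h : Nr y) (g : FreeGroup (Fin (n + 1))) :
    Nr (g⁻¹ * y * g) := by
  have h1 := h.conj g⁻¹
  rwa [inv_inv] at h1

private theorem Nr.of_sT {y : FreeGroup (Fin (n + 1))} (h : y ∈ sT n) : Nr y := by
  obtain ⟨i, _, rfl⟩ := List.mem_map.1 h
  exact ⟨i.succ, Fin.succ_ne_zero i, 1, by simp⟩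

/-- at most one entry is not a conjugate of a generator different from the first -/
private def Pw (L : List (FreeGroup (Fin (n + 1)))) : Prop :=
  L.Pairwise fun x y => Nr x ∨ Nr y

private theorem Pw.swap {P S : List (FreeGroup (Fin (n + 1)))} {a b a' b' : FreeGroup (Fin (n + 1))}
    (ha : Nr a → Nr a') (hb : Nr b → Nr b') (h : Pw (P ++ a :: b :: S)) :
    Pw (P ++ b' :: a' :: S) := by
  unfold Pw at h ⊢
  rw [List.pairwise_append] at h ⊢
  obtain ⟨h1, h2, h3⟩ := h
  rw [List.pairwise_cons, List.pairwise_cons] at h2 ⊢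
  obtain ⟨h4, h5, h6⟩ := h2
  refine ⟨h1, ⟨?_, ?_, h6⟩, ?_⟩
  · intro x hx
    rcases List.mem_cons.1 hx with rfl | hx
    · rcases h4 b (by simp) with h7 | h7
      · exact Or.inr (ha h7)
      · exact Or.inl (hb h7)
    · exact (h5 x hx).imp_left hb
  · intro x hx
    exact (h4 x (by simp [hx])).imp_left ha
  · intro x hx y hy
    rcases List.mem_cons.1 hy with rfl | hy
    · exact (h3 x hx b (by simp)).imp_right hb
    · rcases List.mem_cons.1 hy with rfl | hy
      · exact (h3 x hx a (by simp)).imp_right ha
      · exact h3 x hx y (by simp [hy])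

private theorem Pw.move {L L' : List (FreeGroup (Fin (n + 1)))} (hm : BMove L L') (h : Pw L) :
    Pw L' := by
  cases hm with
  | r P S a b => exact Pw.swap (fun h => h.conj' b) (fun h => h) h
  | l P S a b => exact Pw.swap (fun h => h) (fun h => h.conj a) h

private theorem Pw.reach {L L' : List (FreeGroup (Fin (n + 1)))} (hm : BReach L L') (h : Pw L) :
    Pw L' := by
  induction hm with
  | refl => exact h
  | tail _ hs ih => exact ih.move hs

private theorem std_eq (n : ℕ) : std (n + 1) = FreeGroup.of 0 :: sT n := by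
  rw [std, sT, List.finRange_succ, List.map_cons, List.map_map]
  rfl

private theorem Pw.std (n : ℕ) : Pw (std (n + 1)) := by
  rw [std_eq]
  unfold Pw
  rw [List.pairwise_cons]
  refine ⟨fun x hx => Or.inr (Nr.of_sT hx), ?_⟩
  have h1 : ∀ L : List (FreeGroup (Fin (n + 1))), (∀ x ∈ L, Nr x) →
      L.Pairwise fun x y => Nr x ∨ Nr y := by
    intro L
    induction L with
    | nil => exact fun _ => List.Pairwise.nil
    | cons x L ih =>
      intro h
      rw [List.pairwise_cons]
      exact ⟨fun y _ => Or.inl (h x (by simp)), ih fun y hy => h y (by simp [hy])⟩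
  exact h1 _ fun x hx => Nr.of_sT hx

private theorem bas_pants {ρ : FreeGroup (Fin (n + 1)) →* GL (Fin r) ℂ} (hp : PantsX ρ)
    (A B : List (FreeGroup (Fin (n + 1)))) (y g : FreeGroup (Fin (n + 1)))
    (h : BReach (std (n + 1)) (A ++ y :: B)) (hy : Nr y)
    (hg : g ∈ (Subgroup.closure {A.prod, y} : Subgroup (FreeGroup (Fin (n + 1))))) :
    Quasi (ρ g) := by
  refine quasi_of_finite _ _ (hp A B y h hy) ?_
  intro k
  exact ⟨g ^ k, Subgroup.pow_mem _ hg k, by rw [map_pow]⟩

private theorem bas_loop {ρ : FreeGroup (Fin (n + 1)) →* GL (Fin r) ℂ} (hn : 0 < n)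
    (hp : PantsX ρ) (γ : FreeGroup (Fin (n + 1))) (hγ : IsSimpleLoop γ) : Quasi (ρ γ) := by
  obtain ⟨A, B, hAB, rfl⟩ := hγ
  have hw : Pw (A ++ B) := (Pw.std n).reach hAB
  have hlen : (A ++ B).length = n + 1 := by
    rw [hAB.length_eq, std, List.length_map, List.length_finRange]
  rcases List.eq_nil_or_concat A with rfl | ⟨A', y, rfl⟩
  · refine quasi_of_finite _ {1} (Set.finite_singleton _) ?_
    intro k
    simp
  · rw [List.concat_eq_append] at hw hAB hlen ⊢
    by_cases hy : Nr y
    · refine bas_pants hp A' B y _ (by simpa using hAB) hy ?_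
      rw [List.prod_append, List.prod_singleton]
      exact Subgroup.mul_mem _ (Subgroup.subset_closure (by simp))
        (Subgroup.subset_closure (by simp))
    · rcases List.eq_nil_or_concat A' with rfl | ⟨A'', y', rfl⟩
      · cases B with
        | nil =>
          simp at hlen
          omega
        | cons y' B =>
          have hy' : Nr y' := by
            have h1 : Nr y ∨ Nr y' := by
              have h3 : List.Pairwise (fun x y => Nr x ∨ Nr y) (y :: y' :: B) := hw
              exact (List.pairwise_cons.1 h3).1 y' (by simp)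
            exact h1.resolve_left hy
          refine bas_pants hp [y] B y' _ (by simpa using hAB) hy' ?_
          exact Subgroup.subset_closure (by simp)
      · rw [List.concat_eq_append] at hw hAB hlen ⊢
        have hy' : Nr y' := by
          have h1 : Nr y' ∨ Nr y := by
            have h3 : List.Pairwise (fun x y => Nr x ∨ Nr y) ((A'' ++ [y'] ++ [y]) ++ B) := hw
            have h4 := (List.pairwise_append.1 (List.pairwise_append.1 h3).1).2.2
            exact h4 y' (by simp) y (by simp)
          exact h1.resolve_right hy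
        have hm : BReach (std (n + 1)) ((A'' ++ [y' * y * y'⁻¹]) ++ y' :: B) := by
          have h1 : BReach (A'' ++ y' :: y :: B) (A'' ++ (y' * y * y'⁻¹) :: y' :: B) :=
            BReach.of_move (BMove.l A'' B y' y)
          have h2 : A'' ++ [y'] ++ [y] ++ B = A'' ++ y' :: y :: B := by simp
          rw [h2] at hAB
          have h3 := hAB.trans h1
          simpa using h3
        refine bas_pants hp _ B y' _ hm hy' ?_
        have e : (A'' ++ [y'] ++ [y]).prod = (A'' ++ [y' * y * y'⁻¹]).prod * y' := by
          simp [mul_assoc]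
        rw [e]
        exact Subgroup.mul_mem _ (Subgroup.subset_closure (by simp))
          (Subgroup.subset_closure (by simp))

private theorem bas_Rch {a : FreeGroup (Fin (n + 1))} {M : List (FreeGroup (Fin (n + 1)))}
    (h : Rch (FreeGroup.of 0) (sT n) a M) : ∀ y ∈ M, Nr y := by
  induction h with
  | refl => exact fun y hy => Nr.of_sT hy
  | move _ hm ih =>
    cases hm with
    | r P S a b =>
      intro y hy
      simp only [List.mem_append, List.mem_cons] at hy
      rcases hy with hy | rfl | rfl | hy
      · exact ih y (by simp [hy])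
      · exact ih y (by simp)
      · exact (ih a (by simp)).conj' b
      · exact ih y (by simp [hy])
    | l P S a b =>
      intro y hy
      simp only [List.mem_append, List.mem_cons] at hy
      rcases hy with hy | rfl | rfl | hy
      · exact ih y (by simp [hy])
      · exact (ih b (by simp)).conj a
      · exact ih y (by simp)
      · exact ih y (by simp [hy])
  | @twist a y M _ ih =>
    intro x hx
    rcases List.mem_cons.1 hx with rfl | hx
    · exact (ih y (by simp)).conj (a * y)
    · exact ih x (by simp [hx])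
  | @untwist a y M _ ih =>
    intro x hx
    rcases List.mem_cons.1 hx with rfl | hx
    · exact (ih y (by simp)).conj' (a * y)
    · exact ih x (by simp [hx])

private theorem bas_sub {L A : List (FreeGroup (Fin (n + 1)))} (h : BReach (std (n + 1)) L)
    (hA : A.Sublist L) : IsSimpleLoop A.prod := by
  have h1 : Pre (std (n + 1)) A := (Pre.of_reach h).trans (Pre.sublist hA)
  obtain ⟨B, hB⟩ := h1
  exact ⟨A, B, hB, rfl⟩

private theorem bas_RF {a : FreeGroup (Fin (n + 1))} {N : List (FreeGroup (Fin (n + 1)))}
    (h : RF n a N) : ∃ T, BReach (std (n + 1)) (a :: (N ++ T)) ∧ ∀ y ∈ N, Nr y := by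
  obtain ⟨T, hT⟩ := h
  refine ⟨T, ?_, fun y hy => bas_Rch hT y (by simp [hy])⟩
  rw [std_eq]
  exact hT.breach

theorem thm_Bas : St_Bas := by
  intro n r ρ hn hX
  obtain ⟨hpr, hp⟩ := hX
  refine ⟨?_, ?_, ?_, ?_⟩
  · obtain ⟨M, hM, hexp⟩ := exists_exponent ρ.range (range_fg ρ)
    exact ⟨M, hM, fun γ hγ x hx => hexp _ ⟨γ, rfl⟩ x hx (bas_loop hn hp γ hγ x hx)⟩
  · intro a N h
    obtain ⟨T, hT, hN⟩ := bas_RF h
    have hsub : N.Sublist (a :: (N ++ T)) :=
      (List.sublist_append_left N T).trans (List.sublist_cons_self a _)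
    refine ⟨fun y hy => ⟨?_, ?_⟩, ?_, ?_, ?_⟩
    · obtain ⟨i, hi, h, rfl⟩ := hN y hy
      rw [map_mul, map_mul, map_inv]
      exact PR_conj' _ _ (hpr i hi)
    · have h1 := bas_sub hT (A := [y]) ((List.singleton_sublist.2 hy).trans hsub)
      simpa using h1
    · have h1 := bas_sub hT (A := [a]) (List.singleton_sublist.2 (by simp))
      simpa using h1
    · have h1 := bas_sub hT (A := a :: N) ((List.sublist_append_left N T).cons_cons a)
      simpa using h1
    · exact bas_sub hT hsub
  · intro a y y' N h
    obtain ⟨T, hT, hN⟩ := bas_RF h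
    have hsub : [y, y'].Sublist (a :: (y :: y' :: N ++ T)) := by
      refine List.Sublist.cons a ?_
      exact (List.sublist_append_left [y, y'] (N ++ T))
    obtain ⟨B, hB⟩ := (Pre.of_reach hT).trans (Pre.sublist hsub)
    have h1 := hp [y] B y' (by simpa using hB) (hN y' (by simp))
    simpa using h1
  · intro a N y h
    obtain ⟨T, hT, hN⟩ := bas_RF h
    have h1 := hp (a :: N) T y (by simpa using hT) (hN y (by simp))
    simpa using h1

end Pool.Agent.PRS
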