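import Pool.Agent.PRS.StX3
import Pool.Agent.PRS.IRR

/-!
# One arbitrary generator: the traces of an irreducible representation are bounded by the rank

Helper66, for MP_0707f5_ag: the module `St_Bdx` of StX3.lean.  As `trace_le` in IRR.lean: the
character is the character of the conjugate dual (`St_Dux`), so there is an invariant Hermitian form
(`St_Her`), which is definite (`St_Pox`), so the traces are bounded (`St_Uni`).
-/

set_option autoImplicit false

namespace Pool.Agent.PRS

open Matrix Pool.Agent.HZ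
open scoped ComplexOrder

/-- the generators are `x_0` and the entries of `sT n` -/
private theorem bdx_std (n : ℕ) : std (n + 1) = FreeGroup.of 0 :: sT n := by
  rw [std, sT, List.finRange_succ, List.map_cons, List.map_map]
  rfl

private theorem bdx_closure (n : ℕ) : Subgroup.closure ({FreeGroup.of 0} ∪ {x | x ∈ sT n}) =
    (⊤ : Subgroup (FreeGroup (Fin (n + 1)))) := by
  rw [← closure_std, bdx_std]
  congr 1
  ext x
  simp

private theorem bdx_range {n r : ℕ} (ρ : FreeGroup (Fin (n + 1)) →* GL (Fin r) ℂ) :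
    Subgroup.closure ({ρ (FreeGroup.of 0)} ∪ {x | x ∈ (sT n).map ρ}) = ρ.range := by
  have h1 : ({ρ (FreeGroup.of 0)} ∪ {x | x ∈ (sT n).map ρ} : Set (GL (Fin r) ℂ)) =
      ρ '' ({FreeGroup.of 0} ∪ {x | x ∈ sT n}) := by
    ext x
    simp [eq_comm (a := x)]
  rw [h1, ← MonoidHom.map_closure, bdx_closure, MonoidHom.range_eq_map]

theorem thm_Bdx (hD : St_Dux) (hH : St_Her) (hP : St_Pox) (hU : St_Uni) (hB : St_Bas) :
    St_Bdx := by
  intro n r ρ hn hX hr hirr w
  obtain ⟨-, -, hB3, hB4⟩ := hB n r ρ hn hX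
  obtain ⟨H, hH1, hH2, hH3⟩ := hH r ρ.range hr hirr (by
    rintro _ ⟨x, rfl⟩
    rw [← map_inv]
    exact hD n r ρ hn hX x)
  obtain ⟨s, hs⟩ := hP r (ρ (FreeGroup.of 0)) ((sT n).map ρ) H hr
    (by rw [bdx_range]; exact hirr)
    (by
      intro y hy
      obtain ⟨y', hy', rfl⟩ := List.mem_map.1 hy
      obtain ⟨i, -, rfl⟩ := List.mem_map.1 hy'
      exact hX.1 i.succ (Fin.succ_ne_zero i))
    (by
      intro A y hA
      obtain ⟨L', hL', e⟩ := List.sublist_map_iff.1 hA
      have e' := e.symm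
      rw [List.map_eq_append_iff] at e'
      obtain ⟨A', y', rfl, rfl, e2⟩ := e'
      rw [List.map_eq_singleton_iff] at e2
      obtain ⟨y'', rfl, rfl⟩ := e2
      have h1 := hB4 (FreeGroup.of 0) A' y'' (RP.refl.sublist hL')
      have h2 := finite_closure ρ (FreeGroup.of 0 * A'.prod) y'' h1
      rwa [map_mul, map_list_prod] at h2)
    (by
      intro y y' m hA
      obtain ⟨L', hL', e⟩ := List.sublist_map_iff.1 hA
      have e' := e.symm
      rw [List.map_eq_cons_iff] at e'
      obtain ⟨z, l, rfl, rfl, e2⟩ := e'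
      rw [List.map_eq_singleton_iff] at e2
      obtain ⟨z', rfl, rfl⟩ := e2
      have h1 : RF n (FreeGroup.of 0) [z, z'] := RP.refl.sublist hL'
      have h2 : RF n (FreeGroup.of 0) [z * z' * z⁻¹, z] :=
        RP.reach h1 (BReach.of_move (BMove.l [] [] z z'))
      have h3 := RP.ztwist h2 m
      have h4 := finite_closure ρ _ _ (hB3 _ _ _ [] h3)
      simpa only [map_mul, map_zpow, map_inv] using h4)
    hH1 hH2 (hH3 _ ⟨FreeGroup.of 0, rfl⟩) (by
      intro y hy
      refine hH3 y ?_
      rw [← bdx_range]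
      exact Subgroup.subset_closure (Or.inr hy))
  refine hU r ((s : ℂ) • H) _ hs ?_
  rw [mul_smul_comm, smul_mul_assoc, hH3 _ ⟨w, rfl⟩]

end Pool.Agent.PRS
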