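import Pool.Agent.PRS.XB

/-!
# The first two letters may be assumed to be not orthogonal

`thm_Ca`: move a letter which is related to the first one to the second place, and twist.
-/

set_option autoImplicit false

namespace Pool.Agent.PRS

open Matrix Pool.Agent.HZ

theorem thm_Ca (hZ : St_Zz) : St_Ca := by
  intro R _ G _ r S ρ a₀ M₀ c c' z z' h a y N hN
  by_cases hall : ∀ y' ∈ N, ∀ k : ℤ, el ρ c y * ρ (a ^ k) * el ρ c y' = 0
  · exact Or.inl hall
  right
  push Not at hall
  obtain ⟨y', hy', k₀, hk₀⟩ := hall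
  obtain ⟨N1, N2, rfl⟩ := List.append_of_mem hy'
  have h2 : RP a₀ M₀ a (y :: y' :: ([] : List G)) := by
    refine hN.sublist ?_
    refine List.Sublist.cons_cons y ?_
    exact List.singleton_sublist.2 hy'
  rcases hZ R G r S ρ a₀ M₀ c c' z z' h a y y' [] h2 with h3 | h3
  · exact absurd (h3.1 k₀).1 hk₀
  obtain ⟨k, hk⟩ := h3.2
  have hB : BReach (y :: (N1 ++ y' :: N2))
      (y :: y' :: (N1.map (fun x => y'⁻¹ * x * y') ++ N2)) := by
    have h4 := (move_left y' N1).append_right N2
    have h5 := h4.cons y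
    simpa using h5
  have h6 := hN.reach hB
  refine ⟨_, _, _, _, h6.ztwist k, ?_, hk, ?_⟩
  · simp
    omega
  · rw [cl_ztwist k]
    exact cl_reach hB a

end Pool.Agent.PRS
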