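import Pool.Agent.PRS.StX1

/-!
# PRS module XDet (helper82): principal minors of `Qm`
-/

set_option autoImplicit false

namespace Pool.Agent.PRS

open Matrix Pool.Agent.HZ Polynomial
open scoped ComplexOrder

section XDet

/-- Schur complement without inverses -/
private theorem XDet_schur {S : Type} [CommRing S] {m k : Type} [Fintype m] [DecidableEq m]
    [Fintype k] [DecidableEq k] (M : Matrix m m S) (B : Matrix m k S) (G : Matrix k m S) :
    M.det ^ Fintype.card k * (M - B * G).det =
      M.det * (M.det • (1 : Matrix k k S) - G * M.adjugate * B).det := by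
  have h1 : fromBlocks (1 : Matrix m m S) 0 (-(G * M.adjugate)) (M.det • (1 : Matrix k k S)) *
      fromBlocks M B G 1 = fromBlocks M B 0 (M.det • (1 : Matrix k k S) - G * M.adjugate * B) := by
    rw [fromBlocks_multiply]
    congr 1
    · rw [Matrix.one_mul, Matrix.zero_mul, add_zero]
    · rw [Matrix.one_mul, Matrix.zero_mul, add_zero]
    · rw [Matrix.neg_mul, Matrix.mul_assoc, adjugate_mul, Matrix.mul_smul, Matrix.mul_one,
        Matrix.smul_mul, Matrix.one_mul, neg_add_cancel]
    · rw [Matrix.neg_mul, Matrix.mul_one]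
      abel
  have h2 := congrArg Matrix.det h1
  rw [det_mul, det_fromBlocks_zero₁₂, det_fromBlocks_zero₂₁, det_one, one_mul, det_smul, det_one,
    mul_one, det_fromBlocks_one₂₂] at h2
  exact h2

/-- the product over a finite set, in increasing order -/
private noncomputable def XDet_P {r n : ℕ} (u f : Fin n → Fin r → ℂ) (S : Finset (Fin n)) :
    Matrix (Fin r) (Fin r) ℂ :=
  ((S.sort (· ≤ ·)).map fun i => 1 + vecMulVec (u i) (f i)).prod

private theorem XDet_exp {r n : ℕ} (u f : Fin n → Fin r → ℂ) (S : Finset (Fin n)) :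
    XDet_P u f S = 1 + ∑ j ∈ S, vecMulVec (u j) (f j ᵥ* XDet_P u f (S.filter fun i => j < i)) := by
  induction S using Finset.induction_on_min with
  | empty => simp [XDet_P]
  | insert a S ha ih =>
    have haS : a ∉ S := fun h => lt_irrefl a (ha a h)
    have h1 : XDet_P u f (insert a S) = (1 + vecMulVec (u a) (f a)) * XDet_P u f S := by
      unfold XDet_P
      rw [Finset.sort_insert (r := (· ≤ ·)) (fun b hb => (ha b hb).le) haS, List.map_cons,
        List.prod_cons]
    have h2 : (insert a S).filter (fun i => a < i) = S := by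
      ext i
      rw [Finset.mem_filter, Finset.mem_insert]
      constructor
      · rintro ⟨rfl | h, h'⟩
        · exact absurd h' (lt_irrefl _)
        · exact h
      · intro h
        exact ⟨Or.inr h, ha i h⟩
    have h3 : ∀ j ∈ S, (insert a S).filter (fun i => j < i) = S.filter fun i => j < i := by
      intro j hj
      ext i
      rw [Finset.mem_filter, Finset.mem_filter, Finset.mem_insert]
      constructor
      · rintro ⟨rfl | h, h'⟩
        · exact absurd h' (not_lt.2 (ha j hj).le)
        · exact ⟨h, h'⟩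
      · rintro ⟨h, h'⟩
        exact ⟨Or.inr h, h'⟩
    have h4 : ∑ j ∈ S, vecMulVec (u j) (f j ᵥ* XDet_P u f ((insert a S).filter fun i => j < i)) =
        ∑ j ∈ S, vecMulVec (u j) (f j ᵥ* XDet_P u f (S.filter fun i => j < i)) :=
      Finset.sum_congr rfl fun j hj => by rw [h3 j hj]
    rw [Finset.sum_insert haS, h2, h4, h1, Matrix.add_mul, Matrix.one_mul, vecMulVec_mul,
      add_left_comm, ← ih, add_comm]

/-- **DET** -/
theorem thm_Det : St_Det := by
  classical
  intro r n A u f I
  set χ : ℂ[X] := A.charpoly with hχ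
  set M : Matrix (Fin r) (Fin r) ℂ[X] := charmatrix A with hM
  have hdet : M.det = χ := rfl
  -- the matrices
  let AC : Matrix (Fin r) (Fin r) ℂ[X] := (C : ℂ →+* ℂ[X]).mapMatrix A
  let UC : Matrix (Fin r) I ℂ[X] := fun a j => C (u j a)
  let FC : Matrix I (Fin r) ℂ[X] := fun i a => C (f i a)
  let g : Fin n → Fin r → ℂ := fun i => f i ᵥ* XDet_P u f (I.filter fun l => i < l)
  let GC : Matrix I (Fin r) ℂ[X] := fun i a => C (g i a)
  let N : Matrix I I ℂ[X] := fun i j => if (i : Fin n) < j then C (f i ⬝ᵥ u j) else 0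
  -- the product
  have hP : (C : ℂ →+* ℂ[X]).mapMatrix (XDet_P u f I) = 1 + UC * GC := by
    rw [XDet_exp, map_add, map_one, map_sum]
    congr 1
    ext1 a b
    rw [Matrix.sum_apply, Matrix.mul_apply]
    rw [← Finset.sum_coe_sort I (fun j => ((C : ℂ →+* ℂ[X]).mapMatrix (vecMulVec (u j)
      (f j ᵥ* XDet_P u f (I.filter fun i => j < i)))) a b)]
    refine Finset.sum_congr rfl fun j _ => ?_
    show C (vecMulVec (u j) (f j ᵥ* XDet_P u f (I.filter fun i => (j : Fin n) < i)) a b) =
      C (u j a) * C (g j b)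
    rw [vecMulVec_apply, map_mul]
  -- the recursion
  have hrec : ∀ i : Fin n, i ∈ I → g i = f i + ∑ l ∈ I.filter (fun l => i < l), (f i ⬝ᵥ u l) • g l := by
    intro i hi
    show f i ᵥ* XDet_P u f (I.filter fun l => i < l) = _
    rw [XDet_exp, Matrix.vecMul_add, Matrix.vecMul_one, Matrix.vecMul_sum]
    congr 1
    refine Finset.sum_congr rfl fun l hl => ?_
    have h1 : (I.filter fun l => i < l).filter (fun k => l < k) = I.filter fun k => l < k := by
      ext k
      simp only [Finset.mem_filter]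
      constructor
      · rintro ⟨⟨h1, _⟩, h3⟩
        exact ⟨h1, h3⟩
      · rintro ⟨h1, h3⟩
        exact ⟨⟨h1, lt_trans (Finset.mem_filter.1 hl).2 h3⟩, h3⟩
    rw [h1, vecMul_vecMulVec]
  have hNG : (1 - N) * GC = FC := by
    rw [Matrix.sub_mul, Matrix.one_mul]
    ext1 i b
    rw [Matrix.sub_apply, Matrix.mul_apply]
    have h1 : GC i b = C (f i b) + ∑ l ∈ I.filter (fun l => (i : Fin n) < l),
        C (f i ⬝ᵥ u l) * C (g l b) := by
      show C (g i b) = _
      rw [hrec i i.2, Pi.add_apply, map_add, Finset.sum_apply, map_sum]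
      congr 1
      refine Finset.sum_congr rfl fun l _ => ?_
      rw [Pi.smul_apply, smul_eq_mul, map_mul]
    have h2 : ∑ l : I, N i l * GC l b = ∑ l ∈ I.filter (fun l => (i : Fin n) < l),
        C (f i ⬝ᵥ u l) * C (g l b) := by
      rw [Finset.sum_filter, ← Finset.sum_coe_sort I]
      refine Finset.sum_congr rfl fun l _ => ?_
      show (if (i : Fin n) < l then C (f i ⬝ᵥ u l) else 0) * C (g l b) = _
      split_ifs
      · rfl
      · rw [zero_mul]
    rw [h1, h2, add_sub_cancel_right]
  have hN1 : (1 - N).det = 1 := by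
    have h1 : (1 - N).BlockTriangular id := by
      intro i j hij
      have hij' : j < i := hij
      rw [Matrix.sub_apply, Matrix.one_apply_ne (ne_of_gt hij')]
      show (0 : ℂ[X]) - (if (i : Fin n) < j then C (f i ⬝ᵥ u j) else 0) = 0
      have h2 : ¬ (i : Fin n) < j := not_lt.2 (le_of_lt (show (j : Fin n) < i from hij'))
      rw [if_neg h2, sub_zero]
    rw [det_of_isUpperTriangular h1]
    refine Finset.prod_eq_one fun i _ => ?_
    rw [Matrix.sub_apply, Matrix.one_apply_eq]
    show (1 : ℂ[X]) - (if (i : Fin n) < i then C (f i ⬝ᵥ u i) else 0) = 1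
    rw [if_neg (lt_irrefl _), sub_zero]
  -- the adjugate
  have hadj : M.adjugate * AC = (X : ℂ[X]) • M.adjugate - χ • (1 : Matrix (Fin r) (Fin r) ℂ[X]) := by
    have h1 : M.adjugate * M = χ • (1 : Matrix (Fin r) (Fin r) ℂ[X]) := by
      rw [adjugate_mul, hdet]
    have h2 : AC = (X : ℂ[X]) • (1 : Matrix (Fin r) (Fin r) ℂ[X]) - M := by
      rw [hM]
      unfold charmatrix
      rw [Matrix.smul_one_eq_diagonal, Matrix.scalar_apply]
      abel
    rw [h2, Matrix.mul_sub, h1, Matrix.mul_smul, Matrix.mul_one]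
  -- the minor
  have hQ : (Qm A u f).submatrix (fun i : I => (i : Fin n)) (fun i : I => (i : Fin n)) =
      (1 - N) * (M.det • (1 : Matrix I I ℂ[X]) - GC * M.adjugate * (AC * UC)) := by
    have h0 : (1 - N) * (M.det • (1 : Matrix I I ℂ[X]) - GC * M.adjugate * (AC * UC)) =
        χ • (1 - N) - ((X : ℂ[X]) • (FC * M.adjugate * UC) - χ • (FC * UC)) := by
      rw [Matrix.mul_sub, Matrix.mul_smul, Matrix.mul_one, hdet]
      congr 1
      rw [← Matrix.mul_assoc (1 - N) (GC * M.adjugate), ← Matrix.mul_assoc (1 - N) GC, hNG,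
        Matrix.mul_assoc FC M.adjugate (AC * UC), ← Matrix.mul_assoc M.adjugate AC UC, hadj,
        Matrix.sub_mul, Matrix.mul_sub, Matrix.smul_mul, Matrix.smul_mul, Matrix.one_mul,
        Matrix.mul_smul, Matrix.mul_smul, ← Matrix.mul_assoc]
    rw [h0]
    ext1 i j
    have e1 : (FC * M.adjugate * UC) i j =
        ((fun a => C (f i a)) ᵥ* M.adjugate) ⬝ᵥ fun a => C (u j a) := rfl
    have e2 : (FC * UC) i j = C (f i ⬝ᵥ u j) := by
      rw [Matrix.mul_apply]
      show ∑ a, C (f i a) * C (u j a) = C (∑ a, f i a * u j a)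
      rw [map_sum]
      exact Finset.sum_congr rfl fun a _ => (map_mul _ _ _).symm
    rw [Matrix.sub_apply, Matrix.sub_apply, Matrix.smul_apply, Matrix.smul_apply,
      Matrix.smul_apply, Matrix.sub_apply, e1, e2, smul_eq_mul, smul_eq_mul, smul_eq_mul]
    show (if (j : Fin n) ≤ i then C (f i ⬝ᵥ u j) * χ else 0) +
      (if (i : Fin n) = j then χ else 0) -
      X * (((fun a => C (f i a)) ᵥ* M.adjugate) ⬝ᵥ fun a => C (u j a)) =
      χ * ((1 : Matrix I I ℂ[X]) i j - (if (i : Fin n) < j then C (f i ⬝ᵥ u j) else 0)) -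
      (X * (((fun a => C (f i a)) ᵥ* M.adjugate) ⬝ᵥ fun a => C (u j a)) -
        χ * C (f i ⬝ᵥ u j))
    have e3 : (1 : Matrix I I ℂ[X]) i j = if (i : Fin n) = j then 1 else 0 := by
      rw [Matrix.one_apply]
      by_cases h : i = j
      · rw [if_pos h, if_pos (congrArg _ h)]
      · rw [if_neg h, if_neg fun h' => h (Subtype.ext h')]
    rw [e3]
    rcases lt_trichotomy (i : Fin n) j with h | h | h
    · rw [if_neg (not_le.2 h), if_neg (ne_of_lt h), if_neg (ne_of_lt h), if_pos h]
      ring
    · rw [if_pos (le_of_eq h.symm), if_pos h, if_pos h, if_neg (not_lt.2 (le_of_eq h.symm))]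
      ring
    · rw [if_pos (le_of_lt h), if_neg (ne_of_gt h), if_neg (ne_of_gt h),
        if_neg (not_lt.2 (le_of_lt h))]
      ring
  -- the characteristic polynomial
  have hch : (A * XDet_P u f I).charpoly = (M - AC * UC * GC).det := by
    unfold Matrix.charpoly
    congr 1
    rw [hM]
    unfold charmatrix
    rw [map_mul, hP, Matrix.mul_add, Matrix.mul_one, ← Matrix.mul_assoc]
    show scalar (Fin r) X - (AC + AC * UC * GC) = scalar (Fin r) X - AC - AC * UC * GC
    abel
  have h1 := XDet_schur M (AC * UC) GC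
  have h2 := congrArg Matrix.det hQ
  rw [det_mul, hN1, one_mul] at h2
  rw [← h2, hdet, ← hch, Fintype.card_coe] at h1
  show _ = (A * XDet_P u f I).charpoly * _
  rw [mul_comm, ← h1, mul_comm]

end XDet

end Pool.Agent.PRS
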