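import Pool.Agent.PRS.StX3
import Pool.Agent.PRS.DUA

/-!
# PRS module DUX: the character is equal to the character of the conjugate dual
-/

set_option autoImplicit false

namespace Pool.Agent.PRS

open Matrix Pool.Agent.HZ
open scoped ComplexOrder

variable {r : ℕ}

/-- eigenvalues of powers -/
private theorem dux_root (g : GL (Fin r) ℂ)
    (h : ∀ x : ℂ, (g : Matrix (Fin r) (Fin r) ℂ).charpoly.IsRoot x → ‖x‖ = 1) (m : ℕ)
    (hm : 0 < m) : ∀ x : ℂ, ((g ^ m : GL (Fin r) ℂ) : Matrix (Fin r) (Fin r) ℂ).charpoly.IsRoot x →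
      ‖x‖ = 1 := by
  intro x hx
  rw [← Matrix.mem_spectrum_iff_isRoot_charpoly, Units.val_pow_eq_pow_val,
    spectrum.map_pow_of_pos _ hm] at hx
  obtain ⟨y, hy, rfl⟩ := hx
  rw [Matrix.mem_spectrum_iff_isRoot_charpoly] at hy
  show ‖y ^ m‖ = 1
  rw [norm_pow, h y hy, one_pow]

private theorem dux_pow (g : GL (Fin r) ℂ)
    (h : ∀ x : ℂ, (g : Matrix (Fin r) (Fin r) ℂ).charpoly.IsRoot x → ‖x‖ = 1) (m : ℕ) :
    (((g ^ m)⁻¹ : GL (Fin r) ℂ) : Matrix (Fin r) (Fin r) ℂ).trace =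
      star ((g ^ m : GL (Fin r) ℂ) : Matrix (Fin r) (Fin r) ℂ).trace := by
  rcases Nat.eq_zero_or_pos m with rfl | hm
  · rw [pow_zero, inv_one, Units.val_one, Matrix.trace_one]
    simp
  · exact trace_inv (g ^ m) (dux_root g h m hm)

private theorem dux_zpow (g : GL (Fin r) ℂ)
    (h : ∀ x : ℂ, (g : Matrix (Fin r) (Fin r) ℂ).charpoly.IsRoot x → ‖x‖ = 1) (k : ℤ) :
    ((g ^ k : GL (Fin r) ℂ) : Matrix (Fin r) (Fin r) ℂ).trace =
      (DUA_du (g ^ k) : Matrix (Fin r) (Fin r) ℂ).trace := by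
  rw [DUA_du_val, Matrix.trace_conjTranspose]
  rcases k with m | m
  · rw [Int.ofNat_eq_natCast, zpow_natCast, dux_pow g h m, star_star]
  · rw [zpow_negSucc, inv_inv, dux_pow g h (m + 1)]

private theorem dux_ro {e : Matrix (Fin r) (Fin r) ℂ} (h : RO e) (c : ℂ) : RO (c • eᴴ) := by
  intro X
  have h7 := congrArg Matrix.conjTranspose (h Xᴴ)
  rw [Matrix.conjTranspose_mul, Matrix.conjTranspose_mul, Matrix.conjTranspose_smul,
    Matrix.conjTranspose_conjTranspose, ← Matrix.trace_conjTranspose,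
    Matrix.conjTranspose_mul, Matrix.conjTranspose_conjTranspose] at h7
  rw [smul_mul_assoc, smul_mul_assoc, mul_smul_comm, Matrix.trace_smul, smul_smul, smul_smul,
    mul_assoc, h7, Matrix.trace_mul_comm, smul_smul, smul_eq_mul]
  congr 1
  ring

private theorem dux_fin {G : Type} [Group G] (ρ : G →* GL (Fin r) ℂ) (y y' : G)
    (h : (ρ '' (Subgroup.closure {y, y'} : Subgroup G)).Finite) :
    Finite (Subgroup.closure {ρ y, ρ y'} : Subgroup (GL (Fin r) ℂ)) := by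
  have h1 : (Subgroup.closure {ρ y, ρ y'} : Subgroup (GL (Fin r) ℂ)) =
      (Subgroup.closure {y, y'}).map ρ := by
    rw [MonoidHom.map_closure, Set.image_pair]
  rw [h1]
  have h2 : (((Subgroup.closure {y, y'}).map ρ : Subgroup (GL (Fin r) ℂ)) :
      Set (GL (Fin r) ℂ)).Finite := by
    rw [Subgroup.coe_map]
    exact h
  exact h2.to_subtype

theorem thm_Dux (hP : St_Pair) (hB : St_Bas) (hL : St_Lam) : St_Dux := by
  intro n r ρ hn hρ w
  obtain ⟨lam, hlam, hlam'⟩ := hL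
  obtain ⟨⟨M, hM, hroot⟩, hreach, hpair, -⟩ := hB n r ρ hn hρ
  have hnorm : ∀ x : ℂ, x ^ M = 1 → ‖x‖ = 1 := fun x hx =>
    Complex.norm_eq_one_of_pow_eq_one hx hM.ne'
  have hstar : ∀ x : ℂ, x ^ M = 1 → star x = x⁻¹ := by
    intro x hx
    have h1 := hnorm x hx
    have h2 : star x * x = 1 := by
      rw [Complex.star_def, Complex.conj_mul', h1]
      norm_num
    exact eq_inv_of_mul_eq_one_left h2
  have h0 := hP n r ρ (DUA_hom ρ) (fun y => lam r (ρ y)) (fun x y => by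
      show lam r (ρ (y⁻¹ * x * y)) = lam r (ρ x)
      rw [map_mul, map_mul, map_inv, hlam]) (by
    intro a N hN y hy
    obtain ⟨h1, h2⟩ := (hreach a N hN).1 y hy
    obtain ⟨h3, h4, h5, h6⟩ := hlam' r (ρ y) h1
    obtain ⟨h7, h8⟩ := h6 M (hroot y h2)
    refine ⟨h3, h4, h5, ?_⟩
    have h9 : (lam r (ρ y))⁻¹ • (DUA_hom ρ y : Matrix (Fin r) (Fin r) ℂ) - 1 =
        -(1 + ((lam r (ρ y))⁻¹ • (ρ y : Matrix (Fin r) (Fin r) ℂ) - 1).trace) •
          ((lam r (ρ y))⁻¹ • (ρ y : Matrix (Fin r) (Fin r) ℂ) - 1)ᴴ := by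
      refine DUA_key (ρ y) h3 (hstar _ h7) h4 (hstar _ h8) ?_
      have h10 := h5 1
      rwa [mul_one] at h10
    show RO ((lam r (ρ y))⁻¹ • (DUA_hom ρ y : Matrix (Fin r) (Fin r) ℂ) - 1)
    rw [h9]
    exact dux_ro h5 _) (by
    intro a N hN
    obtain ⟨-, -, h1, h2⟩ := hreach a N hN
    constructor
    · intro k
      show (ρ ((a * N.prod) ^ k) : Matrix (Fin r) (Fin r) ℂ).trace =
        (DUA_du (ρ ((a * N.prod) ^ k)) : Matrix (Fin r) (Fin r) ℂ).trace
      rw [map_zpow]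
      exact dux_zpow (ρ (a * N.prod)) (fun x hx => hnorm x (hroot _ h1 x hx)) k
    · show (ρ N.prod : Matrix (Fin r) (Fin r) ℂ).trace =
        (DUA_du (ρ N.prod) : Matrix (Fin r) (Fin r) ℂ).trace
      have h3 := dux_zpow (ρ N.prod) (fun x hx => hnorm x (hroot _ h2 x hx)) 1
      rwa [zpow_one] at h3) (by
    intro a y y' N hN
    have h1 := hpair a y y' N hN
    refine ⟨dux_fin ρ y y' h1, dux_fin (DUA_hom ρ) y y' ?_⟩
    have h2 : (DUA_hom ρ) '' (Subgroup.closure {y, y'} : Subgroup (FreeGroup (Fin (n + 1)))) =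
        DUA_du '' (ρ '' (Subgroup.closure {y, y'} : Subgroup (FreeGroup (Fin (n + 1))))) := by
      rw [Set.image_image]
      rfl
    rw [h2]
    exact h1.image _) w
  have h3 : (ρ w : Matrix (Fin r) (Fin r) ℂ).trace =
      (((ρ w)⁻¹ : GL (Fin r) ℂ) : Matrix (Fin r) (Fin r) ℂ)ᴴ.trace := h0
  rw [h3, Matrix.trace_conjTranspose, star_star, map_inv]

end Pool.Agent.PRS
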