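import Pool.Agent.PRS.StX2

/-!
# PRX module FT

`thm_Ft`: the full twist of the arbitrary element and the first two letters; the third letter may
be assumed to be not orthogonal to one of the others, or it is unrelated to both.
-/

set_option autoImplicit false

namespace Pool.Agent.PRS

open Matrix Pool.Agent.HZ

section ft
variable {R : Type} [CommRing R] {G : Type} [Group G] {r : ℕ}

/-- the full twist of three strands -/
private theorem ft_up {a₀ : G} {M₀ : List G} {a y₁ y₂ : G} {M : List G}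
    (h : Rch a₀ M₀ a (y₁ :: y₂ :: M)) :
    Rch a₀ M₀ ((a * y₁ * y₂) * a * (a * y₁ * y₂)⁻¹)
      ((a * y₁ * y₂) * y₁ * (a * y₁ * y₂)⁻¹ :: (a * y₁ * y₂) * y₂ * (a * y₁ * y₂)⁻¹ :: M) := by
  have h1 := Rch.twist h
  have h2 := Rch.move h1 (BMove.l [] M ((a * y₁) * y₁ * (a * y₁)⁻¹) y₂)
  have h3 := Rch.twist h2
  have h4 := Rch.move h3 (BMove.l [] M _ ((a * y₁) * y₁ * (a * y₁)⁻¹))
  simp only [List.nil_append] at h4
  refine cast ?_ h4
  congr 1
  · group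
  · congr 1
    · group
    · congr 1
      group

/-- the inverse of the full twist -/
private theorem ft_down {a₀ : G} {M₀ : List G} {a y₁ y₂ : G} {M : List G}
    (h : Rch a₀ M₀ a (y₁ :: y₂ :: M)) :
    Rch a₀ M₀ ((a * y₁ * y₂)⁻¹ * a * (a * y₁ * y₂))
      ((a * y₁ * y₂)⁻¹ * y₁ * (a * y₁ * y₂) :: (a * y₁ * y₂)⁻¹ * y₂ * (a * y₁ * y₂) :: M) := by
  have h1 := Rch.move h (BMove.r [] M y₁ y₂)
  have h2 := Rch.untwist h1
  have h3 := Rch.move h2 (BMove.r [] M _ (y₂⁻¹ * y₁ * y₂))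
  have h4 := Rch.untwist h3
  refine cast ?_ h4
  congr 1
  · group
  · congr 1
    · group
    · congr 1
      group

private theorem ft_e3 (g x : G) (n : ℤ) :
    g * (g ^ n * x * (g ^ n)⁻¹) * g⁻¹ = g ^ (n + 1) * x * (g ^ (n + 1))⁻¹ := by
  group

private theorem ft_e4 (g x : G) (n : ℤ) :
    g⁻¹ * (g ^ n * x * (g ^ n)⁻¹) * g = g ^ (n - 1) * x * (g ^ (n - 1))⁻¹ := by
  group

private theorem ft_all {a₀ : G} {M₀ : List G} {a y₁ y₂ : G} {M : List G}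
    (h : Rch a₀ M₀ a (y₁ :: y₂ :: M)) (k : ℤ) :
    Rch a₀ M₀ ((a * y₁ * y₂) ^ k * a * ((a * y₁ * y₂) ^ k)⁻¹)
      ((a * y₁ * y₂) ^ k * y₁ * ((a * y₁ * y₂) ^ k)⁻¹ ::
        (a * y₁ * y₂) ^ k * y₂ * ((a * y₁ * y₂) ^ k)⁻¹ :: M) := by
  have e : ∀ g b : G, g = a * y₁ * y₂ →
      (b * a * b⁻¹) * (b * y₁ * b⁻¹) * (b * y₂ * b⁻¹) = b * g * b⁻¹ := by
    intro g b hg
    rw [hg]
    group
  induction k using Int.induction_on with
  | zero => simpa using h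
  | succ n ih =>
    have h1 := ft_up ih
    have e1 := e _ ((a * y₁ * y₂) ^ (n : ℤ)) rfl
    have e2 : (a * y₁ * y₂) ^ (n : ℤ) * (a * y₁ * y₂) * ((a * y₁ * y₂) ^ (n : ℤ))⁻¹ =
        a * y₁ * y₂ := by
      rw [← _root_.zpow_add_one, ← _root_.zpow_neg, ← _root_.zpow_add, add_comm (n : ℤ) 1, add_neg_cancel_right, _root_.zpow_one]
    rw [e1, e2] at h1
    have e3 : ∀ x : G, (a * y₁ * y₂) * ((a * y₁ * y₂) ^ (n : ℤ) * x * ((a * y₁ * y₂) ^ (n : ℤ))⁻¹) *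
        (a * y₁ * y₂)⁻¹ = (a * y₁ * y₂) ^ ((n : ℤ) + 1) * x * ((a * y₁ * y₂) ^ ((n : ℤ) + 1))⁻¹ :=
      fun x => ft_e3 _ x n
    rwa [e3, e3, e3] at h1
  | pred n ih =>
    have h1 := ft_down ih
    have e1 := e _ ((a * y₁ * y₂) ^ (-(n : ℤ))) rfl
    have e2 : (a * y₁ * y₂) ^ (-(n : ℤ)) * (a * y₁ * y₂) * ((a * y₁ * y₂) ^ (-(n : ℤ)))⁻¹ =
        a * y₁ * y₂ := by
      rw [← _root_.zpow_add_one, ← _root_.zpow_neg, ← _root_.zpow_add, add_comm (-(n : ℤ)) 1, add_neg_cancel_right,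
        _root_.zpow_one]
    rw [e1, e2] at h1
    have e3 : ∀ x : G, (a * y₁ * y₂)⁻¹ *
        ((a * y₁ * y₂) ^ (-(n : ℤ)) * x * ((a * y₁ * y₂) ^ (-(n : ℤ)))⁻¹) *
        (a * y₁ * y₂) = (a * y₁ * y₂) ^ (-(n : ℤ) - 1) * x *
          ((a * y₁ * y₂) ^ (-(n : ℤ) - 1))⁻¹ := fun x => ft_e4 _ x _
    rwa [e3, e3, e3] at h1

private theorem ft_el_conj {ρ : G →* Matrix (Fin r) (Fin r) R} {c : G → R}
    (hc : ∀ a b, c (b⁻¹ * a * b) = c a) (g y : G) :
    el ρ c (g * y * g⁻¹) = ρ g * el ρ c y * ρ g⁻¹ := by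
  have h1 := hc y g⁻¹
  rw [inv_inv] at h1
  have h2 : ρ g * ρ g⁻¹ = 1 := by rw [← map_mul, mul_inv_cancel, map_one]
  rw [el, el, h1, mul_sub, sub_mul, mul_one, h2, mul_smul_comm, smul_mul_assoc, map_mul, map_mul]

private theorem ft_map_eq {S : Subring R} {ρ : G →* Matrix (Fin r) (Fin r) R} {c c' z z' : G → R}
    {y : G} (h : Lt S ρ c c' z z' y) : ρ y = c' y • (1 + el ρ c y) := by
  have h1 : 1 + el ρ c y = c y • ρ y := by
    rw [el]
    abel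
  rw [h1, smul_smul, mul_comm, h.2.1.1, one_smul]

private theorem ft_map_inv {S : Subring R} {ρ : G →* Matrix (Fin r) (Fin r) R} {c c' z z' : G → R}
    {y : G} (h : Lt S ρ c c' z z' y) : ρ y⁻¹ = c y • (1 - z' y • el ρ c y) := by
  have hsq : el ρ c y * el ρ c y = (z y - 1) • el ρ c y := by
    have h1 := h.2.2.2 1
    rw [mul_one] at h1
    rw [h1, h.2.2.1]
  have h1 : ρ y * (c y • (1 - z' y • el ρ c y)) = 1 := by
    rw [ft_map_eq h, smul_mul_smul_comm, mul_comm (c' y), h.2.1.1, one_smul,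
      mul_sub, add_mul, add_mul, one_mul, one_mul, mul_one, mul_smul_comm, hsq, smul_smul]
    have h2 : z' y * (z y - 1) = 1 - z' y := by
      have := h.2.1.2
      linear_combination this
    rw [h2, sub_smul, one_smul]
    abel
  have h2 : ρ y⁻¹ * ρ y = 1 := by rw [← map_mul, inv_mul_cancel, map_one]
  calc ρ y⁻¹ = ρ y⁻¹ * (ρ y * (c y • (1 - z' y • el ρ c y))) := by rw [h1, mul_one]
    _ = c y • (1 - z' y • el ρ c y) := by rw [← mul_assoc, h2, one_mul]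

end ft

theorem thm_Ft : St_Ft := by
  intro R _ G _ r S ρ a₀ M₀ c c' z z' hS a y₁ y₂ y₃ hRP
  obtain ⟨T, hT⟩ := hRP
  have hT' : Rch a₀ M₀ a (y₁ :: y₂ :: y₃ :: T) := by simpa using hT
  have hL := hS.lett a [y₁, y₂, y₃] ⟨T, hT⟩
  have l₁ := hL y₁ (by simp)
  have l₂ := hL y₂ (by simp)
  have hall := ft_all hT'
  generalize hg : a * y₁ * y₂ = g at hall
  -- the tuples
  by_cases hex : ∃ k : ℤ, (el ρ c (g ^ k * y₁ * (g ^ k)⁻¹) * el ρ c y₃).trace ≠ 0 ∨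
      (el ρ c (g ^ k * y₂ * (g ^ k)⁻¹) * el ρ c y₃).trace ≠ 0
  · obtain ⟨k, hk⟩ := hex
    right
    refine ⟨g ^ k * a * (g ^ k)⁻¹, g ^ k * y₁ * (g ^ k)⁻¹, g ^ k * y₂ * (g ^ k)⁻¹,
      ⟨T, by simpa using hall k⟩, ?_, hk, ?_⟩
    · have h2 : ρ (g ^ k)⁻¹ * ρ (g ^ k) = 1 := by rw [← map_mul, inv_mul_cancel, map_one]
      rw [ft_el_conj hS.conj, ft_el_conj hS.conj]
      have e : ρ (g ^ k) * el ρ c y₁ * ρ (g ^ k)⁻¹ * (ρ (g ^ k) * el ρ c y₂ * ρ (g ^ k)⁻¹) =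
          ρ (g ^ k) * (el ρ c y₁ * (ρ (g ^ k)⁻¹ * ρ (g ^ k)) * el ρ c y₂ * ρ (g ^ k)⁻¹) := by
        noncomm_ring
      rw [e, h2, mul_one, trace_mul_comm, mul_assoc, h2, mul_one]
    · apply le_antisymm
      · rw [Subgroup.closure_le]
        have ha : a ∈ Subgroup.closure ({a} ∪ {x | x ∈ [y₁, y₂, y₃]}) :=
          Subgroup.subset_closure (by simp)
        have hy₁ : y₁ ∈ Subgroup.closure ({a} ∪ {x | x ∈ [y₁, y₂, y₃]}) :=
          Subgroup.subset_closure (by simp)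
        have hy₂ : y₂ ∈ Subgroup.closure ({a} ∪ {x | x ∈ [y₁, y₂, y₃]}) :=
          Subgroup.subset_closure (by simp)
        have hy₃ : y₃ ∈ Subgroup.closure ({a} ∪ {x | x ∈ [y₁, y₂, y₃]}) :=
          Subgroup.subset_closure (by simp)
        have hgg : g ∈ Subgroup.closure ({a} ∪ {x | x ∈ [y₁, y₂, y₃]}) := by
          rw [← hg]
          exact mul_mem (mul_mem ha hy₁) hy₂
        have hgk := Subgroup.zpow_mem _ hgg k
        intro x hx
        have hx' : x = g ^ k * a * (g ^ k)⁻¹ ∨ x = g ^ k * y₁ * (g ^ k)⁻¹ ∨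
            x = g ^ k * y₂ * (g ^ k)⁻¹ ∨ x = y₃ := by simpa using hx
        rcases hx' with rfl | rfl | rfl | rfl
        · exact mul_mem (mul_mem hgk ha) (inv_mem hgk)
        · exact mul_mem (mul_mem hgk hy₁) (inv_mem hgk)
        · exact mul_mem (mul_mem hgk hy₂) (inv_mem hgk)
        · exact hy₃
      · rw [Subgroup.closure_le]
        set N' : List G := [g ^ k * y₁ * (g ^ k)⁻¹, g ^ k * y₂ * (g ^ k)⁻¹, y₃] with hN'
        set K := Subgroup.closure ({g ^ k * a * (g ^ k)⁻¹} ∪ {x | x ∈ N'}) with hK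
        have ha : g ^ k * a * (g ^ k)⁻¹ ∈ K := Subgroup.subset_closure (by simp)
        have hy₁ : g ^ k * y₁ * (g ^ k)⁻¹ ∈ K := Subgroup.subset_closure (by simp [hN'])
        have hy₂ : g ^ k * y₂ * (g ^ k)⁻¹ ∈ K := Subgroup.subset_closure (by simp [hN'])
        have hy₃ : y₃ ∈ K := Subgroup.subset_closure (by simp [hN'])
        have hgg : g ∈ K := by
          have h1 := mul_mem (mul_mem ha hy₁) hy₂
          have e : g ^ k * a * (g ^ k)⁻¹ * (g ^ k * y₁ * (g ^ k)⁻¹) * (g ^ k * y₂ * (g ^ k)⁻¹) =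
              g ^ k * g * (g ^ k)⁻¹ := by
            rw [← hg]
            group
          have e2 : g ^ k * g * (g ^ k)⁻¹ = g := by
            rw [← _root_.zpow_add_one, ← _root_.zpow_neg, ← _root_.zpow_add, add_comm k 1, add_neg_cancel_right, _root_.zpow_one]
          rwa [e, e2] at h1
        have hgk := Subgroup.zpow_mem _ hgg k
        have key : ∀ x : G, g ^ k * x * (g ^ k)⁻¹ ∈ K → x ∈ K := by
          intro x hx
          have h1 := mul_mem (mul_mem (inv_mem hgk) hx) hgk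
          have e : (g ^ k)⁻¹ * (g ^ k * x * (g ^ k)⁻¹) * g ^ k = x := by group
          rwa [e] at h1
        intro x hx
        have hx' : x = a ∨ x = y₁ ∨ x = y₂ ∨ x = y₃ := by simpa using hx
        rcases hx' with rfl | rfl | rfl | rfl
        · exact key _ ha
        · exact key _ hy₁
        · exact key _ hy₂
        · exact hy₃
  · left
    push Not at hex
    have hz : ∀ k : ℤ, el ρ c y₃ * ρ (g ^ k) * el ρ c y₁ = 0 ∧
        el ρ c y₃ * ρ (g ^ k) * el ρ c y₂ = 0 := by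
      intro k
      obtain ⟨t1, t2⟩ := hex k
      have h2 : ρ (g ^ k)⁻¹ * ρ (g ^ k) = 1 := by rw [← map_mul, inv_mul_cancel, map_one]
      have h0 := hall k
      have q1 : Rch a₀ M₀ (g ^ k * a * (g ^ k)⁻¹) (g ^ k * y₁ * (g ^ k)⁻¹ :: y₃ ::
          (y₃⁻¹ * (g ^ k * y₂ * (g ^ k)⁻¹) * y₃) :: T) :=
        Rch.move h0 (BMove.r [g ^ k * y₁ * (g ^ k)⁻¹] T (g ^ k * y₂ * (g ^ k)⁻¹) y₃)
      have q2 := Rch.move h0 (BMove.r [] (y₃ :: T) (g ^ k * y₁ * (g ^ k)⁻¹)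
        (g ^ k * y₂ * (g ^ k)⁻¹))
      have q3 := Rch.move q2 (BMove.r [g ^ k * y₂ * (g ^ k)⁻¹] T _ y₃)
      have r1 := hS.par _ _ _ [] ⟨(y₃⁻¹ * (g ^ k * y₂ * (g ^ k)⁻¹) * y₃) :: T, q1⟩ t1
      have r2 := hS.par _ _ _ [] ⟨_, q3⟩ t2
      have s1 := r1.2
      have s2 := r2.2
      rw [ft_el_conj hS.conj] at s1 s2
      constructor
      · have e : el ρ c y₃ * ρ (g ^ k) * el ρ c y₁ =
            el ρ c y₃ * (ρ (g ^ k) * el ρ c y₁ * ρ (g ^ k)⁻¹) * ρ (g ^ k) := by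
          have e' : el ρ c y₃ * (ρ (g ^ k) * el ρ c y₁ * ρ (g ^ k)⁻¹) * ρ (g ^ k) =
              el ρ c y₃ * ρ (g ^ k) * el ρ c y₁ * (ρ (g ^ k)⁻¹ * ρ (g ^ k)) := by noncomm_ring
          rw [e', h2, mul_one]
        rw [e, s1, zero_mul]
      · have e : el ρ c y₃ * ρ (g ^ k) * el ρ c y₂ =
            el ρ c y₃ * (ρ (g ^ k) * el ρ c y₂ * ρ (g ^ k)⁻¹) * ρ (g ^ k) := by
          have e' : el ρ c y₃ * (ρ (g ^ k) * el ρ c y₂ * ρ (g ^ k)⁻¹) * ρ (g ^ k) =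
              el ρ c y₃ * ρ (g ^ k) * el ρ c y₂ * (ρ (g ^ k)⁻¹ * ρ (g ^ k)) := by noncomm_ring
          rw [e', h2, mul_one]
        rw [e, s2, zero_mul]
    -- multiplication by the letters
    have m1 : ∀ k : ℤ, el ρ c y₃ * ρ (g ^ k) * ρ y₁ = c' y₁ • (el ρ c y₃ * ρ (g ^ k)) := by
      intro k
      rw [ft_map_eq l₁, mul_smul_comm, mul_add, mul_one, (hz k).1, add_zero]
    have m2 : ∀ k : ℤ, el ρ c y₃ * ρ (g ^ k) * ρ y₂ = c' y₂ • (el ρ c y₃ * ρ (g ^ k)) := by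
      intro k
      rw [ft_map_eq l₂, mul_smul_comm, mul_add, mul_one, (hz k).2, add_zero]
    have n1 : ∀ k : ℤ, el ρ c y₃ * ρ (g ^ k) * ρ y₁⁻¹ = c y₁ • (el ρ c y₃ * ρ (g ^ k)) := by
      intro k
      rw [ft_map_inv l₁, mul_smul_comm, mul_sub, mul_one, mul_smul_comm, (hz k).1, smul_zero,
        sub_zero]
    have n2 : ∀ k : ℤ, el ρ c y₃ * ρ (g ^ k) * ρ y₂⁻¹ = c y₂ • (el ρ c y₃ * ρ (g ^ k)) := by
      intro k
      rw [ft_map_inv l₂, mul_smul_comm, mul_sub, mul_one, mul_smul_comm, (hz k).2, smul_zero,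
        sub_zero]
    have key : ∀ k : ℤ, ∃ μ : R, el ρ c y₃ * ρ (a ^ k) = μ • (el ρ c y₃ * ρ (g ^ k)) := by
      intro k
      induction k using Int.induction_on with
      | zero => exact ⟨1, by simp⟩
      | succ n ih =>
        obtain ⟨μ, hμ⟩ := ih
        refine ⟨μ * c y₂ * c y₁, ?_⟩
        have ea : a = g * y₂⁻¹ * y₁⁻¹ := by
          rw [← hg]
          group
        rw [_root_.zpow_add_one a, map_mul, ← mul_assoc, hμ, smul_mul_assoc]
        conv_lhs => rw [ea]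
        rw [map_mul, map_mul, ← mul_assoc, ← mul_assoc, mul_assoc (el ρ c y₃) (ρ (g ^ (n : ℤ))) (ρ g),
          ← map_mul, ← _root_.zpow_add_one, n2, smul_mul_assoc, n1, smul_smul, smul_smul, mul_assoc]
      | pred n ih =>
        obtain ⟨μ, hμ⟩ := ih
        refine ⟨μ * c' y₁ * c' y₂, ?_⟩
        have ea : a⁻¹ = y₁ * y₂ * g⁻¹ := by
          rw [← hg]
          group
        rw [_root_.zpow_sub_one a, map_mul, ← mul_assoc, hμ, smul_mul_assoc]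
        conv_lhs => rw [ea]
        rw [map_mul, map_mul, ← mul_assoc, ← mul_assoc, m1, smul_mul_assoc, m2, smul_mul_assoc,
          smul_mul_assoc, mul_assoc (el ρ c y₃), ← map_mul, ← _root_.zpow_sub_one, smul_smul, smul_smul,
          mul_assoc]
    intro k
    obtain ⟨μ, hμ⟩ := key k
    rw [hμ, smul_mul_assoc, smul_mul_assoc, (hz k).1, (hz k).2, smul_zero]
    exact ⟨rfl, rfl⟩

end Pool.Agent.PRS
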