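import Pool.Agent.PRS.StX3
import Pool.Agent.PRS.IRR
import Pool.Agent.PRS.Ent

/-!
# One arbitrary generator: the traces are fixed by the automorphisms which fix the roots of unity
-/

set_option autoImplicit false

namespace Pool.Agent.PRS

open Matrix Pool.Agent.HZ

variable {r : ℕ}

theorem gax_pow (g : GL (Fin r) ℂ) (M : ℕ)
    (h : ∀ x : ℂ, (g : Matrix (Fin r) (Fin r) ℂ).charpoly.IsRoot x → x ^ M = 1) (k : ℕ) :
    ∀ x : ℂ, ((g ^ k : GL (Fin r) ℂ) : Matrix (Fin r) (Fin r) ℂ).charpoly.IsRoot x →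
      x ^ M = 1 := by
  intro x hx
  rcases Nat.eq_zero_or_pos k with rfl | hk
  · rw [pow_zero, Units.val_one, Matrix.charpoly_one, Polynomial.IsRoot.def, Polynomial.eval_pow,
      Polynomial.eval_sub, Polynomial.eval_X, Polynomial.eval_one] at hx
    rw [sub_eq_zero.1 (eq_zero_of_pow_eq_zero hx), one_pow]
  · have h1 : x ∈ spectrum ℂ ((g : Matrix (Fin r) (Fin r) ℂ) ^ k) := by
      rw [← Units.val_pow_eq_pow_val]
      exact Matrix.mem_spectrum_iff_isRoot_charpoly.2 hx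
    rw [spectrum.map_pow_of_pos _ hk] at h1
    obtain ⟨y, hy, rfl⟩ := h1
    have h2 := h y (Matrix.mem_spectrum_iff_isRoot_charpoly.1 hy)
    rw [← pow_mul, mul_comm, pow_mul, h2, one_pow]

theorem gax_inv (g : GL (Fin r) ℂ) (M : ℕ)
    (h : ∀ x : ℂ, (g : Matrix (Fin r) (Fin r) ℂ).charpoly.IsRoot x → x ^ M = 1) :
    ∀ x : ℂ, ((g⁻¹ : GL (Fin r) ℂ) : Matrix (Fin r) (Fin r) ℂ).charpoly.IsRoot x →
      x ^ M = 1 := by
  intro x hx
  have h1 : x ∈ spectrum ℂ ((g⁻¹ : GL (Fin r) ℂ) : Matrix (Fin r) (Fin r) ℂ) :=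
    Matrix.mem_spectrum_iff_isRoot_charpoly.2 hx
  have h0 : spectrum ℂ ((g⁻¹ : GL (Fin r) ℂ) : Matrix (Fin r) (Fin r) ℂ) =
      (spectrum ℂ (g : Matrix (Fin r) (Fin r) ℂ))⁻¹ := (spectrum.map_inv g).symm
  rw [h0, Set.mem_inv] at h1
  have h2 := h _ (Matrix.mem_spectrum_iff_isRoot_charpoly.1 h1)
  rwa [inv_pow, inv_eq_one] at h2

theorem gax_zpow (g : GL (Fin r) ℂ) (M : ℕ)
    (h : ∀ x : ℂ, (g : Matrix (Fin r) (Fin r) ℂ).charpoly.IsRoot x → x ^ M = 1) (k : ℤ) :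
    ∀ x : ℂ, ((g ^ k : GL (Fin r) ℂ) : Matrix (Fin r) (Fin r) ℂ).charpoly.IsRoot x →
      x ^ M = 1 := by
  obtain ⟨m, rfl | rfl⟩ := k.eq_nat_or_neg
  · rw [_root_.zpow_natCast]
    exact gax_pow g M h m
  · rw [_root_.zpow_neg, _root_.zpow_natCast]
    exact gax_inv _ M (gax_pow g M h m)

/-- the trace is fixed -/
theorem gax_fix (g : GL (Fin r) ℂ) (M : ℕ) (σ : RingAut ℂ) (hσ : ∀ x : ℂ, x ^ M = 1 → σ x = x)
    (h : ∀ x : ℂ, (g : Matrix (Fin r) (Fin r) ℂ).charpoly.IsRoot x → x ^ M = 1) :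
    σ (g : Matrix (Fin r) (Fin r) ℂ).trace = (g : Matrix (Fin r) (Fin r) ℂ).trace := by
  have h1 := trace_mem (g : Matrix (Fin r) (Fin r) ℂ)
    (RingHom.eqLocus (σ : ℂ →+* ℂ) (RingHom.id ℂ)) fun x hx => hσ x (h x hx)
  exact h1

theorem gax_ro (σ : RingAut ℂ) (A : Matrix (Fin r) (Fin r) ℂ) (h : RO A) : RO (A.map σ) := by
  intro X
  have hX : X = (X.map σ.symm).map σ := by
    ext i j
    simp only [Matrix.map_apply]
    exact (σ.apply_symm_apply _).symm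
  have hm : ∀ B C : Matrix (Fin r) (Fin r) ℂ, (B * C).map σ = B.map σ * C.map σ := fun B C =>
    Matrix.map_mul (f := (σ : ℂ →+* ℂ))
  have ht : ∀ B : Matrix (Fin r) (Fin r) ℂ, (B.map σ).trace = σ B.trace := by
    intro B
    simp only [trace, map_sum, diag_apply, map_apply]
  rw [hX, ← hm, ← hm, ht, h]
  ext i j
  simp only [Matrix.map_apply, Matrix.smul_apply, smul_eq_mul, map_mul]

theorem thm_Gax (hP : St_Pair) (hB : St_Bas) (hL : St_Lam) : St_Gax := by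
  intro n r M ρ hn hX hM hloop σ hσ w
  obtain ⟨lam, hlam, hlam'⟩ := hL
  obtain ⟨-, hB2, hB3, -⟩ := hB n r ρ hn hX
  have key := hP n r ρ (gal σ ρ) (fun y => lam r (ρ y)) ?_ ?_ ?_ ?_ w
  · rw [← gal_trace]
    exact key.symm
  · intro x y
    show lam r (ρ (y⁻¹ * x * y)) = lam r (ρ x)
    rw [map_mul, map_mul, map_inv, hlam]
  · intro a N hN y hy
    obtain ⟨h1, h2⟩ := (hB2 a N hN).1 y hy
    obtain ⟨h3, h4, h5, h6⟩ := hlam' r (ρ y) h1
    refine ⟨h3, h4, h5, ?_⟩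
    have h7 : σ (lam r (ρ y))⁻¹ = (lam r (ρ y))⁻¹ := by
      rw [map_inv₀, hσ _ (h6 M (hloop y h2)).1]
    have h8 : (lam r (ρ y))⁻¹ • (gal σ ρ y : Matrix (Fin r) (Fin r) ℂ) - 1 =
        ((lam r (ρ y))⁻¹ • (ρ y : Matrix (Fin r) (Fin r) ℂ) - 1).map σ := by
      ext i j
      rw [gal_coe]
      simp only [Matrix.sub_apply, Matrix.smul_apply, Matrix.map_apply, smul_eq_mul, map_sub,
        map_mul, h7]
      by_cases hij : i = j
      · subst hij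
        simp
      · simp [one_apply_ne hij]
    show RO ((lam r (ρ y))⁻¹ • (gal σ ρ y : Matrix (Fin r) (Fin r) ℂ) - 1)
    rw [h8]
    exact gax_ro σ _ h5
  · intro a N hN
    obtain ⟨-, -, h3, h4⟩ := hB2 a N hN
    refine ⟨fun k => ?_, ?_⟩
    · rw [gal_trace, map_zpow, gax_fix _ M σ hσ (gax_zpow _ M (hloop _ h3) k)]
    · rw [gal_trace, gax_fix _ M σ hσ (hloop _ h4)]
  · intro a y y' N hN
    have h1 := hB3 a y y' N hN
    refine ⟨finite_closure ρ y y' h1, finite_closure (gal σ ρ) y y' ?_⟩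
    have h2 := h1.image (GeneralLinearGroup.map (n := Fin r) (σ : ℂ →+* ℂ))
    rw [← Set.image_comp] at h2
    exact h2

end Pool.Agent.PRS
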