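import Pool.Agent.PRS.StX1

set_option autoImplicit false

namespace Pool.Agent.PRS

open Matrix

/-!
# Principal minors and closed walks (HAM)

If `S` is integrally closed in `R` and contains all principal minors of `Q`, it contains the products
of the entries of `Q` along all closed walks.
-/

namespace XHam

section lists
variable {R : Type} [CommRing R] {n : ℕ} (Q : Matrix (Fin n) (Fin n) R)

theorem walk_append (i j k : Fin n) (l m : List (Fin n)) :
    walk Q i (l ++ j :: m) k = walk Q i l j * walk Q j m k := by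
  induction l generalizing i with
  | nil => rfl
  | cons a l ih => simp [walk, ih, mul_assoc]

theorem cyc_rot (l m : List (Fin n)) : cyc Q (l ++ m) = cyc Q (m ++ l) := by
  rcases l with _ | ⟨i, l⟩
  · simp
  rcases m with _ | ⟨j, m⟩
  · simp
  show walk Q i (l ++ j :: m) i = walk Q j (m ++ i :: l) j
  rw [walk_append, walk_append, mul_comm]

theorem cyc_split (i : Fin n) (l m : List (Fin n)) :
    cyc Q (i :: (l ++ i :: m)) = cyc Q (i :: l) * cyc Q (i :: m) :=
  walk_append Q i i i l m

theorem exchange (i j : Fin n) (p q t : List (Fin n)) :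
    cyc Q (i :: (p ++ j :: q)) * cyc Q (i :: j :: t) =
      cyc Q (i :: j :: q) * cyc Q (i :: (p ++ j :: t)) := by
  show walk Q i (p ++ j :: q) i * (Q i j * walk Q j t i) =
    (Q i j * walk Q j q i) * walk Q i (p ++ j :: t) i
  rw [walk_append, walk_append]
  ring

theorem walk_map {m : ℕ} (e : Fin m → Fin n) (i k : Fin m) (l : List (Fin m)) :
    walk (Q.submatrix e e) i l k = walk Q (e i) (l.map e) (e k) := by
  induction l generalizing i with
  | nil => rfl
  | cons a l ih => simp [walk, ih]

theorem cyc_map {m : ℕ} (e : Fin m → Fin n) (l : List (Fin m)) :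
    cyc (Q.submatrix e e) l = cyc Q (l.map e) := by
  rcases l with _ | ⟨i, l⟩
  · rfl
  · exact walk_map Q e i i l

/-- a list with a repetition is a product of two shorter ones -/
theorem split_rep (l : List (Fin n)) (h : ¬ l.Nodup) :
    ∃ l₁ l₂ : List (Fin n), l₁.length + l₂.length = l.length ∧ 0 < l₁.length ∧ 0 < l₂.length ∧
      cyc Q l = cyc Q l₁ * cyc Q l₂ := by
  rw [List.nodup_iff_sublist] at h
  push Not at h
  obtain ⟨i, hi⟩ := h
  rw [List.cons_sublist_iff] at hi
  obtain ⟨a, b, rfl, ha, hb⟩ := hi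
  obtain ⟨a₁, a₂, rfl⟩ := List.append_of_mem ha
  have hb' : i ∈ b := by simpa using hb
  obtain ⟨b₁, b₂, rfl⟩ := List.append_of_mem hb'
  refine ⟨i :: (a₂ ++ b₁), i :: (b₂ ++ a₁), ?_, by simp, by simp, ?_⟩
  · simp only [List.length_cons, List.length_append]
    omega
  · rw [← cyc_split]
    have h1 : (a₁ ++ i :: a₂) ++ (b₁ ++ i :: b₂) = a₁ ++ (i :: (a₂ ++ b₁ ++ i :: b₂)) := by simp
    rw [h1, cyc_rot]
    simp

end lists

theorem first_diff {α : Type} (l m : List α) (hlen : l.length = m.length) (hne : l ≠ m) :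
    ∃ (c l' m' : List α) (x y : α), x ≠ y ∧ l = c ++ x :: l' ∧ m = c ++ y :: m' := by
  induction l generalizing m with
  | nil =>
    rcases m with _ | ⟨y, m⟩
    · exact absurd rfl hne
    · simp at hlen
  | cons x l ih =>
    rcases m with _ | ⟨y, m⟩
    · simp at hlen
    · by_cases hxy : x = y
      · subst hxy
        obtain ⟨c, l', m', x', y', h1, h2, h3⟩ := ih m (by simpa using hlen)
          (fun h => hne (by rw [h]))
        exact ⟨x :: c, l', m', x', y', h1, by rw [h2]; rfl, by rw [h3]; rfl⟩
      · exact ⟨[], l, m, x, y, hxy, rfl, rfl⟩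

theorem nodup_full {K : ℕ} (l : List (Fin K)) (h : l.Nodup) (hl : l.length = K) (x : Fin K) :
    x ∈ l := by
  have h1 : l.toFinset = Finset.univ := by
    apply Finset.eq_univ_of_card
    rw [List.toFinset_card_of_nodup h, hl, Fintype.card_fin]
  have h2 : x ∈ l.toFinset := by rw [h1]; exact Finset.mem_univ x
  simpa using h2

section main
variable {R : Type} [CommRing R] (S : Subring R) {k : ℕ}
  (Q : Matrix (Fin (k + 1)) (Fin (k + 1)) R)

/-- the lists of the Hamiltonian cycles -/
def Hset (k : ℕ) : Set (List (Fin (k + 1))) :=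
  {l | l.Nodup ∧ l.length = k + 1 ∧ ∃ l', l = 0 :: l'}

theorem Hset_finite (k : ℕ) : (Hset k).Finite :=
  (List.finite_length_eq (Fin (k + 1)) (k + 1)).subset (fun _ h => h.2.1)

/-- the module spanned by 1 and the Hamiltonian cycles -/
def NN : Submodule S R := Submodule.span S ({1} ∪ cyc Q '' Hset k)

theorem smul_NN {x y : R} (hx : x ∈ S) (hy : y ∈ NN S Q) : x * y ∈ NN S Q :=
  (NN S Q).smul_mem (⟨x, hx⟩ : S) hy

theorem one_NN : (1 : R) ∈ NN S Q := Submodule.subset_span (Or.inl rfl)

theorem S_NN {x : R} (hx : x ∈ S) : x ∈ NN S Q := by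
  have := smul_NN S Q hx (one_NN S Q)
  rwa [mul_one] at this

theorem H_NN {l : List (Fin (k + 1))} (h : l ∈ Hset k) : cyc Q l ∈ NN S Q :=
  Submodule.subset_span (Or.inr ⟨l, h, rfl⟩)

/-- (2) short closed walks are in `N` -/
theorem short_NN (hS : ∀ l : List (Fin (k + 1)), l.length < k + 1 → cyc Q l ∈ S) :
    ∀ (b : ℕ) (l : List (Fin (k + 1))), l.length = b → l.length < 2 * (k + 1) →
      cyc Q l ∈ NN S Q := by
  intro b
  induction b using Nat.strong_induction_on with
  | _ b ih =>
    intro l hb hl
    by_cases hnd : l.Nodup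
    · have h1 : l.length ≤ k + 1 := by
        have := hnd.length_le_card
        rwa [Fintype.card_fin] at this
      rcases h1.lt_or_eq with h2 | h2
      · exact S_NN S Q (hS l h2)
      · have h0 : (0 : Fin (k + 1)) ∈ l := nodup_full l hnd h2 0
        obtain ⟨a, c, rfl⟩ := List.append_of_mem h0
        rw [cyc_rot]
        apply H_NN
        refine ⟨?_, ?_, c ++ a, rfl⟩
        · exact (List.nodup_append_comm).1 hnd
        · simp only [List.length_append, List.length_cons] at h2 ⊢
          omega
    · obtain ⟨l₁, l₂, h1, h2, h3, h4⟩ := split_rep Q l hnd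
      rw [h4]
      by_cases h5 : l₁.length < k + 1
      · exact smul_NN S Q (hS l₁ h5) (ih l₂.length (by omega) l₂ rfl (by omega))
      · rw [mul_comm]
        exact smul_NN S Q (hS l₂ (by omega)) (ih l₁.length (by omega) l₁ rfl (by omega))

/-- (3) products of different Hamiltonian cycles -/
theorem mul_NN (hS : ∀ l : List (Fin (k + 1)), l.length < k + 1 → cyc Q l ∈ S)
    {l m : List (Fin (k + 1))} (hl : l ∈ Hset k) (hm : m ∈ Hset k) (hne : l ≠ m) :
    cyc Q l * cyc Q m ∈ NN S Q := by
  obtain ⟨c, l', m', x, y, hxy, h1, h2⟩ := first_diff l m (hl.2.1.trans hm.2.1.symm) hne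
  obtain ⟨l₀, hl₀⟩ := hl.2.2
  obtain ⟨m₀, hm₀⟩ := hm.2.2
  rcases List.eq_nil_or_concat' c with rfl | ⟨c', i, rfl⟩
  · exfalso
    rw [h1] at hl₀
    rw [h2] at hm₀
    simp only [List.nil_append, List.cons.injEq] at hl₀ hm₀
    exact hxy (hl₀.1.trans hm₀.1.symm)
  · have hlm : y ∈ l := nodup_full l hl.1 hl.2.1 y
    have hmn := hm.1
    have hln := hl.1
    have hll := hl.2.1
    have hml := hm.2.1
    rw [h2] at hmn hml
    rw [h1] at hln hll hlm
    have hyi : y ≠ i := by
      rintro rfl
      rw [List.nodup_append] at hmn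
      exact hmn.2.2 y (by simp) y (by simp) rfl
    have h3 : y ∈ l' ++ c' := by
      simp only [List.mem_append, List.mem_cons, List.not_mem_nil, or_false] at hlm ⊢
      rcases hlm with (h | h) | h | h
      · exact Or.inr h
      · exact absurd h hyi
      · exact absurd h.symm hxy
      · exact Or.inl h
    obtain ⟨p, q, h4⟩ := List.append_of_mem h3
    have hlc : cyc Q l = cyc Q (i :: ((x :: p) ++ y :: q)) := by
      have h5 : l = c' ++ (i :: x :: l') := by rw [h1]; simp
      rw [h5, cyc_rot]
      congr 1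
      simp [h4]
    have hmc : cyc Q m = cyc Q (i :: y :: (m' ++ c')) := by
      have h5 : m = c' ++ (i :: y :: m') := by rw [h2]; simp
      rw [h5, cyc_rot]
      congr 1
    have hlen : (l' ++ c').length = (p ++ y :: q).length := by rw [h4]
    simp only [List.length_append, List.length_cons, List.length_nil] at hll hml hlen
    rw [hlc, hmc, exchange]
    apply smul_NN
    · apply hS
      simp only [List.length_cons]
      omega
    · apply short_NN S Q hS _ _ rfl
      simp only [List.length_append, List.length_cons]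
      omega

/-- (5) the conclusion from the sum of all Hamiltonian cycles -/
theorem main_step (hic : ∀ x : R, IsIntegral S x → x ∈ S)
    (hS : ∀ l : List (Fin (k + 1)), l.length < k + 1 → cyc Q l ∈ S)
    (hT : ∑ l ∈ (Hset_finite k).toFinset, cyc Q l ∈ S) {l : List (Fin (k + 1))}
    (hl : l ∈ Hset k) : cyc Q l ∈ S := by
  classical
  have hsq : ∀ m ∈ Hset k, cyc Q m * cyc Q m ∈ NN S Q := by
    intro m hm
    have hm' : m ∈ (Hset_finite k).toFinset := by simpa using hm
    have h1 := Finset.add_sum_erase (Hset_finite k).toFinset (fun l => cyc Q l) hm'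
    have h2 : cyc Q m * cyc Q m = (∑ l ∈ (Hset_finite k).toFinset, cyc Q l) * cyc Q m -
        ∑ l ∈ (Hset_finite k).toFinset.erase m, cyc Q m * cyc Q l := by
      rw [← h1, ← Finset.mul_sum]
      ring
    rw [h2]
    apply Submodule.sub_mem
    · exact smul_NN S Q hT (H_NN S Q hm)
    · apply Submodule.sum_mem
      intro l' hl'
      rw [Finset.mem_erase] at hl'
      exact mul_NN S Q hS hm (by simpa using hl'.2) hl'.1.symm
  have hmul : ∀ x y : R, x ∈ NN S Q → y ∈ NN S Q → x * y ∈ NN S Q := by
    intro x y hx hy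
    have h1 : x * y ∈ NN S Q * NN S Q := Submodule.mul_mem_mul hx hy
    have h2 : NN S Q * NN S Q ≤ NN S Q := by
      unfold NN
      rw [Submodule.span_mul_span, Submodule.span_le]
      rintro z ⟨a, ha, b, hb, rfl⟩
      show a * b ∈ NN S Q
      rcases ha with ha | ⟨l₁, h₁, rfl⟩
      · rw [Set.mem_singleton_iff] at ha
        subst ha
        rw [one_mul]
        exact Submodule.subset_span hb
      · rcases hb with hb | ⟨l₂, h₂, rfl⟩
        · rw [Set.mem_singleton_iff] at hb
          subst hb
          rw [mul_one]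
          exact H_NN S Q h₁
        · by_cases h12 : l₁ = l₂
          · subst h12
            exact hsq l₁ h₁
          · exact mul_NN S Q hS h₁ h₂ h12
    exact h2 h1
  apply hic
  refine IsIntegral.of_mem_of_fg ((NN S Q).toSubalgebra (one_NN S Q) hmul) ?_ (cyc Q l) ?_
  · rw [Submodule.toSubalgebra_toSubmodule]
    apply Submodule.fg_span
    exact (Set.finite_singleton _).union ((Hset_finite k).image _)
  · exact H_NN S Q hl

end main

section perms
open Function Equiv.Perm
variable {R : Type} [CommRing R] (S : Subring R) {k : ℕ}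
  (Q : Matrix (Fin (k + 1)) (Fin (k + 1)) R)

theorem walk_iterate (σ : Equiv.Perm (Fin (k + 1))) (a : Fin (k + 1)) (m : ℕ) :
    walk Q a (List.iterate σ (σ a) m) (σ^[m + 1] a) =
      ((List.iterate σ a (m + 1)).map fun i => Q i (σ i)).prod := by
  induction m generalizing a with
  | zero => simp [List.iterate, walk]
  | succ m ih =>
    have h := ih (σ a)
    show Q a (σ a) * walk Q (σ a) (List.iterate σ (σ (σ a)) m) (σ^[m + 1] (σ a)) =
      ((a :: List.iterate σ (σ a) (m + 1)).map fun i => Q i (σ i)).prod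
    rw [List.map_cons, List.prod_cons, ← h]

theorem cyc_iterate (σ : Equiv.Perm (Fin (k + 1))) (a : Fin (k + 1)) (p : ℕ) (hp : 0 < p)
    (h : σ^[p] a = a) :
    cyc Q (List.iterate σ a p) = ((List.iterate σ a p).map fun i => Q i (σ i)).prod := by
  obtain ⟨m, rfl⟩ : ∃ m, p = m + 1 := ⟨p - 1, by omega⟩
  rw [← walk_iterate, h]
  rfl

theorem nodup_iterate (σ : Equiv.Perm (Fin (k + 1))) (a : Fin (k + 1)) :
    (List.iterate σ a (minimalPeriod σ a)).Nodup := by
  rw [← List.range_map_iterate, List.nodup_map_iff_inj_on List.nodup_range]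
  intro x hx y hy hxy
  rw [List.mem_range] at hx hy
  exact iterate_injOn_Iio_minimalPeriod (f := σ) (x := a) hx hy hxy

theorem mem_per (σ : Equiv.Perm (Fin (k + 1))) (a : Fin (k + 1)) : a ∈ periodicPts σ :=
  σ.injective.mem_periodicPts a

theorem iter_full (σ : Equiv.Perm (Fin (k + 1))) (h : minimalPeriod σ 0 = k + 1) :
    σ^[k + 1] 0 = 0 := by
  have h3 := iterate_minimalPeriod (f := σ) (x := (0 : Fin (k + 1)))
  rw [h] at h3
  exact h3

theorem per_pos (σ : Equiv.Perm (Fin (k + 1))) (a : Fin (k + 1)) : 0 < minimalPeriod σ a :=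
  minimalPeriod_pos_of_mem_periodicPts (mem_per σ a)

theorem per_le (σ : Equiv.Perm (Fin (k + 1))) (a : Fin (k + 1)) : minimalPeriod σ a ≤ k + 1 := by
  have := (nodup_iterate σ a).length_le_card
  rwa [Fintype.card_fin, List.length_iterate] at this

theorem per_lt (σ : Equiv.Perm (Fin (k + 1))) (h : minimalPeriod σ 0 ≠ k + 1)
    (a : Fin (k + 1)) : minimalPeriod σ a < k + 1 := by
  rcases (per_le σ a).lt_or_eq with h1 | h1
  · exact h1
  · exfalso
    have h2 : (0 : Fin (k + 1)) ∈ List.iterate σ a (minimalPeriod σ a) :=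
      nodup_full _ (nodup_iterate σ a) (by rw [List.length_iterate, h1]) 0
    rw [List.mem_iterate] at h2
    obtain ⟨m, -, hm⟩ := h2
    apply h
    rw [hm, minimalPeriod_apply_iterate (mem_per σ a), h1]

theorem iterate_mem {σ : Equiv.Perm (Fin (k + 1))} {F : Finset (Fin (k + 1))}
    (hF : ∀ x ∈ F, σ x ∈ F) {a : Fin (k + 1)} (ha : a ∈ F) (m : ℕ) : σ^[m] a ∈ F := by
  induction m with
  | zero => exact ha
  | succ m ih =>
    rw [iterate_succ_apply']
    exact hF _ ih

/-- the products of the permutations which are not full cycles -/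
theorem prod_S (hS : ∀ l : List (Fin (k + 1)), l.length < k + 1 → cyc Q l ∈ S)
    (σ : Equiv.Perm (Fin (k + 1))) (h : ∀ a, minimalPeriod σ a < k + 1) :
    ∀ (b : ℕ) (F : Finset (Fin (k + 1))), F.card = b → (∀ x ∈ F, σ x ∈ F) →
      ∏ i ∈ F, Q i (σ i) ∈ S := by
  intro b
  induction b using Nat.strong_induction_on with
  | _ b ih =>
    intro F hb hF
    rcases F.eq_empty_or_nonempty with rfl | ⟨a, ha⟩
    · rw [Finset.prod_empty]
      exact S.one_mem
    · set O : Finset (Fin (k + 1)) := (List.iterate σ a (minimalPeriod σ a)).toFinset with hO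
      have hmO : ∀ x, x ∈ O ↔ ∃ m < minimalPeriod σ a, x = σ^[m] a := by
        intro x
        rw [hO, List.mem_toFinset, List.mem_iterate]
      have hOF : O ⊆ F := by
        intro x hx
        obtain ⟨m, -, rfl⟩ := (hmO x).1 hx
        exact iterate_mem hF ha m
      have haO : a ∈ O := (hmO a).2 ⟨0, per_pos σ a, rfl⟩
      rw [← Finset.prod_sdiff hOF]
      apply S.mul_mem
      · apply ih (F \ O).card _ _ rfl
        · intro x hx
          rw [Finset.mem_sdiff] at hx ⊢
          refine ⟨hF x hx.1, fun hsx => hx.2 ?_⟩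
          obtain ⟨m, hm, hsx⟩ := (hmO _).1 hsx
          rcases m with _ | m
          · have h1 : σ x = σ (σ^[minimalPeriod σ a - 1] a) := by
              rw [hsx, ← iterate_succ_apply' (f := σ)]
              have h2 : (minimalPeriod σ a - 1).succ = minimalPeriod σ a := by
                have := per_pos σ a
                omega
              rw [h2, iterate_minimalPeriod]
              rfl
            have h3 := σ.injective h1
            exact (hmO x).2 ⟨_, by have := per_pos σ a; omega, h3⟩
          · rw [iterate_succ_apply'] at hsx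
            exact (hmO x).2 ⟨m, by omega, σ.injective hsx⟩
        · rw [← hb]
          apply Finset.card_lt_card
          refine ⟨Finset.sdiff_subset, fun hsub => ?_⟩
          exact (Finset.mem_sdiff.1 (hsub ha)).2 haO
      · rw [hO, List.prod_toFinset _ (nodup_iterate σ a),
          ← cyc_iterate Q σ a _ (per_pos σ a) iterate_minimalPeriod]
        apply hS
        rw [List.length_iterate]
        exact h a

theorem full_prod (σ : Equiv.Perm (Fin (k + 1))) (h : minimalPeriod σ 0 = k + 1) :
    ∏ i, Q i (σ i) = cyc Q (List.iterate σ 0 (k + 1)) := by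
  have h1 := nodup_iterate σ 0
  rw [h] at h1
  have h2 : (List.iterate σ 0 (k + 1)).toFinset = Finset.univ := by
    apply Finset.eq_univ_of_card
    rw [List.toFinset_card_of_nodup h1, List.length_iterate, Fintype.card_fin]
  rw [← h2, List.prod_toFinset _ h1, ← cyc_iterate Q σ 0 (k + 1) (by omega) (iter_full σ h)]

theorem full_mem (σ : Equiv.Perm (Fin (k + 1))) (h : minimalPeriod σ 0 = k + 1)
    (x : Fin (k + 1)) : ∃ m < k + 1, x = σ^[m] 0 := by
  have h1 := nodup_iterate σ 0
  rw [h] at h1
  have h2 := nodup_full _ h1 (List.length_iterate _ _ _) x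
  rwa [List.mem_iterate] at h2

theorem full_sign (σ : Equiv.Perm (Fin (k + 1))) (h : minimalPeriod σ 0 = k + 1) (hk : 0 < k) :
    sign σ = -(-1) ^ (k + 1) := by
  have h0 : σ 0 ≠ 0 := by
    intro h1
    have h2 : IsPeriodicPt σ 1 0 := h1
    have h3 := h2.minimalPeriod_le (by omega)
    omega
  have hc : σ.IsCycle := by
    refine ⟨0, h0, fun y _ => ?_⟩
    obtain ⟨m, -, rfl⟩ := full_mem σ h y
    refine ⟨m, ?_⟩
    rw [zpow_natCast, iterate_eq_pow]
  have hs : σ.support = Finset.univ := by
    rw [Finset.eq_univ_iff_forall]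
    intro y
    rw [Equiv.Perm.mem_support]
    intro hy
    obtain ⟨m, -, rfl⟩ := full_mem σ h y
    rw [← iterate_succ_apply' (f := σ), iterate_succ_apply] at hy
    exact h0 (σ.injective.iterate m hy)
  rw [hc.sign, hs, Finset.card_univ, Fintype.card_fin]

theorem full_inj (σ τ : Equiv.Perm (Fin (k + 1))) (h : minimalPeriod σ 0 = k + 1)
    (h' : minimalPeriod τ 0 = k + 1)
    (hst : List.iterate σ 0 (k + 1) = List.iterate τ 0 (k + 1)) : σ = τ := by
  have h1 : ∀ m < k + 1, σ^[m] 0 = τ^[m] 0 := by
    intro m hm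
    have h2 : (List.iterate σ 0 (k + 1))[m]? = (List.iterate τ 0 (k + 1))[m]? := by rw [hst]
    rw [List.getElem?_eq_getElem (by rw [List.length_iterate]; exact hm),
      List.getElem?_eq_getElem (by rw [List.length_iterate]; exact hm),
      List.getElem_iterate, List.getElem_iterate] at h2
    exact Option.some.inj h2
  ext1 x
  obtain ⟨m, hm, rfl⟩ := full_mem σ h x
  rw [← iterate_succ_apply' (f := σ)]
  conv_rhs => rw [h1 m hm, ← iterate_succ_apply' (f := τ)]
  rcases Nat.lt_or_ge (m + 1) (k + 1) with h2 | h2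
  · exact h1 _ h2
  · have h3 : m.succ = k + 1 := by omega
    rw [h3, iter_full σ h, iter_full τ h']

theorem full_H (σ : Equiv.Perm (Fin (k + 1))) (h : minimalPeriod σ 0 = k + 1) :
    List.iterate σ 0 (k + 1) ∈ Hset k := by
  have h1 := nodup_iterate σ 0
  rw [h] at h1
  exact ⟨h1, List.length_iterate _ _ _, _, rfl⟩

theorem full_surj (l : List (Fin (k + 1))) (hl : l ∈ Hset k) :
    minimalPeriod l.formPerm 0 = k + 1 ∧ List.iterate l.formPerm 0 (k + 1) = l := by
  obtain ⟨hnd, hlen, l', rfl⟩ := hl
  have h1 : ∀ m : ℕ, (0 :: l').formPerm^[m] 0 =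
      (0 :: l')[m % (0 :: l').length]'(Nat.mod_lt _ (by simp)) := by
    intro m
    rw [iterate_eq_pow, List.formPerm_pow_apply_head _ _ hnd]
  have h2 : List.iterate (0 :: l').formPerm 0 (k + 1) = 0 :: l' := by
    apply List.ext_getElem
    · rw [List.length_iterate, hlen]
    · intro i h3 h4
      rw [List.getElem_iterate, h1]
      congr 1
      exact Nat.mod_eq_of_lt h4
  refine ⟨?_, h2⟩
  apply le_antisymm (per_le _ _)
  by_contra hlt
  rw [not_le] at hlt
  have h5 := iterate_minimalPeriod (f := (0 :: l').formPerm) (x := (0 : Fin (k + 1)))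
  rw [h1] at h5
  have h6 : minimalPeriod (0 :: l').formPerm 0 % (0 :: l').length =
      minimalPeriod (0 :: l').formPerm 0 := Nat.mod_eq_of_lt (by omega)
  have h7 : (0 :: l')[minimalPeriod (0 :: l').formPerm 0 % (0 :: l').length]'
      (Nat.mod_lt _ (by simp)) = (0 :: l')[0]'(by simp) := h5
  rw [hnd.getElem_inj_iff, h6] at h7
  have := per_pos (0 :: l').formPerm 0
  omega

/-- the determinant and the Hamiltonian cycles -/
theorem sum_S (hS : ∀ l : List (Fin (k + 1)), l.length < k + 1 → cyc Q l ∈ S)
    (hdet : Q.det ∈ S) : ∑ l ∈ (Hset_finite k).toFinset, cyc Q l ∈ S := by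
  classical
  obtain ⟨u, hu⟩ : ∃ u : ℤˣ, ∀ σ : Equiv.Perm (Fin (k + 1)), minimalPeriod σ 0 = k + 1 →
      sign σ = u := by
    rcases Nat.eq_zero_or_pos k with rfl | hk
    · refine ⟨1, fun σ _ => ?_⟩
      have h0 : σ = 1 := Equiv.ext fun x => Subsingleton.elim (α := Fin 1) _ _
      rw [h0, Equiv.Perm.sign_one]
    · exact ⟨_, fun σ h => full_sign σ h hk⟩
  have h1 : Q.det = ∑ σ : Equiv.Perm (Fin (k + 1)), sign σ • ∏ i, Q i (σ i) := by
    rw [← Matrix.det_transpose, Matrix.det_apply]
    rfl
  rw [← Finset.sum_filter_add_sum_filter_not Finset.univ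
    (fun σ : Equiv.Perm (Fin (k + 1)) => minimalPeriod σ 0 = k + 1)] at h1
  have h2 : ∑ l ∈ (Hset_finite k).toFinset, cyc Q l =
      ∑ σ ∈ Finset.univ.filter
        (fun σ : Equiv.Perm (Fin (k + 1)) => minimalPeriod σ 0 = k + 1),
        cyc Q (List.iterate σ 0 (k + 1)) := by
    symm
    apply Finset.sum_bij (fun (σ : Equiv.Perm (Fin (k + 1))) _ => List.iterate σ 0 (k + 1))
    · intro σ hσ
      rw [Finset.mem_filter] at hσ
      rw [Set.Finite.mem_toFinset]
      exact full_H σ hσ.2
    · intro σ hσ τ hτ hst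
      rw [Finset.mem_filter] at hσ hτ
      exact full_inj σ τ hσ.2 hτ.2 hst
    · intro l hl
      rw [Set.Finite.mem_toFinset] at hl
      obtain ⟨h3, h4⟩ := full_surj l hl
      exact ⟨l.formPerm, Finset.mem_filter.2 ⟨Finset.mem_univ _, h3⟩, h4⟩
    · intro σ _
      rfl
  have h3 : ∑ σ ∈ Finset.univ.filter
        (fun σ : Equiv.Perm (Fin (k + 1)) => minimalPeriod σ 0 = k + 1),
        sign σ • ∏ i, Q i (σ i) = u • ∑ l ∈ (Hset_finite k).toFinset, cyc Q l := by
    rw [h2, Finset.smul_sum]
    apply Finset.sum_congr rfl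
    intro σ hσ
    rw [Finset.mem_filter] at hσ
    rw [hu σ hσ.2, full_prod Q σ hσ.2]
  have husm : ∀ (v : ℤˣ) {x : R}, x ∈ S → v • x ∈ S := by
    intro v x hx
    rw [Units.smul_def]
    exact S.zsmul_mem hx _
  have h4 : ∑ σ ∈ Finset.univ.filter
        (fun σ : Equiv.Perm (Fin (k + 1)) => ¬ minimalPeriod σ 0 = k + 1),
        sign σ • ∏ i, Q i (σ i) ∈ S := by
    apply S.sum_mem
    intro σ hσ
    rw [Finset.mem_filter] at hσ
    apply husm
    exact prod_S S Q hS σ (per_lt σ hσ.2) _ Finset.univ rfl (fun x _ => Finset.mem_univ _)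
  have h5 : ∑ l ∈ (Hset_finite k).toFinset, cyc Q l = u • (u • ∑ l ∈ (Hset_finite k).toFinset, cyc Q l) := by
    rw [smul_smul, Int.units_mul_self, one_smul]
  rw [h5]
  apply husm
  rw [← h3, eq_sub_of_add_eq h1.symm]
  exact S.sub_mem hdet h4

end perms

theorem core {R : Type} [CommRing R] (S : Subring R) (n : ℕ) (Q : Matrix (Fin n) (Fin n) R)
    (hic : ∀ x : R, IsIntegral S x → x ∈ S)
    (hdet : ∀ I : Finset (Fin n),
      (Q.submatrix (fun i : I => (i : Fin n)) (fun i : I => (i : Fin n))).det ∈ S) :
    ∀ (K : ℕ) (l : List (Fin n)), l.length = K → cyc Q l ∈ S := by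
  classical
  intro K
  induction K using Nat.strong_induction_on with
  | _ K ih =>
    intro l hlK
    by_cases hnd : l.Nodup
    · obtain _ | k := K
      · rw [List.length_eq_zero_iff] at hlK
        subst hlK
        exact S.one_mem
      · set e : Fin (k + 1) → Fin n := fun i => l.get (Fin.cast hlK.symm i) with he
        have heinj : Function.Injective e := by
          intro i j hij
          have h1 := (List.nodup_iff_injective_get.1 hnd) hij
          exact Fin.cast_injective _ h1
        have hle : l = (List.finRange (k + 1)).map e := by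
          apply List.ext_getElem
          · rw [List.length_map, List.length_finRange, hlK]
          · intro i h1 h2
            simp [he]
        have h0 : cyc Q l = cyc (Q.submatrix e e) (List.finRange (k + 1)) := by
          rw [cyc_map, ← hle]
        rw [h0]
        have hS : ∀ m : List (Fin (k + 1)), m.length < k + 1 → cyc (Q.submatrix e e) m ∈ S := by
          intro m hm
          rw [cyc_map]
          exact ih m.length hm _ (by rw [List.length_map])
        apply main_step S _ hic hS
        · apply sum_S S _ hS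
          let I : Finset (Fin n) := Finset.univ.image e
          have hI := hdet I
          let f : Fin (k + 1) ≃ I := Equiv.ofBijective
            (fun i => ⟨e i, Finset.mem_image_of_mem e (Finset.mem_univ i)⟩) (by
              constructor
              · intro i j hij
                exact heinj (congrArg Subtype.val hij)
              · rintro ⟨x, hx⟩
                obtain ⟨i, -, hi⟩ := Finset.mem_image.1 hx
                exact ⟨i, Subtype.ext hi⟩)
          rw [← Matrix.det_submatrix_equiv_self f] at hI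
          exact hI
        · refine ⟨List.nodup_finRange _, List.length_finRange, _, List.finRange_succ⟩
    · obtain ⟨l₁, l₂, h1, h2, h3, h4⟩ := split_rep Q l hnd
      rw [h4]
      exact S.mul_mem (ih l₁.length (by omega) l₁ rfl) (ih l₂.length (by omega) l₂ rfl)

end XHam

theorem thm_Ham : St_Ham := by
  intro R _ S n Q hic hdet l
  exact XHam.core S n Q hic hdet l.length l rfl

end Pool.Agent.PRS
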