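import Pool.Agent.PRS.StX1

/-!
# One arbitrary generator: all words are integral (module INT, helper38)
-/

set_option autoImplicit false

namespace Pool.Agent.PRS

open Matrix Polynomial

/-! ### polynomials with integral coefficients -/

/-- the polynomials over `ℂ` with coefficients integral over `ℤ` -/
private def xiS : Subring ℂ[X] where
  carrier := {p | ∀ k, IsIntegral ℤ (p.coeff k)}
  mul_mem' := by
    intro p q hp hq k
    rw [Polynomial.coeff_mul]
    exact IsIntegral.sum _ (fun x _ => (hp _).mul (hq _))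
  one_mem' := by
    intro k
    rw [coeff_one]
    split_ifs
    · exact isIntegral_one
    · exact isIntegral_zero
  add_mem' := by
    intro p q hp hq k
    rw [coeff_add]
    exact (hp k).add (hq k)
  zero_mem' := by
    intro k
    rw [coeff_zero]
    exact isIntegral_zero
  neg_mem' := by
    intro p hp k
    rw [coeff_neg]
    exact (hp k).neg

private theorem xiS_mem (p : ℂ[X]) : p ∈ xiS ↔ ∀ k, IsIntegral ℤ (p.coeff k) := Iff.rfl

attribute [local instance] Polynomial.algebra

private theorem xiS_iff (p : ℂ[X]) : p ∈ xiS ↔ IsIntegral ℤ[X] p := by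
  rw [xiS_mem, Polynomial.isIntegral_iff_isIntegral_coeff]

private theorem xiS_closed (x : ℂ[X]) (hx : IsIntegral xiS x) : x ∈ xiS := by
  rw [xiS_iff]
  have h1 : IsIntegral (integralClosure ℤ[X] ℂ[X]) x := by
    obtain ⟨p, hp, hpx⟩ := hx
    let i : xiS →+* integralClosure ℤ[X] ℂ[X] :=
      { toFun := fun y => ⟨y, (xiS_iff y).1 y.2⟩
        map_one' := rfl
        map_mul' := fun _ _ => rfl
        map_zero' := rfl
        map_add' := fun _ _ => rfl }
    refine ⟨p.map i, hp.map i, ?_⟩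
    rw [eval₂_map]
    exact hpx
  exact isIntegral_trans (A := integralClosure ℤ[X] ℂ[X]) x h1

private theorem xiS_charpoly {m : ℕ} (M : Matrix (Fin m) (Fin m) ℂ)
    (h : ∀ x : ℂ, M.charpoly.IsRoot x → IsIntegral ℤ x) : M.charpoly ∈ xiS := by
  have h1 : M.charpoly = (M.charpoly.roots.map fun a => X - C a).prod :=
    (IsAlgClosed.splits M.charpoly).eq_prod_roots_of_monic (M.charpoly_monic)
  rw [h1]
  refine Subring.multiset_prod_mem xiS _ (fun q hq => ?_)
  obtain ⟨a, ha, rfl⟩ := Multiset.mem_map.1 hq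
  have ha' : IsIntegral ℤ a := h a (isRoot_of_mem_roots ha)
  intro k
  rw [coeff_sub, coeff_X, coeff_C]
  refine IsIntegral.sub ?_ ?_
  · split_ifs
    · exact isIntegral_one
    · exact isIntegral_zero
  · split_ifs
    · exact ha'
    · exact isIntegral_zero

private theorem xiS_div (p q : ℂ[X]) (hq : q ∈ xiS) (hm : q.Monic) (h : q * p ∈ xiS) :
    p ∈ xiS := by
  have lift : ∀ s : ℂ[X], s ∈ xiS → ∃ t : (integralClosure ℤ ℂ)[X],
      t.map (algebraMap (integralClosure ℤ ℂ) ℂ) = s := by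
    intro s hs
    rw [← Polynomial.mem_lifts, lifts_iff_coeff_lifts]
    intro n
    exact ⟨⟨s.coeff n, hs n⟩, rfl⟩
  obtain ⟨t, ht⟩ := lift _ h
  have hq' : q ∈ lifts (algebraMap (integralClosure ℤ ℂ) ℂ) := by
    rw [Polynomial.mem_lifts]
    exact lift q hq
  obtain ⟨q', hq1, -, hq2⟩ := lifts_and_natDegree_eq_and_monic hq' hm
  have h2 : p = (t /ₘ q').map (algebraMap (integralClosure ℤ ℂ) ℂ) := by
    rw [map_divByMonic _ hq2, ht, hq1, mul_divByMonic_cancel_left p hm]
  rw [h2]
  intro k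
  rw [coeff_map]
  exact ((t /ₘ q').coeff k).2

/-! ### the coefficients of the adjugate -/

section adj
variable {r : ℕ} (A : Matrix (Fin r) (Fin r) ℂ)

/-- the coefficients of `adj (X - A)` -/
private noncomputable def xiB (s : ℕ) : Matrix (Fin r) (Fin r) ℂ :=
  (matPolyEquiv (charmatrix A).adjugate).coeff s

private theorem xiB_poly : matPolyEquiv (charmatrix A).adjugate * (X - C A) =
    A.charpoly.map (algebraMap ℂ (Matrix (Fin r) (Fin r) ℂ)) := by
  rw [← matPolyEquiv_charmatrix, ← map_mul, adjugate_mul, ← matPolyEquiv_smul_one]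
  rfl

private theorem xiB_zero : xiB A 0 * A = -(A.charpoly.coeff 0 • (1 : Matrix (Fin r) (Fin r) ℂ)) := by
  have h := congrArg (fun p => p.coeff 0) (xiB_poly A)
  simp only [mul_sub, coeff_sub, coeff_mul_X_zero, coeff_mul_C, coeff_map] at h
  rw [Algebra.algebraMap_eq_smul_one] at h
  rw [← h]
  simp [xiB]

private theorem xiB_succ (s : ℕ) : xiB A s = xiB A (s + 1) * A +
    A.charpoly.coeff (s + 1) • (1 : Matrix (Fin r) (Fin r) ℂ) := by
  have h := congrArg (fun p => p.coeff (s + 1)) (xiB_poly A)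
  simp only [mul_sub, coeff_sub, coeff_mul_X, coeff_mul_C, coeff_map] at h
  rw [Algebra.algebraMap_eq_smul_one] at h
  rw [← h]
  simp [xiB]

private theorem xiB_big (s : ℕ) (hs : r ≤ s) : xiB A s = 0 := by
  have h1 : ∀ t : ℕ, xiB A s = xiB A (s + t) * A ^ t := by
    intro t
    induction t with
    | zero => simp
    | succ t ih =>
      have h2 : A.charpoly.coeff (s + t + 1) = 0 := by
        refine coeff_eq_zero_of_natDegree_lt ?_
        rw [charpoly_natDegree_eq_dim, Fintype.card_fin]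
        omega
      rw [ih, xiB_succ A (s + t), h2, zero_smul, add_zero, pow_succ', ← mul_assoc, ← add_assoc]
  have h3 : xiB A (s + ((matPolyEquiv (charmatrix A).adjugate).natDegree + 1)) = 0 := by
    refine coeff_eq_zero_of_natDegree_lt ?_
    omega
  rw [h1 ((matPolyEquiv (charmatrix A).adjugate).natDegree + 1), h3, zero_mul]

/-- the integral span of the coefficients -/
private noncomputable def xiM : Submodule (integralClosure ℤ ℂ) (Matrix (Fin r) (Fin r) ℂ) :=
  Submodule.span (integralClosure ℤ ℂ) (Set.range (xiB A))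

private theorem xiM_smul {a : ℂ} (ha : IsIntegral ℤ a) {P : Matrix (Fin r) (Fin r) ℂ}
    (hP : P ∈ xiM A) : a • P ∈ xiM A := by
  have h := Submodule.smul_mem (xiM A) (⟨a, ha⟩ : integralClosure ℤ ℂ) hP
  exact h

private theorem xiM_one : (1 : Matrix (Fin r) (Fin r) ℂ) ∈ xiM A := by
  rcases Nat.eq_zero_or_pos r with h0 | h0
  · subst h0
    have h1 : (1 : Matrix (Fin 0) (Fin 0) ℂ) = 0 := Subsingleton.elim _ _
    rw [h1]
    exact Submodule.zero_mem _
  · have h1 := xiB_succ A (r - 1)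
    rw [Nat.sub_add_cancel h0, xiB_big A r le_rfl, zero_mul, zero_add] at h1
    have h2 : A.charpoly.coeff r = 1 := by
      have h3 := A.charpoly_monic
      rw [Monic, leadingCoeff, charpoly_natDegree_eq_dim, Fintype.card_fin] at h3
      exact h3
    rw [h2, one_smul] at h1
    rw [← h1]
    exact Submodule.subset_span ⟨_, rfl⟩

private theorem xiM_mul (hA : A.charpoly ∈ xiS) {P : Matrix (Fin r) (Fin r) ℂ}
    (hP : P ∈ xiM A) : P * A ∈ xiM A := by
  unfold xiM at hP
  induction hP using Submodule.span_induction with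
  | mem P h =>
    obtain ⟨s, rfl⟩ := h
    cases s with
    | zero =>
      rw [xiB_zero]
      exact Submodule.neg_mem _ (xiM_smul A (hA 0) (xiM_one A))
    | succ s =>
      have h1 : xiB A (s + 1) * A = xiB A s -
          A.charpoly.coeff (s + 1) • (1 : Matrix (Fin r) (Fin r) ℂ) := by
        rw [xiB_succ A s]
        simp
      rw [h1]
      exact Submodule.sub_mem _ (Submodule.subset_span ⟨_, rfl⟩)
        (xiM_smul A (hA _) (xiM_one A))
  | zero =>
    rw [zero_mul]
    exact Submodule.zero_mem _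
  | add P Q _ _ h1 h2 =>
    rw [add_mul]
    exact Submodule.add_mem _ h1 h2
  | smul a P _ h1 =>
    have h2 : (a • P) * A = a • (P * A) := Matrix.smul_mul a P A
    rw [h2]
    exact Submodule.smul_mem _ a h1

private theorem xiM_inv {A' : Matrix (Fin r) (Fin r) ℂ} (hAA' : A * A' = 1)
    (hA : A.charpoly ∈ xiS) {c : ℂ} (hc : IsIntegral ℤ c) (hc1 : c * A.charpoly.coeff 0 = 1)
    {P : Matrix (Fin r) (Fin r) ℂ} (hP : P ∈ xiM A) : P * A' ∈ xiM A := by
  have h0 : A' ∈ xiM A := by
    have h1 : A' = -(c • xiB A 0) := by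
      have h2 : c • xiB A 0 = c • (xiB A 0 * A * A') := by
        rw [mul_assoc, hAA', mul_one]
      rw [h2, xiB_zero, neg_mul, smul_neg, neg_neg, smul_mul_assoc, one_mul, smul_smul, hc1,
        one_smul]
    rw [h1]
    exact Submodule.neg_mem _ (xiM_smul A hc (Submodule.subset_span ⟨_, rfl⟩))
  unfold xiM at hP
  induction hP using Submodule.span_induction with
  | mem P h =>
    obtain ⟨s, rfl⟩ := h
    have h1 : xiB A s * A' = xiB A (s + 1) + A.charpoly.coeff (s + 1) • A' := by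
      rw [xiB_succ A s, add_mul, mul_assoc, hAA', mul_one, smul_mul_assoc, one_mul]
    rw [h1]
    exact Submodule.add_mem _ (Submodule.subset_span ⟨_, rfl⟩) (xiM_smul A (hA _) h0)
  | zero =>
    rw [zero_mul]
    exact Submodule.zero_mem _
  | add P Q _ _ h1 h2 =>
    rw [add_mul]
    exact Submodule.add_mem _ h1 h2
  | smul a P _ h1 =>
    have h2 : (a • P) * A' = a • (P * A') := Matrix.smul_mul a P A'
    rw [h2]
    exact Submodule.smul_mem _ a h1

end adj

/-- all powers are in the integral span of the coefficients of the adjugate -/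
private theorem xiM_pow {r : ℕ} (A : GL (Fin r) ℂ)
    (h : ∀ x : ℂ, (A : Matrix (Fin r) (Fin r) ℂ).charpoly.IsRoot x → IsIntegral ℤ x ∧
      IsIntegral ℤ x⁻¹) (k : ℤ) :
    ((A ^ k : GL (Fin r) ℂ) : Matrix (Fin r) (Fin r) ℂ) ∈
      xiM (A : Matrix (Fin r) (Fin r) ℂ) := by
  have hA : (A : Matrix (Fin r) (Fin r) ℂ).charpoly ∈ xiS := xiS_charpoly _ (fun x hx => (h x hx).1)
  have h0 : (A : Matrix (Fin r) (Fin r) ℂ).charpoly.coeff 0 ≠ 0 := by
    intro h1
    have h2 := Matrix.det_eq_sign_charpoly_coeff (A : Matrix (Fin r) (Fin r) ℂ)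
    rw [h1, mul_zero] at h2
    have h3 := (Matrix.isUnit_iff_isUnit_det _).1 A.isUnit
    rw [h2] at h3
    exact not_isUnit_zero h3
  have hc : IsIntegral ℤ ((A : Matrix (Fin r) (Fin r) ℂ).charpoly.coeff 0)⁻¹ := by
    have h1 : (A : Matrix (Fin r) (Fin r) ℂ).charpoly.coeff 0 =
        ((A : Matrix (Fin r) (Fin r) ℂ).charpoly.roots.map fun a => -a).prod := by
      have h2 : (A : Matrix (Fin r) (Fin r) ℂ).charpoly =
          ((A : Matrix (Fin r) (Fin r) ℂ).charpoly.roots.map fun a => X - C a).prod :=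
        (IsAlgClosed.splits _).eq_prod_roots_of_monic (Matrix.charpoly_monic _)
      conv_lhs => rw [h2]
      rw [coeff_zero_eq_eval_zero, eval_multiset_prod, Multiset.map_map]
      simp
    rw [h1, ← Multiset.prod_map_inv']
    rw [Multiset.map_map]
    refine IsIntegral.multiset_prod (fun x hx => ?_)
    obtain ⟨a, ha, rfl⟩ := Multiset.mem_map.1 hx
    have h2 := (h a (isRoot_of_mem_roots ha)).2
    show IsIntegral ℤ ((-a)⁻¹)
    rw [inv_neg]
    exact h2.neg
  induction k using Int.induction_on with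
  | zero =>
    rw [zpow_zero]
    exact xiM_one _
  | succ k ih =>
    rw [_root_.zpow_add_one]
    exact xiM_mul _ hA ih
  | pred k ih =>
    rw [_root_.zpow_sub_one]
    refine xiM_inv _ (A' := ((A⁻¹ : GL (Fin r) ℂ) : Matrix (Fin r) (Fin r) ℂ)) ?_ hA hc
      (inv_mul_cancel₀ h0) ih
    rw [← Units.val_mul, mul_inv_cancel]
    rfl

/-! ### closed walks without loops -/

section walks
variable {n : ℕ}

/-- the loops are replaced by `1` -/
private noncomputable def xiQ (Q : Matrix (Fin n) (Fin n) ℂ[X]) : Matrix (Fin n) (Fin n) ℂ[X] :=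
  fun i j => if i = j then 1 else Q i j

private theorem xiQ_walk (Q : Matrix (Fin n) (Fin n) ℂ[X]) (l : List (Fin n)) :
    ∀ i k : Fin n, (∃ l', walk (xiQ Q) i l k = walk Q i l' k) ∨
      (i = k ∧ walk (xiQ Q) i l k = 1) := by
  induction l with
  | nil =>
    intro i k
    by_cases h : i = k
    · right
      refine ⟨h, ?_⟩
      show xiQ Q i k = 1
      rw [xiQ, if_pos h]
    · left
      refine ⟨[], ?_⟩
      show xiQ Q i k = Q i k
      rw [xiQ, if_neg h]
  | cons j t ih =>
    intro i k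
    have h0 : walk (xiQ Q) i (j :: t) k = xiQ Q i j * walk (xiQ Q) j t k := rfl
    by_cases h : i = j
    · have h1 : xiQ Q i j = 1 := by rw [xiQ, if_pos h]
      rw [h0, h1, one_mul, h]
      exact ih j k
    · have h1 : xiQ Q i j = Q i j := by rw [xiQ, if_neg h]
      left
      rcases ih j k with ⟨l', hl'⟩ | ⟨hjk, h2⟩
      · refine ⟨j :: l', ?_⟩
        rw [h0, h1, hl']
        rfl
      · refine ⟨[], ?_⟩
        rw [h0, h1, h2, mul_one, hjk]
        rfl

private theorem xiQ_cyc (Q : Matrix (Fin n) (Fin n) ℂ[X]) (h : ∀ l, cyc Q l ∈ xiS)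
    (i : Fin n) (l : List (Fin n)) : walk (xiQ Q) i l i ∈ xiS := by
  rcases xiQ_walk Q l i i with ⟨l', hl'⟩ | ⟨-, h1⟩
  · rw [hl']
    exact h (i :: l')
  · rw [h1]
    exact one_mem _

/-- the product of the numbers `c` along a walk -/
private def xiW (c : Fin n → ℤ → Fin n → ℂ) : Fin n → List (ℤ × Fin n) → ℤ → Fin n → ℂ
  | i, [], k₀, k => c i k₀ k
  | i, p :: t, k₀, k => c i p.1 p.2 * xiW c p.2 t k₀ k

/-- `St_Krn` for lists -/
private theorem xi_krn (hK : St_Krn) (L : List (ℂ[X] × ℕ))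
    (h : (L.map fun p => p.1).prod ∈ xiS) : IsIntegral ℤ (L.map fun p => p.1.coeff p.2).prod := by
  have h1 := hK L.length (fun e => (L.get e).1) (fun e => (L.get e).2) (by
    have h2 : (∏ e : Fin L.length, (L.get e).1) = (L.map fun p => p.1).prod := by
      exact Fin.prod_univ_fun_getElem L (fun p => p.1)
    rw [h2]
    exact h)
  have h3 : (∏ e : Fin L.length, (L.get e).1.coeff (L.get e).2) =
      (L.map fun p => p.1.coeff p.2).prod := by
    exact Fin.prod_univ_fun_getElem L (fun p => p.1.coeff p.2)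
  rw [← h3]
  exact h1

/-- the multilinear expansion -/
private theorem xi_exp (hK : St_Krn) (P : Matrix (Fin n) (Fin n) ℂ[X])
    (c : Fin n → ℤ → Fin n → ℂ)
    (hc : ∀ i k j, c i k j ∈ Submodule.span (integralClosure ℤ ℂ) (Set.range (P i j).coeff))
    (t : List (ℤ × Fin n)) : ∀ (L : List (ℂ[X] × ℕ)) (i : Fin n) (k₀ : ℤ) (k : Fin n),
      (L.map fun p => p.1).prod * walk P i (t.map Prod.snd) k ∈ xiS →
      IsIntegral ℤ ((L.map fun p => p.1.coeff p.2).prod * xiW c i t k₀ k) := by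
  induction t with
  | nil =>
    intro L i k₀ k h
    show IsIntegral ℤ ((L.map fun p => p.1.coeff p.2).prod * c i k₀ k)
    have hy := hc i k₀ k
    generalize c i k₀ k = y at hy
    induction hy using Submodule.span_induction with
    | mem y hy =>
      obtain ⟨d, rfl⟩ := hy
      have h1 := xi_krn hK ((P i k, d) :: L) (by
        rw [List.map_cons, List.prod_cons, mul_comm]
        exact h)
      rw [List.map_cons, List.prod_cons, mul_comm] at h1
      exact h1
    | zero =>
      rw [mul_zero]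
      exact isIntegral_zero
    | add y z _ _ h1 h2 =>
      rw [mul_add]
      exact h1.add h2
    | smul a y _ h1 =>
      have h2 : (L.map fun p => p.1.coeff p.2).prod * (a • y) =
          (a : ℂ) * ((L.map fun p => p.1.coeff p.2).prod * y) := by
        rw [Algebra.smul_def]
        show _ * ((a : ℂ) * y) = _
        ring
      rw [h2]
      exact IsIntegral.mul a.2 h1
  | cons q t ih =>
    intro L i k₀ k h
    show IsIntegral ℤ ((L.map fun p => p.1.coeff p.2).prod * (c i q.1 q.2 * xiW c q.2 t k₀ k))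
    have hy := hc i q.1 q.2
    generalize c i q.1 q.2 = y at hy
    induction hy using Submodule.span_induction with
    | mem y hy =>
      obtain ⟨d, rfl⟩ := hy
      have h1 := ih ((P i q.2, d) :: L) q.2 k₀ k (by
        rw [List.map_cons, List.prod_cons]
        have h2 : P i q.2 * (L.map fun p => p.1).prod * walk P q.2 (t.map Prod.snd) k =
            (L.map fun p => p.1).prod * walk P i ((q :: t).map Prod.snd) k := by
          show _ = _ * (P i q.2 * walk P q.2 (t.map Prod.snd) k)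
          ring
        rw [h2]
        exact h)
      rw [List.map_cons, List.prod_cons] at h1
      have h3 : (P i q.2).coeff d * (L.map fun p => p.1.coeff p.2).prod * xiW c q.2 t k₀ k =
          (L.map fun p => p.1.coeff p.2).prod * ((P i q.2).coeff d * xiW c q.2 t k₀ k) := by
        ring
      rw [← h3]
      exact h1
    | zero =>
      rw [zero_mul, mul_zero]
      exact isIntegral_zero
    | add y z _ _ h1 h2 =>
      rw [add_mul, mul_add]
      exact h1.add h2
    | smul a y _ h1 =>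
      have h2 : (L.map fun p => p.1.coeff p.2).prod * (a • y * xiW c q.2 t k₀ k) =
          (a : ℂ) * ((L.map fun p => p.1.coeff p.2).prod * (y * xiW c q.2 t k₀ k)) := by
        rw [Algebra.smul_def]
        show _ * ((a : ℂ) * y * _) = _
        ring
      rw [h2]
      exact IsIntegral.mul a.2 h1

end walks

/-! ### the entries of `Qm` -/

section entries
variable {r n : ℕ} (A : GL (Fin r) ℂ) (u f : Fin n → Fin r → ℂ)

/-- `f_i B_s v` is a coefficient -/
private theorem xi_adj (M : Matrix (Fin r) (Fin r) ℂ) (a b : Fin r → ℂ) (s : ℕ) :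
    ((((fun x => C (a x)) ᵥ* (charmatrix M).adjugate) ⬝ᵥ fun x => C (b x)) : ℂ[X]).coeff s =
      a ⬝ᵥ (xiB M s *ᵥ b) := by
  rw [← dotProduct_mulVec]
  simp only [dotProduct, mulVec, finsetSum_coeff, coeff_C_mul, coeff_mul_C, xiB,
    matPolyEquiv_coeff_apply]

/-- membership of `f_i P v` in a span -/
private theorem xi_span (M : Matrix (Fin r) (Fin r) ℂ)
    (T : Submodule (integralClosure ℤ ℂ) ℂ) (a b : Fin r → ℂ)
    (h : ∀ s, a ⬝ᵥ (xiB M s *ᵥ b) ∈ T) {P : Matrix (Fin r) (Fin r) ℂ} (hP : P ∈ xiM M) :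
    a ⬝ᵥ (P *ᵥ b) ∈ T := by
  unfold xiM at hP
  induction hP using Submodule.span_induction with
  | mem P hP =>
    obtain ⟨s, rfl⟩ := hP
    exact h s
  | zero =>
    rw [zero_mulVec, dotProduct_zero]
    exact Submodule.zero_mem _
  | add P Q _ _ h1 h2 =>
    rw [add_mulVec, dotProduct_add]
    exact Submodule.add_mem _ h1 h2
  | smul z P _ h1 =>
    have h2 : a ⬝ᵥ ((z • P) *ᵥ b) = z • (a ⬝ᵥ (P *ᵥ b)) := by
      rw [smul_mulVec, dotProduct_smul]
    rw [h2]
    exact Submodule.smul_mem _ z h1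

/-- above the diagonal -/
private theorem xi_up (M : Matrix (Fin r) (Fin r) ℂ) {i j : Fin n} (h : i < j) (s : ℕ) :
    (Qm M u f i j).coeff (s + 1) = -(f i ⬝ᵥ (xiB M s *ᵥ u j)) := by
  have h1 : Qm M u f i j =
      -(X * (((fun a => C (f i a)) ᵥ* (charmatrix M).adjugate) ⬝ᵥ fun a => C (u j a))) := by
    rw [Qm, if_neg (not_le.2 h), if_neg (ne_of_lt h)]
    ring
  rw [h1, coeff_neg, coeff_X_mul, xi_adj]

/-- below or on the diagonal -/
private theorem xi_low (M : Matrix (Fin r) (Fin r) ℂ) {i j : Fin n} (h : j ≤ i) (s : ℕ) :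
    (Qm M u f i j).coeff s = (if i = j then M.charpoly.coeff s else 0) -
      (f i ⬝ᵥ (xiB M s *ᵥ (M *ᵥ u j))) := by
  have h1 : Qm M u f i j = C (f i ⬝ᵥ u j) * M.charpoly + (if i = j then M.charpoly else 0) -
      X * (((fun a => C (f i a)) ᵥ* (charmatrix M).adjugate) ⬝ᵥ fun a => C (u j a)) := by
    rw [Qm, if_pos h]
  have h2 : (if i = j then M.charpoly else 0).coeff s =
      if i = j then M.charpoly.coeff s else 0 := by
    split_ifs
    · rfl
    · exact coeff_zero s
  have h3 : f i ⬝ᵥ (xiB M s *ᵥ (M *ᵥ u j)) = f i ⬝ᵥ ((xiB M s * M) *ᵥ u j) := by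
    rw [mulVec_mulVec]
  rw [h1, coeff_sub, coeff_add, h2, coeff_C_mul, h3]
  cases s with
  | zero =>
    rw [coeff_X_mul_zero, xiB_zero, neg_mulVec, smul_mulVec, one_mulVec, dotProduct_neg,
      dotProduct_smul, smul_eq_mul]
    ring
  | succ s =>
    have h4 : f i ⬝ᵥ (xiB M s *ᵥ u j) = f i ⬝ᵥ ((xiB M (s + 1) * M) *ᵥ u j) +
        M.charpoly.coeff (s + 1) * (f i ⬝ᵥ u j) := by
      conv_lhs => rw [xiB_succ M s]
      rw [add_mulVec, smul_mulVec, one_mulVec, dotProduct_add, dotProduct_smul, smul_eq_mul]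
    rw [coeff_X_mul, xi_adj, h4]
    ring

/-- the trace of a word -/
private theorem xi_word (k₀ : ℤ) (k : Fin n) (t : List (ℤ × Fin n)) : ∀ i : Fin n,
    (f i ᵥ* (t.map fun p => ((A ^ p.1 : GL (Fin r) ℂ) : Matrix (Fin r) (Fin r) ℂ) *
        vecMulVec (u p.2) (f p.2)).prod) ⬝ᵥ
      (((A ^ k₀ : GL (Fin r) ℂ) : Matrix (Fin r) (Fin r) ℂ) *ᵥ u k) =
    xiW (fun i k j => f i ⬝ᵥ (((A ^ k : GL (Fin r) ℂ) : Matrix (Fin r) (Fin r) ℂ) *ᵥ u j))
      i t k₀ k := by
  induction t with
  | nil =>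
    intro i
    rw [List.map_nil, List.prod_nil, vecMul_one]
    rfl
  | cons p t ih =>
    intro i
    rw [List.map_cons, List.prod_cons, mul_vecMulVec, ← vecMul_vecMul, vecMul_vecMulVec,
      smul_vecMul, smul_dotProduct, ih p.2]
    rfl

end entries

theorem thm_Int (hH : St_Ham) (hK : St_Krn) (hD : St_Det) : St_Int := by
  intro r n A u f _ h2 h3 w
  have hA : (A : Matrix (Fin r) (Fin r) ℂ).charpoly ∈ xiS := xiS_charpoly _ (fun x hx => (h2 x hx).1)
  have hcyc : ∀ l, cyc (Qm (A : Matrix (Fin r) (Fin r) ℂ) u f) l ∈ xiS := by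
    refine hH ℂ[X] xiS n _ xiS_closed (fun I => ?_)
    refine xiS_div _ _ hA (charpoly_monic _) ?_
    rw [mul_comm, hD]
    exact mul_mem (xiS_charpoly _ (h3 I)) (pow_mem hA _)
  have hc : ∀ (i : Fin n) (k : ℤ) (j : Fin n),
      f i ⬝ᵥ (((A ^ k : GL (Fin r) ℂ) : Matrix (Fin r) (Fin r) ℂ) *ᵥ u j) ∈
        Submodule.span (integralClosure ℤ ℂ)
          (Set.range (xiQ (Qm (A : Matrix (Fin r) (Fin r) ℂ) u f) i j).coeff) := by
    intro i k j
    rcases lt_trichotomy i j with h | h | h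
    · refine xi_span _ _ _ _ (fun s => ?_) (xiM_pow A h2 k)
      have h1 := xi_up u f (A : Matrix (Fin r) (Fin r) ℂ) h s
      have h4 : f i ⬝ᵥ (xiB (A : Matrix (Fin r) (Fin r) ℂ) s *ᵥ u j) =
          -(Qm (A : Matrix (Fin r) (Fin r) ℂ) u f i j).coeff (s + 1) := by
        rw [h1, neg_neg]
      rw [h4]
      refine Submodule.neg_mem _ (Submodule.subset_span ⟨s + 1, ?_⟩)
      rw [xiQ, if_neg (ne_of_lt h)]
    · have e : ((A ^ k : GL (Fin r) ℂ) : Matrix (Fin r) (Fin r) ℂ) *ᵥ u j =
          ((A ^ (k - 1) : GL (Fin r) ℂ) : Matrix (Fin r) (Fin r) ℂ) *ᵥ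
            ((A : Matrix (Fin r) (Fin r) ℂ) *ᵥ u j) := by
        rw [mulVec_mulVec, ← Units.val_mul, ← _root_.zpow_add_one, sub_add_cancel]
      rw [e]
      refine xi_span _ _ _ _ (fun s => ?_) (xiM_pow A h2 (k - 1))
      have h1 := xi_low u f (A : Matrix (Fin r) (Fin r) ℂ) (le_of_eq h.symm) s
      rw [if_pos h] at h1
      have h4 : f i ⬝ᵥ (xiB (A : Matrix (Fin r) (Fin r) ℂ) s *ᵥ
          ((A : Matrix (Fin r) (Fin r) ℂ) *ᵥ u j)) =
          (A : Matrix (Fin r) (Fin r) ℂ).charpoly.coeff s -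
          (Qm (A : Matrix (Fin r) (Fin r) ℂ) u f i j).coeff s := by
        rw [h1]
        ring
      have h5 : IsIntegral ℤ (f i ⬝ᵥ (xiB (A : Matrix (Fin r) (Fin r) ℂ) s *ᵥ
          ((A : Matrix (Fin r) (Fin r) ℂ) *ᵥ u j))) := by
        rw [h4]
        refine (hA s).sub ?_
        rw [← h]
        exact hcyc [i] s
      have h6 : (1 : ℂ) ∈ Submodule.span (integralClosure ℤ ℂ)
          (Set.range (xiQ (Qm (A : Matrix (Fin r) (Fin r) ℂ) u f) i j).coeff) := by
        refine Submodule.subset_span ⟨0, ?_⟩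
        rw [xiQ, if_pos h, coeff_one_zero]
      have h7 := Submodule.smul_mem _ (⟨_, h5⟩ : integralClosure ℤ ℂ) h6
      have h8 : (⟨_, h5⟩ : integralClosure ℤ ℂ) • (1 : ℂ) =
          f i ⬝ᵥ (xiB (A : Matrix (Fin r) (Fin r) ℂ) s *ᵥ
          ((A : Matrix (Fin r) (Fin r) ℂ) *ᵥ u j)) := by
        rw [Algebra.smul_def, mul_one]
        rfl
      rw [h8] at h7
      exact h7
    · have e : ((A ^ k : GL (Fin r) ℂ) : Matrix (Fin r) (Fin r) ℂ) *ᵥ u j =
          ((A ^ (k - 1) : GL (Fin r) ℂ) : Matrix (Fin r) (Fin r) ℂ) *ᵥ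
            ((A : Matrix (Fin r) (Fin r) ℂ) *ᵥ u j) := by
        rw [mulVec_mulVec, ← Units.val_mul, ← _root_.zpow_add_one, sub_add_cancel]
      rw [e]
      refine xi_span _ _ _ _ (fun s => ?_) (xiM_pow A h2 (k - 1))
      have h1 := xi_low u f (A : Matrix (Fin r) (Fin r) ℂ) (le_of_lt h) s
      rw [if_neg (ne_of_gt h)] at h1
      have h4 : f i ⬝ᵥ (xiB (A : Matrix (Fin r) (Fin r) ℂ) s *ᵥ
          ((A : Matrix (Fin r) (Fin r) ℂ) *ᵥ u j)) =
          -(Qm (A : Matrix (Fin r) (Fin r) ℂ) u f i j).coeff s := by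
        rw [h1]
        ring
      rw [h4]
      refine Submodule.neg_mem _ (Submodule.subset_span ⟨s, ?_⟩)
      rw [xiQ, if_neg (ne_of_gt h)]
  cases w with
  | nil =>
    rw [List.map_nil, List.prod_nil, trace_one]
    exact isIntegral_algebraMap (R := ℤ) (x := (Fintype.card (Fin r) : ℤ)) |> fun h => by
      simpa using h
  | cons q t =>
    have h4 : (((q :: t).map fun p => ((A ^ p.1 : GL (Fin r) ℂ) : Matrix (Fin r) (Fin r) ℂ) *
        vecMulVec (u p.2) (f p.2)).prod).trace =
        xiW (fun i k j => f i ⬝ᵥ (((A ^ k : GL (Fin r) ℂ) : Matrix (Fin r) (Fin r) ℂ) *ᵥ u j))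
          q.2 t q.1 q.2 := by
      rw [List.map_cons, List.prod_cons, mul_vecMulVec, vecMulVec_mul, trace_vecMulVec,
        dotProduct_comm, xi_word]
    rw [h4]
    have h5 := xi_exp hK _ _ hc t [] q.2 q.1 q.2 (by
      rw [List.map_nil, List.prod_nil, one_mul]
      exact xiQ_cyc _ hcyc _ _)
    rw [List.map_nil, List.prod_nil, one_mul] at h5
    exact h5

end Pool.Agent.PRS
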