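import Pool.Agent.PRS.StX3

/-!
# One arbitrary generator: the traces are algebraic integers (module INX, helper36)
-/

set_option autoImplicit false

namespace Pool.Agent.PRS

open Matrix Pool.Agent.HZ Polynomial

private theorem ix_int {x : ℂ} {M : ℕ} (hM : 0 < M) (h : x ^ M = 1) : IsIntegral ℤ x :=
  IsIntegral.of_pow hM (by rw [h]; exact isIntegral_one)

private theorem ix_inv {x : ℂ} {M : ℕ} (hM : 0 < M) (h : x ^ M = 1) : IsIntegral ℤ x⁻¹ :=
  ix_int hM (by rw [inv_pow, h, inv_one])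

/-- traces of matrices of finite order are integral -/
private theorem ix_trace {r : ℕ} (A : Matrix (Fin r) (Fin r) ℂ) {m : ℕ} (hm : 0 < m)
    (h : A ^ m = 1) : IsIntegral ℤ A.trace := by
  rw [Matrix.trace_eq_sum_roots_charpoly]
  have h1 : A.charpoly.roots.sum ∈ integralClosure ℤ ℂ := by
    refine multiset_sum_mem _ fun x hx => ?_
    obtain ⟨y, hy, hxy⟩ := root_of_pow A 1 m hm (by rw [h, one_pow]) x (isRoot_of_mem_roots hx)
    have hy1 : y = 1 := by
      rw [charpoly_one, IsRoot, eval_pow, eval_sub, eval_X, eval_one] at hy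
      by_contra hne
      exact pow_ne_zero _ (sub_ne_zero.2 hne) hy
    rw [hy1, one_pow] at hxy
    exact ix_int hm hxy
  exact h1

/-- eigenvalues of a multiple -/
private theorem ix_smul {r : ℕ} (B : Matrix (Fin r) (Fin r) ℂ) {c : ℂ} (hc : c ≠ 0) {x : ℂ}
    (h : (c • B).charpoly.IsRoot x) : B.charpoly.IsRoot (c⁻¹ * x) := by
  rw [IsRoot, eval_charpoly] at h ⊢
  have h1 : (Matrix.scalar (Fin r) x - c • B) = c • (Matrix.scalar (Fin r) (c⁻¹ * x) - B) := by
    rw [smul_sub]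
    congr 1
    ext i j
    simp only [Matrix.scalar_apply, Matrix.smul_apply, smul_eq_mul]
    rcases eq_or_ne i j with rfl | hij
    · rw [Matrix.diagonal_apply_eq, Matrix.diagonal_apply_eq]
      field_simp
    · rw [Matrix.diagonal_apply_ne _ hij, Matrix.diagonal_apply_ne _ hij, mul_zero]
  rw [h1, Matrix.det_smul] at h
  rcases mul_eq_zero.1 h with h2 | h2
  · exact absurd h2 (pow_ne_zero _ hc)
  · exact h2

/-- the rank one identity implies rank at most one -/
private theorem ix_ro {r : ℕ} (e : Matrix (Fin r) (Fin r) ℂ) (he : RO e) :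
    ∃ u f : Fin r → ℂ, e = vecMulVec u f := by
  by_cases h0 : e = 0
  · exact ⟨0, 0, by rw [h0]; ext i j; simp [vecMulVec_apply]⟩
  · have h1 : ∃ i j, e i j ≠ 0 := by
      by_contra hcon
      push Not at hcon
      exact h0 (by ext i j; exact hcon i j)
    obtain ⟨i, j, hij⟩ := h1
    have h2 := he (Matrix.single j i 1)
    refine ⟨fun a => (e i j)⁻¹ * e a j, fun b => e i b, ?_⟩
    have h3 : (e * Matrix.single j i (1 : ℂ)).trace = e i j := by
      rw [Matrix.trace_mul_single]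
      simp
    rw [h3] at h2
    ext a b
    have h4 := congrFun (congrFun h2 a) b
    rw [Matrix.smul_apply, smul_eq_mul, Matrix.mul_apply] at h4
    have h5 : ∀ x, (e * Matrix.single j i (1 : ℂ)) a x = if x = i then e a j else 0 := by
      intro x
      rcases eq_or_ne x i with rfl | hx
      · rw [Matrix.mul_single_apply_same]
        simp
      · rw [Matrix.mul_single_apply_of_ne _ _ _ _ _ hx]
        simp [hx]
    simp only [h5, ite_mul, zero_mul, Finset.sum_ite_eq', Finset.mem_univ, if_true] at h4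
    rw [vecMulVec_apply, mul_assoc, h4, ← mul_assoc, inv_mul_cancel₀ hij, one_mul]

/-- **INX** -/
theorem thm_Inx (hI : St_Int) (hK : St_KW) (hB : St_Bas) (hL : St_Lam) : St_Inx := by
  intro n r ρ hn hX
  obtain ⟨⟨M, hM, hroot⟩, hreach, -, hfin⟩ := hB n r ρ hn hX
  obtain ⟨lam, hlam, hlam2⟩ := hL
  have hsub : ∀ N : List (FreeGroup (Fin (n + 1))), N.Sublist (sT n) →
      RF n (FreeGroup.of 0) N := fun N hN => RP.sublist RP.refl hN
  -- the letters
  let y : Fin n → FreeGroup (Fin (n + 1)) := fun i => FreeGroup.of i.succ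
  have hy : ∀ i, y i ∈ sT n := fun i =>
    List.mem_map.2 ⟨i, List.mem_finRange i, rfl⟩
  have hPR : ∀ i, PR (ρ (y i)) := fun i => hX.1 i.succ (Fin.succ_ne_zero i)
  have hloop : ∀ i, IsSimpleLoop (y i) := fun i =>
    ((hreach _ _ (hsub _ (List.Sublist.refl _))).1 (y i) (hy i)).2
  let b : Fin n → ℂ := fun i => lam r (ρ (y i))
  have hb0 : ∀ i, b i ≠ 0 := fun i => (hlam2 r _ (hPR i)).1
  have hbM : ∀ i, b i ^ M = 1 := fun i =>
    ((hlam2 r _ (hPR i)).2.2.2 M (hroot _ (hloop i))).1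
  have hzM : ∀ i, (1 + ((b i)⁻¹ • (ρ (y i) : Matrix (Fin r) (Fin r) ℂ) - 1).trace) ^ M = 1 :=
    fun i => ((hlam2 r _ (hPR i)).2.2.2 M (hroot _ (hloop i))).2
  have hz0 : ∀ i, 1 + ((b i)⁻¹ • (ρ (y i) : Matrix (Fin r) (Fin r) ℂ) - 1).trace ≠ 0 :=
    fun i => (hlam2 r _ (hPR i)).2.1
  have hRO : ∀ i, RO ((b i)⁻¹ • (ρ (y i) : Matrix (Fin r) (Fin r) ℂ) - 1) :=
    fun i => (hlam2 r _ (hPR i)).2.2.1
  choose u f huf using fun i => ix_ro _ (hRO i)
  have huf' : ∀ i, 1 + vecMulVec (u i) (f i) = (b i)⁻¹ • (ρ (y i) : Matrix (Fin r) (Fin r) ℂ) := by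
    intro i
    rw [← huf i]
    abel
  -- products
  have hprod : ∀ N : List (Fin n), ∃ c : ℂ, c ≠ 0 ∧ c ^ M = 1 ∧
      (N.map fun i => 1 + vecMulVec (u i) (f i)).prod =
        c • (ρ (N.map y).prod : Matrix (Fin r) (Fin r) ℂ) := by
    intro N
    induction N with
    | nil => exact ⟨1, one_ne_zero, one_pow _, by simp⟩
    | cons i N ih =>
      obtain ⟨c, hc0, hc1, hc2⟩ := ih
      refine ⟨(b i)⁻¹ * c, mul_ne_zero (inv_ne_zero (hb0 i)) hc0, ?_, ?_⟩
      · rw [mul_pow, inv_pow, hbM, hc1, inv_one, one_mul]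
      · rw [List.map_cons, List.prod_cons, hc2, huf' i, List.map_cons, List.prod_cons, map_mul,
          Units.val_mul, smul_mul_smul_comm]
  have hsort : ∀ I : Finset (Fin n), ((I.sort (· ≤ ·)).map y).Sublist (sT n) := by
    intro I
    refine List.Sublist.map _ ?_
    refine List.sublist_of_subperm_of_sortedLE ?_ I.sortedLT_sort.sortedLE
      (List.sortedLT_finRange n).sortedLE
    exact List.subperm_of_subset (I.sort_nodup _) fun x _ => List.mem_finRange x
  have ha : IsSimpleLoop (FreeGroup.of (0 : Fin (n + 1))) :=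
    (hreach _ _ (hsub [] (List.nil_sublist _))).2.1
  have hint := hI r n (ρ (FreeGroup.of 0)) u f ?_ ?_ ?_
  rotate_left
  · intro i
    have h1 : f i ⬝ᵥ u i = (1 + ((b i)⁻¹ • (ρ (y i) : Matrix (Fin r) (Fin r) ℂ) - 1).trace) - 1 := by
      rw [huf i, Matrix.trace_vecMulVec, dotProduct_comm]
      ring
    rw [h1]
    exact (ix_int hM (hzM i)).sub isIntegral_one
  · intro x hx
    have h1 := hroot _ ha x hx
    exact ⟨ix_int hM h1, ix_inv hM h1⟩
  · intro I x hx
    obtain ⟨c, hc0, hc1, hc2⟩ := hprod (I.sort (· ≤ ·))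
    rw [hc2, mul_smul_comm, ← Units.val_mul, ← map_mul] at hx
    have h1 := ix_smul _ hc0 hx
    have h2 := hroot _ (hreach _ _ (hsub _ (hsort I))).2.2.1 _ h1
    refine ix_int hM ?_
    rw [mul_pow, inv_pow, hc1, inv_one, one_mul] at h2
    exact h2
  -- the group
  let S : Subring ℂ := (integralClosure ℤ ℂ).toSubring
  let σ : FreeGroup (Fin (n + 1)) →* Matrix (Fin r) (Fin r) ℂ := (Units.coeHom _).comp ρ
  let c : FreeGroup (Fin (n + 1)) → ℂ := fun x => (lam r (ρ x))⁻¹
  let c' : FreeGroup (Fin (n + 1)) → ℂ := fun x => lam r (ρ x)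
  let z : FreeGroup (Fin (n + 1)) → ℂ := fun x =>
    1 + ((lam r (ρ x))⁻¹ • (ρ x : Matrix (Fin r) (Fin r) ℂ) - 1).trace
  let z' : FreeGroup (Fin (n + 1)) → ℂ := fun x => (z x)⁻¹
  have hmem : ∀ x ∈ sT n, ∃ i, x = y i := by
    intro x hx
    obtain ⟨i, -, rfl⟩ := List.mem_map.1 hx
    exact ⟨i, rfl⟩
  have hLt : ∀ x ∈ sT n, Lt S σ c c' z z' x := by
    intro x hx
    obtain ⟨i, rfl⟩ := hmem x hx
    refine ⟨⟨ix_inv hM (hbM i), ix_int hM (hbM i), ix_int hM (hzM i), ix_inv hM (hzM i)⟩,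
      ⟨inv_mul_cancel₀ (hb0 i), mul_inv_cancel₀ (hz0 i)⟩, ?_, hRO i⟩
    exact (add_sub_cancel_left _ _).symm
  have hKX : KX S σ c (FreeGroup.of 0) (sT n) := by
    -- the order of `ρ x₀`
    have hord : ∃ m > 0, (ρ (FreeGroup.of 0) : Matrix (Fin r) (Fin r) ℂ) ^ m = 1 ∧
        ∀ k : ℤ, (ρ (FreeGroup.of 0 ^ k) : Matrix (Fin r) (Fin r) ℂ) ^ m = 1 := by
      have h1 := hfin (FreeGroup.of 0) [] (y ⟨0, hn⟩)
        (hsub _ (by rw [List.nil_append]; exact List.singleton_sublist.2 (hy _)))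
      rw [List.prod_nil, mul_one] at h1
      have h2 : (Set.range fun k : ℕ => ρ (FreeGroup.of 0) ^ k).Finite := by
        refine h1.subset ?_
        rintro _ ⟨k, rfl⟩
        exact ⟨FreeGroup.of 0 ^ k,
          Subgroup.pow_mem _ (Subgroup.subset_closure (Set.mem_insert _ _)) k, map_pow ρ _ k⟩
      have h3 : IsOfFinOrder (ρ (FreeGroup.of 0)) := by
        rw [← finite_powers]
        exact h2
      obtain ⟨m, hm, hm'⟩ := isOfFinOrder_iff_pow_eq_one.1 h3
      refine ⟨m, hm, ?_, fun k => ?_⟩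
      · rw [← Units.val_pow_eq_pow_val, hm', Units.val_one]
      · rw [← Units.val_pow_eq_pow_val, ← map_pow, ← zpow_natCast, zpow_comm, map_zpow, zpow_natCast,
          map_pow, hm', _root_.one_zpow, Units.val_one]
    obtain ⟨m, hm, -, hm'⟩ := hord
    intro j w hw
    have hconv : ∀ w : List (ℤ × FreeGroup (Fin (n + 1))), (∀ p ∈ w, p.2 ∈ sT n) →
        ∃ v : List (ℤ × Fin n), xw σ c (FreeGroup.of 0) w = (v.map fun p =>
          ((ρ (FreeGroup.of 0) ^ p.1 : GL (Fin r) ℂ) : Matrix (Fin r) (Fin r) ℂ) *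
            vecMulVec (u p.2) (f p.2)).prod := by
      intro w
      induction w with
      | nil => intro _; exact ⟨[], by simp [xw]⟩
      | cons p w ih =>
        intro hw
        obtain ⟨v, hv⟩ := ih fun q hq => hw q (List.mem_cons_of_mem _ hq)
        obtain ⟨i, hi⟩ := hmem p.2 (hw p List.mem_cons_self)
        refine ⟨(p.1, i) :: v, ?_⟩
        rw [xw_cons, hv, List.map_cons, List.prod_cons, hi]
        congr 2
        · show (ρ (FreeGroup.of 0 ^ p.1) : Matrix (Fin r) (Fin r) ℂ) = _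
          rw [map_zpow]
        · exact huf i
    cases w with
    | nil =>
      rw [xw_nil, mul_one]
      exact ix_trace _ hm (hm' j)
    | cons p w =>
      obtain ⟨v, hv⟩ := hconv w fun q hq => hw q (List.mem_cons_of_mem _ hq)
      obtain ⟨i, hi⟩ := hmem p.2 (hw p List.mem_cons_self)
      have h1 := hint ((j + p.1, i) :: v)
      rw [List.map_cons, List.prod_cons, ← hv] at h1
      have h2 : σ (FreeGroup.of 0 ^ j) * xw σ c (FreeGroup.of 0) (p :: w) =
          ((ρ (FreeGroup.of 0) ^ (j + p.1) : GL (Fin r) ℂ) : Matrix (Fin r) (Fin r) ℂ) *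
            vecMulVec (u i) (f i) * xw σ c (FreeGroup.of 0) w := by
        rw [xw_cons, ← mul_assoc, ← mul_assoc, ← map_mul, hi]
        congr 2
        · show (ρ (FreeGroup.of 0 ^ j * FreeGroup.of 0 ^ p.1) : Matrix (Fin r) (Fin r) ℂ) = _
          rw [← _root_.zpow_add, map_zpow]
        · exact huf i
      rw [h2]
      exact h1
  intro w
  have hKG := (hK ℂ _ r S σ c c' z z' (FreeGroup.of 0) (sT n) hLt).1 hKX
  refine hKG w ?_
  have htop : Subgroup.closure ({FreeGroup.of 0} ∪ {x | x ∈ sT n}) =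
      (⊤ : Subgroup (FreeGroup (Fin (n + 1)))) := by
    rw [eq_top_iff, ← FreeGroup.closure_range_of]
    refine Subgroup.closure_mono ?_
    rintro x ⟨i, rfl⟩
    rcases Fin.eq_zero_or_eq_succ i with rfl | ⟨k, rfl⟩
    · exact Or.inl rfl
    · exact Or.inr (hy k)
  rw [htop]
  exact Subgroup.mem_top w

end Pool.Agent.PRS
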