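import Pool.Agent.PRS.StX3
import Pool.Agent.PRS.IRR

/-!
# One arbitrary generator: irreducible representations (helper41)
-/

set_option autoImplicit false

namespace Pool.Agent.PRS

open Matrix Pool.Agent.HZ

private theorem Irx_pants {n r : ℕ} (σ : RingAut ℂ)
    (ρ : FreeGroup (Fin (n + 1)) →* GL (Fin r) ℂ) (h : PantsX ρ) : PantsX (gal σ ρ) := by
  intro A B y hy hi
  have h1 := (h A B y hy hi).image (GeneralLinearGroup.map (n := Fin r) (σ : ℂ →+* ℂ))
  rw [← Set.image_comp] at h1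
  exact h1

private theorem Irx_hx {n r : ℕ} (σ : RingAut ℂ)
    (ρ : FreeGroup (Fin (n + 1)) →* GL (Fin r) ℂ) (h : HX n r ρ) : HX n r (gal σ ρ) :=
  ⟨fun i hi => gal_PR σ ρ _ (h.1 i hi), Irx_pants σ ρ h.2⟩

private theorem Irx_roots (M : ℕ) : ({x : ℂ | x ^ M = 1}).encard ≤ M ∨ M = 0 := by
  rcases Nat.eq_zero_or_pos M with h | h
  · exact Or.inr h
  · left
    have h1 : {x : ℂ | x ^ M = 1} ⊆ ((Polynomial.nthRoots M (1 : ℂ)).toFinset : Set ℂ) := by
      intro x hx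
      rw [Finset.mem_coe, Multiset.mem_toFinset, Polynomial.mem_nthRoots h]
      exact hx
    refine (Set.encard_le_encard h1).trans ?_
    rw [Set.encard_coe_eq_coe_finsetCard]
    exact Nat.cast_le.2 ((Multiset.toFinset_card_le _).trans (Polynomial.card_nthRoots M 1))

/-- an element fixed by the automorphisms which fix the roots of unity has at most `M` conjugates -/
private theorem Irx_card {M : ℕ} (hM : 0 < M) {t : ℂ}
    (h : ∀ σ : RingAut ℂ, (∀ x : ℂ, x ^ M = 1 → σ x = x) → σ t = t) :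
    (Set.range fun σ : RingAut ℂ => σ t).encard ≤ M := by
  classical
  have : NeZero M := ⟨hM.ne'⟩
  have hζ := Complex.isPrimitiveRoot_exp M hM.ne'
  generalize Complex.exp (2 * Real.pi * Complex.I / M) = ζ at hζ
  let F : ℂ → ℂ := fun x => if hx : ∃ σ : RingAut ℂ, σ ζ = x then hx.choose t else 0
  have h1 : (Set.range fun σ : RingAut ℂ => σ t) ⊆ F '' {x : ℂ | x ^ M = 1} := by
    rintro _ ⟨σ, rfl⟩
    refine ⟨σ ζ, ?_, ?_⟩
    · show (σ ζ) ^ M = 1
      rw [← map_pow, hζ.pow_eq_one, map_one]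
    · have hx : ∃ τ : RingAut ℂ, τ ζ = σ ζ := ⟨σ, rfl⟩
      show (if hx : ∃ τ : RingAut ℂ, τ ζ = σ ζ then hx.choose t else 0) = σ t
      rw [dif_pos hx]
      have h2 := hx.choose_spec
      generalize hx.choose = τ at h2
      have h3 : (τ⁻¹ * σ : RingAut ℂ) t = t := by
        refine h _ ?_
        intro x hxM
        obtain ⟨i, _, rfl⟩ := hζ.eq_pow_of_pow_eq_one hxM
        show τ.symm (σ (ζ ^ i)) = ζ ^ i
        rw [map_pow, ← h2, map_pow, τ.symm_apply_apply]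
      have h4 : τ.symm (σ t) = t := h3
      show τ t = σ t
      rw [← h4, τ.apply_symm_apply]
      rw [h4]
  refine (Set.encard_le_encard h1).trans ((Set.encard_image_le F _).trans ?_)
  rcases Irx_roots M with h2 | h2
  · exact h2
  · exact absurd h2 hM.ne'

/-- **IRX** -/
theorem thm_Irx (hI : St_Inx) (hG : St_Gax) (hB : St_Bdx) (hS : St_Bas) (hK : St_Krx)
    (hT : St_Tra) : St_Irx := by
  intro n r ρ hn hX hr hirr w
  obtain ⟨M, hM, hroot⟩ := (hS n r ρ hn hX).1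
  have hfin := hK M r
  have hmem : ∀ v : FreeGroup (Fin (n + 1)), (ρ v : Matrix (Fin r) (Fin r) ℂ).trace ∈
      {x : ℂ | IsIntegral ℤ x ∧ (∀ σ : RingAut ℂ, ‖σ x‖ ≤ (r : ℝ)) ∧
        (Set.range fun σ : RingAut ℂ => σ x).encard ≤ M} := by
    intro v
    refine ⟨hI n r ρ hn hX v, fun σ => ?_, Irx_card hM fun σ hσ => hG n r M ρ hn hX hM hroot σ hσ v⟩
    rw [← gal_trace]
    exact hB n r (gal σ ρ) hn (Irx_hx σ ρ hX) hr (gal_irr σ ρ hirr) v
  have h1 := hT r (ρ w : Matrix (Fin r) (Fin r) ℂ) (hfin.subset (by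
    rintro t ⟨k, rfl⟩
    have h2 := hmem (w ^ k)
    rwa [map_pow, Units.val_pow_eq_pow_val] at h2))
  intro z hz
  refine h1 z hz ?_
  rintro rfl
  have h2 : (0 : ℂ) ∈ spectrum ℂ (ρ w : Matrix (Fin r) (Fin r) ℂ) :=
    Matrix.mem_spectrum_iff_isRoot_charpoly.2 hz
  rw [spectrum.zero_mem_iff] at h2
  exact h2 (ρ w).isUnit

end Pool.Agent.PRS
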