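import Pool.Agent.PRS.StX2

/-!
# KW: words in the rank one parts and elements of the group (helper13)
-/

set_option autoImplicit false

namespace Pool.Agent.PRS

open Matrix Pool.Agent.HZ

section kw
variable {R : Type} [CommRing R] {G : Type} [Group G] {r : ℕ} {S : Subring R}
    {ρ : G →* Matrix (Fin r) (Fin r) R} {c c' z z' : G → R}

private theorem kw_map_eq {y : G} (h : Lt S ρ c c' z z' y) : ρ y = c' y • (1 + el ρ c y) := by
  have h1 : 1 + el ρ c y = c y • ρ y := by
    rw [el]
    abel
  rw [h1, smul_smul, mul_comm, h.2.1.1, one_smul]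

private theorem kw_el_sq {y : G} (h : Lt S ρ c c' z z' y) :
    el ρ c y * el ρ c y = (z y - 1) • el ρ c y := by
  have h1 := h.2.2.2 1
  rw [mul_one] at h1
  rw [h1, h.2.2.1]

private theorem kw_map_inv {y : G} (h : Lt S ρ c c' z z' y) :
    ρ y⁻¹ = c y • (1 - z' y • el ρ c y) := by
  have h1 : ρ y * (c y • (1 - z' y • el ρ c y)) = 1 := by
    rw [kw_map_eq h, smul_mul_smul_comm, mul_comm (c' y), h.2.1.1, one_smul,
      mul_sub, add_mul, add_mul, one_mul, one_mul, mul_one, mul_smul_comm, kw_el_sq h, smul_smul]
    have h2 : z' y * (z y - 1) = 1 - z' y := by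
      have := h.2.1.2
      linear_combination this
    rw [h2, sub_smul, one_smul]
    abel
  have h2 : ρ y⁻¹ * ρ y = 1 := by rw [← map_mul, inv_mul_cancel, map_one]
  calc ρ y⁻¹ = ρ y⁻¹ * (ρ y * (c y • (1 - z' y • el ρ c y))) := by rw [h1, mul_one]
    _ = c y • (1 - z' y • el ρ c y) := by rw [← mul_assoc, h2, one_mul]

private theorem kw_cons (a : G) (p : ℤ × G) (w : List (ℤ × G)) :
    xw ρ c a (p :: w) = ρ (a ^ p.1) * el ρ c p.2 * xw ρ c a w := by
  rw [xw, List.map_cons, List.prod_cons]
  rfl

private theorem kw_snoc (a : G) (p : ℤ × G) (w : List (ℤ × G)) :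
    xw ρ c a (w ++ [p]) = xw ρ c a w * (ρ (a ^ p.1) * el ρ c p.2) := by
  rw [xw, List.map_append, List.prod_append, List.map_singleton, List.prod_singleton]
  rfl

end kw

theorem thm_KW : St_KW := by
  intro R _ G _ r S ρ c c' z z' a N hN
  constructor
  · intro hX w hw
    have key : ∀ (v : List (ℤ × G)), (∀ p ∈ v, p.2 ∈ N) → ∀ j : ℤ,
        (xw ρ c a v * ρ (a ^ j) * ρ w).trace ∈ S := by
      induction hw using Subgroup.closure_induction_left with
      | one =>
        intro v hv j
        rw [map_one, mul_one, trace_mul_comm]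
        exact hX j v hv
      | mul_left x hx y _ ih =>
        intro v hv j
        rcases hx with hx | hx
        · have hx' : x = a := hx
          have e : xw ρ c a v * ρ (a ^ j) * ρ (x * y) = xw ρ c a v * ρ (a ^ (j + 1)) * ρ y := by
            rw [hx', _root_.zpow_add_one, map_mul, map_mul]
            simp only [mul_assoc]
          rw [e]
          exact ih v hv _
        · have hx' : x ∈ N := hx
          have e : xw ρ c a v * ρ (a ^ j) * ρ (x * y) =
              c' x • (xw ρ c a v * ρ (a ^ j) * ρ y +
                xw ρ c a (v ++ [(j, x)]) * ρ (a ^ (0 : ℤ)) * ρ y) := by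
            rw [map_mul, kw_map_eq (hN x hx'), kw_snoc, zpow_zero, map_one]
            simp only [smul_mul_assoc, mul_smul_comm]
            congr 1
            noncomm_ring
          rw [e, trace_smul, trace_add, smul_eq_mul]
          refine S.mul_mem (hN x hx').1.2.1 (S.add_mem (ih v hv j) (ih _ ?_ 0))
          intro t ht
          rcases List.mem_append.1 ht with ht | ht
          · exact hv t ht
          · rw [List.mem_singleton.1 ht]
            exact hx'
      | inv_mul_cancel x hx y _ ih =>
        intro v hv j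
        rcases hx with hx | hx
        · have hx' : x = a := hx
          have e : xw ρ c a v * ρ (a ^ j) * ρ (x⁻¹ * y) = xw ρ c a v * ρ (a ^ (j - 1)) * ρ y := by
            rw [hx', _root_.zpow_sub_one, map_mul, map_mul]
            simp only [mul_assoc]
          rw [e]
          exact ih v hv _
        · have hx' : x ∈ N := hx
          have e : xw ρ c a v * ρ (a ^ j) * ρ (x⁻¹ * y) =
              c x • (xw ρ c a v * ρ (a ^ j) * ρ y -
                z' x • (xw ρ c a (v ++ [(j, x)]) * ρ (a ^ (0 : ℤ)) * ρ y)) := by
            rw [map_mul, kw_map_inv (hN x hx'), kw_snoc, zpow_zero, map_one]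
            simp only [smul_mul_assoc, mul_smul_comm, sub_mul, mul_sub, one_mul, mul_assoc]
          obtain ⟨h1, h2, h3, h4⟩ := (hN x hx').1
          rw [e, trace_smul, trace_sub, trace_smul, smul_eq_mul, smul_eq_mul]
          refine S.mul_mem h1 (S.sub_mem (ih v hv j) (S.mul_mem h4 (ih _ ?_ 0)))
          intro t ht
          rcases List.mem_append.1 ht with ht | ht
          · exact hv t ht
          · rw [List.mem_singleton.1 ht]
            exact hx'
    have h1 := key [] (by simp) 0
    rw [zpow_zero, map_one, mul_one] at h1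
    have h2 : xw ρ c a [] = 1 := rfl
    rwa [h2, one_mul] at h1
  · intro hG
    have ha0 : a ∈ Subgroup.closure ({a} ∪ {x | x ∈ N}) :=
      Subgroup.subset_closure (Set.mem_union_left _ (Set.mem_singleton a))
    have key : ∀ (w : List (ℤ × G)), (∀ p ∈ w, p.2 ∈ N) →
        ∀ g ∈ Subgroup.closure ({a} ∪ {x | x ∈ N}), (ρ g * xw ρ c a w).trace ∈ S := by
      intro w
      induction w with
      | nil =>
        intro _ g hg
        have h2 : xw ρ c a [] = 1 := rfl
        rw [h2, mul_one]
        exact hG g hg
      | cons p w ih =>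
        intro hw g hg
        have hp : p.2 ∈ N := hw p (List.mem_cons_self)
        have hw' : ∀ q ∈ w, q.2 ∈ N := fun q hq => hw q (List.mem_cons_of_mem _ hq)
        have ha : a ^ p.1 ∈ Subgroup.closure ({a} ∪ {x | x ∈ N}) :=
          Subgroup.zpow_mem _ ha0 _
        have hy : p.2 ∈ Subgroup.closure ({a} ∪ {x | x ∈ N}) :=
          Subgroup.subset_closure (Set.mem_union_right _ hp)
        have e : ρ g * xw ρ c a (p :: w) =
            c p.2 • (ρ (g * a ^ p.1 * p.2) * xw ρ c a w) - ρ (g * a ^ p.1) * xw ρ c a w := by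
          rw [kw_cons, el, map_mul, map_mul]
          simp only [smul_mul_assoc, mul_smul_comm, sub_mul, mul_sub, mul_assoc, mul_one]
        rw [e, trace_sub, trace_smul, smul_eq_mul]
        exact S.sub_mem (S.mul_mem (hN p.2 hp).1.1
          (ih hw' _ (Subgroup.mul_mem _ (Subgroup.mul_mem _ hg ha) hy)))
          (ih hw' _ (Subgroup.mul_mem _ hg ha))
    intro j w hw
    exact key w hw _ (Subgroup.zpow_mem _ ha0 _)

end Pool.Agent.PRS
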