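import Pool.Agent.PRS.StX1
import Mathlib.RingTheory.Valuation.LocalSubring

/-!
# PRX module KRN

`thm_Krn`: if all coefficients of a product of complex polynomials are algebraic integers, then
so are all products of coefficients, one of each factor.  (Intersection of valuation rings and
the lemma of Gauss for each of them.)
-/

set_option autoImplicit false

namespace Pool.Agent.PRS

open Polynomial

/-- a polynomial over the field is a constant times a polynomial over the valuation ring which is
not zero over the residue field -/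
theorem krn_lift {K : Type} [Field K] (V : ValuationSubring K) (P : K[X]) (hP : P ≠ 0) :
    ∃ (c : K) (p : V[X]), P = C c * p.map (algebraMap V K) ∧
      p.map (IsLocalRing.residue V) ≠ 0 := by
  obtain ⟨i, hi, hmax⟩ := Finset.exists_max_image P.support
    (fun i => V.valuation (P.coeff i)) (Polynomial.support_nonempty.mpr hP)
  have hc : P.coeff i ≠ 0 := Polynomial.mem_support_iff.mp hi
  have hmem : C (P.coeff i)⁻¹ * P ∈ Polynomial.lifts (algebraMap V K) := by
    rw [Polynomial.lifts_iff_coeff_lifts]
    intro n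
    rw [coeff_C_mul]
    have h1 : V.valuation ((P.coeff i)⁻¹ * P.coeff n) ≤ 1 := by
      by_cases hn : P.coeff n = 0
      · rw [hn, mul_zero, map_zero]; exact zero_le_one
      · have h2 := hmax n (Polynomial.mem_support_iff.mpr hn)
        have h0 : V.valuation (P.coeff i) ≠ 0 := (V.valuation.ne_zero_iff).mpr hc
        rw [map_mul, map_inv₀]
        calc (V.valuation (P.coeff i))⁻¹ * V.valuation (P.coeff n)
            ≤ (V.valuation (P.coeff i))⁻¹ * V.valuation (P.coeff i) := by gcongr
          _ = 1 := inv_mul_cancel₀ h0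
    exact ⟨⟨_, (V.valuation_le_one_iff _).mp h1⟩, rfl⟩
  obtain ⟨p, hp⟩ := (Polynomial.mem_lifts _).mp hmem
  refine ⟨P.coeff i, p, ?_, fun h0 => ?_⟩
  · rw [hp, ← mul_assoc, ← C_mul, mul_inv_cancel₀ hc, C_1, one_mul]
  · have h1 : algebraMap V K (p.coeff i) = 1 := by
      rw [← coeff_map, hp, coeff_C_mul, inv_mul_cancel₀ hc]
    have h2 : p.coeff i = 1 := by
      apply Subtype.val_injective
      exact h1
    have h3 := congrArg (fun q => q.coeff i) h0
    simp only [coeff_map, h2, map_one, coeff_zero] at h3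
    exact one_ne_zero h3

theorem krn_val {K : Type} [Field K] (V : ValuationSubring K) (k : ℕ) (P : Fin k → K[X])
    (d : Fin k → ℕ) (h : ∀ i, (∏ e, P e).coeff i ∈ V) : (∏ e, (P e).coeff (d e)) ∈ V := by
  by_cases h0 : ∃ e, P e = 0
  · obtain ⟨e, he⟩ := h0
    rw [Finset.prod_eq_zero (Finset.mem_univ e) (by rw [he, coeff_zero])]
    exact V.zero_mem
  push Not at h0
  choose c p hP hp using fun e => krn_lift V (P e) (h0 e)
  -- the product of the reductions is not zero
  have h1 : (∏ e, p e).map (IsLocalRing.residue V) ≠ 0 := by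
    rw [Polynomial.map_prod]
    exact Finset.prod_ne_zero_iff.mpr fun e _ => hp e
  obtain ⟨i, hi⟩ : ∃ i, ((∏ e, p e).map (IsLocalRing.residue V)).coeff i ≠ 0 := by
    by_contra hcon
    push Not at hcon
    exact h1 (Polynomial.ext fun i => by rw [hcon i, coeff_zero])
  rw [coeff_map, Ne, IsLocalRing.residue_eq_zero_iff, IsLocalRing.mem_maximalIdeal,
    mem_nonunits_iff, not_not] at hi
  have h2 : (∏ e, P e) = C (∏ e, c e) * (∏ e, p e).map (algebraMap V K) := by
    rw [Polynomial.map_prod, map_prod, ← Finset.prod_mul_distrib]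
    exact Finset.prod_congr rfl fun e _ => hP e
  have h3 : (∏ e, c e) ∈ V := by
    obtain ⟨u, hu⟩ := hi
    have h4 := h i
    rw [h2, coeff_C_mul, coeff_map, ← hu] at h4
    have h5 : (∏ e, c e) * algebraMap V K (u : V) * algebraMap V K ((u⁻¹ : Vˣ) : V) ∈ V :=
      V.mul_mem _ _ h4 (u⁻¹ : Vˣ).1.2
    rwa [mul_assoc, ← map_mul, Units.mul_inv, map_one, mul_one] at h5
  have h6 : (∏ e, (P e).coeff (d e)) =
      (∏ e, c e) * ((∏ e, (p e).coeff (d e) : V) : K) := by
    have h7 : ((∏ e, (p e).coeff (d e) : V) : K) = ∏ e, (((p e).coeff (d e) : V) : K) :=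
      map_prod (algebraMap V K) _ _
    rw [h7, ← Finset.prod_mul_distrib]
    refine Finset.prod_congr rfl fun e _ => ?_
    rw [show (P e).coeff (d e) = (C (c e) * (p e).map (algebraMap V K)).coeff (d e) by rw [← hP e],
      coeff_C_mul, coeff_map]
    rfl
  rw [h6]
  exact V.mul_mem _ _ h3 (∏ e, (p e).coeff (d e) : V).2

theorem thm_Krn : St_Krn := by
  intro k P d h
  by_contra hcon
  let R : Subring ℂ := (integralClosure ℤ ℂ).toSubring
  have hR : ∀ x : ℂ, x ∈ R ↔ IsIntegral ℤ x := fun x => mem_integralClosure_iff ℤ ℂ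
  have : IsIntegrallyClosedIn R ℂ := by
    have h1 : IsIntegrallyClosedIn (integralClosure ℤ ℂ) ℂ := inferInstance
    exact h1
  have hx : (∏ e, (P e).coeff (d e)) ∉ R := fun h => hcon ((hR _).mp h)
  obtain ⟨V, hV, hxV⟩ := R.exists_le_valuationSubring_of_isIntegrallyClosedIn hx
  exact hxV (krn_val V k P d fun i => hV ((hR _).mpr (h i)))

end Pool.Agent.PRS
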