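import Pool.Agent.PRS.StX1
import Pool.Agent.Helper84.AutC

/-!
# PRS module KRX: algebraic integers with few and bounded conjugates
-/

set_option autoImplicit false

namespace Pool.Agent.PRS

open Polynomial

/-- each root of the minimal polynomial is a conjugate -/
private theorem krx_conj {x z : ℂ} (hx : IsIntegral ℚ x) (hz : aeval z (minpoly ℚ x) = 0) :
    ∃ σ : RingAut ℂ, σ x = z := by
  have hmem : z ∈ (minpoly ℚ x).aroots ℂ := by
    rw [Polynomial.mem_aroots]
    exact ⟨minpoly.ne_zero hx, hz⟩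
  let φ : IntermediateField.adjoin ℚ {x} →ₐ[ℚ] ℂ :=
    (IntermediateField.algHomAdjoinIntegralEquiv ℚ hx).symm ⟨z, hmem⟩
  have hφ : φ (IntermediateField.AdjoinSimple.gen ℚ x) = z :=
    IntermediateField.algHomAdjoinIntegralEquiv_symm_apply_gen ℚ hx ⟨z, hmem⟩
  have : Algebra.IsAlgebraic ℚ (IntermediateField.adjoin ℚ {x}) :=
    IntermediateField.isAlgebraic_adjoin_simple hx
  obtain ⟨τ, hτ⟩ := Helper84.exists_aut (IntermediateField.adjoin ℚ {x}).val.toRingHom
    φ.toRingHom
  refine ⟨τ, ?_⟩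
  have h8 := RingHom.congr_fun hτ (IntermediateField.AdjoinSimple.gen ℚ x)
  exact h8.trans hφ

theorem thm_Krx : St_Krx := by
  classical
  intro N B
  let C := Nat.ceil (max B 1 ^ N * (N.choose (N / 2) : ℝ))
  have hfin := bUnion_roots_finite (algebraMap ℤ ℂ) N (Set.finite_Icc (-C : ℤ) C)
  refine hfin.subset ?_
  rintro x ⟨hx, hb, hN⟩
  have hxQ : IsIntegral ℚ x := hx.tower_top
  have hmin := minpoly.isIntegrallyClosed_eq_field_fractions' ℚ hx
  have hsep : (minpoly ℚ x).Separable := (minpoly.irreducible hxQ).separable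
  have hroot : ∀ z ∈ (minpoly ℚ x).rootSet ℂ, ∃ σ : RingAut ℂ, σ x = z := by
    intro z hz
    exact krx_conj hxQ (Polynomial.mem_rootSet.1 hz).2
  have hdeg : (minpoly ℚ x).natDegree ≤ N := by
    have hcard : Fintype.card ((minpoly ℚ x).rootSet ℂ) = (minpoly ℚ x).natDegree :=
      Polynomial.card_rootSet_eq_natDegree hsep (IsAlgClosed.splits _)
    have h1 : (minpoly ℚ x).rootSet ℂ ⊆ Set.range fun σ : RingAut ℂ => σ x := by
      intro z hz
      obtain ⟨σ, hσ⟩ := hroot z hz
      exact ⟨σ, hσ⟩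
    have h2 : ((minpoly ℚ x).rootSet ℂ).encard ≤ N := (Set.encard_le_encard h1).trans hN
    have h3 : ((minpoly ℚ x).rootSet ℂ).encard = ((minpoly ℚ x).natDegree : ℕ∞) := by
      rw [← hcard, Set.encard_eq_coe_toFinset_card, Set.toFinset_card]
    rw [h3] at h2
    exact_mod_cast h2
  rw [Set.mem_iUnion]
  refine ⟨minpoly ℤ x, ?_⟩
  rw [Set.mem_iUnion]
  refine ⟨⟨?_, fun i => ?_⟩, ?_⟩
  · rw [← (minpoly.monic hx).natDegree_map (algebraMap ℤ ℚ), ← hmin]
    exact hdeg
  · rw [Set.mem_Icc, ← abs_le, ← @Int.cast_le ℝ]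
    have h4 := coeff_bdd_of_roots_le (K := ℂ) (B := B) (d := N) (algebraMap ℚ ℂ)
      (minpoly.monic hxQ) (IsAlgClosed.splits _) hdeg (by
        intro z hz
        have h5 : z ∈ (minpoly ℚ x).rootSet ℂ := by
          rw [Polynomial.mem_rootSet]
          rw [Polynomial.mem_roots', Polynomial.IsRoot.def, Polynomial.eval_map] at hz
          exact ⟨minpoly.ne_zero hxQ, hz.2⟩
        obtain ⟨σ, hσ⟩ := hroot z h5
        rw [← hσ]
        exact hb σ) i
    refine (Eq.trans_le ?_ h4).trans (Nat.le_ceil _)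
    rw [hmin, coeff_map, coeff_map, eq_intCast, eq_ratCast]
    simp
  · rw [Finset.mem_coe, Multiset.mem_toFinset, Polynomial.mem_roots', Polynomial.IsRoot.def,
      Polynomial.eval_map]
    refine ⟨?_, minpoly.aeval ℤ x⟩
    exact ((minpoly.monic hx).map _).ne_zero

end Pool.Agent.PRS
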