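import Pool.Agent.PRS.XB

/-!
# One arbitrary generator: module N1 (helper18)
-/

set_option autoImplicit false

namespace Pool.Agent.PRS

open Matrix Pool.Agent.HZ

section
variable {R : Type} [CommRing R] {G : Type} [Group G] {r : ℕ} {S : Subring R}
    {ρ : G →* Matrix (Fin r) (Fin r) R} {c c' z z' : G → R}

private theorem XN1_ro {e : Matrix (Fin r) (Fin r) R} (he : RO e) (s : R) : RO (s • e) := by
  intro X
  rw [smul_mul_assoc, smul_mul_assoc, mul_smul_comm, he X, smul_smul, smul_smul, trace_smul,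
    smul_eq_mul, smul_smul]
  congr 1
  ring

private theorem XN1_sub {s : R} (hs : s ∈ S) {x : R} (hx : x ∈ S) : s * x ∈ S := S.mul_mem hs hx

/-- nonnegative exponents -/
private theorem XN1_pos (h1 : St_One) {a y : G} (hy : Lt S ρ c c' z z' y)
    (hnat : ∀ m : ℕ, 0 < m → ∃ t ∈ S, (m : R) * t = 1)
    (ha : ∀ k : ℤ, (ρ (a ^ k)).trace ∈ S) (hay : ∀ k : ℤ, (ρ ((a * y) ^ k)).trace ∈ S) (m : ℕ) :
    (ρ (a ^ (m : ℤ)) * el ρ c y).trace ∈ S := by
  have h2 := h1 R r S (ρ a) (el ρ c y) hy.2.2.2 hnat ?_ ?_ ?_ m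
  · rwa [← map_pow, ← _root_.zpow_natCast] at h2
  · intro m
    rw [← map_pow, ← _root_.zpow_natCast]
    exact ha m
  · intro m
    have h3 : 1 + el ρ c y = c y • ρ y := by
      rw [el]
      abel
    rw [h3, mul_smul_comm, ← map_mul, smul_pow, ← map_pow, trace_smul, smul_eq_mul,
      ← _root_.zpow_natCast]
    exact S.mul_mem (S.pow_mem hy.1.1 m) (hay m)
  · rw [hy.2.2.1]
    exact S.sub_mem hy.1.2.2.1 S.one_mem

private theorem XN1_conj (a y : G) (m : ℕ) : (a⁻¹ * y⁻¹) ^ m = y * (a * y) ^ (-(m : ℤ)) * y⁻¹ := by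
  have h1 : a⁻¹ * y⁻¹ = y * (a * y)⁻¹ * y⁻¹ := by group
  rw [h1, conj_pow, _root_.zpow_neg, _root_.zpow_natCast, inv_pow]

/-- negative exponents -/
private theorem XN1_neg (h1 : St_One) {a y : G} (hy : Lt S ρ c c' z z' y)
    (hnat : ∀ m : ℕ, 0 < m → ∃ t ∈ S, (m : R) * t = 1)
    (ha : ∀ k : ℤ, (ρ (a ^ k)).trace ∈ S) (hay : ∀ k : ℤ, (ρ ((a * y) ^ k)).trace ∈ S) (m : ℕ) :
    (ρ (a ^ (-(m : ℤ))) * el ρ c y).trace ∈ S := by
  have h2 := h1 R r S (ρ a⁻¹) ((-z' y) • el ρ c y) (XN1_ro hy.2.2.2 _) hnat ?_ ?_ ?_ m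
  · rw [← map_pow, mul_smul_comm, trace_smul, smul_eq_mul, inv_pow, ← _root_.zpow_natCast,
      ← _root_.zpow_neg] at h2
    have h3 := S.mul_mem (S.neg_mem hy.1.2.2.1) h2
    have h4 : -z y * (-z' y * (ρ (a ^ (-(m : ℤ))) * el ρ c y).trace) =
        (ρ (a ^ (-(m : ℤ))) * el ρ c y).trace := by
      linear_combination (ρ (a ^ (-(m : ℤ))) * el ρ c y).trace * hy.2.1.2
    rwa [h4] at h3
  · intro m
    rw [← map_pow, inv_pow, ← _root_.zpow_natCast, ← _root_.zpow_neg]
    exact ha _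
  · intro m
    have h3 : 1 + (-z' y) • el ρ c y = c' y • ρ y⁻¹ := by
      rw [hy.map_inv, smul_smul, mul_comm (c' y), hy.2.1.1, one_smul, neg_smul]
      abel
    rw [h3, mul_smul_comm, ← map_mul, smul_pow, ← map_pow, trace_smul, smul_eq_mul, XN1_conj,
      map_mul, trace_mul_comm, ← map_mul]
    have h4 : y⁻¹ * (y * (a * y) ^ (-(m : ℤ))) = (a * y) ^ (-(m : ℤ)) := by group
    rw [h4]
    exact S.mul_mem (S.pow_mem hy.1.2.1 m) (hay _)
  · rw [trace_smul, hy.2.2.1, smul_eq_mul]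
    exact S.mul_mem (S.neg_mem hy.1.2.2.2) (S.sub_mem hy.1.2.2.1 S.one_mem)

end

theorem thm_N1 (h1 : St_One) (hN : St_Nd) : St_N1 := by
  intro R _ G _ r S ρ a₀ M₀ c c' z z' h a y hRP
  have hy : Lt S ρ c c' z z' y := h.lett a [y] hRP y (List.mem_singleton_self y)
  have hRP0 : RP a₀ M₀ a [] := hRP.sublist (List.nil_sublist _)
  have ha : ∀ k : ℤ, (ρ (a ^ k)).trace ∈ S := by
    intro k
    have := (h.loops a [] hRP0).1 k
    rwa [List.prod_nil, mul_one] at this
  have hay : ∀ k : ℤ, (ρ ((a * y) ^ k)).trace ∈ S := by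
    intro k
    have := (h.loops a [y] hRP).1 k
    rwa [List.prod_singleton] at this
  have key : ∀ k : ℤ, (ρ (a ^ k) * el ρ c y).trace ∈ S := by
    intro k
    obtain ⟨m, rfl | rfl⟩ := k.eq_nat_or_neg
    · exact XN1_pos h1 hy h.nat ha hay m
    · exact XN1_neg h1 hy h.nat ha hay m
  refine hN R G r S ρ c c' z z' a [y] (fun y' hy' => h.lett a [y] hRP y' hy') ?_ ?_ ha
  · intro N' hN' hlen j w hw
    have hN0 : N' = [] := by
      rw [List.length_singleton] at hlen
      exact List.eq_nil_of_length_eq_zero (by omega)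
    have hw0 : w = [] := by
      cases w with
      | nil => rfl
      | cons p w =>
        have := hw p List.mem_cons_self
        rw [hN0] at this
        cases this
    rw [hw0, xw_nil, mul_one]
    exact ha j
  · intro w _ hw
    have h2 := List.perm_singleton.1 hw
    match w, h2 with
    | [(k, y')], h2 =>
      have h3 : y' = y := by
        simpa using h2
      rw [h3, xw_cons, xw_nil, mul_one]
      exact key k

end Pool.Agent.PRS
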