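import Pool.Agent.PRS.StX2

/-!
# PRX: two letters (helper85)
-/

set_option autoImplicit false
set_option linter.unusedSectionVars false

namespace Pool.Agent.PRS

open Matrix Pool.Agent.HZ

namespace XN2

variable {R : Type} [CommRing R] {G : Type} [Group G] {r : ℕ} {S : Subring R}
    {ρ : G →* Matrix (Fin r) (Fin r) R} {a₀ : G} {M₀ : List G} {c c' z z' : G → R}

/-! ### letters -/

theorem one_add_el (y : G) : 1 + el ρ c y = c y • ρ y := by
  rw [el]
  abel

theorem lt_map {y : G} (h : Lt S ρ c c' z z' y) : ρ y = c' y • (1 + el ρ c y) := by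
  rw [one_add_el, smul_smul, mul_comm, h.2.1.1, one_smul]

theorem lt_sq {y : G} (h : Lt S ρ c c' z z' y) :
    el ρ c y * el ρ c y = (z y - 1) • el ρ c y := by
  have h1 := h.2.2.2 1
  rw [mul_one] at h1
  rw [h1, h.2.2.1]

theorem lt_inv {y : G} (h : Lt S ρ c c' z z' y) :
    ρ y⁻¹ = c y • (1 - z' y • el ρ c y) := by
  have h1 : ρ y * (c y • (1 - z' y • el ρ c y)) = 1 := by
    rw [lt_map h, smul_mul_smul_comm, mul_comm (c' y), h.2.1.1, one_smul,
      mul_sub, add_mul, add_mul, one_mul, one_mul, mul_one, mul_smul_comm, lt_sq h, smul_smul]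
    have h2 : z' y * (z y - 1) = 1 - z' y := by
      linear_combination h.2.1.2
    rw [h2, sub_smul, one_smul]
    abel
  have h2 : ρ y⁻¹ * ρ y = 1 := by rw [← map_mul, inv_mul_cancel, map_one]
  calc ρ y⁻¹ = ρ y⁻¹ * (ρ y * (c y • (1 - z' y • el ρ c y))) := by rw [h1, mul_one]
    _ = c y • (1 - z' y • el ρ c y) := by rw [← mul_assoc, h2, one_mul]

theorem lt_inv' {y : G} (h : Lt S ρ c c' z z' y) :
    1 - z' y • el ρ c y = c' y • ρ y⁻¹ := by
  rw [lt_inv h, smul_smul, mul_comm, h.2.1.1, one_smul]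

theorem el_conj (hc : ∀ a b : G, c (b⁻¹ * a * b) = c a) {b : G} (h : Lt S ρ c c' z z' b) (a : G) :
    (1 - z' b • el ρ c b) * el ρ c a * (1 + el ρ c b) = el ρ c (b⁻¹ * a * b) := by
  have h2 : ρ b⁻¹ * ρ b = 1 := by rw [← map_mul, inv_mul_cancel, map_one]
  rw [lt_inv' h, one_add_el, smul_mul_assoc, smul_mul_smul_comm, mul_comm (c' b), h.2.1.1, one_smul]
  rw [el, el, hc, mul_sub, sub_mul, mul_one, h2, mul_smul_comm, smul_mul_assoc, map_mul, map_mul]

theorem tr_conj (a b : G) : (ρ (a * b * a⁻¹)).trace = (ρ b).trace := by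
  rw [map_mul, map_mul, trace_mul_comm, ← mul_assoc, ← map_mul, inv_mul_cancel, map_one, one_mul]

/-! ### reachable tuples -/

theorem rp_nil {a : G} {N : List G} (h : RP a₀ M₀ a N) : RP a₀ M₀ a [] := by
  obtain ⟨T, hT⟩ := h
  exact ⟨N ++ T, hT⟩

theorem rp_one {a y y' : G} (h : RP a₀ M₀ a [y, y']) : RP a₀ M₀ a [y] := by
  obtain ⟨T, hT⟩ := h
  exact ⟨y' :: T, hT⟩

theorem rp_move {a y y' : G} (h : RP a₀ M₀ a [y, y']) :
    RP a₀ M₀ a [y', y'⁻¹ * y * y'] := by
  obtain ⟨T, hT⟩ := h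
  exact ⟨T, Rch.move hT (BMove.r [] T y y')⟩

theorem rp_two {a y y' : G} (h : RP a₀ M₀ a [y, y']) : RP a₀ M₀ a [y'] := rp_one (rp_move h)

theorem rp_three {a y y' : G} (h : RP a₀ M₀ a [y, y']) : RP a₀ M₀ a [y'⁻¹ * y * y'] :=
  rp_one (rp_move (rp_move h))

theorem rch_twist {a y : G} {M : List G} {h : G} (hc : h * (a * y) = a * y * h)
    (hR : Rch a₀ M₀ (h * a * h⁻¹) (h * y * h⁻¹ :: M)) :
    Rch a₀ M₀ ((a * y * h) * a * (a * y * h)⁻¹) ((a * y * h) * y * (a * y * h)⁻¹ :: M) ∧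
    Rch a₀ M₀ (((a * y)⁻¹ * h) * a * ((a * y)⁻¹ * h)⁻¹)
      (((a * y)⁻¹ * h) * y * ((a * y)⁻¹ * h)⁻¹ :: M) := by
  have e : h * a * h⁻¹ * (h * y * h⁻¹) = a * y := by
    have e1 : h * a * h⁻¹ * (h * y * h⁻¹) = h * (a * y) * h⁻¹ := by group
    rw [e1, hc, mul_inv_cancel_right]
  have h1 := Rch.twist hR
  have h2 := Rch.untwist hR
  rw [e] at h1 h2
  have e1 : ∀ x : G, a * y * (h * x * h⁻¹) * (a * y)⁻¹ = (a * y * h) * x * (a * y * h)⁻¹ := by
    intro x
    group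
  have e2 : ∀ x : G, (a * y)⁻¹ * (h * x * h⁻¹) * (a * y) =
      ((a * y)⁻¹ * h) * x * ((a * y)⁻¹ * h)⁻¹ := by
    intro x
    group
  rw [e1, e1] at h1
  rw [e2, e2] at h2
  exact ⟨h1, h2⟩

theorem rp_twist {a y y' : G} (h : RP a₀ M₀ a [y, y']) (k : ℤ) :
    RP a₀ M₀ ((a * y) ^ k * a * ((a * y) ^ k)⁻¹) [(a * y) ^ k * y * ((a * y) ^ k)⁻¹, y'] := by
  obtain ⟨T, hT⟩ := h
  refine ⟨T, ?_⟩
  change Rch a₀ M₀ _ (_ :: y' :: T)
  have hcm : ∀ n : ℤ, (a * y) ^ n * (a * y) = a * y * (a * y) ^ n := fun n =>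
    ((Commute.refl (a * y)).zpow_left n).eq
  induction k using Int.induction_on with
  | zero => simpa using hT
  | succ k ih =>
    have h1 := (rch_twist (hcm k) ih).1
    have e : a * y * (a * y) ^ (k : ℤ) = (a * y) ^ ((k : ℤ) + 1) := by
      rw [_root_.zpow_add_one, hcm]
    rw [e] at h1
    exact h1
  | pred k ih =>
    have h1 := (rch_twist (hcm _) ih).2
    have e : (a * y)⁻¹ * (a * y) ^ (-(k : ℤ)) = (a * y) ^ (-(k : ℤ) - 1) := by
      rw [_root_.zpow_sub_one]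
      exact ((Commute.refl (a * y)).inv_left.zpow_right _).eq
    rw [e] at h1
    exact h1

/-! ### the group -/

theorem closure_le (a y y' : G) (k : ℤ) :
    Subgroup.closure ({(a * y) ^ k * a * ((a * y) ^ k)⁻¹} ∪
      {x | x ∈ [(a * y) ^ k * y * ((a * y) ^ k)⁻¹, y']}) ≤
    Subgroup.closure ({a} ∪ {x | x ∈ [y, y']}) := by
  have ha : a ∈ Subgroup.closure ({a} ∪ {x | x ∈ [y, y']}) :=
    Subgroup.subset_closure (Or.inl rfl)
  have hy : y ∈ Subgroup.closure ({a} ∪ {x | x ∈ [y, y']}) :=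
    Subgroup.subset_closure (Or.inr (by simp))
  have hy' : y' ∈ Subgroup.closure ({a} ∪ {x | x ∈ [y, y']}) :=
    Subgroup.subset_closure (Or.inr (by simp))
  have hg := Subgroup.zpow_mem _ (Subgroup.mul_mem _ ha hy) k
  rw [Subgroup.closure_le]
  rintro x (hx | hx)
  · rw [Set.mem_singleton_iff] at hx
    rw [hx]
    exact Subgroup.mul_mem _ (Subgroup.mul_mem _ hg ha) (Subgroup.inv_mem _ hg)
  · rcases List.mem_cons.1 hx with hx | hx
    · rw [hx]
      exact Subgroup.mul_mem _ (Subgroup.mul_mem _ hg hy) (Subgroup.inv_mem _ hg)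
    · rcases List.mem_cons.1 hx with hx | hx
      · rw [hx]
        exact hy'
      · exact absurd hx (List.not_mem_nil)

theorem closure_eq (a y y' : G) (k : ℤ) :
    Subgroup.closure ({(a * y) ^ k * a * ((a * y) ^ k)⁻¹} ∪
      {x | x ∈ [(a * y) ^ k * y * ((a * y) ^ k)⁻¹, y']}) =
    Subgroup.closure ({a} ∪ {x | x ∈ [y, y']}) := by
  apply le_antisymm (closure_le a y y' k)
  have h1 := closure_le ((a * y) ^ k * a * ((a * y) ^ k)⁻¹)
    ((a * y) ^ k * y * ((a * y) ^ k)⁻¹) y' (-k)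
  have e : (a * y) ^ k * a * ((a * y) ^ k)⁻¹ * ((a * y) ^ k * y * ((a * y) ^ k)⁻¹) = a * y := by
    have e1 : (a * y) ^ k * a * ((a * y) ^ k)⁻¹ * ((a * y) ^ k * y * ((a * y) ^ k)⁻¹) =
      (a * y) ^ k * (a * y) * ((a * y) ^ k)⁻¹ := by group
    rw [e1, ((Commute.refl (a * y)).zpow_left k).eq, mul_inv_cancel_right]
  rw [e] at h1
  have e2 : ∀ x : G, (a * y) ^ (-k) * ((a * y) ^ k * x * ((a * y) ^ k)⁻¹) * ((a * y) ^ (-k))⁻¹ =
      x := by
    intro x
    rw [_root_.zpow_neg, inv_inv]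
    group
  rw [e2, e2] at h1
  exact h1

/-! ### one letter -/

theorem ro_smul {e : Matrix (Fin r) (Fin r) R} (h : RO e) (t : R) : RO (t • e) := by
  intro X
  rw [smul_mul_assoc, smul_mul_smul_comm, h X, trace_smul, smul_smul, smul_smul, smul_eq_mul]
  congr 1
  ring

theorem gone (h1 : St_One) (hn : ∀ m : ℕ, 0 < m → ∃ t ∈ S, (m : R) * t = 1) {y : G}
    (hy : Lt S ρ c c' z z' y) (b : G) (hb : ∀ k : ℤ, (ρ (b ^ k)).trace ∈ S)
    (hby : ∀ k : ℤ, (ρ ((b * y) ^ k)).trace ∈ S) (k : ℤ) :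
    (ρ (b ^ k) * el ρ c y).trace ∈ S := by
  have htr : (el ρ c y).trace ∈ S := by
    rw [hy.2.2.1]
    exact S.sub_mem hy.1.2.2.1 S.one_mem
  have hpos : ∀ m : ℕ, (ρ (b ^ (m : ℤ)) * el ρ c y).trace ∈ S := by
    intro m
    have h2 := h1 R r S (ρ b) (el ρ c y) hy.2.2.2 hn (fun m => by
      have h3 := hb m
      rwa [zpow_natCast, map_pow] at h3) (fun m => by
      rw [one_add_el, mul_smul_comm, ← map_mul, smul_pow, trace_smul, smul_eq_mul, ← map_pow,
        ← zpow_natCast]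
      exact S.mul_mem (S.pow_mem hy.1.1 m) (hby m)) htr m
    rw [zpow_natCast, map_pow]
    exact h2
  have hneg : ∀ m : ℕ, (ρ (b ^ (-(m : ℤ))) * el ρ c y).trace ∈ S := by
    intro m
    have h2 := h1 R r S (ρ b⁻¹) ((-z' y) • el ρ c y) (ro_smul hy.2.2.2 _) hn (fun m => by
      have h3 := hb (-m)
      rwa [_root_.zpow_neg, zpow_natCast, ← inv_pow, map_pow] at h3) (fun m => by
      have e1 : 1 + (-z' y) • el ρ c y = c' y • ρ y⁻¹ := by
        rw [← lt_inv' hy, neg_smul]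
        abel
      have e2 : b⁻¹ * y⁻¹ = b⁻¹ * (b * y)⁻¹ * (b⁻¹)⁻¹ := by group
      rw [e1, mul_smul_comm, ← map_mul, smul_pow, trace_smul, smul_eq_mul, ← map_pow, e2,
        conj_pow, tr_conj, inv_pow, ← zpow_natCast, ← _root_.zpow_neg]
      exact S.mul_mem (S.pow_mem hy.1.2.1 m) (hby _)) (by
      rw [trace_smul, smul_eq_mul]
      exact S.mul_mem (S.neg_mem hy.1.2.2.2) htr) m
    rw [_root_.zpow_neg, zpow_natCast, ← inv_pow, map_pow]
    rw [mul_smul_comm, trace_smul, smul_eq_mul] at h2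
    have e : ((ρ b⁻¹) ^ m * el ρ c y).trace =
        (-z y) * (-z' y * ((ρ b⁻¹) ^ m * el ρ c y).trace) := by
      linear_combination (-((ρ b⁻¹) ^ m * el ρ c y).trace) * hy.2.1.2
    rw [e]
    exact S.mul_mem (S.neg_mem hy.1.2.2.1) h2
  rcases Int.eq_nat_or_neg k with ⟨n, rfl | rfl⟩
  · exact hpos n
  · exact hneg n

/-! ### two letters -/

theorem p_mem (hs : SysX S ρ a₀ M₀ c c' z z') {a y y' : G} (h : RP a₀ M₀ a [y, y']) :
    (el ρ c y * el ρ c y').trace ∈ S := by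
  have hy := hs.lett a _ h y (by simp)
  have hy' := hs.lett a _ h y' (by simp)
  have h1 := (hs.loops a _ h).2
  rw [List.prod_cons, List.prod_cons, List.prod_nil, mul_one] at h1
  have e1 : (1 + el ρ c y) * (1 + el ρ c y') = (c y * c y') • ρ (y * y') := by
    rw [one_add_el, one_add_el, smul_mul_smul_comm, map_mul]
  have e2 : el ρ c y * el ρ c y' =
      (c y * c y') • ρ (y * y') - el ρ c y - el ρ c y' - 1 := by
    rw [← e1]
    noncomm_ring
  rw [e2, trace_sub, trace_sub, trace_sub, trace_smul, smul_eq_mul, hy.2.2.1, hy'.2.2.1,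
    trace_one, Fintype.card_fin]
  exact S.sub_mem (S.sub_mem (S.sub_mem (S.mul_mem (S.mul_mem hy.1.1 hy'.1.1) h1)
    (S.sub_mem hy.1.2.2.1 S.one_mem)) (S.sub_mem hy'.1.2.2.1 S.one_mem)) (natCast_mem S r)

theorem kx_one {a y : G} (h : KX S ρ c a [y]) (k : ℤ) : (ρ (a ^ k) * el ρ c y).trace ∈ S := by
  have h1 := h k [(0, y)] (by simp)
  simpa [xw] using h1

theorem kx_nil {a : G} (hs : SysX S ρ a₀ M₀ c c' z z') (h : RP a₀ M₀ a []) (k : ℤ) :
    (ρ (a ^ k)).trace ∈ S := by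
  have h1 := (hs.loops a _ h).1 k
  rwa [List.prod_nil, mul_one] at h1

/-- reduction to the words with both letters -/
theorem nd (hN : St_Nd) (hs : SysX S ρ a₀ M₀ c c' z z')
    (hi : ∀ (a : G) (N : List G), RP a₀ M₀ a N → N.length < 2 → KX S ρ c a N)
    {a y y' : G} (h : RP a₀ M₀ a [y, y'])
    (hw : ∀ i j : ℤ, (ρ (a ^ i) * el ρ c y * (ρ (a ^ j) * el ρ c y')).trace ∈ S ∧
      (ρ (a ^ i) * el ρ c y' * (ρ (a ^ j) * el ρ c y)).trace ∈ S) : KX S ρ c a [y, y'] := by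
  refine hN R G r S ρ c c' z z' a [y, y'] (hs.lett a _ h) ?_ ?_ (kx_nil hs (rp_nil h))
  · intro N' hsub hlen
    refine hi a N' ?_ hlen
    cases hsub with
    | cons _ hsub =>
      cases hsub with
      | cons _ hsub =>
        cases hsub
        exact rp_nil h
      | cons_cons _ hsub =>
        cases hsub
        exact rp_two h
    | cons_cons _ hsub =>
      cases hsub with
      | cons _ hsub =>
        cases hsub
        exact rp_one h
      | cons_cons _ hsub =>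
        cases hsub
        simp at hlen
  · intro w _ hp
    have hl := hp.length_eq
    rw [List.length_map] at hl
    obtain ⟨⟨i, u⟩, ⟨j, v⟩, rfl⟩ := List.length_eq_two.1 hl
    have e : xw ρ c a [(i, u), (j, v)] = ρ (a ^ i) * el ρ c u * (ρ (a ^ j) * el ρ c v) := by
      simp [xw]
    rw [e]
    simp only [List.map_cons, List.map_nil] at hp
    have hu : u = y ∨ u = y' := by
      have h1 := hp.subset (List.mem_cons_self)
      simpa using h1
    rcases hu with rfl | rfl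
    · have h2 := hp.cons_inv
      rw [List.perm_singleton] at h2
      have h3 : v = y' := by simpa using h2
      rw [h3]
      exact (hw i j).1
    · have h1 : [u, v].Perm [u, y] := hp.trans (List.Perm.swap _ _ _)
      have h2 := h1.cons_inv
      rw [List.perm_singleton] at h2
      have h3 : v = y := by simpa using h2
      rw [h3]
      exact (hw i j).2

theorem two (h1 : St_One) (h2 : St_Two) (hN : St_Nd) (hs : SysX S ρ a₀ M₀ c c' z z')
    (hi : ∀ (a : G) (N : List G), RP a₀ M₀ a N → N.length < 2 → KX S ρ c a N)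
    {a y y' : G} (h : RP a₀ M₀ a [y, y']) (hp : (el ρ c y * el ρ c y').trace ≠ 0) :
    KX S ρ c a [y, y'] := by
  have hy := hs.lett a _ h y (by simp)
  have hy' := hs.lett a _ h y' (by simp)
  obtain ⟨p', hp', hpp⟩ := hs.fld _ (p_mem hs h) hp
  -- the invertible matrices
  obtain ⟨A, hA⟩ : ∃ A : GL (Fin r) R, ∀ k : ℤ,
      ((A ^ k : GL (Fin r) R) : Matrix (Fin r) (Fin r) R) = ρ (a ^ k) := by
    refine ⟨ρ.toHomUnits a, fun k => ?_⟩
    rw [← map_zpow]
    rfl
  have hA1 : (A : Matrix (Fin r) (Fin r) R) = ρ a := by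
    have h3 := hA 1
    rwa [zpow_one, zpow_one] at h3
  obtain ⟨cU, hcU, hcU'⟩ : ∃ u : Rˣ, (u : R) = c y ∧ ((u⁻¹ : Rˣ) : R) = c' y :=
    ⟨⟨c y, c' y, hy.2.1.1, by rw [mul_comm]; exact hy.2.1.1⟩, rfl, rfl⟩
  have hcS : ∀ k : ℤ, ((cU ^ k : Rˣ) : R) ∈ S := by
    intro k
    rcases Int.eq_nat_or_neg k with ⟨n, rfl | rfl⟩
    · rw [zpow_natCast, Units.val_pow_eq_pow_val, hcU]
      exact S.pow_mem hy.1.1 n
    · rw [_root_.zpow_neg, zpow_natCast, ← inv_pow, Units.val_pow_eq_pow_val, hcU']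
      exact S.pow_mem hy.1.2.1 n
  obtain ⟨g, hg⟩ : ∃ g : GL (Fin r) R, ∀ k : ℤ,
      ((g ^ k : GL (Fin r) R) : Matrix (Fin r) (Fin r) R) =
        ((cU ^ k : Rˣ) : R) • ρ ((a * y) ^ k) := by
    refine ⟨Units.map ((algebraMap R (Matrix (Fin r) (Fin r) R) :
      R →+* Matrix (Fin r) (Fin r) R) : R →* Matrix (Fin r) (Fin r) R) cU *
        ρ.toHomUnits (a * y), fun k => ?_⟩
    have hcm : Commute (Units.map ((algebraMap R (Matrix (Fin r) (Fin r) R) :
      R →+* Matrix (Fin r) (Fin r) R) : R →* Matrix (Fin r) (Fin r) R) cU)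
        (ρ.toHomUnits (a * y)) := Units.ext (Algebra.commutes _ _)
    rw [hcm.mul_zpow, ← map_zpow, ← map_zpow, Units.val_mul, Algebra.smul_def]
    rfl
  have hg1 : (g : Matrix (Fin r) (Fin r) R) = A * (1 + el ρ c y) := by
    have h3 := hg 1
    rw [zpow_one, zpow_one, zpow_one] at h3
    rw [h3, hcU, hA1, one_add_el, mul_smul_comm, ← map_mul]
  have htr : ∀ x, Lt S ρ c c' z z' x → (el ρ c x).trace ∈ S := by
    intro x hx
    rw [hx.2.2.1]
    exact S.sub_mem hx.1.2.2.1 S.one_mem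
  have hz : ∀ x, Lt S ρ c c' z z' x → z' x * (1 + (el ρ c x).trace) = 1 := by
    intro x hx
    rw [hx.2.2.1]
    linear_combination hx.2.1.2
  have key := h2 R r S A (el ρ c y) (el ρ c y') g (z' y) (z' y') p' hy.2.2.2 hy'.2.2.2 hg1
    (htr y hy) (htr y' hy') hy.1.2.2.2 hy'.1.2.2.2 hp' (hz y hy) (hz y' hy')
    (by rw [mul_comm]; exact hpp) (p_mem hs h)
    (fun k => by
      rw [hA]
      exact kx_one (hi a _ (rp_one h) (by simp)) k)
    (fun k => by
      rw [hA]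
      exact kx_one (hi a _ (rp_two h) (by simp)) k)
    (fun k => by
      rw [hg, smul_mul_assoc, trace_smul, smul_eq_mul]
      refine S.mul_mem (hcS k) (gone h1 hs.nat hy' (a * y) ?_ ?_ k)
      · have h3 := (hs.loops a _ (rp_one h)).1
        simpa using h3
      · have h3 := (hs.loops a _ h).1
        rw [List.prod_cons, List.prod_cons, List.prod_nil, mul_one, ← mul_assoc] at h3
        exact h3)
    (fun k => by
      rw [hA, el_conj hs.conj hy']
      exact kx_one (hi a _ (rp_three h) (by simp)) k)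
  refine nd hN hs hi h fun i j => ?_
  have k1 := key j i
  have k2 := key i j
  rw [hA, hA] at k1 k2
  constructor
  · have e : (ρ (a ^ i) * el ρ c y * (ρ (a ^ j) * el ρ c y')).trace =
        (el ρ c y * ρ (a ^ j) * el ρ c y' * ρ (a ^ i)).trace := by
      rw [mul_assoc, trace_mul_comm]
      congr 1
      noncomm_ring
    rw [e]
    exact k1
  · have e : (ρ (a ^ i) * el ρ c y' * (ρ (a ^ j) * el ρ c y)).trace =
        (el ρ c y * ρ (a ^ i) * el ρ c y' * ρ (a ^ j)).trace := by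
      rw [← mul_assoc, trace_mul_comm]
      congr 1
      noncomm_ring
    rw [e]
    exact k2

end XN2

open XN2 in
theorem thm_N2 (h1 : St_One) (h2 : St_Two) (hN : St_Nd) (hK : St_KW) (hZ : St_Zz) : St_N2 := by
  intro R _ G _ r S ρ a₀ M₀ c c' z z' hs hi a y y' h
  rcases hZ R G r S ρ a₀ M₀ c c' z z' hs a y y' [] h with ⟨h0, -⟩ | ⟨-, k, hk⟩
  · refine nd hN hs hi h fun i j => ⟨?_, ?_⟩
    · have e : ρ (a ^ i) * el ρ c y * (ρ (a ^ j) * el ρ c y') =
          ρ (a ^ i) * (el ρ c y * ρ (a ^ j) * el ρ c y') := by noncomm_ring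
      rw [e, (h0 j).1, mul_zero, trace_zero]
      exact S.zero_mem
    · have e : ρ (a ^ i) * el ρ c y' * (ρ (a ^ j) * el ρ c y) =
          ρ (a ^ i) * (el ρ c y' * ρ (a ^ j) * el ρ c y) := by noncomm_ring
      rw [e, (h0 j).2, mul_zero, trace_zero]
      exact S.zero_mem
  · have h' := rp_twist h k
    have h3 := two h1 h2 hN hs hi h' hk
    rw [hK R G r S ρ c c' z z' _ _ (hs.lett _ _ h')] at h3
    rw [hK R G r S ρ c c' z z' _ _ (hs.lett _ _ h)]
    intro w hw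
    refine h3 w ?_
    rw [closure_eq]
    exact hw

end Pool.Agent.PRS
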