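import Pool.Agent.PRS.XB

/-!
# One arbitrary generator: three letters

`thm_N3`: words with three letters.
-/

set_option autoImplicit false

namespace Pool.Agent.PRS

open Matrix Pool.Agent.HZ

section n3
variable {R : Type} [CommRing R] {G : Type} [Group G] {r : ℕ} {S : Subring R}
    {ρ : G →* Matrix (Fin r) (Fin r) R} {a₀ : G} {M₀ : List G} {c c' z z' : G → R}

/-- the six permutations of three letters -/
private theorem n3_perm {α : Type} {u v t x y w : α} (h : [u, v, t].Perm [x, y, w]) :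
    (u = x ∧ v = y ∧ t = w) ∨ (u = y ∧ v = w ∧ t = x) ∨ (u = w ∧ v = x ∧ t = y) ∨
    (u = w ∧ v = y ∧ t = x) ∨ (u = y ∧ v = x ∧ t = w) ∨ (u = x ∧ v = w ∧ t = y) := by
  have two : ∀ {p q m n : α}, [p, q].Perm [m, n] → (p = m ∧ q = n) ∨ (p = n ∧ q = m) := by
    intro p q m n h
    have hp : p ∈ [m, n] := h.subset (by simp)
    simp only [List.mem_cons, List.not_mem_nil, or_false] at hp
    rcases hp with rfl | rfl
    · exact Or.inl ⟨rfl, List.singleton_perm_singleton.1 h.cons_inv⟩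
    · have h' : [p, q].Perm [p, m] := h.trans (List.Perm.swap _ _ _)
      exact Or.inr ⟨rfl, List.singleton_perm_singleton.1 h'.cons_inv⟩
  have hu : u ∈ [x, y, w] := h.subset (by simp)
  simp only [List.mem_cons, List.not_mem_nil, or_false] at hu
  rcases hu with rfl | rfl | rfl
  · rcases two h.cons_inv with ⟨rfl, rfl⟩ | ⟨rfl, rfl⟩ <;> simp
  · have h' : [u, v, t].Perm [u, x, w] := h.trans (List.Perm.swap _ _ _)
    rcases two h'.cons_inv with ⟨rfl, rfl⟩ | ⟨rfl, rfl⟩ <;> simp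
  · have h' : [u, v, t].Perm [u, x, y] :=
      h.trans (((List.Perm.swap _ _ _).cons x).trans (List.Perm.swap _ _ _))
    rcases two h'.cons_inv with ⟨rfl, rfl⟩ | ⟨rfl, rfl⟩ <;> simp

/-- three letters: two families of words are enough -/
private theorem n3_nd (hN : St_Nd) (h : SysX S ρ a₀ M₀ c c' z z')
    (ih : ∀ (a : G) (N : List G), RP a₀ M₀ a N → N.length < 3 → KX S ρ c a N)
    {a x y w : G} (hr : RP a₀ M₀ a [x, y, w])
    (h1 : ∀ i j k : ℤ, (el ρ c x * ρ (a ^ i) * el ρ c y * ρ (a ^ j) * el ρ c w *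
      ρ (a ^ k)).trace ∈ S)
    (h2 : ∀ i j k : ℤ, (el ρ c w * ρ (a ^ i) * el ρ c y * ρ (a ^ j) * el ρ c x *
      ρ (a ^ k)).trace ∈ S) : KX S ρ c a [x, y, w] := by
  refine hN R G r S ρ c c' z z' a [x, y, w] (h.lett a _ hr) ?_ ?_ ?_
  · intro N' hs hl
    exact ih a N' (hr.sublist hs) hl
  · intro v _ hv
    have hlen := hv.length_eq
    obtain ⟨⟨i, p⟩, ⟨j, q⟩, ⟨k, s⟩, rfl⟩ : ∃ p q s, v = [p, q, s] := by
      rw [List.length_map] at hlen
      exact List.length_eq_three.1 hlen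
    simp only [List.map_cons, List.map_nil] at hv
    have key : (xw ρ c a [(i, p), (j, q), (k, s)]).trace =
        (el ρ c p * ρ (a ^ j) * el ρ c q * ρ (a ^ k) * el ρ c s * ρ (a ^ i)).trace := by
      rw [xw_cons, xw_cons, xw_cons, xw_nil, mul_one]
      simp only
      rw [mul_assoc (ρ (a ^ i)), trace_mul_comm]
      simp only [mul_assoc]
    have rot : ∀ (p q s : G) (i j k : ℤ),
        (el ρ c p * ρ (a ^ i) * el ρ c q * ρ (a ^ j) * el ρ c s * ρ (a ^ k)).trace =
        (el ρ c q * ρ (a ^ j) * el ρ c s * ρ (a ^ k) * el ρ c p * ρ (a ^ i)).trace := by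
      intro p q s i j k
      have e : el ρ c p * ρ (a ^ i) * el ρ c q * ρ (a ^ j) * el ρ c s * ρ (a ^ k) =
          (el ρ c p * ρ (a ^ i)) * (el ρ c q * ρ (a ^ j) * el ρ c s * ρ (a ^ k)) := by
        simp only [mul_assoc]
      rw [e, trace_mul_comm]
      simp only [mul_assoc]
    rw [key]
    rcases n3_perm hv with ⟨rfl, rfl, rfl⟩ | ⟨rfl, rfl, rfl⟩ | ⟨rfl, rfl, rfl⟩ | ⟨rfl, rfl, rfl⟩ |
      ⟨rfl, rfl, rfl⟩ | ⟨rfl, rfl, rfl⟩
    · exact h1 _ _ _
    · rw [rot, rot]; exact h1 _ _ _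
    · rw [rot]; exact h1 _ _ _
    · exact h2 _ _ _
    · rw [rot, rot]; exact h2 _ _ _
    · rw [rot]; exact h2 _ _ _
  · intro k
    have h3 := (h.loops a [] (hr.sublist (List.nil_sublist _))).1 k
    rwa [List.prod_nil, mul_one] at h3

/-- two letter words -/
private theorem n3_two {a x y : G} (h : KX S ρ c a [x, y]) (i j : ℤ) :
    (el ρ c x * ρ (a ^ i) * el ρ c y * ρ (a ^ j)).trace ∈ S := by
  have h1 := h j [(0, x), (i, y)] (by simp)
  rw [trace_mul_comm, xw_cons, xw_cons, xw_nil, mul_one] at h1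
  simp only [_root_.zpow_zero, map_one, one_mul] at h1
  rwa [← mul_assoc (el ρ c x)] at h1

/-- the case of three related letters -/
private theorem n3_main (h3 : St_Three) (hN : St_Nd) (h : SysX S ρ a₀ M₀ c c' z z')
    (ih : ∀ (a : G) (N : List G), RP a₀ M₀ a N → N.length < 3 → KX S ρ c a N)
    {a x y w : G} (hr : RP a₀ M₀ a [x, y, w]) (h12 : (el ρ c x * el ρ c y).trace ≠ 0)
    (ho : (el ρ c x * el ρ c w).trace ≠ 0 ∨ (el ρ c y * el ρ c w).trace ≠ 0) :
    KX S ρ c a [x, y, w] := by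
  have hx := h.lett a _ hr x (by simp)
  have hy := h.lett a _ hr y (by simp)
  have hw := h.lett a _ hr w (by simp)
  have rxy : RP a₀ M₀ a [x, y] := hr.sublist (by simp)
  have rxw : RP a₀ M₀ a [x, w] := hr.sublist (by simp)
  have ryw : RP a₀ M₀ a [y, w] := hr.sublist (by simp)
  have rc : RP a₀ M₀ a [y⁻¹ * x * y, w] := by
    have h1 := hr.reach (BReach.of_move (BMove.r [] [w] x y))
    rw [List.nil_append] at h1
    exact h1.sublist (by simp)
  have hA : ∀ k : ℤ, (((ρ.toHomUnits a) ^ k : GL (Fin r) R) : Matrix (Fin r) (Fin r) R) =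
      ρ (a ^ k) := by
    intro k
    rw [← map_zpow, MonoidHom.coe_toHomUnits]
  have main := h3 R r S (ρ.toHomUnits a) (el ρ c x) (el ρ c y) (el ρ c w) (z' y) (z y)
    hx.ro hy.ro hw.ro h.fld hy.1.2.2.2 hy.1.2.2.1 (by rw [mul_comm]; exact hy.2.1.2) h12 ho
    (fun h0 => h.par a x w [] rxw h0) (fun h0 => h.par a y w [] ryw h0)
    (fun i j => by rw [hA, hA]; exact n3_two (ih a _ rxy (by simp)) i j)
    (fun i j => by rw [hA, hA]; exact n3_two (ih a _ rxw (by simp)) i j)
    (fun i j => by rw [hA, hA]; exact n3_two (ih a _ ryw (by simp)) i j)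
    (fun i j => by
      rw [hA, hA, ← hy.el_conj h.conj x]
      have h4 := n3_two (ih a _ rc (by simp)) i j
      have e : ρ (a ^ i) * el ρ c w * ρ (a ^ j) * el ρ c (y⁻¹ * x * y) =
          (ρ (a ^ i) * el ρ c w * ρ (a ^ j)) * el ρ c (y⁻¹ * x * y) := rfl
      rw [e, trace_mul_comm]
      simp only [← mul_assoc]
      exact h4)
    (by
      have h5 := h.pure hr [x, y, w] (fun v hv => hv)
      simpa [mul_assoc] using h5)
    (by
      have h5 := h.pure hr [w, y, x] (fun v hv => by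
        simp only [List.mem_cons, List.not_mem_nil, or_false] at hv ⊢
        tauto)
      simpa [mul_assoc] using h5)
  simp only [hA] at main
  exact n3_nd hN h ih hr (fun i j k => (main i j k).1) (fun i j k => (main i j k).2)

theorem thm_N3 (h3 : St_Three) (hN : St_Nd) (hK : St_KW) (hC : St_Ca) (hF : St_Ft) : St_N3 := by
  intro R _ G _ r S ρ a₀ M₀ c c' z z' h ih a N hr hl
  obtain ⟨x, y, w, rfl⟩ := List.length_eq_three.1 hl
  rcases hC R G r S ρ a₀ M₀ c c' z z' h a x [y, w] hr with h1 | ⟨a₁, y₁, y₂, N₁, hr1, hl1, hp, he⟩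
  · refine n3_nd hN h ih hr ?_ ?_
    · intro i j k
      rw [h1 y (by simp) i]
      simp [S.zero_mem]
    · intro i j k
      rw [mul_assoc (el ρ c w * ρ (a ^ i) * el ρ c y * ρ (a ^ j)), trace_mul_comm]
      simp only [← mul_assoc]
      rw [h1 w (by simp) k]
      simp [S.zero_mem]
  · have hN1 : ∃ y₃, N₁ = [y₃] := by
      have : N₁.length = 1 := by simpa using hl1
      exact List.length_eq_one_iff.1 this
    obtain ⟨y₃, rfl⟩ := hN1
    refine KX_of_closure hK (h.lett a _ hr) (h.lett a₁ _ hr1) he ?_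
    rcases hF R G r S ρ a₀ M₀ c c' z z' h a₁ y₁ y₂ y₃ hr1 with h2 | ⟨a', u, v, hr2, ht, ho, he2⟩
    · refine n3_nd hN h ih hr1 ?_ ?_
      · intro i j k
        rw [mul_assoc (el ρ c y₁ * ρ (a₁ ^ i) * el ρ c y₂ * ρ (a₁ ^ j)), trace_mul_comm]
        simp only [← mul_assoc]
        rw [(h2 k).1]
        simp [S.zero_mem]
      · intro i j k
        rw [(h2 i).2]
        simp [S.zero_mem]
    · refine KX_of_closure hK (h.lett a₁ _ hr1) (h.lett a' _ hr2) he2 ?_
      refine n3_main h3 hN h ih hr2 ?_ ho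
      rw [ht]
      exact hp

end n3

end Pool.Agent.PRS
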