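import Pool.Agent.PRS.XB

/-!
# One arbitrary generator: four or more letters (helper77)
-/

set_option autoImplicit false

namespace Pool.Agent.PRS

open Matrix Pool.Agent.HZ

section n4
variable {R : Type} [CommRing R] {G : Type} [Group G] {r : ℕ} {S : Subring R}
    {ρ : G →* Matrix (Fin r) (Fin r) R} {a₀ : G} {M₀ : List G} {c c' z z' : G → R}

/-- the chord identity -/
private theorem N4_chord {e e' : Matrix (Fin r) (Fin r) R} (he : RO e) (he' : RO e')
    (X Y X' Y' : Matrix (Fin r) (Fin r) R) :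
    (e * X * e' * Y).trace * (e * X' * e' * Y').trace =
      (e * X * e' * Y').trace * (e * X' * e' * Y).trace := by
  have h1 : e * (X * e' * Y) * e = (e * X * e' * Y).trace • e := by
    rw [he (X * e' * Y)]
    simp only [mul_assoc]
  have h2 : e' * (Y * e * X') * e' = (e * X' * e' * Y).trace • e' := by
    rw [he' (Y * e * X')]
    have h3 : (e' * (Y * e * X')).trace = (e * X' * e' * Y).trace := by
      have h4 : e' * (Y * e * X') = (e' * Y) * (e * X') := by simp only [mul_assoc]
      have h5 : (e * X') * (e' * Y) = e * X' * e' * Y := by simp only [mul_assoc]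
      rw [h4, trace_mul_comm, h5]
    rw [h3]
  calc (e * X * e' * Y).trace * (e * X' * e' * Y').trace
      = (((e * X * e' * Y).trace • e) * (X' * e' * Y')).trace := by
        rw [smul_mul_assoc, trace_smul, smul_eq_mul]
        simp only [mul_assoc]
    _ = (e * X * (e' * (Y * e * X') * e') * Y').trace := by
        rw [← h1]
        simp only [mul_assoc]
    _ = (e * X * e' * Y').trace * (e * X' * e' * Y).trace := by
        rw [h2, mul_smul_comm, smul_mul_assoc, trace_smul, smul_eq_mul, mul_comm]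

private theorem N4_rot (a : G) (v w : List (ℤ × G)) :
    (xw ρ c a (v ++ w)).trace = (xw ρ c a (w ++ v)).trace := by
  rw [xw_append, xw_append, trace_mul_comm]

private theorem N4_div (hf : ∀ s ∈ S, s ≠ 0 → ∃ t ∈ S, s * t = 1) {x q s t : R} (hq : q ∈ S)
    (hq0 : q ≠ 0) (hs : s ∈ S) (ht : t ∈ S) (h : x * q = s * t) : x ∈ S := by
  obtain ⟨t', ht', h1⟩ := hf q hq hq0
  have h2 : x = s * t * t' := by
    rw [← h, mul_assoc, h1, mul_one]
  rw [h2]
  exact S.mul_mem (S.mul_mem hs ht) ht'

omit [Group G] in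
/-- splitting a word at a letter -/
private theorem N4_split {y : G} {N : List G} {w : List (ℤ × G)}
    (hw : (w.map Prod.snd).Perm (y :: N)) : ∃ (s : ℤ) (v₁ v₂ : List (ℤ × G)),
      w = v₁ ++ (s, y) :: v₂ ∧ ((v₂ ++ v₁).map Prod.snd).Perm N ∧
      ((v₁ ++ v₂).map Prod.snd).Perm N := by
  have h1 : y ∈ w.map Prod.snd := hw.mem_iff.2 (by simp)
  obtain ⟨⟨s, y'⟩, hp, rfl⟩ := List.mem_map.1 h1
  obtain ⟨v₁, v₂, rfl⟩ := List.append_of_mem hp
  have h2 : ((v₁ ++ v₂).map Prod.snd).Perm N := by
    have h3 : (y' :: ((v₁ ++ v₂).map Prod.snd)).Perm (y' :: N) := by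
      refine List.Perm.trans ?_ hw
      rw [List.map_append, List.map_append, List.map_cons]
      exact List.perm_middle.symm
    exact h3.cons_inv
  refine ⟨s, v₁, v₂, rfl, ?_, h2⟩
  rw [List.map_append] at h2 ⊢
  exact List.perm_append_comm.trans h2

/-- two neighbouring letters -/
private theorem N4_star (hZ : St_Zz) (h : SysX S ρ a₀ M₀ c c' z z') {a y₁ y₂ : G} {N : List G}
    (hR : RP a₀ M₀ a (y₁ :: y₂ :: N)) (hlen : 2 ≤ N.length)
    (ih : ∀ (a' : G) (N' : List G), RP a₀ M₀ a' N' → N'.length < N.length + 2 →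
      KX S ρ c a' N')
    (hs : ∀ v : List (ℤ × G), (v.map Prod.snd).Subperm (y₁ :: y₂ :: N) →
      v.length < N.length + 2 → (xw ρ c a v).trace ∈ S)
    (v : List (ℤ × G)) (hv : (v.map Prod.snd).Perm N) (s : ℤ) :
    (xw ρ c a v * ρ (a ^ s) * (el ρ c y₁ * el ρ c y₂)).trace ∈ S ∧
      (xw ρ c a v * ρ (a ^ s) * (el ρ c y₂ * el ρ c y₁)).trace ∈ S := by
  have hL1 := h.lett a _ hR y₁ (by simp)
  have hL2 := h.lett a _ hR y₂ (by simp)
  have hvl : v.length = N.length := by
    have := hv.length_eq
    simpa using this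
  have hz : z y₂ ∈ S := hL2.1.2.2.1
  have hz' : z' y₂ ∈ S := hL2.1.2.2.2
  have hzz : z y₂ * z' y₂ = 1 := hL2.2.1.2
  -- the relation
  have hrel : (xw ρ c a v * ρ (a ^ s) * (el ρ c y₁ * el ρ c y₂)).trace -
      z' y₂ * (xw ρ c a v * ρ (a ^ s) * (el ρ c y₂ * el ρ c y₁)).trace ∈ S := by
    have h1 : RP a₀ M₀ a (y₂ :: (y₂⁻¹ * y₁ * y₂) :: N) := by
      have h2 := hR.reach (BReach.of_move (BMove.r [] N y₁ y₂))
      simpa using h2
    have h2 : RP a₀ M₀ a ((y₂⁻¹ * y₁ * y₂) :: N) := h1.sublist (List.sublist_cons_self _ _)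
    have h3 := ih a _ h2 (by simp) 0 (v ++ [(s, y₂⁻¹ * y₁ * y₂)]) (by
      intro p hp
      rcases List.mem_append.1 hp with hp | hp
      · exact List.mem_cons_of_mem _ (hv.mem_iff.1 (List.mem_map_of_mem hp))
      · rw [List.mem_singleton.1 hp]
        simp)
    have h4 : ρ (a ^ (0 : ℤ)) * xw ρ c a (v ++ [(s, y₂⁻¹ * y₁ * y₂)]) =
        xw ρ c a v * ρ (a ^ s) * el ρ c (y₂⁻¹ * y₁ * y₂) := by
      rw [_root_.zpow_zero, map_one, one_mul, xw_append, xw_cons, xw_nil, mul_one]
      simp only [mul_assoc]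
    rw [h4, hL2.el_conj' h.conj] at h3
    have h5 : (xw ρ c a v * ρ (a ^ s) * el ρ c y₁).trace ∈ S := by
      have h6 := hs (v ++ [(s, y₁)]) (by
        rw [List.map_append]
        have h7 : (v.map Prod.snd ++ [y₁]).Perm (y₁ :: N) :=
          (List.perm_append_singleton _ _).trans (List.Perm.cons _ hv)
        exact h7.subperm.trans (List.Sublist.cons_cons y₁ (List.sublist_cons_self y₂ N)).subperm)
        (by simp; omega)
      rw [xw_append, xw_cons, xw_nil, mul_one] at h6
      rw [mul_assoc]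
      exact h6
    have h5' : (xw ρ c a v * ρ (a ^ s) * el ρ c y₂).trace ∈ S := by
      have h6 := hs (v ++ [(s, y₂)]) (by
        rw [List.map_append]
        have h7 : (v.map Prod.snd ++ [y₂]).Perm (y₂ :: N) :=
          (List.perm_append_singleton _ _).trans (List.Perm.cons _ hv)
        exact h7.subperm.trans (List.sublist_cons_self y₁ (y₂ :: N)).subperm)
        (by simp; omega)
      rw [xw_append, xw_cons, xw_nil, mul_one] at h6
      rw [mul_assoc]
      exact h6
    have h6 : (el ρ c y₂ * el ρ c y₁).trace ∈ S := by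
      have h7 := hs [(0, y₂), (0, y₁)] (by
        have h8 : ([y₂, y₁] : List G).Perm [y₁, y₂] := List.Perm.swap _ _ _
        refine h8.subperm.trans (List.Sublist.subperm ?_)
        exact List.Sublist.cons_cons y₁ (List.Sublist.cons_cons y₂ (List.nil_sublist N)))
        (by simp; omega)
      simpa [xw_cons, xw_nil] using h7
    rw [mul_sub, mul_sub, mul_add, trace_sub, trace_sub, trace_add, mul_smul_comm,
      mul_smul_comm, trace_smul, trace_smul, smul_eq_mul, smul_eq_mul] at h3
    have h7 := S.add_mem (S.sub_mem h3 h5) (S.mul_mem (S.mul_mem hz' h6) h5')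
    have e : (xw ρ c a v * ρ (a ^ s) * (el ρ c y₁ * el ρ c y₂)).trace -
        z' y₂ * (xw ρ c a v * ρ (a ^ s) * (el ρ c y₂ * el ρ c y₁)).trace =
        (xw ρ c a v * ρ (a ^ s) * el ρ c y₁).trace +
          (xw ρ c a v * ρ (a ^ s) * (el ρ c y₁ * el ρ c y₂)).trace -
          z' y₂ * (xw ρ c a v * ρ (a ^ s) * (el ρ c y₂ * el ρ c y₁)).trace -
          z' y₂ * (el ρ c y₂ * el ρ c y₁).trace *
            (xw ρ c a v * ρ (a ^ s) * el ρ c y₂).trace -
          (xw ρ c a v * ρ (a ^ s) * el ρ c y₁).trace +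
          z' y₂ * (el ρ c y₂ * el ρ c y₁).trace *
            (xw ρ c a v * ρ (a ^ s) * el ρ c y₂).trace := by
      ring
    rw [e]
    exact h7
  by_cases h0 : (xw ρ c a v * ρ (a ^ s) * (el ρ c y₁ * el ρ c y₂)).trace = 0
  · rw [h0] at hrel ⊢
    refine ⟨S.zero_mem, ?_⟩
    have h1 := S.mul_mem (S.neg_mem hz) hrel
    have e : (xw ρ c a v * ρ (a ^ s) * (el ρ c y₂ * el ρ c y₁)).trace =
        -z y₂ * (0 - z' y₂ * (xw ρ c a v * ρ (a ^ s) * (el ρ c y₂ * el ρ c y₁)).trace) := by
      linear_combination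
        (-(xw ρ c a v * ρ (a ^ s) * (el ρ c y₂ * el ρ c y₁)).trace) * hzz
    rw [e]
    exact h1
  · have h21 : (xw ρ c a v * ρ (a ^ s) * (el ρ c y₂ * el ρ c y₁)).trace ∈ S := by
      rcases List.eq_nil_or_concat v with rfl | ⟨v₀, ⟨l, x⟩, hvx⟩
      · simp at hvl
        omega
      · rw [List.concat_eq_append] at hvx
        subst hvx
        have hx : x ∈ N := hv.mem_iff.1 (by simp)
        have hv₀ : v₀ ≠ [] := by
          rintro rfl
          simp at hvl
          omega
        have hv₀l : 0 < v₀.length := List.length_pos_iff.2 hv₀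
        have hLx := h.lett a _ hR x (by simp [hx])
        have hRx : RP a₀ M₀ a [y₁, x] := hR.sublist
          (List.Sublist.cons_cons y₁ ((List.singleton_sublist.2 hx).cons y₂))
        have hperm : (x :: v₀.map Prod.snd).Perm N := by
          refine List.Perm.trans ?_ hv
          rw [List.map_append]
          exact (List.perm_append_singleton _ _).symm
        rcases hZ R G r S ρ a₀ M₀ c c' z z' h a y₁ x [] hRx with ⟨h1, -⟩ | ⟨⟨i, j, hij⟩, -⟩
        · exfalso
          apply h0
          have h2 := (h1 s).2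
          have e : xw ρ c a (v₀ ++ [(l, x)]) * ρ (a ^ s) * (el ρ c y₁ * el ρ c y₂) =
              xw ρ c a v₀ * ρ (a ^ l) * (el ρ c x * ρ (a ^ s) * el ρ c y₁) * el ρ c y₂ := by
            rw [xw_append, xw_cons, xw_nil, mul_one]
            simp only [mul_assoc]
          rw [e, h2, mul_zero, zero_mul, trace_zero]
        · have e : (xw ρ c a (v₀ ++ [(l, x)]) * ρ (a ^ s) * (el ρ c y₂ * el ρ c y₁)).trace =
              (el ρ c y₁ * (xw ρ c a v₀ * ρ (a ^ l)) * el ρ c x *
                (ρ (a ^ s) * el ρ c y₂)).trace := by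
            have e1 : xw ρ c a (v₀ ++ [(l, x)]) * ρ (a ^ s) * (el ρ c y₂ * el ρ c y₁) =
                (xw ρ c a v₀ * ρ (a ^ l) * el ρ c x * ρ (a ^ s) * el ρ c y₂) * el ρ c y₁ := by
              rw [xw_append, xw_cons, xw_nil, mul_one]
              simp only [mul_assoc]
            rw [e1, trace_mul_comm]
            simp only [mul_assoc]
          rw [e]
          have hq : (el ρ c y₁ * ρ (a ^ i) * el ρ c x * ρ (a ^ j)).trace ∈ S := by
            have h2 := hs [(j, y₁), (i, x)] (List.Sublist.subperm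
              (List.Sublist.cons_cons y₁ ((List.singleton_sublist.2 hx).cons y₂)))
              (by simp; omega)
            have e2 : (xw ρ c a [(j, y₁), (i, x)]).trace =
                (el ρ c y₁ * ρ (a ^ i) * el ρ c x * ρ (a ^ j)).trace := by
              rw [xw_cons, xw_cons, xw_nil, mul_one, mul_assoc (ρ (a ^ j)), trace_mul_comm]
              simp only [mul_assoc]
            rwa [e2] at h2
          have hA : (el ρ c y₁ * (xw ρ c a v₀ * ρ (a ^ l)) * el ρ c x * ρ (a ^ j)).trace ∈ S := by
            have h2 := hs ((j, y₁) :: (v₀ ++ [(l, x)])) (by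
              rw [List.map_cons, List.map_append]
              have h3 : (y₁ :: (v₀.map Prod.snd ++ [x])).Perm (y₁ :: N) :=
                List.Perm.cons _ ((List.perm_append_singleton _ _).trans hperm)
              exact h3.subperm.trans
                (List.Sublist.cons_cons y₁ (List.sublist_cons_self y₂ N)).subperm)
              (by simp at hvl ⊢; omega)
            have e2 : (xw ρ c a ((j, y₁) :: (v₀ ++ [(l, x)]))).trace =
                (el ρ c y₁ * (xw ρ c a v₀ * ρ (a ^ l)) * el ρ c x * ρ (a ^ j)).trace := by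
              rw [xw_cons, xw_append, xw_cons, xw_nil, mul_one, mul_assoc (ρ (a ^ j)),
                trace_mul_comm]
              simp only [mul_assoc]
            rwa [e2] at h2
          have hB : (el ρ c y₁ * ρ (a ^ i) * el ρ c x * (ρ (a ^ s) * el ρ c y₂)).trace ∈ S := by
            have h2 := hs [(0, y₁), (i, x), (s, y₂)] (by
              have h3 : ([y₁, x, y₂] : List G).Perm [y₁, y₂, x] :=
                List.Perm.cons _ (List.Perm.swap _ _ _)
              exact h3.subperm.trans (List.Sublist.cons_cons y₁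
                (List.Sublist.cons_cons y₂ (List.singleton_sublist.2 hx))).subperm)
              (by simp; omega)
            have e2 : xw ρ c a [(0, y₁), (i, x), (s, y₂)] =
                el ρ c y₁ * ρ (a ^ i) * el ρ c x * (ρ (a ^ s) * el ρ c y₂) := by
              rw [xw_cons, xw_cons, xw_cons, xw_nil, mul_one, _root_.zpow_zero, map_one, one_mul]
              simp only [mul_assoc]
            rwa [e2] at h2
          exact N4_div h.fld hq hij hA hB
            (N4_chord hL1.2.2.2 hLx.2.2.2 (xw ρ c a v₀ * ρ (a ^ l)) (ρ (a ^ s) * el ρ c y₂)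
              (ρ (a ^ i)) (ρ (a ^ j)))
    refine ⟨?_, h21⟩
    have h1 := S.add_mem hrel (S.mul_mem hz' h21)
    rwa [sub_add_cancel] at h1

/-- the first two letters are not orthogonal -/
private theorem N4_main (hN : St_Nd) (hZ : St_Zz) (h : SysX S ρ a₀ M₀ c c' z z')
    {a y₁ y₂ : G} {N : List G} (hR : RP a₀ M₀ a (y₁ :: y₂ :: N)) (hlen : 2 ≤ N.length)
    (hp : (el ρ c y₁ * el ρ c y₂).trace ≠ 0)
    (ih : ∀ (a' : G) (N' : List G), RP a₀ M₀ a' N' → N'.length < N.length + 2 →
      KX S ρ c a' N') :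
    KX S ρ c a (y₁ :: y₂ :: N) := by
  have hLt := h.lett a _ hR
  have hL1 := hLt y₁ (by simp)
  have hL2 := hLt y₂ (by simp)
  have hs : ∀ v : List (ℤ × G), (v.map Prod.snd).Subperm (y₁ :: y₂ :: N) →
      v.length < N.length + 2 → (xw ρ c a v).trace ∈ S := by
    intro v hv hvl
    obtain ⟨l, hl1, hl2⟩ := hv
    have h1 := ih a l (hR.sublist hl2) (by
      rw [hl1.length_eq, List.length_map]
      exact hvl) 0 v (fun p hp => hl1.mem_iff.2 (List.mem_map_of_mem hp))
    rwa [_root_.zpow_zero, map_one, one_mul] at h1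
  have hpS : (el ρ c y₁ * el ρ c y₂).trace ∈ S := by
    have h7 := hs [(0, y₁), (0, y₂)] (List.Sublist.subperm
      (List.Sublist.cons_cons y₁ (List.Sublist.cons_cons y₂ (List.nil_sublist N))))
      (by simp; omega)
    simpa [xw_cons, xw_nil] using h7
  have hstar := N4_star hZ h hR hlen ih hs
  refine hN R G r S ρ c c' z z' a _ hLt ?_ ?_ ?_
  · intro N' hN' hlt
    exact ih a N' (hR.sublist hN') (by
      simp only [List.length_cons] at hlt
      omega)
  · intro w _ hw
    obtain ⟨s, v₁, v₂, rfl, hv, -⟩ := N4_split hw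
    obtain ⟨t, u₁, u₂, hu, -, hu'⟩ := N4_split hv
    have e0 : (xw ρ c a (v₁ ++ (s, y₁) :: v₂)).trace =
        (xw ρ c a ((s, y₁) :: (u₁ ++ (t, y₂) :: u₂))).trace := by
      rw [N4_rot, List.cons_append, hu]
    rw [e0]
    have hul : u₁.length + u₂.length = N.length := by
      have := hu'.length_eq
      simpa using this
    have hsub1 : (u₁.map Prod.snd).Subperm N := by
      rw [List.map_append] at hu'
      exact (List.sublist_append_left _ _).subperm.trans hu'.subperm
    have hsub2 : (u₂.map Prod.snd).Subperm N := by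
      rw [List.map_append] at hu'
      exact (List.sublist_append_right _ _).subperm.trans hu'.subperm
    rcases u₁ with _ | ⟨p₁, u₁⟩
    · -- `y₁, y₂` are neighbours
      have e1 : (xw ρ c a ((s, y₁) :: ([] ++ (t, y₂) :: u₂))).trace =
          (el ρ c y₁ * ρ (a ^ t) * el ρ c y₂ * (xw ρ c a u₂ * ρ (a ^ s))).trace := by
        rw [List.nil_append, xw_cons, xw_cons, mul_assoc (ρ (a ^ s)), trace_mul_comm]
        simp only [mul_assoc]
      rw [e1]
      have h1 := N4_chord hL1.2.2.2 hL2.2.2.2 (ρ (a ^ t)) (xw ρ c a u₂ * ρ (a ^ s)) 1 1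
      rw [mul_one, mul_one, mul_one] at h1
      refine N4_div h.fld hpS hp ?_ ?_ h1
      · have h2 := hs [(0, y₁), (t, y₂)] (List.Sublist.subperm
          (List.Sublist.cons_cons y₁ (List.Sublist.cons_cons y₂ (List.nil_sublist N))))
          (by simp; omega)
        rw [xw_cons, xw_cons, xw_nil, mul_one, _root_.zpow_zero, map_one, one_mul,
          ← mul_assoc] at h2
        exact h2
      · have h2 := (hstar u₂ (by simpa using hu') s).1
        rw [trace_mul_comm] at h2
        exact h2
    · rcases u₂ with _ | ⟨p₂, u₂⟩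
      · have e1 : (xw ρ c a ((s, y₁) :: (p₁ :: u₁ ++ [(t, y₂)]))).trace =
            (el ρ c y₂ * ρ (a ^ s) * el ρ c y₁ * (xw ρ c a (p₁ :: u₁) * ρ (a ^ t))).trace := by
          have e2 : xw ρ c a ((s, y₁) :: (p₁ :: u₁ ++ [(t, y₂)])) =
              (ρ (a ^ s) * el ρ c y₁ * (xw ρ c a (p₁ :: u₁) * ρ (a ^ t))) * el ρ c y₂ := by
            rw [xw_cons, xw_append, xw_cons a (t, y₂), xw_nil, mul_one]
            simp only [mul_assoc]
          rw [e2, trace_mul_comm]
          simp only [mul_assoc]
        rw [e1]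
        have h1 := N4_chord hL2.2.2.2 hL1.2.2.2 (ρ (a ^ s)) (xw ρ c a (p₁ :: u₁) * ρ (a ^ t)) 1 1
        rw [mul_one, mul_one, mul_one] at h1
        have hpS' : (el ρ c y₂ * el ρ c y₁).trace ∈ S := by
          rw [trace_mul_comm]
          exact hpS
        have hp' : (el ρ c y₂ * el ρ c y₁).trace ≠ 0 := by
          rw [trace_mul_comm]
          exact hp
        refine N4_div h.fld hpS' hp' ?_ ?_ h1
        · have h2 := hs [(0, y₂), (s, y₁)] (by
            have h8 : ([y₂, y₁] : List G).Perm [y₁, y₂] := List.Perm.swap _ _ _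
            refine h8.subperm.trans (List.Sublist.subperm ?_)
            exact List.Sublist.cons_cons y₁ (List.Sublist.cons_cons y₂ (List.nil_sublist N)))
            (by simp; omega)
          rw [xw_cons, xw_cons, xw_nil, mul_one, _root_.zpow_zero, map_one, one_mul,
            ← mul_assoc] at h2
          exact h2
        · have h2 := (hstar (p₁ :: u₁) (by simpa using hu') t).2
          rw [trace_mul_comm] at h2
          exact h2
      · have e1 : (xw ρ c a ((s, y₁) :: (p₁ :: u₁ ++ (t, y₂) :: p₂ :: u₂))).trace =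
            (el ρ c y₁ * (xw ρ c a (p₁ :: u₁) * ρ (a ^ t)) * el ρ c y₂ *
              (xw ρ c a (p₂ :: u₂) * ρ (a ^ s))).trace := by
          rw [xw_cons, xw_append, xw_cons a (t, y₂), mul_assoc (ρ (a ^ s)), trace_mul_comm]
          simp only [mul_assoc]
        rw [e1]
        have h1 := N4_chord hL1.2.2.2 hL2.2.2.2 (xw ρ c a (p₁ :: u₁) * ρ (a ^ t))
          (xw ρ c a (p₂ :: u₂) * ρ (a ^ s)) 1 1
        rw [mul_one, mul_one, mul_one] at h1
        refine N4_div h.fld hpS hp ?_ ?_ h1
        · have h2 := hs ((0, y₁) :: (p₁ :: u₁ ++ [(t, y₂)])) (by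
            rw [List.map_cons, List.map_append]
            have h3 : (y₁ :: ((p₁ :: u₁).map Prod.snd ++ [y₂])).Perm
                (y₁ :: y₂ :: (p₁ :: u₁).map Prod.snd) :=
              List.Perm.cons _ (List.perm_append_singleton _ _)
            refine h3.subperm.trans ?_
            exact (List.subperm_cons y₁).2 ((List.subperm_cons y₂).2 hsub1))
            (by simp at hul ⊢; omega)
          have e2 : xw ρ c a ((0, y₁) :: (p₁ :: u₁ ++ [(t, y₂)])) =
              el ρ c y₁ * (xw ρ c a (p₁ :: u₁) * ρ (a ^ t)) * el ρ c y₂ := by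
            rw [xw_cons, xw_append, xw_cons a (t, y₂), xw_nil, mul_one, _root_.zpow_zero,
              map_one, one_mul]
            simp only [mul_assoc]
          rwa [e2] at h2
        · have h2 := hs ((s, y₁) :: (0, y₂) :: p₂ :: u₂) (by
            rw [List.map_cons, List.map_cons]
            exact (List.subperm_cons y₁).2 ((List.subperm_cons y₂).2 hsub2))
            (by simp at hul ⊢; omega)
          have e2 : (xw ρ c a ((s, y₁) :: (0, y₂) :: p₂ :: u₂)).trace =
              (el ρ c y₁ * el ρ c y₂ * (xw ρ c a (p₂ :: u₂) * ρ (a ^ s))).trace := by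
            rw [xw_cons, xw_cons a (0, y₂), mul_assoc (ρ (a ^ s)), trace_mul_comm,
              _root_.zpow_zero, map_one, one_mul]
            simp only [mul_assoc]
          rwa [e2] at h2
  · intro k
    have h1 := (h.loops a [] (hR.sublist (List.nil_sublist _))).1 k
    rwa [List.prod_nil, mul_one] at h1

end n4

/-- **N4** -/
theorem thm_N4 (hN : St_Nd) (hK : St_KW) (hZ : St_Zz) (hC : St_Ca) : St_N4 := by
  intro R _ G _ r S ρ a₀ M₀ c c' z z' h a N hR hlen ih
  rcases N with _ | ⟨y, N⟩
  · simp at hlen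
  rcases hC R G r S ρ a₀ M₀ c c' z z' h a y N hR with h1 | ⟨a₁, y₁, y₂, N₁, hR₁, hl₁, hp, hcl⟩
  · -- the first letter is unrelated to all others
    refine hN R G r S ρ c c' z z' a _ (h.lett a _ hR) ?_ ?_ ?_
    · intro N' hN' hlt
      exact ih a N' (hR.sublist hN') hlt
    · intro w _ hw
      obtain ⟨s, v₁, v₂, rfl, hv, -⟩ := N4_split hw
      rw [N4_rot, List.cons_append]
      have hvl : (v₂ ++ v₁).length = N.length := by
        have := hv.length_eq
        simpa using this
      rcases hvv : v₂ ++ v₁ with _ | ⟨⟨t, y'⟩, u⟩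
      · rw [hvv] at hvl
        simp at hvl hlen
        omega
      · rw [hvv] at hv
        have hy' : y' ∈ N := hv.mem_iff.1 (by simp)
        have e1 : xw ρ c a ((s, y) :: (t, y') :: u) =
            ρ (a ^ s) * (el ρ c y * ρ (a ^ t) * el ρ c y') * xw ρ c a u := by
          rw [xw_cons, xw_cons]
          simp only [mul_assoc]
        rw [e1, h1 y' hy' t, mul_zero, zero_mul, trace_zero]
        exact S.zero_mem
    · intro k
      have h1 := (h.loops a [] (hR.sublist (List.nil_sublist _))).1 k
      rwa [List.prod_nil, mul_one] at h1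
  · have hl₂ : N₁.length + 2 = (y :: N).length := by
      rw [← hl₁]
      simp
    refine KX_of_closure hK (h.lett a _ hR) (h.lett a₁ _ hR₁) hcl ?_
    refine N4_main hN hZ h hR₁ (by omega) hp ?_
    intro a' N' hR' hlt
    exact ih a' N' hR' (by omega)

end Pool.Agent.PRS
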