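import Pool.Agent.PRS.StX2

/-!
# One arbitrary generator: reduction to words without repeated letters (helper41)
-/

set_option autoImplicit false

namespace Pool.Agent.PRS

open Matrix Pool.Agent.HZ

section
variable {R : Type} [CommRing R] {G : Type} [Group G] {r : ℕ}

private theorem xw_append (ρ : G →* Matrix (Fin r) (Fin r) R) (c : G → R) (a : G)
    (w w' : List (ℤ × G)) : xw ρ c a (w ++ w') = xw ρ c a w * xw ρ c a w' := by
  unfold xw
  rw [List.map_append, List.prod_append]

private theorem xw_cons (ρ : G →* Matrix (Fin r) (Fin r) R) (c : G → R) (a : G)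
    (k : ℤ) (y : G) (w : List (ℤ × G)) :
    xw ρ c a ((k, y) :: w) = ρ (a ^ k) * el ρ c y * xw ρ c a w := by
  unfold xw
  rw [List.map_cons, List.prod_cons]

omit [Group G] in
private theorem Nd_dec (w : List (ℤ × G)) (h : ¬ (w.map Prod.snd).Nodup) :
    ∃ (w₁ w₂ w₃ : List (ℤ × G)) (k₁ k₂ : ℤ) (y : G),
      w = w₁ ++ (k₁, y) :: (w₂ ++ (k₂, y) :: w₃) := by
  induction w with
  | nil => exact absurd List.nodup_nil h
  | cons p w ih =>
    obtain ⟨k, y⟩ := p
    by_cases h1 : y ∈ w.map Prod.snd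
    · obtain ⟨⟨k', y'⟩, hq, rfl⟩ := List.mem_map.1 h1
      obtain ⟨s, t, rfl⟩ := List.append_of_mem hq
      exact ⟨[], s, t, k, k', y', rfl⟩
    · have h2 : ¬ (w.map Prod.snd).Nodup := fun h2 => h (by
        rw [List.map_cons]
        exact List.nodup_cons.2 ⟨h1, h2⟩)
      obtain ⟨w₁, w₂, w₃, k₁, k₂, y', rfl⟩ := ih h2
      exact ⟨(k, y) :: w₁, w₂, w₃, k₁, k₂, y', rfl⟩

/-- a repeated letter -/
private theorem Nd_rep (ρ : G →* Matrix (Fin r) (Fin r) R) (c : G → R) (a : G)
    (w₁ w₂ w₃ : List (ℤ × G)) (k₁ k₂ : ℤ) {y : G} (he : RO (el ρ c y)) :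
    (xw ρ c a (w₁ ++ (k₁, y) :: (w₂ ++ (k₂, y) :: w₃))).trace =
      (xw ρ c a (w₂ ++ [(k₂, y)])).trace * (xw ρ c a (w₁ ++ (k₁, y) :: w₃)).trace := by
  have h1 : xw ρ c a (w₁ ++ (k₁, y) :: (w₂ ++ (k₂, y) :: w₃)) =
      (xw ρ c a w₁ * ρ (a ^ k₁)) * (el ρ c y * (xw ρ c a w₂ * ρ (a ^ k₂)) * el ρ c y) *
        xw ρ c a w₃ := by
    rw [xw_append, xw_cons, xw_append, xw_cons]
    simp only [mul_assoc]
  have h2 : xw ρ c a (w₁ ++ (k₁, y) :: w₃) =
      (xw ρ c a w₁ * ρ (a ^ k₁)) * el ρ c y * xw ρ c a w₃ := by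
    rw [xw_append, xw_cons]
    simp only [mul_assoc]
  have h3 : (xw ρ c a (w₂ ++ [(k₂, y)])).trace =
      (el ρ c y * (xw ρ c a w₂ * ρ (a ^ k₂))).trace := by
    rw [xw_append, xw_cons, trace_mul_comm (el ρ c y)]
    have : xw ρ c a ([] : List (ℤ × G)) = 1 := by
      unfold xw
      rw [List.map_nil, List.prod_nil]
    rw [this, mul_one, mul_assoc]
  rw [h1, h2, h3, he, Matrix.mul_smul, Matrix.smul_mul, trace_smul, smul_eq_mul]

end

/-- **ND** -/
theorem thm_Nd : St_Nd := by
  intro R _ G _ r S ρ c c' z z' a N hL hsub hw hk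
  have key : ∀ (n : ℕ) (w : List (ℤ × G)), w.length = n → w ≠ [] → (∀ p ∈ w, p.2 ∈ N) →
      (xw ρ c a w).trace ∈ S := by
    intro n
    induction n using Nat.strong_induction_on with
    | _ n ih =>
      intro w hn hne hN
      by_cases hnd : (w.map Prod.snd).Nodup
      · have h1 : w.map Prod.snd ⊆ N := by
          intro y hy
          obtain ⟨p, hp, rfl⟩ := List.mem_map.1 hy
          exact hN p hp
        obtain ⟨l, hl, hlN⟩ := List.subperm_of_subset hnd h1
        rcases Nat.lt_or_ge l.length N.length with h2 | h2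
        · have h3 := hsub l hlN h2 0 w (fun p hp => hl.mem_iff.2 (List.mem_map_of_mem hp))
          rw [zpow_zero, map_one, one_mul] at h3
          exact h3
        · have h3 : l = N := hlN.eq_of_length_le h2
          rw [h3] at hl
          exact hw w hne hl.symm
      · obtain ⟨w₁, w₂, w₃, k₁, k₂, y, rfl⟩ := Nd_dec w hnd
        have hy : y ∈ N := hN (k₁, y) (by simp)
        rw [Nd_rep ρ c a w₁ w₂ w₃ k₁ k₂ (hL y hy).2.2.2]
        simp only [List.length_append, List.length_cons] at hn
        refine S.mul_mem (ih _ ?_ (w₂ ++ [(k₂, y)]) rfl (by simp) ?_)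
          (ih _ ?_ (w₁ ++ (k₁, y) :: w₃) rfl (by simp) ?_)
        · simp only [List.length_append, List.length_cons, List.length_nil]
          omega
        · intro p hp
          apply hN
          simp only [List.mem_append, List.mem_cons, List.not_mem_nil, or_false] at hp ⊢
          tauto
        · simp only [List.length_append, List.length_cons]
          omega
        · intro p hp
          apply hN
          simp only [List.mem_append, List.mem_cons] at hp ⊢
          tauto
  intro j w hN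
  rcases w with _ | ⟨⟨k, y⟩, w⟩
  · have : xw ρ c a ([] : List (ℤ × G)) = 1 := by
      unfold xw
      rw [List.map_nil, List.prod_nil]
    rw [this, mul_one]
    exact hk j
  · have h1 : ρ (a ^ j) * xw ρ c a ((k, y) :: w) = xw ρ c a ((j + k, y) :: w) := by
      rw [xw_cons, xw_cons, _root_.zpow_add, map_mul]
      simp only [mul_assoc]
    rw [h1]
    refine key _ _ rfl (by simp) ?_
    intro p hp
    rcases List.mem_cons.1 hp with h2 | h2
    · rw [h2]
      exact hN (k, y) (by simp)
    · exact hN p (List.mem_cons_of_mem _ h2)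

end Pool.Agent.PRS
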