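import Pool.Agent.PRS.StX1

/-!
# One arbitrary generator: module ONE (helper47)
-/

set_option autoImplicit false

namespace Pool.Agent.PRS

open Matrix Pool.Agent.HZ Polynomial
open scoped ComplexOrder

section
variable {R : Type} [CommRing R] {r : ℕ} (A e : Matrix (Fin r) (Fin r) R)

private theorem XOne_tel (j : ℕ) : (A * (1 + e)) ^ j =
    A ^ j + ∑ l ∈ Finset.range j, A ^ (l + 1) * e * (A * (1 + e)) ^ (j - (l + 1)) := by
  induction j with
  | zero => simp
  | succ j ih =>
    rw [Finset.sum_range_succ']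
    have h1 : (A * (1 + e)) ^ (j + 1) = A * (A * (1 + e)) ^ j + A * e * (A * (1 + e)) ^ j := by
      rw [pow_succ', mul_add, mul_one, add_mul]
    have h2 : A * (A * (1 + e)) ^ j = A ^ (j + 1) +
        ∑ l ∈ Finset.range j, A ^ (l + 1 + 1) * e * (A * (1 + e)) ^ (j + 1 - (l + 1 + 1)) := by
      conv_lhs => rw [ih]
      rw [mul_add, ← pow_succ', Finset.mul_sum]
      congr 1
      refine Finset.sum_congr rfl fun l _ => ?_
      rw [show j + 1 - (l + 1 + 1) = j - (l + 1) by omega, pow_succ' A (l + 1)]
      simp only [mul_assoc]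
    rw [h1, h2]
    simp only [zero_add, pow_one, Nat.add_sub_cancel]
    rw [add_assoc]

private theorem XOne_q (he : RO e) (i j : ℕ) :
    ((A * (1 + e)) ^ j * (A ^ i * e)).trace = (A ^ (i + j) * e).trace +
      ∑ l ∈ Finset.range j, (A ^ (l + 1) * e).trace *
        ((A * (1 + e)) ^ (j - (l + 1)) * (A ^ i * e)).trace := by
  conv_lhs => rw [XOne_tel A e j]
  rw [add_mul, Matrix.trace_add, Finset.sum_mul, Matrix.trace_sum]
  congr 1
  · rw [← mul_assoc, ← pow_add, add_comm]
  · refine Finset.sum_congr rfl fun l _ => ?_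
    have h1 : A ^ (l + 1) * e * (A * (1 + e)) ^ (j - (l + 1)) * (A ^ i * e) =
        A ^ (l + 1) * (e * ((A * (1 + e)) ^ (j - (l + 1)) * A ^ i) * e) := by
      simp only [mul_assoc]
    rw [h1, he, Matrix.mul_smul, Matrix.trace_smul, smul_eq_mul, mul_comm]
    congr 1
    rw [Matrix.trace_mul_comm, mul_assoc]

end

theorem thm_One : St_One := by
  intro R _ r S A e he hinv hA hX h0
  have key : ∀ m : ℕ, (∀ l < m, (A ^ l * e).trace ∈ S) → (A ^ m * e).trace ∈ S := by
    intro m hm
    rcases Nat.eq_zero_or_pos m with rfl | hpos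
    · simpa using h0
    -- the small ones
    have hq : ∀ j i : ℕ, 1 ≤ i → i + j < m →
        ((A * (1 + e)) ^ j * (A ^ i * e)).trace ∈ S := by
      intro j
      induction j using Nat.strong_induction_on with
      | _ j ih =>
        intro i hi hij
        rw [XOne_q A e he]
        refine S.add_mem (hm _ hij) (S.sum_mem fun l hl => ?_)
        rw [Finset.mem_range] at hl
        exact S.mul_mem (hm _ (by omega)) (ih _ (by omega) i hi (by omega))
    have hq2 : ∀ j i : ℕ, 1 ≤ i → i + j = m →
        ((A * (1 + e)) ^ j * (A ^ i * e)).trace - (A ^ m * e).trace ∈ S := by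
      intro j i hi hij
      rw [XOne_q A e he, hij, add_sub_cancel_left]
      refine S.sum_mem fun l hl => ?_
      rw [Finset.mem_range] at hl
      exact S.mul_mem (hm _ (by omega)) (hq _ i hi (by omega))
    have h1 : ((A * (1 + e)) ^ m).trace = (A ^ m).trace +
        ∑ l ∈ Finset.range m, ((A * (1 + e)) ^ (m - (l + 1)) * (A ^ (l + 1) * e)).trace := by
      conv_lhs => rw [XOne_tel A e m]
      rw [Matrix.trace_add, Matrix.trace_sum]
      congr 1
      refine Finset.sum_congr rfl fun l _ => ?_
      rw [Matrix.trace_mul_comm]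
    have h2 : ∑ l ∈ Finset.range m, (((A * (1 + e)) ^ (m - (l + 1)) * (A ^ (l + 1) * e)).trace -
        (A ^ m * e).trace) ∈ S := by
      refine S.sum_mem fun l hl => ?_
      rw [Finset.mem_range] at hl
      exact hq2 _ _ (by omega) (by omega)
    rw [Finset.sum_sub_distrib, Finset.sum_const, Finset.card_range, nsmul_eq_mul] at h2
    have h3 : (m : R) * (A ^ m * e).trace ∈ S := by
      have h4 : (m : R) * (A ^ m * e).trace = ((A * (1 + e)) ^ m).trace - (A ^ m).trace -
          (∑ l ∈ Finset.range m, ((A * (1 + e)) ^ (m - (l + 1)) * (A ^ (l + 1) * e)).trace -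
            (m : R) * (A ^ m * e).trace) := by
        rw [h1]
        ring
      rw [h4]
      exact S.sub_mem (S.sub_mem (hX m) (hA m)) h2
    obtain ⟨t, ht, hmt⟩ := hinv m hpos
    have h5 : (A ^ m * e).trace = t * ((m : R) * (A ^ m * e).trace) := by
      rw [← mul_assoc, mul_comm t, hmt, one_mul]
    rw [h5]
    exact S.mul_mem ht h3
  intro m
  induction m using Nat.strong_induction_on with
  | _ m ih => exact key m ih

end Pool.Agent.PRS
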