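import Pool.Agent.PRS.StX3
import Pool.Agent.PRS.DUA

/-!
# PRX: two representations with the same traces of the simple loops (helper85)
-/

set_option autoImplicit false

namespace Pool.Agent.PRS

open Matrix Pool.Agent.HZ

/-- the group generated by `x_0` and `x_1, ..., x_n` -/
theorem XPair_top (n : ℕ) : Subgroup.closure
    ({FreeGroup.of 0} ∪ {x | x ∈ sT n} : Set (FreeGroup (Fin (n + 1)))) = ⊤ := by
  rw [eq_top_iff, ← FreeGroup.closure_range_of]
  refine Subgroup.closure_mono ?_
  rintro _ ⟨i, rfl⟩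
  rcases Fin.eq_zero_or_eq_succ i with rfl | ⟨j, rfl⟩
  · exact Or.inl rfl
  · exact Or.inr (List.mem_map.2 ⟨j, List.mem_finRange j, rfl⟩)

theorem thm_Pair (hU : St_Uq) (hP : St_Par) : St_Pair := by
  intro n r ρ₁ ρ₂ b hb hl htr hfin
  let S : Subring (Bool → ℂ) := RingHom.eqLocus (Pi.evalRingHom (fun _ : Bool => ℂ) false)
    (Pi.evalRingHom (fun _ : Bool => ℂ) true)
  have hS : ∀ f : Bool → ℂ, f false = f true → f ∈ S := fun f h => h
  have hS' : ∀ f : Bool → ℂ, f ∈ S → f false = f true := fun f h => h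
  obtain ⟨fam, hfam⟩ : ∃ fam : Bool → FreeGroup (Fin (n + 1)) →* GL (Fin r) ℂ,
      fam = fun i => if i then ρ₂ else ρ₁ := ⟨_, rfl⟩
  have hf : fam false = ρ₁ := by rw [hfam]; rfl
  have ht : fam true = ρ₂ := by rw [hfam]; rfl
  let c : FreeGroup (Fin (n + 1)) → Bool → ℂ := fun y _ => (b y)⁻¹
  let c' : FreeGroup (Fin (n + 1)) → Bool → ℂ := fun y _ => b y
  let z : FreeGroup (Fin (n + 1)) → Bool → ℂ :=
    fun y _ => 1 + ((b y)⁻¹ • (ρ₁ y : Matrix (Fin r) (Fin r) ℂ) - 1).trace
  let z' : FreeGroup (Fin (n + 1)) → Bool → ℂ :=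
    fun y _ => (1 + ((b y)⁻¹ • (ρ₁ y : Matrix (Fin r) (Fin r) ℂ) - 1).trace)⁻¹
  have hev : ∀ (y : FreeGroup (Fin (n + 1))) (β : Bool),
      DUA_ev r β (el (DUA_rep Bool fam) c y) =
        (b y)⁻¹ • (fam β y : Matrix (Fin r) (Fin r) ℂ) - 1 := by
    intro y β
    rw [el, map_sub, map_one, DUA_smul, DUA_rep_ev]
  have hloops : ∀ a N, RF n a N → (∀ k : ℤ, (DUA_rep Bool fam ((a * N.prod) ^ k)).trace ∈ S) ∧
      (DUA_rep Bool fam N.prod).trace ∈ S := by
    intro a N h
    obtain ⟨h1, h2⟩ := htr a N h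
    constructor
    · intro k
      apply hS
      rw [DUA_tr, DUA_tr, DUA_rep_ev, DUA_rep_ev, hf, ht]
      exact h1 k
    · apply hS
      rw [DUA_tr, DUA_tr, DUA_rep_ev, DUA_rep_ev, hf, ht]
      exact h2
  have hsys : SysX S (DUA_rep Bool fam) (FreeGroup.of 0) (sT n) c c' z z' := by
    refine ⟨fun x y => ?_, fun a N h y hy => ?_, hloops, fun s hs h0 => ?_, fun m hm => ?_,
      fun a y y' N h h0 => ?_⟩
    · funext β
      change (b (y⁻¹ * x * y))⁻¹ = (b x)⁻¹
      rw [hb]
    · obtain ⟨h1, h2, h3, h4⟩ := hl a N h y hy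
      have h5 : (ρ₁ y : Matrix (Fin r) (Fin r) ℂ).trace =
          (ρ₂ y : Matrix (Fin r) (Fin r) ℂ).trace := by
        have h6 := (htr a [y] (h.sublist (List.singleton_sublist.2 hy))).2
        rwa [List.prod_cons, List.prod_nil, mul_one] at h6
      refine ⟨⟨hS _ rfl, hS _ rfl, hS _ rfl, hS _ rfl⟩, ⟨funext fun β => inv_mul_cancel₀ h1,
        funext fun β => mul_inv_cancel₀ h2⟩, ?_, ?_⟩
      · funext β
        rw [DUA_tr, hev]
        change _ = 1 + ((b y)⁻¹ • (ρ₁ y : Matrix (Fin r) (Fin r) ℂ) - 1).trace - 1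
        rcases β with _ | _
        · rw [hf, add_sub_cancel_left]
        · rw [ht, add_sub_cancel_left, trace_sub, trace_sub, trace_smul, trace_smul, h5]
      · intro X
        refine DUA_ext fun β => ?_
        rw [DUA_smul, DUA_tr, map_mul, map_mul, hev]
        rcases β with _ | _
        · rw [hf]
          exact h3 _
        · rw [ht]
          exact h4 _
    · have h1 := hS' s hs
      have h2 : s false ≠ 0 := by
        intro h2
        apply h0
        funext β
        rcases β with _ | _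
        · exact h2
        · rw [← h1]
          exact h2
      refine ⟨fun β => (s β)⁻¹, hS _ (by rw [h1]), funext fun β => ?_⟩
      change s β * (s β)⁻¹ = 1
      rcases β with _ | _
      · exact mul_inv_cancel₀ h2
      · exact mul_inv_cancel₀ (h1 ▸ h2)
    · refine ⟨fun _ => (m : ℂ)⁻¹, hS _ rfl, funext fun β => ?_⟩
      change ((m : Bool → ℂ) β) * (m : ℂ)⁻¹ = 1
      have h1 : ((m : Bool → ℂ) β) = (m : ℂ) := rfl
      rw [h1]
      exact mul_inv_cancel₀ (by exact_mod_cast hm.ne')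
    · obtain ⟨h1, -, h3, h4⟩ := hl a _ h y (by simp)
      obtain ⟨h1', -, h3', h4'⟩ := hl a _ h y' (by simp)
      obtain ⟨f1, f2⟩ := hfin a y y' N h
      have h5 : ∀ β, (((b y)⁻¹ • (fam β y : Matrix (Fin r) (Fin r) ℂ) - 1) *
          ((b y')⁻¹ • (fam β y' : Matrix (Fin r) (Fin r) ℂ) - 1)).trace = 0 := by
        intro β
        have h6 := congrFun h0 β
        rw [DUA_tr, map_mul, hev, hev] at h6
        exact h6
      have h7 : ∀ β, ((b y)⁻¹ • (fam β y : Matrix (Fin r) (Fin r) ℂ) - 1) *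
          ((b y')⁻¹ • (fam β y' : Matrix (Fin r) (Fin r) ℂ) - 1) = 0 ∧
          ((b y')⁻¹ • (fam β y' : Matrix (Fin r) (Fin r) ℂ) - 1) *
          ((b y)⁻¹ • (fam β y : Matrix (Fin r) (Fin r) ℂ) - 1) = 0 := by
        intro β
        refine hP r (fam β y) (fam β y') (b y) (b y') h1 h1' ?_ ?_ ?_ (h5 β)
        · rcases β with _ | _
          · rw [hf]
            exact h3
          · rw [ht]
            exact h4
        · rcases β with _ | _
          · rw [hf]
            exact h3'
          · rw [ht]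
            exact h4'
        · rcases β with _ | _
          · rw [hf]
            exact f1
          · rw [ht]
            exact f2
      constructor
      · refine DUA_ext fun β => ?_
        rw [map_mul, hev, hev, map_zero]
        exact (h7 β).1
      · refine DUA_ext fun β => ?_
        rw [map_mul, hev, hev, map_zero]
        exact (h7 β).2
  intro w
  have h1 := hU (Bool → ℂ) (FreeGroup (Fin (n + 1))) r S (DUA_rep Bool fam) (FreeGroup.of 0) (sT n)
    c c' z z' hsys w (by rw [XPair_top]; exact Subgroup.mem_top w)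
  have h2 := hS' _ h1
  rw [DUA_tr, DUA_tr, DUA_rep_ev, DUA_rep_ev, hf, ht] at h2
  exact h2

end Pool.Agent.PRS
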