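import Pool.Agent.PRS.StX3

/-!
# One arbitrary generator: two pseudo-reflections generating a finite group (helper9)
-/

set_option autoImplicit false

namespace Pool.Agent.PRS

open Matrix Pool.Agent.HZ

section
variable {r : ℕ}

private theorem XPar_mul {e : Matrix (Fin r) (Fin r) ℂ} {t z : ℂ} (he : e * e = t • e)
    (hz : z = 1 + t) (hz0 : z ≠ 0) : (1 + e) * (1 - z⁻¹ • e) = 1 := by
  have h1 : z⁻¹ * t = 1 - z⁻¹ := by
    field_simp
    rw [hz]
    ring
  rw [mul_sub, mul_one, mul_smul_comm, add_mul, one_mul, he, smul_add, smul_smul, h1]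
  module

private theorem XPar_com {e e' : Matrix (Fin r) (Fin r) ℂ} {t t' z z' : ℂ} (he : e * e = t • e)
    (he' : e' * e' = t' • e') (h1 : e * e' * e = 0) (h2 : e' * e * e' = 0) (hz : z = 1 + t)
    (hz0 : z ≠ 0) (hz' : z' = 1 + t') (hz0' : z' ≠ 0) :
    (1 + e) * (1 + e') * (1 - z⁻¹ • e) * (1 - z'⁻¹ • e') =
      1 + (z'⁻¹ • (e * e') - z⁻¹ • (e' * e)) := by
  have h3 : z⁻¹ * t = 1 - z⁻¹ := by
    field_simp
    rw [hz]
    ring
  have h4 : z'⁻¹ * t' = 1 - z'⁻¹ := by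
    field_simp
    rw [hz']
    ring
  have e1 : (1 + e) * (1 + e') * (1 - z⁻¹ • e) = 1 + e' + e * e' - z⁻¹ • (e' * e) := by
    have h5 : (1 + e) * (1 + e') = 1 + e + e' + e * e' := by
      rw [add_mul, mul_add, mul_add, one_mul, one_mul, mul_one]
      abel
    rw [h5, mul_sub, mul_one, mul_smul_comm, add_mul, add_mul, add_mul, one_mul, he, h1, add_zero,
      smul_add, smul_add, smul_smul, h3]
    module
  have e2 : e * e' * e' = t' • (e * e') := by
    rw [mul_assoc, he', mul_smul_comm]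
  rw [e1, mul_sub, mul_one, mul_smul_comm, sub_mul, add_mul, add_mul, one_mul, he', e2,
    smul_mul_assoc, h2, smul_zero, sub_zero, smul_add, smul_add, smul_smul, smul_smul, h4]
  module

private theorem XPar_sq {e e' : Matrix (Fin r) (Fin r) ℂ} {t t' : ℂ} (x y : ℂ)
    (he : e * e = t • e) (he' : e' * e' = t' • e') (h1 : e * e' * e = 0) (h2 : e' * e * e' = 0) :
    (x • (e * e') - y • (e' * e)) * (x • (e * e') - y • (e' * e)) = 0 := by
  have a1 : e * e' * (e * e') = 0 := by rw [← mul_assoc, h1, zero_mul]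
  have a2 : e' * e * (e' * e) = 0 := by rw [← mul_assoc, h2, zero_mul]
  have a3 : e * e' * (e' * e) = 0 := by
    rw [← mul_assoc, mul_assoc e e' e', he', mul_smul_comm, smul_mul_assoc, h1, smul_zero]
  have a4 : e' * e * (e * e') = 0 := by
    rw [← mul_assoc, mul_assoc e' e e, he, mul_smul_comm, smul_mul_assoc, h2, smul_zero]
  simp only [sub_mul, mul_sub, smul_mul_assoc, mul_smul_comm, a1, a2, a3, a4, smul_zero, sub_zero]

private theorem XPar_pow {ν : Matrix (Fin r) (Fin r) ℂ} (h : ν * ν = 0) (m : ℕ) :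
    (1 + ν) ^ m = 1 + (m : ℂ) • ν := by
  induction m with
  | zero => simp
  | succ m ih =>
    rw [pow_succ, ih, mul_add, mul_one, add_mul, one_mul, smul_mul_assoc, h, smul_zero]
    push_cast
    module

/-- elements of finite groups of matrices -/
private theorem XPar_fin {S : Set (GL (Fin r) ℂ)} (h : Finite (Subgroup.closure S))
    {c : GL (Fin r) ℂ} (hc : c ∈ Subgroup.closure S) :
    ∃ m : ℕ, 0 < m ∧ (c : Matrix (Fin r) (Fin r) ℂ) ^ m = 1 := by
  have h1 : IsOfFinOrder (⟨c, hc⟩ : Subgroup.closure S) := isOfFinOrder_of_finite _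
  obtain ⟨m, hm, h2⟩ := isOfFinOrder_iff_pow_eq_one.1 h1
  refine ⟨m, hm, ?_⟩
  have h3 : c ^ m = 1 := congrArg Subtype.val h2
  rw [← Units.val_pow_eq_pow_val, h3, Units.val_one]

private theorem XPar_z {g : GL (Fin r) ℂ} {b : ℂ}
    {e : Matrix (Fin r) (Fin r) ℂ} (hg : (g : Matrix (Fin r) (Fin r) ℂ) = b • (1 + e))
    {t : ℂ} (ht : t = e.trace) (he : e * e = t • e) : 1 + t ≠ 0 := by
  intro h0
  have h1 : (g : Matrix (Fin r) (Fin r) ℂ) * e = 0 := by
    rw [hg, smul_mul_assoc, add_mul, one_mul, he]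
    have h2 : e + t • e = (1 + t) • e := by rw [add_smul, one_smul]
    rw [h2, h0, zero_smul, smul_zero]
  have h2 : e = 0 := by
    have h3 : ((g⁻¹ : GL (Fin r) ℂ) : Matrix (Fin r) (Fin r) ℂ) *
        ((g : Matrix (Fin r) (Fin r) ℂ) * e) = 0 := by rw [h1, mul_zero]
    rwa [← mul_assoc, Units.inv_mul, one_mul] at h3
  rw [ht, h2, Matrix.trace_zero, add_zero] at h0
  exact one_ne_zero h0

/-- **PAR** -/
theorem thm_Par : St_Par := by
  intro r g g' b b' hb hb' hro hro' hfin htr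
  set e : Matrix (Fin r) (Fin r) ℂ := b⁻¹ • (g : Matrix (Fin r) (Fin r) ℂ) - 1 with hedef
  set e' : Matrix (Fin r) (Fin r) ℂ := b'⁻¹ • (g' : Matrix (Fin r) (Fin r) ℂ) - 1 with hedef'
  have hg : (g : Matrix (Fin r) (Fin r) ℂ) = b • (1 + e) := by
    rw [hedef, add_sub_cancel, smul_smul, mul_inv_cancel₀ hb, one_smul]
  have hg' : (g' : Matrix (Fin r) (Fin r) ℂ) = b' • (1 + e') := by
    rw [hedef', add_sub_cancel, smul_smul, mul_inv_cancel₀ hb', one_smul]
  have he : e * e = e.trace • e := by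
    have h := hro 1
    rwa [mul_one] at h
  have he' : e' * e' = e'.trace • e' := by
    have h := hro' 1
    rwa [mul_one] at h
  have h1 : e * e' * e = 0 := by rw [hro e', htr, zero_smul]
  have h2 : e' * e * e' = 0 := by rw [hro' e, Matrix.trace_mul_comm, htr, zero_smul]
  have hz := XPar_z hg rfl he
  have hz' := XPar_z hg' rfl he'
  -- the inverses
  have hi : ((g⁻¹ : GL (Fin r) ℂ) : Matrix (Fin r) (Fin r) ℂ) =
      b⁻¹ • (1 - (1 + e.trace)⁻¹ • e) := by
    refine Units.inv_eq_of_mul_eq_one_right ?_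
    rw [hg, smul_mul_assoc, mul_smul_comm, smul_smul, mul_inv_cancel₀ hb, one_smul]
    exact XPar_mul he rfl hz
  have hi' : ((g'⁻¹ : GL (Fin r) ℂ) : Matrix (Fin r) (Fin r) ℂ) =
      b'⁻¹ • (1 - (1 + e'.trace)⁻¹ • e') := by
    refine Units.inv_eq_of_mul_eq_one_right ?_
    rw [hg', smul_mul_assoc, mul_smul_comm, smul_smul, mul_inv_cancel₀ hb', one_smul]
    exact XPar_mul he' rfl hz'
  have hgm : g ∈ Subgroup.closure ({g, g'} : Set (GL (Fin r) ℂ)) :=
    Subgroup.subset_closure (Set.mem_insert _ _)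
  have hgm' : g' ∈ Subgroup.closure ({g, g'} : Set (GL (Fin r) ℂ)) :=
    Subgroup.subset_closure (Set.mem_insert_of_mem _ rfl)
  obtain ⟨m, hm, hcm⟩ := XPar_fin hfin (c := g * g' * g⁻¹ * g'⁻¹)
    (Subgroup.mul_mem _ (Subgroup.mul_mem _ (Subgroup.mul_mem _ hgm hgm') (Subgroup.inv_mem _ hgm))
      (Subgroup.inv_mem _ hgm'))
  have hcv : ((g * g' * g⁻¹ * g'⁻¹ : GL (Fin r) ℂ) : Matrix (Fin r) (Fin r) ℂ) =
      1 + ((1 + e'.trace)⁻¹ • (e * e') - (1 + e.trace)⁻¹ • (e' * e)) := by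
    rw [← XPar_com he he' h1 h2 rfl hz rfl hz']
    simp only [Units.val_mul]
    rw [hi, hi', hg, hg']
    simp only [smul_mul_assoc, mul_smul_comm, smul_smul]
    have h3 : b'⁻¹ * (b⁻¹ * (b' * b)) = 1 := by field_simp
    rw [h3, one_smul]
  rw [hcv, XPar_pow (XPar_sq _ _ he he' h1 h2)] at hcm
  have hν : (1 + e'.trace)⁻¹ • (e * e') = (1 + e.trace)⁻¹ • (e' * e) := by
    have h3 : (m : ℂ) • ((1 + e'.trace)⁻¹ • (e * e') - (1 + e.trace)⁻¹ • (e' * e)) = 0 := by
      have h4 := hcm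
      rwa [add_eq_left] at h4
    rcases smul_eq_zero.1 h3 with h4 | h4
    · exact absurd (Nat.cast_eq_zero.1 h4) hm.ne'
    · exact sub_eq_zero.1 h4
  -- it is enough to prove that the first product is zero
  have key : e * e' = 0 → e' * e = 0 := by
    intro h3
    rw [h3, smul_zero] at hν
    exact (smul_eq_zero.1 hν.symm).resolve_left (inv_ne_zero hz)
  suffices h : e * e' = 0 from ⟨h, key h⟩
  by_cases ht : e.trace = 0
  · -- unipotent case
    have he0 : e * e = 0 := by rw [he, ht, zero_smul]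
    obtain ⟨k, hk, hgk⟩ := XPar_fin hfin hgm
    rw [hg, smul_pow, XPar_pow he0] at hgk
    have h3 : (b ^ k * (k : ℂ)) • e = (1 - b ^ k) • (1 : Matrix (Fin r) (Fin r) ℂ) := by
      rw [smul_add, smul_smul] at hgk
      rw [sub_smul, one_smul]
      exact eq_sub_of_add_eq' hgk
    have hbk : b ^ k * (k : ℂ) ≠ 0 := mul_ne_zero (pow_ne_zero _ hb) (Nat.cast_ne_zero.2 hk.ne')
    have h4 : ((1 - b ^ k) * (1 - b ^ k)) • (1 : Matrix (Fin r) (Fin r) ℂ) = 0 := by
      have h5 : ((b ^ k * (k : ℂ)) • e) * ((b ^ k * (k : ℂ)) • e) = 0 := by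
        rw [smul_mul_assoc, mul_smul_comm, he0, smul_zero, smul_zero]
      rw [h3, smul_mul_assoc, one_mul, smul_smul] at h5
      exact h5
    rcases smul_eq_zero.1 h4 with h5 | h5
    · have h6 : (1 - b ^ k) = 0 := mul_self_eq_zero.1 h5
      rw [h6, zero_smul] at h3
      rw [(smul_eq_zero.1 h3).resolve_left hbk, zero_mul]
    · rw [← mul_one (e * e'), h5, mul_zero]
  · have h3 : (1 + e'.trace)⁻¹ • (e * (e * e')) = 0 := by
      rw [← mul_smul_comm, hν, mul_smul_comm, ← mul_assoc, h1, smul_zero]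
    have h4 := (smul_eq_zero.1 h3).resolve_left (inv_ne_zero hz')
    rw [← mul_assoc, he, smul_mul_assoc] at h4
    exact (smul_eq_zero.1 h4).resolve_left ht

end

end Pool.Agent.PRS
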