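import Pool.Agent.PRS.Defs

/-!
# Matrices of rank at most one
-/

set_option autoImplicit false

namespace Pool.Agent.PRS

open Matrix Pool.Agent.HZ

variable {r : ℕ}

theorem exists_vecMulVec (M : Matrix (Fin r) (Fin r) ℂ) (h : M.rank ≤ 1) :
    ∃ u f : Fin r → ℂ, M = vecMulVec u f := by
  have h1 : Module.finrank ℂ (LinearMap.range M.mulVecLin) ≤ 1 := h
  obtain ⟨v, hv⟩ := finrank_le_one_iff.1 h1
  choose c hc using fun j : Fin r =>
    hv ⟨M *ᵥ Pi.single j 1, ⟨Pi.single j 1, rfl⟩⟩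
  refine ⟨v, c, ?_⟩
  ext i j
  have h2 := congrArg (fun x : LinearMap.range M.mulVecLin => (x : Fin r → ℂ) i) (hc j)
  simp only [Submodule.coe_smul, Pi.smul_apply, smul_eq_mul, mulVec_single_one, col_apply] at h2
  rw [vecMulVec_apply, ← h2, mul_comm]

/-- a multiple of a pseudo-reflection in coordinates -/
theorem PR_iff (g : GL (Fin r) ℂ) : PR g ↔ ∃ (c : ℂ) (u f : Fin r → ℂ),
    (g : Matrix (Fin r) (Fin r) ℂ) = c • (1 : Matrix (Fin r) (Fin r) ℂ) + vecMulVec u f := by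
  constructor
  · rintro ⟨c, hc⟩
    obtain ⟨u, f, h⟩ := exists_vecMulVec _ hc
    exact ⟨c, u, f, by rw [← h]; abel⟩
  · rintro ⟨c, u, f, h⟩
    refine ⟨c, ?_⟩
    rw [h, add_sub_cancel_left]
    exact rank_vecMulVec_le u f

theorem PR_conj (g h : GL (Fin r) ℂ) (hg : PR g) : PR (h⁻¹ * g * h) := by
  rw [PR_iff] at hg ⊢
  obtain ⟨c, u, f, e⟩ := hg
  refine ⟨c, ((h⁻¹ : GL (Fin r) ℂ) : Matrix (Fin r) (Fin r) ℂ) *ᵥ u,
    f ᵥ* (h : Matrix (Fin r) (Fin r) ℂ), ?_⟩
  have h1 : ((h⁻¹ : GL (Fin r) ℂ) : Matrix (Fin r) (Fin r) ℂ) * (h : Matrix (Fin r) (Fin r) ℂ) =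
      1 := by
    rw [← Units.val_mul, inv_mul_cancel, Units.val_one]
  rw [Units.val_mul, Units.val_mul, e, mul_add, add_mul, mul_smul_comm, mul_one, smul_mul_assoc, h1,
    mul_vecMulVec, vecMulVec_mul]

theorem PR_conj' (g h : GL (Fin r) ℂ) (hg : PR g) : PR (h * g * h⁻¹) := by
  have h1 := PR_conj g h⁻¹ hg
  rwa [inv_inv] at h1

/-- the entries of the lists in the orbit -/
theorem PR_of_move {G : Type} [Group G] (ρ : G →* GL (Fin r) ℂ) {L L' : List G}
    (h : BMove L L') (hL : ∀ y ∈ L, PR (ρ y)) : ∀ y ∈ L', PR (ρ y) := by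
  cases h with
  | r P S a b =>
    intro y hy
    simp only [List.mem_append, List.mem_cons] at hy
    rcases hy with hy | rfl | rfl | hy
    · exact hL y (by simp [hy])
    · exact hL y (by simp)
    · rw [map_mul, map_mul, map_inv]
      exact PR_conj _ _ (hL a (by simp))
    · exact hL y (by simp [hy])
  | l P S a b =>
    intro y hy
    simp only [List.mem_append, List.mem_cons] at hy
    rcases hy with hy | rfl | rfl | hy
    · exact hL y (by simp [hy])
    · rw [map_mul, map_mul, map_inv]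
      exact PR_conj' _ _ (hL b (by simp))
    · exact hL y (by simp)
    · exact hL y (by simp [hy])

theorem PR_of_reach {G : Type} [Group G] (ρ : G →* GL (Fin r) ℂ) {L L' : List G}
    (h : BReach L L') (hL : ∀ y ∈ L, PR (ρ y)) : ∀ y ∈ L', PR (ρ y) := by
  induction h with
  | refl => exact hL
  | tail _ hs ih => exact PR_of_move ρ hs ih

theorem PR_of_pre {G : Type} [Group G] (ρ : G →* GL (Fin r) ℂ) {L L' : List G}
    (h : Pre L L') (hL : ∀ y ∈ L, PR (ρ y)) : ∀ y ∈ L', PR (ρ y) := by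
  obtain ⟨B, hB⟩ := h
  intro y hy
  exact PR_of_reach ρ hB hL y (by simp [hy])

theorem PR_std {n : ℕ} (ρ : FreeGroup (Fin n) →* GL (Fin r) ℂ)
    (h : ∀ i, PR (ρ (FreeGroup.of i))) : ∀ y ∈ std n, PR (ρ y) := by
  intro y hy
  obtain ⟨i, _, rfl⟩ := List.mem_map.1 hy
  exact h i

end Pool.Agent.PRS
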