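import Pool.Agent.PRS.XB
import Pool.Agent.PRS.Rk

/-!
# One arbitrary generator: statements, third part (representations of the free group)

Paper: GC_PRX_h20.md in the store.  The free group on `x_0, ..., x_n`, `n ≥ 1`; `ρ x_1, ..., ρ x_n`
are multiples of pseudo-reflections, `ρ x_0` is arbitrary.
-/

set_option autoImplicit false

namespace Pool.Agent.PRS

open Matrix Pool.Agent.HZ
open scoped ComplexOrder

/-- the generators `x_1, ..., x_n` -/
def sT (n : ℕ) : List (FreeGroup (Fin (n + 1))) :=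
  (List.finRange n).map fun i => FreeGroup.of i.succ

/-- the tuples `(a; N)` reachable from `(x_0; x_1, ..., x_n)` -/
def RF (n : ℕ) (a : FreeGroup (Fin (n + 1))) (N : List (FreeGroup (Fin (n + 1)))) : Prop :=
  RP (FreeGroup.of 0) (sT n) a N

/-- the hypothesis on the pairs of pants one hole of which is one of the punctures different from
the puncture of `x_0` -/
def PantsX {n r : ℕ} (ρ : FreeGroup (Fin (n + 1)) →* GL (Fin r) ℂ) : Prop :=
  ∀ (A B : List (FreeGroup (Fin (n + 1)))) (y : FreeGroup (Fin (n + 1))),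
    BReach (std (n + 1)) (A ++ y :: B) →
    (∃ i : Fin (n + 1), i ≠ 0 ∧ ∃ h, y = h * FreeGroup.of i * h⁻¹) →
    (ρ '' (Subgroup.closure {A.prod, y} : Subgroup (FreeGroup (Fin (n + 1))))).Finite

/-- the hypotheses of the theorem -/
def HX (n r : ℕ) (ρ : FreeGroup (Fin (n + 1)) →* GL (Fin r) ℂ) : Prop :=
  (∀ i : Fin (n + 1), i ≠ 0 → PR (ρ (FreeGroup.of i))) ∧ PantsX ρ

/-- **BAS**.  The consequences of the hypotheses which are used.
(1) loops: all simple loops have eigenvalues with `M`-th power one.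
PROOF. Write the loop as `A.prod`, `A ++ B` in the orbit.  Exactly one entry of `A ++ B` is a
conjugate of `x_0` (`reach_conj`-like; each entry is a conjugate of a generator).  `A = []`: trivial.
`A = A' ++ [y]`, `y` not a conjugate of `x_0`: `PantsX` for `A', y`.  If `y` is a conjugate of `x_0`
and `A' = A'' ++ [y']`: the move `(y', y) → (y' y y'⁻¹, y')` does not change the product, and now the
last entry is a conjugate of `x_i`, `i ≠ 0`.  If `A = [y]`, `B = y' :: B'` (`n ≥ 1`) and `PantsX` for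
`[y]`, `y'` shows that `ρ y` has finite order.  The common exponent: `exists_exponent`
(HZ/RedE) as in `good_of_pants` of PRS/IRR.lean.
(2) reachable tuples: `RF n a N` implies that `a` and the entries of `N` are letters, the entries of
`N` are conjugates of `x_i`, `i ≠ 0` (so `PR`), `a` is a conjugate of `x_0`; `(a * N.prod)` and
`N.prod` and (for `N' ++ [y] = N`) are simple loops.  `Rch.breach`, `std (n+1) = x_0 :: sT n`; for
`N.prod`: `Rch` gives `a :: N ++ T` in the orbit, move `a` to the right over `N` (`pass_right`).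
(3) pairs: `RF n a (y :: y' :: N)` implies that the image of `closure {y, y'}` is finite (move `a` to
the right over `y, y'` and use `PantsX` with `A = [y]`), and `RF n a (N' ++ [y])` implies that the
image of `closure {a * N'.prod, y}` is finite (`PantsX` with `A = a :: N'`). -/
def St_Bas : Prop := ∀ (n r : ℕ) (ρ : FreeGroup (Fin (n + 1)) →* GL (Fin r) ℂ), 0 < n → HX n r ρ →
    (∃ M > 0, ∀ γ, IsSimpleLoop γ → ∀ x : ℂ,
      (ρ γ : Matrix (Fin r) (Fin r) ℂ).charpoly.IsRoot x → x ^ M = 1) ∧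
    (∀ (a : FreeGroup (Fin (n + 1))) (N : List (FreeGroup (Fin (n + 1)))), RF n a N →
      (∀ y ∈ N, PR (ρ y) ∧ IsSimpleLoop y) ∧ IsSimpleLoop a ∧
      IsSimpleLoop (a * N.prod) ∧ IsSimpleLoop N.prod) ∧
    (∀ (a y y' : FreeGroup (Fin (n + 1))) (N : List (FreeGroup (Fin (n + 1)))),
      RF n a (y :: y' :: N) →
      (ρ '' (Subgroup.closure {y, y'} : Subgroup (FreeGroup (Fin (n + 1))))).Finite) ∧
    ∀ (a : FreeGroup (Fin (n + 1))) (N : List (FreeGroup (Fin (n + 1))))
      (y : FreeGroup (Fin (n + 1))), RF n a (N ++ [y]) →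
      (ρ '' (Subgroup.closure {a * N.prod, y} : Subgroup (FreeGroup (Fin (n + 1))))).Finite

/-- **PAR**.  Two multiples of pseudo-reflections generating a finite group with
`tr (e e') = 0`: then `e e' = e' e = 0`.
PROOF. `e² = t e`, `e'² = t' e'`, `e e' e = 0 = e' e e'`, `z = 1 + t`, `z' = 1 + t'` (not zero since
`1 + e = b⁻¹ g` is invertible: if `z = 0` then `e (1 + e) = 0`, so `e = 0` and `z = 1`).  The
commutator `g g' g⁻¹ g'⁻¹ = (1 + e)(1 + e')(1 - z⁻¹ e)(1 - z'⁻¹ e') = 1 + ν`,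
`ν = z'⁻¹ e e' - z⁻¹ e' e`, and `ν² = 0`.  It has finite order, so `(1 + ν)^m = 1 + m ν = 1`, `ν = 0`,
`z'⁻¹ e e' = z⁻¹ e' e`.  Multiply with `e` from the left: `t z'⁻¹ e e' = 0`.  If `t = 0` then
`e² = 0`, and `g^m = 1` gives `1 + m e = b^(-m)`, so `e` is a scalar with square zero, `e = 0`.
So `e e' = 0` and `e' e = 0`. -/
def St_Par : Prop := ∀ (r : ℕ) (g g' : GL (Fin r) ℂ) (b b' : ℂ), b ≠ 0 → b' ≠ 0 →
    RO (b⁻¹ • (g : Matrix (Fin r) (Fin r) ℂ) - 1) → RO (b'⁻¹ • (g' : Matrix (Fin r) (Fin r) ℂ) - 1) →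
    Finite (Subgroup.closure {g, g'} : Subgroup (GL (Fin r) ℂ)) →
    ((b⁻¹ • (g : Matrix (Fin r) (Fin r) ℂ) - 1) *
      (b'⁻¹ • (g' : Matrix (Fin r) (Fin r) ℂ) - 1)).trace = 0 →
    (b⁻¹ • (g : Matrix (Fin r) (Fin r) ℂ) - 1) * (b'⁻¹ • (g' : Matrix (Fin r) (Fin r) ℂ) - 1) = 0 ∧
    (b'⁻¹ • (g' : Matrix (Fin r) (Fin r) ℂ) - 1) * (b⁻¹ • (g : Matrix (Fin r) (Fin r) ℂ) - 1) = 0

/-- **PAIR**.  Two representations with the same traces of (the powers of) the simple loops.
PROOF. `St_Uq` with `R = ℂ × ℂ`, `S` = the pairs `(t, t)`, `ρ y` = the matrix with the entries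
`(ρ₁ y i j, ρ₂ y i j)` (see `DUA_rep` in DUA.lean), `c y = ((b y)⁻¹, (b y)⁻¹)`, `c' y = (b y, b y)`,
`z y = 1 + tr (el y)`, `z' y` its inverse.  Letters: `tr ρ₁ y = tr ρ₂ y` (`N = [y]`, a sublist of a
reachable list), so the traces of `el y` agree.  `par`: `St_Par` in both coordinates (the trace of
`el y * el y'` is zero in both).  The group generated by `x_0` and `sT n` is everything. -/
def St_Pair : Prop := ∀ (n r : ℕ) (ρ₁ ρ₂ : FreeGroup (Fin (n + 1)) →* GL (Fin r) ℂ)
    (b : FreeGroup (Fin (n + 1)) → ℂ), (∀ x y, b (y⁻¹ * x * y) = b x) →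
    (∀ (a : FreeGroup (Fin (n + 1))) (N : List (FreeGroup (Fin (n + 1)))), RF n a N →
      ∀ y ∈ N, b y ≠ 0 ∧
      1 + ((b y)⁻¹ • (ρ₁ y : Matrix (Fin r) (Fin r) ℂ) - 1).trace ≠ 0 ∧
      RO ((b y)⁻¹ • (ρ₁ y : Matrix (Fin r) (Fin r) ℂ) - 1) ∧
      RO ((b y)⁻¹ • (ρ₂ y : Matrix (Fin r) (Fin r) ℂ) - 1)) →
    (∀ (a : FreeGroup (Fin (n + 1))) (N : List (FreeGroup (Fin (n + 1)))), RF n a N →
      (∀ k : ℤ, (ρ₁ ((a * N.prod) ^ k) : Matrix (Fin r) (Fin r) ℂ).trace =
        (ρ₂ ((a * N.prod) ^ k) : Matrix (Fin r) (Fin r) ℂ).trace) ∧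
      (ρ₁ N.prod : Matrix (Fin r) (Fin r) ℂ).trace = (ρ₂ N.prod : Matrix (Fin r) (Fin r) ℂ).trace) →
    (∀ (a y y' : FreeGroup (Fin (n + 1))) (N : List (FreeGroup (Fin (n + 1)))),
      RF n a (y :: y' :: N) → Finite (Subgroup.closure {ρ₁ y, ρ₁ y'} : Subgroup (GL (Fin r) ℂ)) ∧
      Finite (Subgroup.closure {ρ₂ y, ρ₂ y'} : Subgroup (GL (Fin r) ℂ))) →
    ∀ w, (ρ₁ w : Matrix (Fin r) (Fin r) ℂ).trace = (ρ₂ w : Matrix (Fin r) (Fin r) ℂ).trace

/-- **DUX**.  The character is equal to the character of the conjugate dual.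
PROOF. `St_Pair` with `ρ₁ = ρ`, `ρ₂ = DUA_du ∘ ρ` (`g ↦ (g⁻¹)ᴴ`), `b y = lam (ρ y)` (`St_Lam`; a
root of unity for letters).  `RO` for `ρ₂`: with `e = b⁻¹ ρ y - 1`, `b⁻¹ (ρ y⁻¹)ᴴ - 1 = - conj (z⁻¹) eᴴ`
as `conj b = b⁻¹` (see DUA.lean).  The eigenvalues of the powers of the simple loops are roots of
unity, so the trace of the inverse is the conjugate of the trace (DUA.lean).  Finiteness: images of
finite sets. -/
def St_Dux : Prop := ∀ (n r : ℕ) (ρ : FreeGroup (Fin (n + 1)) →* GL (Fin r) ℂ), 0 < n → HX n r ρ →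
    ∀ w, (ρ w⁻¹ : Matrix (Fin r) (Fin r) ℂ).trace = star (ρ w : Matrix (Fin r) (Fin r) ℂ).trace

/-- **GAX**.  The traces are fixed by the automorphisms of `ℂ` which fix the `M`-th roots of unity.
PROOF. `St_Pair` with `ρ₁ = ρ`, `ρ₂ = gal σ ρ` (IRR.lean), `b y = lam (ρ y)`, which for letters is an
`M`-th root of unity, so `σ (b y) = b y` and the rank one part of `ρ₂ y` is the image of that of
`ρ₁ y`.  The traces of the powers of the simple loops are sums of `M`-th roots of unity, so fixed by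
`σ`. -/
def St_Gax : Prop := ∀ (n r M : ℕ) (ρ : FreeGroup (Fin (n + 1)) →* GL (Fin r) ℂ), 0 < n →
    HX n r ρ → 0 < M → (∀ γ, IsSimpleLoop γ → ∀ x : ℂ,
      (ρ γ : Matrix (Fin r) (Fin r) ℂ).charpoly.IsRoot x → x ^ M = 1) →
    ∀ σ : RingAut ℂ, (∀ x : ℂ, x ^ M = 1 → σ x = x) →
    ∀ w, σ (ρ w : Matrix (Fin r) (Fin r) ℂ).trace = (ρ w : Matrix (Fin r) (Fin r) ℂ).trace

/-- **INX**.  The traces are algebraic integers.
PROOF. `St_Int` for `A = ρ x_0` and `1 + u_i ⊗ f_i = (b_i)⁻¹ ρ x_(i+1)`, `b_i = lam (ρ x_(i+1))`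
(`exists_vecMulVec`: rank one; `St_Lam` gives the rank one identity, which implies rank at most one;
or take `c, u, f` from `PR_iff`): the hypotheses hold because `x_0` and the products
`x_0 x_(i_1) ... x_(i_k)` in increasing order are simple loops (`Pre.sublist`), the `b_i` are roots
of unity, `f_i · u_i + 1` is `0`-free root of unity or `1`.  Then `St_KW`
(`S = integralClosure ℤ ℂ` as a subring): the words of `KX` are the words of `St_Int` (put `a^j` into
the first exponent, the empty word is a power of a simple loop). -/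
def St_Inx : Prop := ∀ (n r : ℕ) (ρ : FreeGroup (Fin (n + 1)) →* GL (Fin r) ℂ), 0 < n → HX n r ρ →
    ∀ w, IsIntegral ℤ (ρ w : Matrix (Fin r) (Fin r) ℂ).trace

/-- **POX**.  The invariant Hermitian form is definite.  `a` is arbitrary, the entries of `L` are
multiples of pseudo-reflections; `(a; L)` generates an irreducible group preserving `H`; the
hypothesis (1) is about the pairs of pants, (2) about the pairs of letters.
PROOF. (Compare POS.lean; `h (v, w) = star v ⬝ᵥ H *ᵥ w`.)  `y_i = b_i (1 + u_i ⊗ f_i)`, `I` = the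
letters which are not scalar.
(0) If `I` is empty then the group is generated by `a` and scalars, so `r = 1` by irreducibility (an
eigenvector of `a`), and a nonzero real `1 × 1` matrix is definite.  Otherwise (`I ≠ ∅`) `a` has
finite order by (1) with `A = []`.  For `k ∈ I`: `h (u_k, .) = κ_k f_k`, `κ_k ≠ 0`, `f_k u_k ≠ 0`,
`h (u_k, u_k) ≠ 0`, for every form preserved by `y_k` (POS.lean).  The span of the `A^m u_k`,
`m ∈ ℤ`, `k ∈ I`, is stable under the group, so it is everything (`A` = the matrix `a`).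
(1) `orbit_sign` (PosA.lean): for `A' ++ [y_k]` a sublist, `K` the finite group generated by
`a A'.prod` and `y_k`: on the span of `K u_k` the form `h` has the sign of `h (u_k, u_k)`.
(2) SIGNS.  `i < k` in `L` and `f_i A^m u_k ≠ 0` for some `m ∈ ℤ`.  Put `y' = y_i y_k y_i⁻¹`,
`g = a y'`, `u' = y_i u_k`: `f_i g^m u' ≠ 0` for some `m`: otherwise `f_i A^m u' = 0` for all `m` by
the induction in `St_Zz` (`g = a b (1 + u' ⊗ f')`), with `m = 0`: `f_i u' = z_i f_i u_k = 0` up to a
unit, so `f_i u_k = 0`, so `u' = b_i u_k` and `f_i A^m u_k = 0` for all `m`, contradiction.  Now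
`y'' = g^m y' g^-m` has the vector `u'' = g^m u'`, `f_i u'' ≠ 0`, the group `K` generated by `y''` and
`y_i` is finite (2); it contains ... `y_i u'' = b_i (u'' + (f_i u'') u_i)`, so `u_i` is in the span
of `K u''` and the signs of `h (u_i, u_i)` and `h (u'', u'') = h (u_k, u_k)` agree.  (For `k < i` use
`h (A^m u_k, u_i) = h (u_k, A^-m u_i)`: `f_i A^m u_k ≠ 0 ↔ f_k A^-m u_i ≠ 0`.)  If both signs occur
then the span of the `A^m u_i` with sign `+` is stable, not zero and orthogonal to the `u_j` with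
sign `-`, contradiction.  After a change of sign of `H` all `h (u_i, u_i) > 0`.
(3) For a beginning `J` of `L` the form is positive definite on `V_J`, the span of the `A^m u_j`,
`j ∈ J`; induction: `J = J' ++ [k]`.  `V_J'` and `V_J'^⊥` are `A`-stable, `ℂ^r` is their sum; write
`v'` for the component of `v` in `V_J'^⊥`.  `A` is diagonalisable (finite order `N`); let `P_α` be
the projection on the `α`-eigenspace, a polynomial in `A`.  `V_J` is the sum of `V_J'` and the span
of the `P_α u_k'`, which are orthogonal to each other (`A` is unitary for `h`) and to `V_J'`; so it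
is enough that `h (P_α u_k', P_α u_k') > 0` if it is not zero.
The `α`-eigenspace `E` of `A` in `V_J'` is spanned by the `P_α u_j`, `j ∈ J'`; choose a sublist `S`
of `J'` such that the `P_α u_j`, `j ∈ S`, are a basis of `E`.  Let `C = A * (S.map (1 + e_j)).prod`
(a multiple of `a * S.prod`, of finite order up to scalars).  `C v = A v` for `v ∈ V_J'^⊥`
(`f_j v = 0`).  `α` is not an eigenvalue of `C` on `V_J'`: if `C v = α v`, `v ∈ V_J'`, then
`(A - α) v = - ∑_j g_j A u_j` with `∑_j u_j g_j = ((S.map (1 + e_j)).prod - 1) v`; apply `P_α`: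
`0 = ∑ g_j α P_α u_j`, so all `g_j = 0`, so `f_j v = 0` for `j ∈ S` (last one first) and `A v = α v`,
`v ∈ E`; `h (P_α u_j, v) = h (u_j, P_α v) = h (u_j, v) = 0`, so `v` is orthogonal to `E`, on which `h`
is positive definite: `v = 0`.  So with `Q_α` the projection on the `α`-eigenspace of `C`
(`C` is diagonalisable: a multiple of an element of finite order), which is a polynomial in `C`:
`Q_α u_k = Q_α u_k' + Q_α (V_J'-component) = P_α u_k' + 0`.  So `P_α u_k'` is in the span of the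
`C^m u_k`, contained in the span of `K u_k`, `K` generated by `a S.prod` and `y_k`, and by (1)
`h (P_α u_k', P_α u_k') > 0` if it is not zero. -/
def St_Pox : Prop := ∀ (r : ℕ) (a : GL (Fin r) ℂ) (L : List (GL (Fin r) ℂ))
    (H : Matrix (Fin r) (Fin r) ℂ), 0 < r →
    Irr (Subgroup.closure ({a} ∪ {x | x ∈ L})) → (∀ y ∈ L, PR y) →
    (∀ (A : List (GL (Fin r) ℂ)) (y : GL (Fin r) ℂ), (A ++ [y]).Sublist L →
      Finite (Subgroup.closure {a * A.prod, y} : Subgroup (GL (Fin r) ℂ))) →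
    (∀ (y y' : GL (Fin r) ℂ) (m : ℤ), [y, y'].Sublist L →
      Finite (Subgroup.closure {(a * (y * y' * y⁻¹)) ^ m * (y * y' * y⁻¹) *
        ((a * (y * y' * y⁻¹)) ^ m)⁻¹, y} : Subgroup (GL (Fin r) ℂ))) →
    H.IsHermitian → IsUnit H →
    (a : Matrix (Fin r) (Fin r) ℂ)ᴴ * H * (a : Matrix (Fin r) (Fin r) ℂ) = H →
    (∀ y ∈ L, (y : Matrix (Fin r) (Fin r) ℂ)ᴴ * H * (y : Matrix (Fin r) (Fin r) ℂ) = H) →
    ∃ s : ℝ, ((s : ℂ) • H).PosDef

/-- **BDX**.  The traces of an irreducible representation are bounded by the rank.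
PROOF. As `trace_le` in IRR.lean: `St_Dux`, `St_Her`, `St_Pox` for `a = ρ x_0`, `L = (sT n).map ρ`
(a sublist of `L` is the image of a sublist of `sT n`, which is reachable: `RP.sublist`; (1) and (2)
from `St_Bas`: for (2) `(x_0; y, y') → (x_0; y y' y⁻¹, y) → ztwist m`), `St_Uni`. -/
def St_Bdx : Prop := ∀ (n r : ℕ) (ρ : FreeGroup (Fin (n + 1)) →* GL (Fin r) ℂ), 0 < n → HX n r ρ →
    0 < r → Irr ρ.range → ∀ w, ‖(ρ w : Matrix (Fin r) (Fin r) ℂ).trace‖ ≤ r

/-- **IRX**.  Irreducible representations.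
PROOF. As `thm_Irr`: all traces `t` of `ρ` are algebraic integers (`St_Inx`), `‖σ t‖ ≤ r` for all
`σ ∈ Aut ℂ` (`St_Bdx` for `gal σ ρ`, which satisfies the same hypotheses: `gal_PR`, `gal_irr`), and
the number of conjugates is at most `M`: `σ t` depends only on the `M`-th root of unity `σ ζ`,
`ζ = exp (2 π i / M)` (`St_Gax` for `τ⁻¹ σ`).  `St_Krx`: finitely many; `St_Tra` for the powers of
`ρ w`. -/
def St_Irx : Prop := ∀ (n r : ℕ) (ρ : FreeGroup (Fin (n + 1)) →* GL (Fin r) ℂ), 0 < n → HX n r ρ →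
    0 < r → Irr ρ.range → ∀ w, Quasi (ρ w)

/-- **THX**.  The theorem, for an arbitrary special generator.
PROOF. `i₀ = 0`: `quasi_of_sub` (RED.lean) with `Q = HX n`, `PR_sub`, `finite_sub`, `St_Irx`
(`m = n + 1`).  General `i₀`: write `std m = P ++ x_(i₀) :: Q`; `move_left` gives the list
`L' = x_(i₀) :: P.map (conjugation) ++ Q` in the orbit, `exists_braid` an endomorphism `β` with
`(std m).map β = L'`, which is surjective (`BReach.closure_eq`).  Apply the theorem to `ρ ∘ β`: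
`β x_0 = x_(i₀)`, `β x_j` is a conjugate of some `x_i`, `i ≠ i₀`, for `j ≠ 0`; the orbit of `std m`
is mapped by `β` into the orbit (`BReach.map`). -/
def St_Thx : Prop := ∀ (m r : ℕ) (ρ : FreeGroup (Fin m) →* GL (Fin r) ℂ) (i₀ : Fin m), 2 ≤ m →
    (∀ i, i ≠ i₀ → PR (ρ (FreeGroup.of i))) →
    (∀ (A B : List (FreeGroup (Fin m))) (y : FreeGroup (Fin m)),
      BReach (std m) (A ++ y :: B) → (∃ i, i ≠ i₀ ∧ ∃ h, y = h * FreeGroup.of i * h⁻¹) →
      (ρ '' (Subgroup.closure {A.prod, y} : Subgroup (FreeGroup (Fin m)))).Finite) →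
    ∀ w, Quasi (ρ w)

end Pool.Agent.PRS
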