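import Pool.Agent.PRS.POSX
import Pool.Agent.PRS.StX3

/-!
# Definiteness with one arbitrary generator, the form of StX3
-/

set_option autoImplicit false

namespace Pool.Agent.PRS

open Matrix Pool.Agent.HZ
open scoped ComplexOrder

/-- **POX** (proved in PosA - PosE, POSX) -/
theorem thm_Pox : St_Pox := by
  intro r a L H hr hirr hPR hfin hfin2 hH hU ha hiso
  refine thm_POSX r a L H hr hirr hPR hfin (fun y y' m hy => ?_) hH hU ha hiso
  have h1 := hfin2 y y' (m : ℤ) hy
  rw [zpow_natCast] at h1
  exact h1

end Pool.Agent.PRS
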