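import Pool.Agent.PRS.StX1

/-!
# Three letter words from the rank one identities
-/

set_option autoImplicit false

namespace Pool.Agent.PRS

open Matrix Pool.Agent.HZ

variable {R : Type} [CommRing R] {r : ℕ}

/-- a word with the two letters `a`, `b` splits -/
private theorem XThree_split {a b : Matrix (Fin r) (Fin r) R} (ha : RO a) (hb : RO b)
    (X Y : Matrix (Fin r) (Fin r) R) :
    (a * X * b * Y).trace * (a * b).trace = (a * X * b).trace * (a * b * Y).trace := by
  have h1 : a * b * a = (a * b).trace • a := ha b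
  have h2 : b * (a * X) * b = (b * (a * X)).trace • b := hb (a * X)
  have h3 : (b * (a * X)).trace = (a * X * b).trace := Matrix.trace_mul_comm _ _
  calc (a * X * b * Y).trace * (a * b).trace
      = (((a * b).trace • a) * X * b * Y).trace := by
        rw [smul_mul_assoc, smul_mul_assoc, smul_mul_assoc, Matrix.trace_smul, smul_eq_mul,
          mul_comm]
    _ = (a * (b * (a * X) * b) * Y).trace := by
        rw [← h1]
        simp only [mul_assoc]
    _ = (a * X * b).trace * (a * b * Y).trace := by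
        rw [h2, h3, mul_smul_comm, smul_mul_assoc, Matrix.trace_smul, smul_eq_mul]

/-- the relation for a letter moved around another one, expanded -/
private theorem XThree_exp {a b : Matrix (Fin r) (Fin r) R} (hb : RO b) (z : R)
    (X : Matrix (Fin r) (Fin r) R) :
    (X * ((1 - z • b) * a * (1 + b))).trace = (X * a).trace + (X * a * b).trace -
      z * (X * b * a).trace - z * ((b * a).trace * (X * b).trace) := by
  have h1 : b * a * b = (b * a).trace • b := hb a
  have h2 : X * ((1 - z • b) * a * (1 + b)) = X * a + X * a * b - z • (X * b * a) -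
      z • (X * (b * a * b)) := by
    simp only [sub_mul, mul_add, mul_sub, one_mul, mul_one, smul_mul_assoc,
      mul_smul_comm, mul_assoc]
    abel
  rw [h2, h1, mul_smul_comm]
  simp only [Matrix.trace_sub, Matrix.trace_add, Matrix.trace_smul, smul_eq_mul]

/-- division by an invertible element -/
private theorem XThree_div {S : Subring R} (hS : ∀ s ∈ S, s ≠ 0 → ∃ t ∈ S, s * t = 1) {x p : R}
    (hp : p ∈ S) (hp0 : p ≠ 0) (hx : x * p ∈ S) : x ∈ S := by
  obtain ⟨t, ht, h1⟩ := hS p hp hp0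
  have h2 := S.mul_mem hx ht
  rwa [mul_assoc, h1, mul_one] at h2

/-- rotation of a word -/
private theorem XThree_rot {P Q : Matrix (Fin r) (Fin r) R} (U V : Matrix (Fin r) (Fin r) R)
    (h1 : P = U * V) (h2 : Q = V * U) : P.trace = Q.trace := by
  rw [h1, h2, Matrix.trace_mul_comm]

theorem thm_Three : St_Three := by
  intro R _ r S A e₁ e₂ e₃ z₂ z₂' h₁ h₂ h₃ hS hz hz' hzz h12 hor h13 h23 H12 H13 H23 HR Hp Hn
  obtain ⟨B, hB⟩ : ∃ B : ℤ → Matrix (Fin r) (Fin r) R,
    ∀ i, ((A ^ i : GL (Fin r) R) : Matrix (Fin r) (Fin r) R) = B i := ⟨_, fun i => rfl⟩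
  have hB0 : B 0 = 1 := by rw [← hB, zpow_zero, Units.val_one]
  simp only [hB] at H12 H13 H23 HR ⊢
  clear hB
  -- the traces of two letter words
  have B12 : ∀ i : ℤ, (e₁ * B i * e₂).trace ∈ S := fun i => by
    have h := H12 i 0
    rwa [hB0, mul_one] at h
  have B13 : ∀ i : ℤ, (e₁ * B i * e₃).trace ∈ S := fun i => by
    have h := H13 i 0
    rwa [hB0, mul_one] at h
  have B23 : ∀ i : ℤ, (e₂ * B i * e₃).trace ∈ S := fun i => by
    have h := H23 i 0
    rwa [hB0, mul_one] at h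
  have B21 : ∀ i : ℤ, (e₂ * B i * e₁).trace ∈ S := fun i => by
    have h := H12 0 i
    rw [hB0, mul_one] at h
    rw [XThree_rot (e₂ * B i) e₁ rfl (Q := e₁ * e₂ * B i) (mul_assoc _ _ _)]
    exact h
  have B31 : ∀ i : ℤ, (e₃ * B i * e₁).trace ∈ S := fun i => by
    have h := H13 0 i
    rw [hB0, mul_one] at h
    rw [XThree_rot (e₃ * B i) e₁ rfl (Q := e₁ * e₃ * B i) (mul_assoc _ _ _)]
    exact h
  have B32 : ∀ i : ℤ, (e₃ * B i * e₂).trace ∈ S := fun i => by
    have h := H23 0 i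
    rw [hB0, mul_one] at h
    rw [XThree_rot (e₃ * B i) e₂ rfl (Q := e₂ * e₃ * B i) (mul_assoc _ _ _)]
    exact h
  have p12 : (e₁ * e₂).trace ∈ S := by
    have h := B12 0
    rwa [hB0, mul_one] at h
  have p13 : (e₁ * e₃).trace ∈ S := by
    have h := B13 0
    rwa [hB0, mul_one] at h
  have p23 : (e₂ * e₃).trace ∈ S := by
    have h := B23 0
    rwa [hB0, mul_one] at h
  have p21 : (e₂ * e₁).trace ∈ S := by
    have h := B21 0
    rwa [hB0, mul_one] at h
  have e21 : (e₂ * e₁).trace = (e₁ * e₂).trace := Matrix.trace_mul_comm _ _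
  have e31 : (e₃ * e₁).trace = (e₁ * e₃).trace := Matrix.trace_mul_comm _ _
  have e32 : (e₃ * e₂).trace = (e₂ * e₃).trace := Matrix.trace_mul_comm _ _
  -- the relations
  have HR1 : ∀ i : ℤ, (B i * e₃ * ((1 - z₂ • e₂) * e₁ * (1 + e₂))).trace ∈ S := fun i => by
    have h := HR i 0
    rwa [hB0, mul_one] at h
  have HR2 : ∀ i : ℤ, (e₃ * B i * ((1 - z₂ • e₂) * e₁ * (1 + e₂))).trace ∈ S := fun i => by
    have h := HR 0 i
    rwa [hB0, one_mul] at h
  -- the words `e₁ e₂ B_j e₃` and `e₁ e₂ e₃ B_k`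
  have F1 : ∀ j : ℤ, (e₁ * e₂ * (B j * e₃)).trace ∈ S := by
    intro j
    by_cases h0 : (e₂ * e₃).trace = 0
    · obtain ⟨-, h1⟩ := h23 h0
      have h2 := HR1 j
      rw [XThree_exp h₂] at h2
      have h3 : B j * e₃ * e₂ = 0 := by rw [mul_assoc, h1, mul_zero]
      rw [h3, zero_mul, Matrix.trace_zero, mul_zero, mul_zero, mul_zero, sub_zero, sub_zero] at h2
      have h4 : (B j * e₃ * e₁).trace = (e₁ * B j * e₃).trace :=
        XThree_rot (B j * e₃) e₁ rfl (mul_assoc _ _ _)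
      have h5 : (B j * e₃ * e₁ * e₂).trace = (e₁ * e₂ * (B j * e₃)).trace :=
        XThree_rot (B j * e₃) (e₁ * e₂) (mul_assoc _ _ _) rfl
      rw [h4, h5] at h2
      have h6 := S.sub_mem h2 (B13 j)
      rwa [add_sub_cancel_left] at h6
    · refine XThree_div hS p23 h0 ?_
      have h1 : (e₁ * e₂ * (B j * e₃)).trace = (e₂ * B j * e₃ * e₁).trace :=
        XThree_rot e₁ (e₂ * B j * e₃) (by simp only [mul_assoc]) rfl
      have h2 : (e₂ * e₃ * e₁).trace = (e₁ * e₂ * e₃).trace :=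
        XThree_rot (e₂ * e₃) e₁ rfl (mul_assoc _ _ _)
      rw [h1, XThree_split h₂ h₃ (B j) e₁, h2]
      exact S.mul_mem (B23 j) Hp
  have F2 : (e₁ * e₃).trace = 0 → ∀ k : ℤ, (e₁ * e₂ * (e₃ * B k)).trace ∈ S := by
    intro h0 k
    obtain ⟨h1, -⟩ := h13 h0
    have h2 := HR2 k
    rw [XThree_exp h₂] at h2
    have h3 : (e₃ * B k * e₂ * e₁).trace = 0 := by
      rw [XThree_rot (e₃ * B k * e₂) e₁ rfl (Q := e₁ * e₃ * (B k * e₂))
        (by simp only [mul_assoc]), h1, zero_mul, Matrix.trace_zero]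
    have h4 : (e₃ * B k * e₁).trace = 0 := by
      rw [XThree_rot (e₃ * B k) e₁ rfl (Q := e₁ * e₃ * B k)
        (mul_assoc _ _ _), h1, zero_mul, Matrix.trace_zero]
    have h5 : (e₃ * B k * e₁ * e₂).trace = (e₁ * e₂ * (e₃ * B k)).trace :=
      XThree_rot (e₃ * B k) (e₁ * e₂) (mul_assoc _ _ _) rfl
    rw [h3, h4, h5, zero_add, mul_zero, sub_zero] at h2
    have h6 := S.add_mem h2 (S.mul_mem hz (S.mul_mem p21 (B32 k)))
    rwa [sub_add_cancel] at h6
  have G1 : ∀ i : ℤ, (e₂ * e₁ * (e₃ * B i)).trace ∈ S := by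
    intro i
    by_cases h0 : (e₂ * e₃).trace = 0
    · obtain ⟨h1, -⟩ := h23 h0
      have h2 := HR2 i
      rw [XThree_exp h₂] at h2
      have h3 : (e₃ * B i * e₁ * e₂).trace = 0 := by
        rw [XThree_rot (e₃ * B i * e₁) e₂ rfl (Q := e₂ * e₃ * (B i * e₁))
          (by simp only [mul_assoc]), h1, zero_mul, Matrix.trace_zero]
      have h5 : (e₃ * B i * e₂ * e₁).trace = (e₂ * e₁ * (e₃ * B i)).trace :=
        XThree_rot (e₃ * B i) (e₂ * e₁) (mul_assoc _ _ _) rfl
      rw [h3, h5, add_zero] at h2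
      have h6 := S.sub_mem (B31 i) (S.add_mem h2 (S.mul_mem hz (S.mul_mem p21 (B32 i))))
      have h7 : z₂ * (e₂ * e₁ * (e₃ * B i)).trace ∈ S := by
        rwa [sub_add_cancel, sub_sub_cancel] at h6
      have h8 := S.mul_mem hz' h7
      rwa [← mul_assoc, mul_comm z₂' z₂, hzz, one_mul] at h8
    · have h0' : (e₃ * e₂).trace ≠ 0 := by rw [e32]; exact h0
      have p32 : (e₃ * e₂).trace ∈ S := by rw [e32]; exact p23
      refine XThree_div hS p32 h0' ?_
      have h1 : (e₂ * e₁ * (e₃ * B i)).trace = (e₃ * B i * e₂ * e₁).trace :=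
        XThree_rot (e₂ * e₁) (e₃ * B i) rfl (mul_assoc _ _ _)
      rw [h1, XThree_split h₃ h₂ (B i) e₁]
      exact S.mul_mem (B32 i) Hn
  have G2 : (e₁ * e₃).trace = 0 → ∀ k : ℤ, (e₂ * e₁ * (B k * e₃)).trace ∈ S := by
    intro h0 k
    obtain ⟨-, h1⟩ := h13 h0
    have h2 := HR1 k
    rw [XThree_exp h₂] at h2
    have h3 : B k * e₃ * e₁ = 0 := by rw [mul_assoc, h1, mul_zero]
    have h5 : (B k * e₃ * e₂ * e₁).trace = (e₂ * e₁ * (B k * e₃)).trace :=
      XThree_rot (B k * e₃) (e₂ * e₁) (mul_assoc _ _ _) rfl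
    have h4 : (B k * e₃ * e₂).trace = (e₂ * B k * e₃).trace :=
      XThree_rot (B k * e₃) e₂ rfl (mul_assoc _ _ _)
    rw [h3, zero_mul, Matrix.trace_zero, add_zero, zero_sub, h5, h4] at h2
    have h6 := S.add_mem h2 (S.mul_mem hz (S.mul_mem p21 (B23 k)))
    rw [sub_add_cancel] at h6
    have h7 := S.mul_mem hz' (S.neg_mem h6)
    rwa [neg_neg, ← mul_assoc, mul_comm z₂' z₂, hzz, one_mul] at h7
  -- the words `e₁ e₂ B_j e₃ B_k` and `e₂ e₁ B_k e₃ B_i`
  have F0 : ∀ j k : ℤ, (e₁ * e₂ * (B j * e₃ * B k)).trace ∈ S := by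
    intro j k
    by_cases h0 : (e₁ * e₃).trace = 0
    · have h0' : (e₂ * e₃).trace ≠ 0 := hor.resolve_left fun h => h h0
      refine XThree_div hS p23 h0' ?_
      have h1 : (e₁ * e₂ * (B j * e₃ * B k)).trace = (e₂ * B j * e₃ * (B k * e₁)).trace :=
        XThree_rot e₁ (e₂ * B j * e₃ * B k) (by simp only [mul_assoc]) (by simp only [mul_assoc])
      have h2 : (e₂ * e₃ * (B k * e₁)).trace = (e₁ * e₂ * (e₃ * B k)).trace :=
        XThree_rot (e₂ * e₃ * B k) e₁ (by simp only [mul_assoc]) (by simp only [mul_assoc])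
      rw [h1, XThree_split h₂ h₃ (B j) (B k * e₁), h2]
      exact S.mul_mem (B23 j) (F2 h0 k)
    · have h0' : (e₃ * e₁).trace ≠ 0 := by rw [e31]; exact h0
      have p31 : (e₃ * e₁).trace ∈ S := by rw [e31]; exact p13
      refine XThree_div hS p31 h0' ?_
      have h1 : (e₁ * e₂ * (B j * e₃ * B k)).trace = (e₃ * B k * e₁ * (e₂ * B j)).trace :=
        XThree_rot (e₁ * (e₂ * B j)) (e₃ * B k) (by simp only [mul_assoc])
          (by simp only [mul_assoc])
      have h2 : (e₃ * e₁ * (e₂ * B j)).trace = (e₁ * e₂ * (B j * e₃)).trace :=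
        XThree_rot e₃ (e₁ * (e₂ * B j)) (by simp only [mul_assoc]) (by simp only [mul_assoc])
      rw [h1, XThree_split h₃ h₁ (B k) (e₂ * B j), h2]
      exact S.mul_mem (B31 k) (F1 j)
  have G0 : ∀ i k : ℤ, (e₂ * e₁ * (B k * e₃ * B i)).trace ∈ S := by
    intro i k
    by_cases h0 : (e₁ * e₃).trace = 0
    · have h0' : (e₂ * e₃).trace ≠ 0 := hor.resolve_left fun h => h h0
      have h0'' : (e₃ * e₂).trace ≠ 0 := by rw [e32]; exact h0'
      have p32 : (e₃ * e₂).trace ∈ S := by rw [e32]; exact p23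
      refine XThree_div hS p32 h0'' ?_
      have h1 : (e₂ * e₁ * (B k * e₃ * B i)).trace = (e₃ * B i * e₂ * (e₁ * B k)).trace :=
        XThree_rot (e₂ * (e₁ * B k)) (e₃ * B i) (by simp only [mul_assoc])
          (by simp only [mul_assoc])
      have h2 : (e₃ * e₂ * (e₁ * B k)).trace = (e₂ * e₁ * (B k * e₃)).trace :=
        XThree_rot e₃ (e₂ * (e₁ * B k)) (by simp only [mul_assoc]) (by simp only [mul_assoc])
      rw [h1, XThree_split h₃ h₂ (B i) (e₁ * B k), h2]
      exact S.mul_mem (B32 i) (G2 h0 k)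
    · refine XThree_div hS p13 h0 ?_
      have h1 : (e₂ * e₁ * (B k * e₃ * B i)).trace = (e₁ * B k * e₃ * (B i * e₂)).trace :=
        XThree_rot e₂ (e₁ * B k * e₃ * B i) (by simp only [mul_assoc]) (by simp only [mul_assoc])
      have h2 : (e₁ * e₃ * (B i * e₂)).trace = (e₂ * e₁ * (e₃ * B i)).trace :=
        XThree_rot (e₁ * e₃ * B i) e₂ (by simp only [mul_assoc]) (by simp only [mul_assoc])
      rw [h1, XThree_split h₁ h₃ (B k) (B i * e₂), h2]
      exact S.mul_mem (B13 k) (G1 i)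
  intro i j k
  constructor
  · refine XThree_div hS p12 h12 ?_
    have h1 : (e₁ * B i * e₂ * B j * e₃ * B k).trace =
        (e₁ * B i * e₂ * (B j * e₃ * B k)).trace := by simp only [mul_assoc]
    rw [h1, XThree_split h₁ h₂ (B i) (B j * e₃ * B k)]
    exact S.mul_mem (B12 i) (F0 j k)
  · have h21 : (e₂ * e₁).trace ≠ 0 := by rw [e21]; exact h12
    refine XThree_div hS p21 h21 ?_
    have h1 : (e₃ * B i * e₂ * B j * e₁ * B k).trace =
        (e₂ * B j * e₁ * (B k * e₃ * B i)).trace :=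
      XThree_rot (e₃ * B i) (e₂ * B j * e₁ * B k) (by simp only [mul_assoc])
        (by simp only [mul_assoc])
    rw [h1, XThree_split h₂ h₁ (B j) (B k * e₃ * B i)]
    exact S.mul_mem (B21 j) (G0 i k)

end Pool.Agent.PRS
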