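import Pool.Agent.PRS.StX3
import Pool.Agent.PRS.RED
import Pool.Agent.PRS.Ent

/-!
# One arbitrary generator: the theorem for an arbitrary special generator
-/

set_option autoImplicit false

namespace Pool.Agent.PRS

open Matrix Pool.Agent.HZ


theorem std_succ (n : ℕ) : std (n + 1) = FreeGroup.of 0 :: sT n := by
  rw [std, sT, List.finRange_succ, List.map_cons, List.map_map]
  rfl

/-- all representations, if `x_0` is the special generator -/
theorem thx_zero (hI : St_Irx) (n : ℕ) (hn : 0 < n) :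
    ∀ (r : ℕ) (ρ : FreeGroup (Fin (n + 1)) →* GL (Fin r) ℂ), HX n r ρ → ∀ w, Quasi (ρ w) := by
  refine quasi_of_sub (F := FreeGroup (Fin (n + 1))) (fun r ρ => HX n r ρ) ?_ ?_
  · rintro r s ρ σ ⟨h1, h2⟩ hs
    exact ⟨fun i hi => PR_sub hs (h1 i hi), fun A B y hy hc => finite_sub hs (h2 A B y hy hc)⟩
  · rintro r ρ hr hI' hQ
    exact hI n r ρ hn hQ hr hI'

theorem thm_Thx (hI : St_Irx) : St_Thx := by
  intro m r ρ i₀ hm hPR hp
  obtain ⟨n, rfl⟩ : ∃ n, m = n + 1 := ⟨m - 1, by omega⟩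
  have hn : 0 < n := by omega
  obtain ⟨P, Q, hPQ⟩ := List.append_of_mem (List.mem_finRange i₀)
  have hnd : (P ++ i₀ :: Q).Nodup := hPQ ▸ List.nodup_finRange (n + 1)
  have hP : ∀ i ∈ P, i ≠ i₀ := by
    rintro i hi rfl
    rw [List.nodup_append] at hnd
    exact hnd.2.2 i hi i (by simp) rfl
  have hQ : ∀ i ∈ Q, i ≠ i₀ := by
    rintro i hi rfl
    rw [List.nodup_append, List.nodup_cons] at hnd
    exact hnd.2.1.1 hi
  set x : FreeGroup (Fin (n + 1)) := FreeGroup.of i₀ with hx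
  have hreach : BReach (std (n + 1)) ((x :: (P.map FreeGroup.of).map
      (fun y => x⁻¹ * y * x)) ++ Q.map FreeGroup.of) := by
    have h1 := (move_left x (P.map FreeGroup.of)).append_right (Q.map FreeGroup.of)
    have h2 : std (n + 1) = P.map FreeGroup.of ++ [x] ++ Q.map FreeGroup.of := by
      rw [std, hPQ]
      simp [hx]
    rw [h2]
    exact h1
  obtain ⟨β, hβ, hβL⟩ := exists_braid hreach
  have hβ0 : β (FreeGroup.of 0) = x := by
    rw [std_succ, List.map_cons, List.cons_append] at hβL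
    exact (List.cons.inj hβL).1
  have hβ1 : ∀ i : Fin (n + 1), i ≠ 0 → ∃ j, j ≠ i₀ ∧ ∃ h, β (FreeGroup.of i) =
      h * FreeGroup.of j * h⁻¹ := by
    intro i hi
    rw [std_succ, List.map_cons, List.cons_append] at hβL
    have h1 := (List.cons.inj hβL).2
    have h2 : β (FreeGroup.of i) ∈ (sT n).map β := by
      refine List.mem_map.2 ⟨_, ?_, rfl⟩
      obtain ⟨k, rfl⟩ := Fin.exists_succ_eq.2 hi
      exact List.mem_map.2 ⟨k, List.mem_finRange k, rfl⟩
    rw [h1, List.mem_append] at h2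
    rcases h2 with h2 | h2
    · obtain ⟨y, hy, e⟩ := List.mem_map.1 h2
      obtain ⟨j, hj, rfl⟩ := List.mem_map.1 hy
      refine ⟨j, hP j hj, x⁻¹, ?_⟩
      rw [inv_inv]
      exact e.symm
    · obtain ⟨j, hj, e⟩ := List.mem_map.1 h2
      exact ⟨j, hQ j hj, 1, by rw [← e]; group⟩
  have hsurj : Function.Surjective β := by
    rw [← MonoidHom.range_eq_top, eq_top_iff, ← closure_std, ← hreach.closure_eq,
      Subgroup.closure_le, ← hβL]
    intro y hy
    obtain ⟨z, -, rfl⟩ := List.mem_map.1 hy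
    exact ⟨z, rfl⟩
  have hHX : HX n r (ρ.comp β) := by
    refine ⟨fun i hi => ?_, fun A B y hy hc => ?_⟩
    · obtain ⟨j, hj, h, e⟩ := hβ1 i hi
      have h1 := PR.conj (hPR j hj) (ρ h)⁻¹
      have h2 : (ρ.comp β) (FreeGroup.of i) = ((ρ h)⁻¹)⁻¹ * ρ (FreeGroup.of j) * (ρ h)⁻¹ := by
        rw [MonoidHom.comp_apply, e, map_mul, map_mul, map_inv, inv_inv]
      rw [h2]
      exact h1
    · obtain ⟨i, hi, h, rfl⟩ := hc
      obtain ⟨j, hj, h', e⟩ := hβ1 i hi
      have h1 := hy.map β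
      rw [List.map_append, List.map_cons] at h1
      have h2 : BReach (std (n + 1)) ((std (n + 1)).map β) := hβ
      have h3 := hp (A.map β) (B.map β) (β (h * FreeGroup.of i * h⁻¹)) (h2.trans h1)
        ⟨j, hj, β h * h', by rw [map_mul, map_mul, map_inv, e]; group⟩
      refine h3.subset ?_
      rintro _ ⟨z, hz, rfl⟩
      refine ⟨β z, ?_, rfl⟩
      have h4 : (Subgroup.closure {A.prod, h * FreeGroup.of i * h⁻¹}).map β =
          Subgroup.closure {(A.map β).prod, β (h * FreeGroup.of i * h⁻¹)} := by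
        rw [MonoidHom.map_closure, Set.image_pair, map_list_prod]
      rw [← h4]
      exact ⟨z, hz, rfl⟩
  intro w
  obtain ⟨w', rfl⟩ := hsurj w
  exact thx_zero hI n hn r (ρ.comp β) hHX w'

end Pool.Agent.PRS
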