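import Pool.Agent.PRS.XB

/-!
# One arbitrary generator: two letters are related or unrelated

The proof of `St_Zz` of `StX2.lean`.
-/

set_option autoImplicit false

namespace Pool.Agent.PRS

open Matrix Pool.Agent.HZ

section zz
variable {R : Type} [CommRing R] {G : Type} [Group G] {r : ℕ} {S : Subring R}
    {ρ : G →* Matrix (Fin r) (Fin r) R} {c c' z z' : G → R}

private theorem zz_unit {u v : R} (h : u * v = 1) {X : Matrix (Fin r) (Fin r) R}
    (hX : u • X = 0) : X = 0 := by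
  have h1 : v • (u • X) = 0 := by rw [hX, smul_zero]
  rwa [smul_smul, mul_comm v u, h, one_smul] at h1

private theorem zz_left {a y : G} (hy : Lt S ρ c c' z z' y) (X : Matrix (Fin r) (Fin r) R)
    (h : ∀ k : ℤ, X * ρ ((a * y) ^ k) * el ρ c y = 0) (k : ℤ) :
    X * ρ (a ^ k) * el ρ c y = 0 ∧
      ∃ u u' : R, u * u' = 1 ∧ X * ρ ((a * y) ^ k) = u • (X * ρ (a ^ k)) := by
  have hc := hy.2.1.1
  have hz := hy.2.1.2
  induction k using Int.induction_on with
  | zero =>
    refine ⟨?_, 1, 1, mul_one 1, ?_⟩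
    · have h0 := h 0
      rwa [zpow_zero] at h0 ⊢
    · rw [zpow_zero, zpow_zero, one_smul]
  | succ k ih =>
    obtain ⟨_, u, u', hu, ih2⟩ := ih
    have e1 : X * ρ ((a * y) ^ ((k : ℤ) + 1)) =
        (u * c' y) • (X * ρ (a ^ ((k : ℤ) + 1)) + X * ρ (a ^ ((k : ℤ) + 1)) * el ρ c y) := by
      rw [_root_.zpow_add_one, _root_.zpow_add_one, map_mul, map_mul ρ a y, ← mul_assoc, ih2,
        map_mul ρ (a ^ (k : ℤ)) a, hy.map_eq, mul_smul_comm, mul_smul_comm, smul_mul_assoc, smul_smul,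
        mul_comm (c' y) u, mul_add, mul_one, mul_add]
      simp only [mul_assoc]
    have e2 := h ((k : ℤ) + 1)
    have e3 : X * ρ ((a * y) ^ ((k : ℤ) + 1)) * el ρ c y =
        (u * c' y * z y) • (X * ρ (a ^ ((k : ℤ) + 1)) * el ρ c y) := by
      rw [e1, smul_mul_assoc, add_mul, mul_assoc _ (el ρ c y) (el ρ c y), hy.sq, mul_smul_comm,
        mul_smul (u * c' y) (z y)]
      congr 1
      rw [sub_smul, one_smul]
      abel
    rw [e3] at e2
    have e4 : X * ρ (a ^ ((k : ℤ) + 1)) * el ρ c y = 0 := by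
      refine zz_unit (v := u' * c y * z' y) ?_ e2
      calc u * c' y * z y * (u' * c y * z' y) = (u * u') * (c y * c' y) * (z y * z' y) := by ring
        _ = 1 := by rw [hu, hc, hz, mul_one, mul_one]
    refine ⟨e4, u * c' y, u' * c y, ?_, ?_⟩
    · calc u * c' y * (u' * c y) = (u * u') * (c y * c' y) := by ring
        _ = 1 := by rw [hu, hc, mul_one]
    · rw [e1, e4, add_zero]
  | pred k ih =>
    obtain ⟨ih1, u, u', hu, ih2⟩ := ih
    have e1 : X * ρ ((a * y) ^ (-(k : ℤ) - 1)) = (u * c y) • (X * ρ (a ^ (-(k : ℤ) - 1))) := by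
      rw [_root_.zpow_sub_one, _root_.zpow_sub_one, map_mul, _root_.mul_inv_rev, map_mul ρ y⁻¹ a⁻¹,
        ← mul_assoc, ih2, map_mul ρ (a ^ (-(k : ℤ))) a⁻¹, hy.map_inv, smul_mul_assoc,
        smul_mul_assoc, mul_smul_comm, smul_smul]
      congr 1
      rw [← mul_assoc, mul_sub, mul_one, mul_smul_comm, ih1, smul_zero, sub_zero, mul_assoc]
    have e2 := h (-(k : ℤ) - 1)
    rw [e1, smul_mul_assoc] at e2
    have huc : u * c y * (u' * c' y) = 1 := by
      calc u * c y * (u' * c' y) = (u * u') * (c y * c' y) := by ring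
        _ = 1 := by rw [hu, hc, mul_one]
    exact ⟨zz_unit huc e2, u * c y, u' * c' y, huc, e1⟩

private theorem zz_right {a y : G} (hy : Lt S ρ c c' z z' y) (X : Matrix (Fin r) (Fin r) R)
    (h : ∀ k : ℤ, el ρ c y * (ρ ((a * y) ^ k) * X) = 0) (k : ℤ) :
    el ρ c y * (ρ (a ^ k) * X) = 0 ∧
      ∃ u u' : R, u * u' = 1 ∧ ρ ((a * y) ^ k) * X = u • (ρ (a ^ k) * X) := by
  have hc := hy.2.1.1
  have hz := hy.2.1.2
  induction k using Int.induction_on with
  | zero =>
    refine ⟨?_, 1, 1, mul_one 1, ?_⟩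
    · have h0 := h 0
      rwa [zpow_zero] at h0 ⊢
    · rw [zpow_zero, zpow_zero, one_smul]
  | succ k ih =>
    obtain ⟨ih1, u, u', hu, ih2⟩ := ih
    have e1 : ρ ((a * y) ^ ((k : ℤ) + 1)) * X = (u * c' y) • (ρ (a ^ ((k : ℤ) + 1)) * X) := by
      rw [add_comm, _root_.zpow_one_add, _root_.zpow_one_add, map_mul, map_mul ρ a y, mul_assoc,
        ih2, map_mul ρ a (a ^ (k : ℤ)), hy.map_eq, mul_smul_comm, mul_smul_comm, smul_mul_assoc,
        smul_smul]
      congr 1
      rw [mul_assoc, add_mul, one_mul, ih1, add_zero, mul_assoc]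
    have e2 := h ((k : ℤ) + 1)
    rw [e1, mul_smul_comm] at e2
    have huc : u * c' y * (u' * c y) = 1 := by
      calc u * c' y * (u' * c y) = (u * u') * (c y * c' y) := by ring
        _ = 1 := by rw [hu, hc, mul_one]
    exact ⟨zz_unit huc e2, u * c' y, u' * c y, huc, e1⟩
  | pred k ih =>
    obtain ⟨_, u, u', hu, ih2⟩ := ih
    have e1 : ρ ((a * y) ^ (-(k : ℤ) - 1)) * X = (u * c y) •
        (ρ (a ^ (-(k : ℤ) - 1)) * X - z' y • (el ρ c y * (ρ (a ^ (-(k : ℤ) - 1)) * X))) := by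
      have hk : -(k : ℤ) - 1 = -1 + -(k : ℤ) := by ring
      rw [hk, _root_.zpow_add, _root_.zpow_add, _root_.zpow_neg_one, _root_.zpow_neg_one, map_mul,
        _root_.mul_inv_rev, map_mul ρ y⁻¹ a⁻¹, mul_assoc, ih2, map_mul ρ a⁻¹ (a ^ (-(k : ℤ))), hy.map_inv,
        mul_smul_comm, smul_mul_assoc, smul_mul_assoc, smul_smul]
      congr 1
      rw [sub_mul, one_mul, sub_mul, smul_mul_assoc, smul_mul_assoc]
      simp only [mul_assoc]
    have e2 := h (-(k : ℤ) - 1)
    have e3 : el ρ c y * (ρ ((a * y) ^ (-(k : ℤ) - 1)) * X) =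
        (u * c y * z' y) • (el ρ c y * (ρ (a ^ (-(k : ℤ) - 1)) * X)) := by
      rw [e1, mul_smul_comm, mul_sub, mul_smul_comm, ← mul_assoc (el ρ c y) (el ρ c y), hy.sq,
        smul_mul_assoc, smul_smul, mul_smul (u * c y) (z' y)]
      congr 1
      have h2 : z' y * (z y - 1) = 1 - z' y := by linear_combination hz
      rw [h2, sub_smul, one_smul]
      abel
    rw [e3] at e2
    have e4 : el ρ c y * (ρ (a ^ (-(k : ℤ) - 1)) * X) = 0 := by
      refine zz_unit (v := u' * c' y * z y) ?_ e2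
      calc u * c y * z' y * (u' * c' y * z y) = (u * u') * (c y * c' y) * (z y * z' y) := by ring
        _ = 1 := by rw [hu, hc, hz, mul_one, mul_one]
    refine ⟨e4, u * c y, u' * c' y, ?_, ?_⟩
    · calc u * c y * (u' * c' y) = (u * u') * (c y * c' y) := by ring
        _ = 1 := by rw [hu, hc, mul_one]
    · rw [e1, e4, smul_zero, sub_zero]

private theorem zz_trL {a y : G} (hy : Lt S ρ c c' z z' y) (X : Matrix (Fin r) (Fin r) R)
    (h : ∀ i : ℤ, (ρ (a ^ i) * (el ρ c y * X)).trace = 0) (k : ℤ) :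
    ∀ i : ℤ, (ρ (a ^ i) * (ρ ((a * y) ^ k) * (el ρ c y * X))).trace = 0 := by
  induction k using Int.induction_on with
  | zero =>
    intro i
    rw [zpow_zero, map_one, one_mul]
    exact h i
  | succ k ih =>
    intro i
    have e1 : ρ (a ^ i) * (ρ ((a * y) ^ ((k : ℤ) + 1)) * (el ρ c y * X)) =
        c' y • (ρ (a ^ (i + 1)) * (ρ ((a * y) ^ (k : ℤ)) * (el ρ c y * X)) +
          (el ρ c y * ρ ((a * y) ^ (k : ℤ))).trace • (ρ (a ^ (i + 1)) * (el ρ c y * X))) := by
      rw [← mul_smul_comm, ← smul_mul_assoc ((el ρ c y * ρ ((a * y) ^ (k : ℤ))).trace), ← hy.ro]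
      rw [add_comm (k : ℤ) 1, _root_.zpow_one_add, _root_.zpow_add_one, map_mul, map_mul ρ a y,
        map_mul ρ (a ^ i) a, hy.map_eq, mul_smul_comm, smul_mul_assoc, smul_mul_assoc,
        mul_smul_comm]
      congr 1
      simp only [mul_assoc, add_mul, one_mul, mul_add]
    rw [e1, trace_smul, trace_add, trace_smul, ih (i + 1), h (i + 1), smul_zero, add_zero,
      smul_zero]
  | pred k ih =>
    intro i
    have e1 : ρ (a ^ i) * (ρ ((a * y) ^ (-(k : ℤ) - 1)) * (el ρ c y * X)) =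
        c y • (ρ (a ^ (i - 1)) * (ρ ((a * y) ^ (-(k : ℤ))) * (el ρ c y * X)) -
          (z' y * (el ρ c y * (ρ a⁻¹ * ρ ((a * y) ^ (-(k : ℤ))))).trace) •
            (ρ (a ^ i) * (el ρ c y * X))) := by
      rw [mul_smul (z' y), ← mul_smul_comm ((el ρ c y * (ρ a⁻¹ * ρ ((a * y) ^ (-(k : ℤ))))).trace),
        ← smul_mul_assoc ((el ρ c y * (ρ a⁻¹ * ρ ((a * y) ^ (-(k : ℤ))))).trace), ← hy.ro]
      have hk : -(k : ℤ) - 1 = -1 + -(k : ℤ) := by ring
      rw [hk, _root_.zpow_add, _root_.zpow_neg_one, _root_.zpow_sub_one, map_mul, _root_.mul_inv_rev,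
        map_mul ρ y⁻¹ a⁻¹, map_mul ρ (a ^ i) a⁻¹, hy.map_inv, smul_mul_assoc, smul_mul_assoc,
        smul_mul_assoc, mul_smul_comm]
      congr 1
      simp only [mul_assoc, sub_mul, one_mul, mul_sub, smul_mul_assoc, mul_smul_comm]
    rw [e1, trace_smul, trace_sub, trace_smul, ih (i - 1), h i, smul_zero, sub_zero, smul_zero]

private theorem zz_trR {a y : G} (hy : Lt S ρ c c' z z' y) (X : Matrix (Fin r) (Fin r) R)
    (h : ∀ j : ℤ, (el ρ c y * (ρ (a ^ j) * X)).trace = 0) (k : ℤ) :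
    ∀ j : ℤ, (el ρ c y * (ρ ((a * y) ^ k) * (ρ (a ^ j) * X))).trace = 0 := by
  induction k using Int.induction_on with
  | zero =>
    intro j
    rw [zpow_zero, map_one, one_mul]
    exact h j
  | succ k ih =>
    intro j
    have e1 : el ρ c y * (ρ ((a * y) ^ ((k : ℤ) + 1)) * (ρ (a ^ j) * X)) =
        c' y • (el ρ c y * (ρ ((a * y) ^ (k : ℤ)) * (ρ (a ^ (j + 1)) * X)) +
          (el ρ c y * (ρ ((a * y) ^ (k : ℤ)) * ρ a)).trace • (el ρ c y * (ρ (a ^ j) * X))) := by
      rw [← smul_mul_assoc ((el ρ c y * (ρ ((a * y) ^ (k : ℤ)) * ρ a)).trace), ← hy.ro]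
      rw [_root_.zpow_add_one, add_comm j 1, _root_.zpow_one_add, map_mul, map_mul ρ a y,
        map_mul ρ a (a ^ j), hy.map_eq, mul_smul_comm, mul_smul_comm, smul_mul_assoc,
        mul_smul_comm]
      congr 1
      simp only [mul_assoc, add_mul, one_mul, mul_add]
    rw [e1, trace_smul, trace_add, trace_smul, ih (j + 1), h j, smul_zero, add_zero,
      smul_zero]
  | pred k ih =>
    intro j
    have e1 : el ρ c y * (ρ ((a * y) ^ (-(k : ℤ) - 1)) * (ρ (a ^ j) * X)) =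
        c y • (el ρ c y * (ρ ((a * y) ^ (-(k : ℤ))) * (ρ (a ^ (j - 1)) * X)) -
          (z' y * (el ρ c y * ρ ((a * y) ^ (-(k : ℤ)))).trace) •
            (el ρ c y * (ρ (a ^ (j - 1)) * X))) := by
      rw [mul_smul (z' y), ← smul_mul_assoc ((el ρ c y * ρ ((a * y) ^ (-(k : ℤ)))).trace), ← hy.ro]
      have hj : j - 1 = -1 + j := by ring
      rw [hj, _root_.zpow_add, _root_.zpow_neg_one, _root_.zpow_sub_one, map_mul, _root_.mul_inv_rev,
        map_mul ρ y⁻¹ a⁻¹, map_mul ρ a⁻¹ (a ^ j), hy.map_inv, smul_mul_assoc, mul_smul_comm,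
        smul_mul_assoc, mul_smul_comm]
      congr 1
      simp only [mul_assoc, sub_mul, one_mul, mul_sub, smul_mul_assoc, mul_smul_comm]
    rw [e1, trace_smul, trace_sub, trace_smul, ih (j - 1), h (j - 1), smul_zero, sub_zero,
      smul_zero]

end zz

theorem thm_Zz : St_Zz := by
  intro R _ G _ r S ρ a₀ M₀ c c' z z' hS a y y' N hN
  have hy : Lt S ρ c c' z z' y := hS.lett a _ hN y (by simp)
  by_cases hT : ∀ k : ℤ, (el ρ c ((a * y) ^ k * y * ((a * y) ^ k)⁻¹) * el ρ c y').trace = 0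
  · left
    refine ⟨?_, hT⟩
    have h1 : ∀ k : ℤ, el ρ c y * (ρ ((a * y) ^ k) * el ρ c y') = 0 := by
      intro k
      have h2 := (hS.par _ _ _ _ (hN.ztwist (-k)) (hT (-k))).1
      rw [el_cj hS.conj] at h2
      have h3 : ρ (((a * y) ^ (-k))⁻¹) *
          (ρ ((a * y) ^ (-k)) * el ρ c y * ρ (((a * y) ^ (-k))⁻¹) * el ρ c y') = 0 := by
        rw [h2, mul_zero]
      rw [← mul_assoc, ← mul_assoc, ← mul_assoc, map_en, one_mul, _root_.zpow_neg, inv_inv,
        mul_assoc] at h3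
      exact h3
    have h1' : ∀ k : ℤ, el ρ c y' * ρ ((a * y) ^ k) * el ρ c y = 0 := by
      intro k
      have h2 := (hS.par _ _ _ _ (hN.ztwist k) (hT k)).2
      rw [el_cj hS.conj] at h2
      have h3 : el ρ c y' * (ρ ((a * y) ^ k) * el ρ c y * ρ (((a * y) ^ k)⁻¹)) *
          ρ ((a * y) ^ k) = 0 := by
        rw [h2, zero_mul]
      rw [mul_assoc, mul_assoc (ρ ((a * y) ^ k) * el ρ c y), map_en, mul_one, ← mul_assoc] at h3
      exact h3
    intro k
    refine ⟨?_, (zz_left hy _ h1' k).1⟩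
    rw [mul_assoc]
    exact (zz_right hy _ h1 k).1
  · right
    push Not at hT
    refine ⟨?_, hT⟩
    by_contra hc
    push Not at hc
    obtain ⟨k, hk⟩ := hT
    apply hk
    rw [el_cj hS.conj]
    have h1 : ∀ i : ℤ, (ρ (a ^ i) * (el ρ c y * (ρ (((a * y) ^ k)⁻¹) * el ρ c y'))).trace = 0 := by
      intro i
      have h2 := zz_trR hy (a := a) (el ρ c y' * ρ (a ^ i)) (fun j => by
        have h3 := hc j i
        simp only [mul_assoc] at h3
        exact h3) (-k) 0
      rw [zpow_zero, map_one, one_mul, _root_.zpow_neg] at h2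
      rw [trace_mul_comm]
      simp only [mul_assoc]
      exact h2
    have h2 := zz_trL hy _ h1 k 0
    rw [zpow_zero, map_one, one_mul] at h2
    simp only [mul_assoc]
    exact h2

end Pool.Agent.PRS
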