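import Pool.Agent.PRS.FinA
import Pool.Agent.PRS.XHam
import Pool.Agent.PRS.XKrn
import Pool.Agent.PRS.XDet
import Pool.Agent.PRS.XInt
import Pool.Agent.PRS.XOne
import Pool.Agent.PRS.TWO
import Pool.Agent.PRS.XThree
import Pool.Agent.PRS.XKrx
import Pool.Agent.PRS.XKW
import Pool.Agent.PRS.XNd
import Pool.Agent.PRS.XN1
import Pool.Agent.PRS.XN2
import Pool.Agent.PRS.XCa
import Pool.Agent.PRS.XFt
import Pool.Agent.PRS.XN3
import Pool.Agent.PRS.XN4
import Pool.Agent.PRS.XUq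
import Pool.Agent.PRS.XBas
import Pool.Agent.PRS.XPar
import Pool.Agent.PRS.XPair
import Pool.Agent.PRS.XDux
import Pool.Agent.PRS.XGax
import Pool.Agent.PRS.XInx
import Pool.Agent.PRS.XBdx
import Pool.Agent.PRS.XIrx
import Pool.Agent.PRS.XThx
import Pool.Agent.PRS.XZz
import Pool.Agent.PRS.XPox

/-!
# Systems of pseudo-reflections with one arbitrary element: assembly
-/

set_option autoImplicit false

namespace Pool.Agent.PRS

open Matrix Pool.Agent.HZ

theorem uq_of (hZ : St_Zz) : St_Uq := by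
  have hN := thm_Nd
  have hK := thm_KW
  have hC := thm_Ca hZ
  exact thm_Uq hK (thm_N1 thm_One hN) (thm_N2 thm_One thm_Two hN hK hZ)
    (thm_N3 thm_Three hN hK hC thm_Ft) (thm_N4 hN hK hZ hC)

theorem thx_of (hZ : St_Zz) (hP : St_Pox) : St_Thx := by
  have hpair := thm_Pair (uq_of hZ) thm_Par
  have hD := thm_Dux hpair thm_Bas thm_LAM
  have hG := thm_Gax hpair thm_Bas thm_LAM
  have hI := thm_Inx (thm_Int thm_Ham thm_Krn thm_Det) thm_KW thm_Bas thm_LAM
  have hB := thm_Bdx hD thm_Her hP thm_UNI thm_Bas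
  exact thm_Thx (thm_Irx hI hG hB thm_Bas thm_Krx thm_TRA)

theorem thx : St_Thx := thx_of thm_Zz thm_Pox

end Pool.Agent.PRS
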