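import Pool.Agent.PRS.Defs

/-!
# The traces of the simple loops generate

`thm_Gen`: for a system of multiples of pseudo-reflections the traces of all elements are in every
ring which contains the traces of the simple loops (and the constants).
-/

set_option autoImplicit false

namespace Pool.Agent.PRS

open Matrix Pool.Agent.HZ

section gen
variable {R : Type} [CommRing R] {G : Type} [Group G] {r : ℕ}

/-- the rank one part of a letter -/
def el (ρ : G →* Matrix (Fin r) (Fin r) R) (c : G → R) (y : G) : Matrix (Fin r) (Fin r) R :=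
  c y • ρ y - 1

/-- words in the rank one parts -/
def wd (ρ : G →* Matrix (Fin r) (Fin r) R) (c : G → R) (w : List G) : Matrix (Fin r) (Fin r) R :=
  (w.map (el ρ c)).prod

/-- their traces -/
def tw (ρ : G →* Matrix (Fin r) (Fin r) R) (c : G → R) (w : List G) : R := (wd ρ c w).trace

variable (ρ : G →* Matrix (Fin r) (Fin r) R) (c : G → R)

theorem wd_nil : wd ρ c [] = 1 := rfl

theorem wd_cons (y : G) (w : List G) : wd ρ c (y :: w) = el ρ c y * wd ρ c w := by
  simp [wd]

theorem wd_append (v w : List G) : wd ρ c (v ++ w) = wd ρ c v * wd ρ c w := by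
  simp [wd]

theorem wd_snoc (w : List G) (y : G) : wd ρ c (w ++ [y]) = wd ρ c w * el ρ c y := by
  simp [wd]

theorem tw_rot (v w : List G) : tw ρ c (v ++ w) = tw ρ c (w ++ v) := by
  rw [tw, tw, wd_append, wd_append, trace_mul_comm]

theorem prod_smul (L : List G) :
    (L.map fun y => c y • ρ y).prod = (L.map c).prod • ρ L.prod := by
  induction L with
  | nil => simp
  | cons y L ih =>
    rw [List.map_cons, List.prod_cons, ih, List.map_cons, List.prod_cons, List.prod_cons, map_mul]
    rw [smul_mul_smul_comm]

theorem not_nodup_split {α : Type} (v : List α) (h : ¬ v.Nodup) :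
    ∃ (v1 : List α) (b : α) (v2 v3 : List α), v = v1 ++ b :: (v2 ++ b :: v3) := by
  induction v with
  | nil => exact absurd List.nodup_nil h
  | cons a v ih =>
    by_cases ha : a ∈ v
    · obtain ⟨v2, v3, e⟩ := List.append_of_mem ha
      exact ⟨[], a, v2, v3, by rw [e]; rfl⟩
    · have h1 : ¬ v.Nodup := fun h2 => h (List.nodup_cons.2 ⟨ha, h2⟩)
      obtain ⟨v1, b, v2, v3, e⟩ := ih h1
      exact ⟨a :: v1, b, v2, v3, by rw [e]; rfl⟩

end gen

section sys
variable {R : Type} [CommRing R] {G : Type} [Group G] {r : ℕ} {S : Subring R}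
    {ρ : G →* Matrix (Fin r) (Fin r) R} {L₀ : List G} {c c' z z' : G → R}

/-- the rank one identity for a letter -/
theorem Sys.el_mul (h : Sys S ρ L₀ c c' z z') {L : List G} (hL : Pre L₀ L) {y : G} (hy : y ∈ L)
    (X : Matrix (Fin r) (Fin r) R) :
    el ρ c y * X * el ρ c y = (el ρ c y * X).trace • el ρ c y := h.one L hL y hy X

theorem Sys.el_sq (h : Sys S ρ L₀ c c' z z') {L : List G} (hL : Pre L₀ L) {y : G} (hy : y ∈ L) :
    el ρ c y * el ρ c y = (z y - 1) • el ρ c y := by
  have h1 := h.el_mul hL hy 1
  rw [mul_one] at h1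
  rw [h1]
  congr 1
  exact h.tr L hL y hy

theorem Sys.tw_one (h : Sys S ρ L₀ c c' z z') {L : List G} (hL : Pre L₀ L) {y : G} (hy : y ∈ L) :
    tw ρ c [y] = z y - 1 := by
  rw [tw, wd_cons, wd_nil, mul_one]
  exact h.tr L hL y hy

theorem Sys.map_eq (h : Sys S ρ L₀ c c' z z') {L : List G} (hL : Pre L₀ L) {y : G} (hy : y ∈ L) :
    ρ y = c' y • (1 + el ρ c y) := by
  have h1 : 1 + el ρ c y = c y • ρ y := by
    rw [el]
    abel
  rw [h1, smul_smul, mul_comm, (h.unit L hL y hy).1, one_smul]

theorem Sys.map_inv (h : Sys S ρ L₀ c c' z z') {L : List G} (hL : Pre L₀ L) {y : G} (hy : y ∈ L) :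
    ρ y⁻¹ = c y • (1 - z' y • el ρ c y) := by
  have h1 : ρ y * (c y • (1 - z' y • el ρ c y)) = 1 := by
    rw [h.map_eq hL hy, smul_mul_smul_comm, mul_comm (c' y), (h.unit L hL y hy).1, one_smul,
      mul_sub, add_mul, add_mul, one_mul, one_mul, mul_one, mul_smul_comm, h.el_sq hL hy, smul_smul]
    have h2 : z' y * (z y - 1) = 1 - z' y := by
      have := (h.unit L hL y hy).2
      linear_combination this
    rw [h2, sub_smul, one_smul]
    abel
  have h2 : ρ y⁻¹ * ρ y = 1 := by rw [← map_mul, inv_mul_cancel, map_one]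
  calc ρ y⁻¹ = ρ y⁻¹ * (ρ y * (c y • (1 - z' y • el ρ c y))) := by rw [h1, mul_one]
    _ = c y • (1 - z' y • el ρ c y) := by rw [← mul_assoc, h2, one_mul]

/-- the rank one part of a conjugate letter -/
theorem Sys.el_conj (h : Sys S ρ L₀ c c' z z') {L : List G} (hL : Pre L₀ L) {b : G} (hb : b ∈ L)
    (a : G) : el ρ c (b⁻¹ * a * b) = el ρ c a + el ρ c a * el ρ c b -
      z' b • (el ρ c b * el ρ c a) -
      (z' b * (el ρ c b * el ρ c a).trace) • el ρ c b := by
  have h1 : el ρ c (b⁻¹ * a * b) = ρ b⁻¹ * el ρ c a * ρ b := by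
    have h2 : ρ b⁻¹ * ρ b = 1 := by rw [← map_mul, inv_mul_cancel, map_one]
    rw [el, el, h.conj, mul_sub, sub_mul, mul_one, h2, mul_smul_comm, smul_mul_assoc, map_mul,
      map_mul]
  rw [h1, h.map_eq hL hb, h.map_inv hL hb, smul_mul_assoc, smul_mul_smul_comm,
    (h.unit L hL b hb).1, one_smul, sub_mul, one_mul, smul_mul_assoc, mul_add, mul_one, sub_mul,
    smul_mul_assoc, h.el_mul hL hb, smul_smul]
  abel

theorem Sys.split (h : Sys S ρ L₀ c c' z z') {L : List G} (hL : Pre L₀ L) {b : G} (hb : b ∈ L)
    (p q : List G) : tw ρ c (b :: (p ++ b :: q)) = tw ρ c (b :: p) * tw ρ c (b :: q) := by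
  rw [tw, tw, tw, wd_cons, wd_append, wd_cons, wd_cons]
  have h1 : el ρ c b * (wd ρ c p * (el ρ c b * wd ρ c q)) =
      (el ρ c b * wd ρ c p * el ρ c b) * wd ρ c q := by
    noncomm_ring
  rw [h1, h.el_mul hL hb, smul_mul_assoc, trace_smul, smul_eq_mul]

/-- the exchange formula -/
theorem Sys.swap (h : Sys S ρ L₀ c c' z z') {L : List G} (hL : Pre L₀ L) {b : G} (hb : b ∈ L)
    (a : G) (p q : List G) :
    tw ρ c ((b⁻¹ * a * b) :: (p ++ b :: q)) = tw ρ c (a :: (p ++ b :: q)) +
      tw ρ c (b :: p) * tw ρ c (a :: b :: q) -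
      z' b * (tw ρ c (b :: a :: p) * tw ρ c (b :: q)) -
      z' b * tw ρ c [b, a] * (tw ρ c (b :: p) * tw ρ c (b :: q)) := by
  have e2 : tw ρ c (b :: p) * tw ρ c (a :: b :: q) =
      (el ρ c a * el ρ c b * (wd ρ c p * (el ρ c b * wd ρ c q))).trace := by
    have h1 : el ρ c a * el ρ c b * (wd ρ c p * (el ρ c b * wd ρ c q)) =
        el ρ c a * ((el ρ c b * wd ρ c p * el ρ c b) * wd ρ c q) := by noncomm_ring
    rw [h1, h.el_mul hL hb, smul_mul_assoc, mul_smul_comm, trace_smul, smul_eq_mul]
    simp only [tw, wd_cons]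
  have e3 : tw ρ c (b :: a :: p) * tw ρ c (b :: q) =
      (el ρ c b * el ρ c a * (wd ρ c p * (el ρ c b * wd ρ c q))).trace := by
    have h1 : el ρ c b * el ρ c a * (wd ρ c p * (el ρ c b * wd ρ c q)) =
        (el ρ c b * (el ρ c a * wd ρ c p) * el ρ c b) * wd ρ c q := by noncomm_ring
    rw [h1, h.el_mul hL hb, smul_mul_assoc, trace_smul, smul_eq_mul]
    simp only [tw, wd_cons]
  have e4 : tw ρ c (b :: p) * tw ρ c (b :: q) =
      (el ρ c b * (wd ρ c p * (el ρ c b * wd ρ c q))).trace := by
    rw [← h.split hL hb p q, tw, wd_cons, wd_append, wd_cons]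
  have e5 : tw ρ c [b, a] = (el ρ c b * el ρ c a).trace := by
    simp only [tw, wd_cons, wd_nil, mul_one]
  rw [e2, e3, e4, e5]
  have e1 : tw ρ c ((b⁻¹ * a * b) :: (p ++ b :: q)) =
      (el ρ c (b⁻¹ * a * b) * (wd ρ c p * (el ρ c b * wd ρ c q))).trace := by
    rw [tw, wd_cons, wd_append, wd_cons]
  have e6 : tw ρ c (a :: (p ++ b :: q)) =
      (el ρ c a * (wd ρ c p * (el ρ c b * wd ρ c q))).trace := by
    rw [tw, wd_cons, wd_append, wd_cons]
  rw [e1, e6, h.el_conj hL hb, sub_mul, sub_mul, add_mul, trace_sub, trace_sub, trace_add,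
    smul_mul_assoc, smul_mul_assoc, trace_smul, trace_smul, smul_eq_mul, smul_eq_mul]

/-- sorted words -/
theorem Sys.sorted (h : Sys S ρ L₀ c c' z z') (L1 : List G) : ∀ L2 : List G,
    Pre L₀ (L1 ++ L2) → (wd ρ c L1 * (L2.map fun y => c y • ρ y).prod).trace ∈ S := by
  induction L1 using List.reverseRecOn with
  | nil =>
    intro L2 hL
    rw [wd_nil, one_mul, prod_smul, trace_smul, smul_eq_mul]
    rw [List.nil_append] at hL
    refine S.mul_mem (S.list_prod_mem ?_) (h.loops L2 hL)
    intro x hx
    obtain ⟨y, hy, rfl⟩ := List.mem_map.1 hx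
    exact (h.mem L2 hL y hy).1
  | append_singleton L1 y ih =>
    intro L2 hL
    rw [List.append_assoc, List.singleton_append] at hL
    have h1 := ih (y :: L2) hL
    have h2 := ih L2 (hL.trans (Pre.sublist ((List.Sublist.refl L1).append
      (List.sublist_cons_self y L2))))
    have h3 : wd ρ c (L1 ++ [y]) * (L2.map fun y => c y • ρ y).prod =
        wd ρ c L1 * ((y :: L2).map fun y => c y • ρ y).prod -
          wd ρ c L1 * (L2.map fun y => c y • ρ y).prod := by
      rw [wd_snoc, List.map_cons, List.prod_cons, el]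
      noncomm_ring
    rw [h3, trace_sub]
    exact S.sub_mem h1 h2

theorem Sys.sorted' (h : Sys S ρ L₀ c c' z z') (L : List G) (hL : Pre L₀ L) :
    tw ρ c L ∈ S := by
  have h1 := h.sorted L [] (by rwa [List.append_nil])
  simpa [tw] using h1

/-- the exchange step -/
theorem Sys.step (h : Sys S ρ L₀ c c' z z') {L : List G} (hL : Pre L₀ L) {a b : G}
    (hb : b ∈ L) (p q : List G)
    (hs : ∀ v : List G, v.Subperm (a :: (p ++ b :: q)) → v.length < p.length + q.length + 2 →
      tw ρ c v ∈ S)
    (hn : tw ρ c ((b⁻¹ * a * b) :: (p ++ b :: q)) ∈ S) :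
    tw ρ c (a :: (p ++ b :: q)) ∈ S := by
  obtain ⟨-, -, hz, hz'⟩ := h.mem L hL b hb
  have hzz := (h.unit L hL b hb).2
  have hsw := h.swap hL hb a p q
  have h1 := h.tw_one hL hb
  have hrot : tw ρ c [b, a] = tw ρ c [a, b] := tw_rot ρ c [b] [a]
  have s1 : (b :: p).Subperm (a :: (p ++ b :: q)) := by
    have : (b :: p).Perm (p ++ [b]) := (List.perm_append_singleton b p).symm
    refine this.subperm.trans (List.Sublist.subperm ?_)
    refine List.Sublist.cons _ ((List.Sublist.refl p).append ?_)
    exact List.Sublist.cons_cons b (List.nil_sublist q)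
  have s2 : (b :: q).Subperm (a :: (p ++ b :: q)) :=
    (List.Sublist.cons _ (List.sublist_append_right p (b :: q))).subperm
  have s3 : (a :: b :: q).Subperm (a :: (p ++ b :: q)) :=
    (List.Sublist.cons_cons a (List.sublist_append_right p (b :: q))).subperm
  have s4 : (b :: a :: p).Subperm (a :: (p ++ b :: q)) := by
    have : (b :: a :: p).Perm (a :: (p ++ [b])) :=
      (List.Perm.swap a b p).trans (List.Perm.cons a (List.perm_append_singleton b p).symm)
    refine this.subperm.trans (List.Sublist.subperm ?_)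
    refine List.Sublist.cons_cons a ((List.Sublist.refl p).append ?_)
    exact List.Sublist.cons_cons b (List.nil_sublist q)
  have s5 : [b, a].Subperm (a :: (p ++ b :: q)) := by
    refine List.Subperm.trans ?_ s4
    exact (List.Sublist.cons_cons b (List.Sublist.cons_cons a (List.nil_sublist p))).subperm
  rcases p with _ | ⟨p0, p'⟩
  · rcases q with _ | ⟨q0, q'⟩
    · simp only [List.nil_append] at hsw hn ⊢
      have e : tw ρ c [a, b] = tw ρ c [b⁻¹ * a * b, b] := by
        rw [hsw, h1, hrot]
        linear_combination (tw ρ c [a, b] * (z b - 1)) * hzz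
      rw [e]
      exact hn
    · simp only [List.nil_append] at hsw hn hs s2 s5 ⊢
      have t2 := hs _ s2 (by simp)
      have t5 := hs _ s5 (by simp)
      have e : tw ρ c (a :: b :: q0 :: q') =
          z' b * (tw ρ c ((b⁻¹ * a * b) :: b :: q0 :: q') +
            z' b * (tw ρ c [b, a] * tw ρ c (b :: q0 :: q')) +
            z' b * tw ρ c [b, a] * ((z b - 1) * tw ρ c (b :: q0 :: q'))) := by
        rw [hsw, h1]
        linear_combination (-(tw ρ c (a :: b :: q0 :: q'))) * hzz
      rw [e]
      exact S.mul_mem hz' (S.add_mem (S.add_mem hn (S.mul_mem hz' (S.mul_mem t5 t2)))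
        (S.mul_mem (S.mul_mem hz' t5) (S.mul_mem (S.sub_mem hz S.one_mem) t2)))
  · rcases q with _ | ⟨q0, q'⟩
    · have t1 := hs _ s1 (by simp)
      have t5 := hs _ s5 (by simp)
      have hr2 : tw ρ c (b :: a :: p0 :: p') = tw ρ c (a :: (p0 :: p' ++ [b])) :=
        tw_rot ρ c [b] (a :: p0 :: p')
      have e : tw ρ c (a :: (p0 :: p' ++ [b])) =
          z b * (tw ρ c ((b⁻¹ * a * b) :: (p0 :: p' ++ [b])) -
            tw ρ c (b :: p0 :: p') * tw ρ c [b, a] +
            z' b * tw ρ c [b, a] * (tw ρ c (b :: p0 :: p') * (z b - 1))) := by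
        rw [hsw, hr2, h1, hrot]
        linear_combination (-(tw ρ c (a :: (p0 :: p' ++ [b]))) * (1 - z b)) * hzz
      rw [e]
      exact S.mul_mem hz (S.add_mem (S.sub_mem hn (S.mul_mem t1 t5))
        (S.mul_mem (S.mul_mem hz' t5) (S.mul_mem t1 (S.sub_mem hz S.one_mem))))
    · have t1 := hs _ s1 (by simp)
      have t2 := hs _ s2 (by simp)
      have t3 := hs _ s3 (by simp)
      have t4 := hs _ s4 (by simp)
      have t5 := hs _ s5 (by simp)
      have e : tw ρ c (a :: (p0 :: p' ++ b :: q0 :: q')) =
          tw ρ c ((b⁻¹ * a * b) :: (p0 :: p' ++ b :: q0 :: q')) -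
            tw ρ c (b :: p0 :: p') * tw ρ c (a :: b :: q0 :: q') +
            z' b * (tw ρ c (b :: a :: p0 :: p') * tw ρ c (b :: q0 :: q')) +
            z' b * tw ρ c [b, a] * (tw ρ c (b :: p0 :: p') * tw ρ c (b :: q0 :: q')) := by
        rw [hsw]
        ring
      rw [e]
      exact S.add_mem (S.add_mem (S.sub_mem hn (S.mul_mem t1 t3))
        (S.mul_mem hz' (S.mul_mem t4 t2)))
        (S.mul_mem (S.mul_mem hz' t5) (S.mul_mem t1 t2))

/-- words without repetition -/
theorem Sys.words (h : Sys S ρ L₀ c c' z z') (k : ℕ) : ∀ L : List G, Pre L₀ L →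
    ∀ w : List G, w.Subperm L → w.length = k → tw ρ c w ∈ S := by
  induction k using Nat.strong_induction_on with
  | _ k ih =>
    have key : ∀ (m : ℕ) (X Y v : List G), Y.length = m → Pre L₀ (X ++ Y) → v.Perm Y →
        (X ++ Y).length = k → tw ρ c (X ++ v) ∈ S := by
      intro m
      induction m using Nat.strong_induction_on with
      | _ m ihm =>
        have key2 : ∀ (P X Q v' : List G) (y : G), P.length + Q.length + 1 = m →
            Pre L₀ (X ++ (P ++ y :: Q)) → v'.Perm (P ++ Q) →
            (X ++ (P ++ y :: Q)).length = k → tw ρ c (X ++ y :: v') ∈ S := by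
          intro P
          induction P using List.reverseRecOn with
          | nil =>
            intro X Q v' y hm hL hv hk
            simp only [List.nil_append] at hL hv hk
            have h1 := ihm Q.length (by simp at hm; omega) (X ++ [y]) Q v' rfl (by simpa using hL)
              hv (by simpa using hk)
            simpa using h1
          | append_singleton P a ihP =>
            intro X Q v' y hm hL hv hk
            have ha : a ∈ v' := hv.mem_iff.2 (by simp)
            obtain ⟨v1, v2, rfl⟩ := List.append_of_mem ha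
            have hv' : (v1 ++ v2).Perm (P ++ Q) := by
              have h1 : (a :: (v1 ++ v2)).Perm (a :: (P ++ Q)) := by
                refine (List.perm_middle.symm).trans (hv.trans ?_)
                rw [List.append_assoc, List.singleton_append]
                exact List.perm_middle
              exact h1.cons_inv
            have hmove : BMove (X ++ (P ++ [a] ++ y :: Q))
                (X ++ (P ++ y :: (y⁻¹ * a * y) :: Q)) := by
              have h1 := BMove.r (X ++ P) Q a y
              simpa using h1
            have hL' : Pre L₀ (X ++ (P ++ y :: (y⁻¹ * a * y) :: Q)) :=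
              hL.trans (Pre.of_reach (BReach.of_move hmove))
            have h1 := ihP X ((y⁻¹ * a * y) :: Q) (v1 ++ (y⁻¹ * a * y) :: v2) y
              (by simp at hm ⊢; omega) hL'
              ((List.perm_middle).trans ((List.Perm.cons _ hv').trans List.perm_middle.symm))
              (by simp at hk ⊢; omega)
            have e1 : tw ρ c (X ++ y :: (v1 ++ (y⁻¹ * a * y) :: v2)) =
                tw ρ c ((y⁻¹ * a * y) :: ((v2 ++ X) ++ y :: v1)) := by
              have h2 := tw_rot ρ c (X ++ y :: v1) ((y⁻¹ * a * y) :: v2)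
              simpa using h2
            have e2 : tw ρ c (X ++ y :: (v1 ++ a :: v2)) =
                tw ρ c (a :: ((v2 ++ X) ++ y :: v1)) := by
              have h2 := tw_rot ρ c (X ++ y :: v1) (a :: v2)
              simpa using h2
            rw [e1] at h1
            rw [e2]
            refine h.step hL (a := a) (b := y) (by simp) (v2 ++ X) v1 ?_ h1
            have hperm : (a :: ((v2 ++ X) ++ y :: v1)).Perm (X ++ (P ++ [a] ++ y :: Q)) := by
              have p1 : (a :: ((v2 ++ X) ++ y :: v1)).Perm (a :: y :: ((v1 ++ v2) ++ X)) := by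
                refine List.Perm.cons a (List.perm_middle.trans (List.Perm.cons y ?_))
                refine (List.perm_append_comm).trans ?_
                rw [List.append_assoc]
              have p2 : (a :: y :: ((v1 ++ v2) ++ X)).Perm (a :: y :: ((P ++ Q) ++ X)) :=
                List.Perm.cons a (List.Perm.cons y (List.Perm.append_right X hv'))
              have p3 : (X ++ (P ++ [a] ++ y :: Q)).Perm (a :: y :: ((P ++ Q) ++ X)) := by
                refine (List.perm_append_comm).trans ?_
                have p4 : (P ++ [a] ++ y :: Q).Perm (a :: y :: (P ++ Q)) := by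
                  rw [List.append_assoc, List.singleton_append]
                  refine List.perm_middle.trans (List.Perm.cons a List.perm_middle)
                exact List.Perm.append_right X p4
              exact p1.trans (p2.trans p3.symm)
            intro v hv1 hv2
            refine ih v.length ?_ _ hL v (hv1.trans hperm.subperm) rfl
            have h3 := hperm.length_eq
            simp only [List.length_cons, List.length_append] at h3 hk hv2 ⊢
            omega
        intro X Y v hY hL hv hk
        rcases v with _ | ⟨y, v'⟩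
        · have : Y = [] := hv.nil_eq.symm
          subst this
          rw [List.append_nil] at hL ⊢
          exact h.sorted' X hL
        · have hy : y ∈ Y := hv.subset (by simp)
          obtain ⟨P, Q, rfl⟩ := List.append_of_mem hy
          refine key2 P X Q v' y (by simp at hY; omega) hL ?_ hk
          exact (hv.trans List.perm_middle).cons_inv
    intro L hL w hw hk
    obtain ⟨L1, hp, hs⟩ := hw
    have hL1 : Pre L₀ L1 := hL.trans (Pre.sublist hs)
    have h1 := key L1.length [] L1 w rfl hL1 hp.symm (by
      rw [List.nil_append, hp.length_eq, hk])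
    simpa using h1

/-- all words in the letters of the list -/
theorem Sys.all_words (h : Sys S ρ L₀ c c' z z') (k : ℕ) : ∀ w : List G, (∀ x ∈ w, x ∈ L₀) →
    w.length = k → tw ρ c w ∈ S := by
  classical
  induction k using Nat.strong_induction_on with
  | _ k ih =>
    intro w hw hk
    by_cases hn : w.Nodup
    · exact h.words k L₀ (Pre.refl L₀) w (List.subperm_of_subset hn hw) hk
    · obtain ⟨v1, b, v2, v3, rfl⟩ := not_nodup_split w hn
      have hb : b ∈ L₀ := hw b (by simp)
      have e1 : tw ρ c (v1 ++ b :: (v2 ++ b :: v3)) = tw ρ c (b :: (v2 ++ b :: (v3 ++ v1))) := by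
        have h2 := tw_rot ρ c v1 (b :: (v2 ++ b :: v3))
        simpa using h2
      rw [e1, h.split (Pre.refl L₀) hb]
      simp only [List.length_append, List.length_cons] at hk
      refine S.mul_mem (ih _ ?_ _ ?_ rfl) (ih _ ?_ _ ?_ rfl)
      · simp only [List.length_cons]
        omega
      · intro x hx
        rcases List.mem_cons.1 hx with rfl | hx
        · exact hb
        · exact hw x (by simp [hx])
      · simp only [List.length_cons, List.length_append]
        omega
      · intro x hx
        rcases List.mem_cons.1 hx with rfl | hx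
        · exact hb
        · rcases List.mem_append.1 hx with hx | hx
          · exact hw x (by simp [hx])
          · exact hw x (by simp [hx])

end sys

theorem thm_Gen : St_Gen := by
  intro R _ G _ r S ρ L₀ c c' z z' h w hw
  have key : ∀ v : List G, (∀ x ∈ v, x ∈ L₀) → (wd ρ c v * ρ w).trace ∈ S := by
    induction hw using Subgroup.closure_induction_left with
    | one =>
      intro v hv
      rw [map_one, mul_one]
      exact h.all_words v.length v hv rfl
    | mul_left x hx y _ ih =>
      intro v hv
      have hx' : x ∈ L₀ := hx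
      have e : wd ρ c v * ρ (x * y) = c' x • (wd ρ c v * ρ y + wd ρ c (v ++ [x]) * ρ y) := by
        rw [map_mul, h.map_eq (Pre.refl L₀) hx', wd_snoc]
        simp only [smul_mul_assoc, mul_smul_comm]
        congr 1
        noncomm_ring
      rw [e, trace_smul, trace_add, smul_eq_mul]
      refine S.mul_mem (h.mem L₀ (Pre.refl L₀) x hx').2.1 (S.add_mem (ih v hv) (ih _ ?_))
      intro t ht
      rcases List.mem_append.1 ht with ht | ht
      · exact hv t ht
      · rw [List.mem_singleton.1 ht]
        exact hx'
    | inv_mul_cancel x hx y _ ih =>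
      intro v hv
      have hx' : x ∈ L₀ := hx
      have e : wd ρ c v * ρ (x⁻¹ * y) =
          c x • (wd ρ c v * ρ y - z' x • (wd ρ c (v ++ [x]) * ρ y)) := by
        rw [map_mul, h.map_inv (Pre.refl L₀) hx', wd_snoc]
        simp only [smul_mul_assoc, mul_smul_comm, sub_mul, mul_sub, one_mul, mul_assoc]
      obtain ⟨h1, h2, h3, h4⟩ := h.mem L₀ (Pre.refl L₀) x hx'
      rw [e, trace_smul, trace_sub, trace_smul, smul_eq_mul, smul_eq_mul]
      refine S.mul_mem h1 (S.sub_mem (ih v hv) (S.mul_mem h4 (ih _ ?_)))
      intro t ht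
      rcases List.mem_append.1 ht with ht | ht
      · exact hv t ht
      · rw [List.mem_singleton.1 ht]
        exact hx'
  have h1 := key [] (by simp)
  rwa [wd_nil, one_mul] at h1

end Pool.Agent.PRS
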