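import Pool.Agent.PRS.PosE

/-!
# Definiteness with one arbitrary generator
-/

set_option autoImplicit false

namespace Pool.Agent.PRS.Pos

open Matrix Pool.Agent.HZ Pool.Agent.PRS
open scoped ComplexOrder

variable {r : ℕ} {H : Matrix (Fin r) (Fin r) ℂ}

theorem line_ne_top (hr : 2 ≤ r) {x : Fin r → ℂ} (hx : x ≠ 0) :
    (ℂ ∙ x) ≠ ⊥ ∧ (ℂ ∙ x) ≠ ⊤ := by
  constructor
  · intro h
    have h1 := Submodule.mem_span_singleton_self (R := ℂ) x
    rw [h] at h1
    exact hx ((Submodule.mem_bot ℂ).mp h1)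
  · intro h
    obtain ⟨w, hw, hw'⟩ := exists_ker hr (star x)
    have h1 : w ∈ (ℂ ∙ x) := by
      rw [h]
      exact Submodule.mem_top
    obtain ⟨t, rfl⟩ := Submodule.mem_span_singleton.mp h1
    rw [dotProduct_smul, smul_eq_mul] at hw'
    rcases mul_eq_zero.mp hw' with h2 | h2
    · rw [h2, zero_smul] at hw
      exact hw rfl
    · exact hx (dotProduct_star_self_eq_zero.mp h2)

theorem mainX (hr : 2 ≤ r) {a : GL (Fin r) ℂ} {L : List (GL (Fin r) ℂ)}
    (hirr : Irr (Subgroup.closure ({a} ∪ {x | x ∈ L}))) (hPR : ∀ y ∈ L, PR y)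
    (hfin : ∀ (A : List (GL (Fin r) ℂ)) (y : GL (Fin r) ℂ), (A ++ [y]).Sublist L →
      Finite (Subgroup.closure {a * A.prod, y} : Subgroup (GL (Fin r) ℂ)))
    (hfin2 : ∀ (y y' : GL (Fin r) ℂ) (m : ℕ), [y, y'].Sublist L →
      Finite (Subgroup.closure {(a * (y * y' * y⁻¹)) ^ m * (y * y' * y⁻¹) *
        ((a * (y * y' * y⁻¹)) ^ m)⁻¹, y} : Subgroup (GL (Fin r) ℂ)))
    (hH : H.IsHermitian) (hU : IsUnit H)
    (ha : (a : Matrix (Fin r) (Fin r) ℂ)ᴴ * H * (a : Matrix (Fin r) (Fin r) ℂ) = H)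
    (hiso : ∀ y ∈ L, (y : Matrix (Fin r) (Fin r) ℂ)ᴴ * H * (y : Matrix (Fin r) (Fin r) ℂ) = H) :
    H.PosDef ∨ (-H).PosDef := by
  have D1 : ∀ y ∈ L, ∃ (c : ℂ) (u f : Fin r → ℂ), (y : Matrix (Fin r) (Fin r) ℂ) =
      c • (1 : Matrix (Fin r) (Fin r) ℂ) + vecMulVec u f ∧ (u ≠ 0 → f ≠ 0) := by
    intro y hy
    obtain ⟨c, u, f, h⟩ := (PR_iff y).mp (hPR y hy)
    by_cases hf0 : f = 0
    · refine ⟨c, 0, 0, ?_, fun h => absurd rfl h⟩
      rw [h, hf0]
      simp
    · exact ⟨c, u, f, h, fun _ => hf0⟩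
  choose! c u f hy huf using D1
  have hc0 : ∀ y ∈ L, c y ≠ 0 := fun y hyL => coef_ne hr y (hy y hyL)
  -- some letter is not scalar
  have hex : ∃ y ∈ L, u y ≠ 0 := by
    by_contra hno
    have h3 : ∀ y ∈ L, u y = 0 := by
      intro y hyL
      by_contra h
      exact hno ⟨y, hyL, h⟩
    have : Nonempty (Fin r) := ⟨⟨0, by omega⟩⟩
    obtain ⟨μ, hμ⟩ := Module.End.exists_eigenvalue (a : Matrix (Fin r) (Fin r) ℂ).mulVecLin
    obtain ⟨x, hx⟩ := hμ.exists_hasEigenvector
    have hx0 : x ≠ 0 := hx.2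
    have hax : (a : Matrix (Fin r) (Fin r) ℂ) *ᵥ x = μ • x := hx.apply_eq_smul
    have h4 : Stab (Subgroup.closure ({a} ∪ {x | x ∈ L})) (ℂ ∙ x) := by
      refine stab_closure ?_
      rintro g (hg | hg) v hv
      · rw [Set.mem_singleton_iff.mp hg]
        obtain ⟨t, rfl⟩ := Submodule.mem_span_singleton.mp hv
        rw [mulVec_smul, hax]
        exact Submodule.smul_mem _ _ (Submodule.smul_mem _ _
          (Submodule.mem_span_singleton_self _))
      · have hg' : g ∈ L := hg
        rw [hy g hg', pr_mulVec, h3 g hg', smul_zero, add_zero]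
        exact Submodule.smul_mem _ _ hv
    rcases hirr _ h4 with h5 | h5
    · exact (line_ne_top hr hx0).1 h5
    · exact (line_ne_top hr hx0).2 h5
  obtain ⟨y0, hy0, hu0⟩ := hex
  -- the order of `a`
  obtain ⟨N, hN, haN⟩ : ∃ N : ℕ, 0 < N ∧ (a : Matrix (Fin r) (Fin r) ℂ) ^ N = 1 := by
    have h1 := hfin [] y0 (by
      rw [List.nil_append]
      exact List.singleton_sublist.mpr hy0)
    rw [List.prod_nil, mul_one] at h1
    exact exists_pow _ (Subgroup.subset_closure (by simp) :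
      a ∈ Subgroup.closure ({a, y0} : Set (GL (Fin r) ℂ)))
  -- one letter
  have horb : ∀ b ∈ L, u b ≠ 0 → f b ⬝ᵥ u b ≠ 0 ∧
      (∃ k : ℂ, k ≠ 0 ∧ ∀ w, hf H (u b) w = k * (f b ⬝ᵥ w)) ∧ 0 < qf H (u b) * qf H (u b) := by
    intro b hb hub
    have h1 := hfin [] b (by
      rw [List.nil_append]
      exact List.singleton_sublist.mpr hb)
    rw [List.prod_nil, mul_one] at h1
    have h2 := isometry_closure (H := H) (S := ({a, b} : Set (GL (Fin r) ℂ))) (by
      rintro g (rfl | rfl)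
      · exact ha
      · exact hiso _ hb)
    obtain ⟨-, h4, h5, h6⟩ := orbit_sign hr hH hU _ h2
      (Subgroup.subset_closure (by simp) : b ∈ Subgroup.closure ({a, b} : Set (GL (Fin r) ℂ)))
      (hy b hb) hub (huf b hb hub)
    exact ⟨h4, h5, h6 (u b) (Submodule.subset_span
      ⟨1, Subgroup.one_mem _, by rw [Units.val_one, one_mulVec]⟩) hub⟩
  have D : Dat H L c u f := ⟨hy, huf, hc0, fun y hyL h => (horb y hyL h).2.1, hiso⟩
  have hself : ∀ b ∈ L, u b ≠ 0 → qf H (u b) ≠ 0 := by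
    intro b hb hub h
    have h1 := (horb b hb hub).2.2
    rw [h, mul_zero] at h1
    exact lt_irrefl _ h1
  -- symmetry of the relation
  have hsymm : ∀ i ∈ L, ∀ k ∈ L, u i ≠ 0 → u k ≠ 0 → ∀ t : ℕ,
      f i ⬝ᵥ (((a : Matrix (Fin r) (Fin r) ℂ) ^ t) *ᵥ u k) ≠ 0 → ∃ t' : ℕ,
      f k ⬝ᵥ (((a : Matrix (Fin r) (Fin r) ℂ) ^ t') *ᵥ u i) ≠ 0 := by
    intro i hi k hk hui huk t ht
    obtain ⟨κ, hκ, hκ'⟩ := (horb i hi hui).2.1
    obtain ⟨ν, hν, hν'⟩ := (horb k hk huk).2.1
    have h1 : hf H (u i) (((a : Matrix (Fin r) (Fin r) ℂ) ^ t) *ᵥ u k) ≠ 0 := by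
      rw [hκ']
      exact mul_ne_zero hκ ht
    refine ⟨(N - 1) * t, fun h2 => h1 ?_⟩
    have h3 := hν' (((a : Matrix (Fin r) (Fin r) ℂ) ^ ((N - 1) * t)) *ᵥ u i)
    rw [h2, mul_zero] at h3
    have h4 : hf H (((a : Matrix (Fin r) (Fin r) ℂ) ^ t) *ᵥ u k)
        (((a : Matrix (Fin r) (Fin r) ℂ) ^ t) *ᵥ
          (((a : Matrix (Fin r) (Fin r) ℂ) ^ ((N - 1) * t)) *ᵥ u i)) = 0 := by
      rw [hf_pow ha, h3]
    have h5 : ((a : Matrix (Fin r) (Fin r) ℂ) ^ t) *ᵥ
        (((a : Matrix (Fin r) (Fin r) ℂ) ^ ((N - 1) * t)) *ᵥ u i) = u i := by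
      rw [mulVec_mulVec, ← pow_add]
      have h6 : t + (N - 1) * t = N * t := by
        obtain ⟨N', rfl⟩ : ∃ N', N = N' + 1 := ⟨N - 1, by omega⟩
        rw [Nat.add_sub_cancel]
        ring
      rw [h6, pow_mul, haN, one_pow, one_mulVec]
    rw [h5] at h4
    rw [hf_conj hH, h4, star_zero]
  -- the signs of related vectors agree
  have hsign : ∀ i ∈ L, ∀ k ∈ L, u i ≠ 0 → u k ≠ 0 → ∀ t : ℕ,
      f i ⬝ᵥ (((a : Matrix (Fin r) (Fin r) ℂ) ^ t) *ᵥ u k) ≠ 0 →
      0 < qf H (u k) * qf H (u i) := by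
    intro i hi k hk hui huk t ht
    rcases pair_sublist hi hk with rfl | h | h
    · exact (horb i hi hui).2.2
    · exact rel_twist hr hH hU ha (hiso i hi) (hiso k hk) (hy i hi) (hy k hk) hui huk
        (huf k hk huk) (fun m => hfin2 i k m h) t ht
    · obtain ⟨t', ht'⟩ := hsymm i hi k hk hui huk t ht
      rw [mul_comm]
      exact rel_twist hr hH hU ha (hiso k hk) (hiso i hi) (hy k hk) (hy i hi) huk hui
        (huf i hi hui) (fun m => hfin2 k i m h) t' ht'
  -- the span of all vectors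
  have htop : Submodule.span ℂ {x | ∃ y ∈ L, ∃ t : ℕ,
      x = ((a : Matrix (Fin r) (Fin r) ℂ) ^ t) *ᵥ u y} = ⊤ := by
    have h1 : Stab (Subgroup.closure ({a} ∪ {x | x ∈ L})) (Submodule.span ℂ {x | ∃ y ∈ L, ∃ t : ℕ,
        x = ((a : Matrix (Fin r) (Fin r) ℂ) ^ t) *ᵥ u y}) := by
      refine stab_closure ?_
      rintro g (hg | hg) v hv
      · rw [Set.mem_singleton_iff.mp hg]
        induction hv using Submodule.span_induction with
        | mem v hv =>
          obtain ⟨y, hyL, t, rfl⟩ := hv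
          refine Submodule.subset_span ⟨y, hyL, t + 1, ?_⟩
          rw [pow_succ', mulVec_mulVec]
        | zero =>
          rw [mulVec_zero]
          exact Submodule.zero_mem _
        | add x y _ _ hx hy =>
          rw [mulVec_add]
          exact Submodule.add_mem _ hx hy
        | smul t x _ hx =>
          rw [mulVec_smul]
          exact Submodule.smul_mem _ _ hx
      · have hg' : g ∈ L := hg
        rw [hy g hg', pr_mulVec]
        exact Submodule.add_mem _ (Submodule.smul_mem _ _ hv) (Submodule.smul_mem _ _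
          (Submodule.subset_span ⟨g, hg', 0, by rw [pow_zero, one_mulVec]⟩))
    rcases hirr _ h1 with h2 | h2
    · exfalso
      have h3 : u y0 ∈ Submodule.span ℂ {x | ∃ y ∈ L, ∃ t : ℕ,
          x = ((a : Matrix (Fin r) (Fin r) ℂ) ^ t) *ᵥ u y} :=
        Submodule.subset_span ⟨y0, hy0, 0, by rw [pow_zero, one_mulVec]⟩
      rw [h2] at h3
      exact hu0 ((Submodule.mem_bot ℂ).mp h3)
    · exact h2
  -- the vectors of positive sign
  have hstab : Stab (Subgroup.closure ({a} ∪ {x | x ∈ L}))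
      (Submodule.span ℂ {x | ∃ y ∈ L, 0 < qf H (u y) ∧ ∃ t : ℕ,
        x = ((a : Matrix (Fin r) (Fin r) ℂ) ^ t) *ᵥ u y}) := by
    refine stab_closure ?_
    rintro g (hg | hg) v hv
    · rw [Set.mem_singleton_iff.mp hg]
      induction hv using Submodule.span_induction with
      | mem v hv =>
        obtain ⟨y, hyL, hq, t, rfl⟩ := hv
        refine Submodule.subset_span ⟨y, hyL, hq, t + 1, ?_⟩
        rw [pow_succ', mulVec_mulVec]
      | zero =>
        rw [mulVec_zero]
        exact Submodule.zero_mem _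
      | add x y _ _ hx hy =>
        rw [mulVec_add]
        exact Submodule.add_mem _ hx hy
      | smul t x _ hx =>
        rw [mulVec_smul]
        exact Submodule.smul_mem _ _ hx
    · have hg' : g ∈ L := hg
      rw [hy g hg', pr_mulVec]
      refine Submodule.add_mem _ (Submodule.smul_mem _ _ hv) ?_
      induction hv using Submodule.span_induction with
      | mem v hv =>
        obtain ⟨y, hyL, hq, t, rfl⟩ := hv
        by_cases h1 : f g ⬝ᵥ (((a : Matrix (Fin r) (Fin r) ℂ) ^ t) *ᵥ u y) = 0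
        · rw [h1, zero_smul]
          exact Submodule.zero_mem _
        by_cases h2 : u g = 0
        · rw [h2, smul_zero]
          exact Submodule.zero_mem _
        have h3 : u y ≠ 0 := by
          intro h
          rw [h, mulVec_zero, dotProduct_zero] at h1
          exact h1 rfl
        have h4 := hsign g hg' y hyL h2 h3 t h1
        exact Submodule.smul_mem _ _ (Submodule.subset_span
          ⟨g, hg', (mul_pos_iff_of_pos_left hq).mp h4, 0, by rw [pow_zero, one_mulVec]⟩)
      | zero =>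
        rw [dotProduct_zero, zero_smul]
        exact Submodule.zero_mem _
      | add a b _ _ ha hb =>
        rw [dotProduct_add, add_smul]
        exact Submodule.add_mem _ ha hb
      | smul t a _ ha =>
        rw [dotProduct_smul, smul_assoc]
        exact Submodule.smul_mem _ _ ha
  rcases hirr _ hstab with h1 | h1
  · -- no positive sign
    right
    have h2 : ∀ y ∈ L, u y ≠ 0 → 0 < qf (-H) (u y) := by
      intro y hyL hu
      rw [qf_neg]
      rcases lt_or_gt_of_ne (hself y hyL hu) with h | h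
      · linarith
      · exfalso
        have h3 : u y ∈ Submodule.span ℂ {x | ∃ y ∈ L, 0 < qf H (u y) ∧ ∃ t : ℕ,
            x = ((a : Matrix (Fin r) (Fin r) ℂ) ^ t) *ᵥ u y} :=
          Submodule.subset_span ⟨y, hyL, h, 0, by rw [pow_zero, one_mulVec]⟩
        rw [h1] at h3
        exact hu ((Submodule.mem_bot ℂ).mp h3)
    have hneg : ∀ g : GL (Fin r) ℂ, (g : Matrix (Fin r) (Fin r) ℂ)ᴴ * H *
        (g : Matrix (Fin r) (Fin r) ℂ) = H → (g : Matrix (Fin r) (Fin r) ℂ)ᴴ * (-H) *
        (g : Matrix (Fin r) (Fin r) ℂ) = -H := by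
      intro g hg
      rw [mul_neg, neg_mul, hg]
    refine posDef_of_posX hr hH.neg hU.neg ⟨hy, huf, hc0, fun y hyL h => ?_,
      fun y hyL => hneg y (hiso y hyL)⟩ hN haN (hneg a ha) hfin h2 htop
    obtain ⟨k, hk, hk'⟩ := (horb y hyL h).2.1
    refine ⟨-k, neg_ne_zero.mpr hk, fun w => ?_⟩
    have h3 := hk' w
    unfold hf at h3 ⊢
    rw [neg_mulVec, dotProduct_neg, h3, neg_mul]
  · left
    refine posDef_of_posX hr hH hU D hN haN ha hfin ?_ htop
    intro b hb hub
    rcases lt_or_gt_of_ne (hself b hb hub) with h | h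
    · exfalso
      refine huf b hb hub ?_
      have h2 : ∀ v : Fin r → ℂ, f b ⬝ᵥ v = 0 := by
        intro v
        have hv : v ∈ Submodule.span ℂ {x | ∃ y ∈ L, 0 < qf H (u y) ∧ ∃ t : ℕ,
            x = ((a : Matrix (Fin r) (Fin r) ℂ) ^ t) *ᵥ u y} := by
          rw [h1]
          exact Submodule.mem_top
        induction hv using Submodule.span_induction with
        | mem v hv =>
          obtain ⟨y, hyL, hq, t, rfl⟩ := hv
          by_contra h3
          have h4 : u y ≠ 0 := by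
            intro h
            rw [h, mulVec_zero, dotProduct_zero] at h3
            exact h3 rfl
          have h5 := hsign b hb y hyL hub h4 t h3
          have h6 := (mul_pos_iff_of_pos_left hq).mp h5
          exact absurd h (not_lt.mpr h6.le)
        | zero => exact dotProduct_zero _
        | add a b _ _ ha hb => rw [dotProduct_add, ha, hb, add_zero]
        | smul t a _ ha => rw [dotProduct_smul, ha, smul_zero]
      funext i
      have h3 := h2 (Pi.single i 1)
      rw [dotProduct_single, mul_one] at h3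
      exact h3
    · exact h

/-- rank one -/
theorem rank_one {H : Matrix (Fin 1) (Fin 1) ℂ} (hH : H.IsHermitian) (hU : IsUnit H) :
    ∃ s : ℝ, ((s : ℂ) • H).PosDef := by
  have h1 : star (H 0 0) = H 0 0 := hH.apply 0 0
  have h2 : H 0 0 = ((H 0 0).re : ℂ) := (Complex.conj_eq_iff_re.mp h1).symm
  have h3 : H 0 0 ≠ 0 := by
    intro h3
    have h4 := (Matrix.isUnit_iff_isUnit_det H).mp hU
    rw [Matrix.det_fin_one, h3] at h4
    exact not_isUnit_zero h4
  have h4 : (H 0 0).re ≠ 0 := by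
    intro h4
    rw [h4] at h2
    exact h3 h2
  refine ⟨(H 0 0).re, Matrix.PosDef.of_dotProduct_mulVec_pos ?_ fun x hx => ?_⟩
  · have h5 : ((H 0 0).re : ℂ) • Hᴴ = ((H 0 0).re : ℂ) • H := by rw [hH.eq]
    unfold Matrix.IsHermitian
    rw [conjTranspose_smul, ← h5, Complex.star_def, Complex.conj_ofReal]
  · have h5 : x 0 ≠ 0 := by
      intro h5
      refine hx ?_
      funext i
      rw [Subsingleton.elim i 0, h5]
      rfl
    have h6 : star x ⬝ᵥ ((((H 0 0).re : ℂ) • H) *ᵥ x) =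
        (((H 0 0).re * (H 0 0).re * Complex.normSq (x 0) : ℝ) : ℂ) := by
      rw [smul_mulVec, dotProduct_smul]
      simp only [dotProduct, mulVec, Finset.univ_unique, Fin.default_eq_zero, Fin.isValue,
        Finset.sum_singleton, Pi.star_apply, smul_eq_mul]
      rw [h2]
      push_cast
      rw [← Complex.mul_conj (x 0)]
      simp only [Complex.ofReal_re, Complex.star_def]
      ring
    rw [h6]
    exact_mod_cast mul_pos (mul_self_pos.mpr h4) (Complex.normSq_pos.mpr h5)

end Pool.Agent.PRS.Pos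

namespace Pool.Agent.PRS

open Matrix Pool.Agent.HZ Pool.Agent.PRS.Pos
open scoped ComplexOrder

/-- **POSX** -/
theorem thm_POSX : St_PosX := by
  intro r a L H hr hirr hPR hfin hfin2 hH hU ha hiso
  rcases Nat.lt_or_ge r 2 with h | h
  · obtain rfl : r = 1 := by omega
    exact rank_one hH hU
  · rcases mainX h hirr hPR hfin hfin2 hH hU ha hiso with h1 | h1
    · refine ⟨1, ?_⟩
      rw [Complex.ofReal_one, one_smul]
      exact h1
    · refine ⟨-1, ?_⟩
      rw [Complex.ofReal_neg, Complex.ofReal_one, neg_smul, one_smul]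
      exact h1

end Pool.Agent.PRS
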