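import Pool.Agent.PRS.Rk

/-!
# Definiteness, part 1: one finite group

The form of a matrix; for a finite group `K` of isometries containing a multiple of a
pseudo-reflection `c + u ⊗ f` the form is definite on the span of the orbit of `u`.
-/

set_option autoImplicit false

namespace Pool.Agent.PRS.Pos

open Matrix Pool.Agent.HZ Pool.Agent.PRS
open scoped ComplexOrder

variable {r : ℕ}

/-- the sesquilinear form of a matrix -/
def hf (H : Matrix (Fin r) (Fin r) ℂ) (v w : Fin r → ℂ) : ℂ := star v ⬝ᵥ (H *ᵥ w)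

/-- the real part of the quadratic form -/
def qf (H : Matrix (Fin r) (Fin r) ℂ) (v : Fin r → ℂ) : ℝ := (hf H v v).re

variable {H : Matrix (Fin r) (Fin r) ℂ}

theorem hf_add_left (v v' w : Fin r → ℂ) : hf H (v + v') w = hf H v w + hf H v' w := by
  unfold hf
  rw [star_add, add_dotProduct]

theorem hf_add_right (v w w' : Fin r → ℂ) : hf H v (w + w') = hf H v w + hf H v w' := by
  unfold hf
  rw [mulVec_add, dotProduct_add]

theorem hf_smul_left (a : ℂ) (v w : Fin r → ℂ) : hf H (a • v) w = star a * hf H v w := by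
  unfold hf
  rw [star_smul, smul_dotProduct, smul_eq_mul]

theorem hf_smul_right (a : ℂ) (v w : Fin r → ℂ) : hf H v (a • w) = a * hf H v w := by
  unfold hf
  rw [mulVec_smul, dotProduct_smul, smul_eq_mul]

theorem hf_zero_left (w : Fin r → ℂ) : hf H 0 w = 0 := by
  unfold hf
  rw [star_zero, zero_dotProduct]

theorem hf_zero_right (v : Fin r → ℂ) : hf H v 0 = 0 := by
  unfold hf
  rw [mulVec_zero, dotProduct_zero]

theorem hf_sub_right (v w w' : Fin r → ℂ) : hf H v (w - w') = hf H v w - hf H v w' := by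
  unfold hf
  rw [mulVec_sub, dotProduct_sub]

theorem hf_conj (hH : H.IsHermitian) (v w : Fin r → ℂ) : hf H w v = star (hf H v w) := by
  unfold hf
  rw [star_dotProduct, star_mulVec, hH.eq, ← dotProduct_mulVec]

theorem hf_inv {g : Matrix (Fin r) (Fin r) ℂ} (hg : gᴴ * H * g = H) (v w : Fin r → ℂ) :
    hf H (g *ᵥ v) (g *ᵥ w) = hf H v w := by
  unfold hf
  rw [star_mulVec, ← dotProduct_mulVec, mulVec_mulVec, mulVec_mulVec, hg]

theorem hf_self (hH : H.IsHermitian) (v : Fin r → ℂ) : hf H v v = (qf H v : ℂ) := by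
  have h := hf_conj hH v v
  exact (Complex.conj_eq_iff_re.mp h.symm).symm

theorem qf_pos (hH : H.PosDef) {v : Fin r → ℂ} (hv : v ≠ 0) : 0 < qf H v := by
  have h := hH.dotProduct_mulVec_pos hv
  exact (Complex.pos_iff.mp h).1

theorem hf_ne (hH : H.PosDef) {v : Fin r → ℂ} (hv : v ≠ 0) : hf H v v ≠ 0 := by
  have h := hH.dotProduct_mulVec_pos hv
  exact h.ne'

/-- a finite group preserves a positive definite form -/
theorem exists_form (K : Subgroup (GL (Fin r) ℂ)) [Finite K] :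
    ∃ h : Matrix (Fin r) (Fin r) ℂ, h.PosDef ∧
      ∀ γ ∈ K, (γ : Matrix (Fin r) (Fin r) ℂ)ᴴ * h * (γ : Matrix (Fin r) (Fin r) ℂ) = h := by
  classical
  have := Fintype.ofFinite K
  refine ⟨∑ γ : K, ((γ : GL (Fin r) ℂ) : Matrix (Fin r) (Fin r) ℂ)ᴴ *
    ((γ : GL (Fin r) ℂ) : Matrix (Fin r) (Fin r) ℂ), ?_, ?_⟩
  · have h1 : ∀ γ : K, (((γ : GL (Fin r) ℂ) : Matrix (Fin r) (Fin r) ℂ)ᴴ *
        ((γ : GL (Fin r) ℂ) : Matrix (Fin r) (Fin r) ℂ)).PosSemidef :=
      fun γ => Matrix.posSemidef_conjTranspose_mul_self _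
    rw [← Finset.add_sum_erase _ _ (Finset.mem_univ (1 : K))]
    refine Matrix.PosDef.add_posSemidef ?_ ?_
    · rw [OneMemClass.coe_one, Units.val_one, conjTranspose_one, one_mul]
      exact Matrix.PosDef.one
    · exact Matrix.posSemidef_sum _ fun γ _ => h1 γ
  · intro γ hγ
    rw [Finset.mul_sum, Finset.sum_mul]
    refine Fintype.sum_equiv (Equiv.mulRight (⟨γ, hγ⟩ : K)) _ _ fun δ => ?_
    simp only [Equiv.coe_mulRight, Subgroup.coe_mul, Units.val_mul, conjTranspose_mul, mul_assoc]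

/-- the kernel of a linear form -/
theorem exists_ker (hr : 2 ≤ r) (f : Fin r → ℂ) : ∃ w : Fin r → ℂ, w ≠ 0 ∧ f ⬝ᵥ w = 0 := by
  let i : Fin r := ⟨0, by omega⟩
  let j : Fin r := ⟨1, by omega⟩
  have hij : i ≠ j := by
    intro h
    have := congrArg Fin.val h
    simp [i, j] at this
  by_cases h : f i = 0
  · refine ⟨Pi.single i 1, ?_, ?_⟩
    · intro h1
      have := congrFun h1 i
      simp at this
    · rw [dotProduct_single, h, zero_mul]
  · refine ⟨Pi.single i (f j) - Pi.single j (f i), ?_, ?_⟩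
    · intro h1
      have h2 := congrFun h1 j
      rw [Pi.sub_apply, Pi.single_eq_of_ne hij.symm, Pi.single_eq_same, zero_sub, Pi.zero_apply,
        neg_eq_zero] at h2
      exact h h2
    · rw [dotProduct_sub, dotProduct_single, dotProduct_single]
      ring

theorem exists_dot {f : Fin r → ℂ} (hf0 : f ≠ 0) : ∃ v : Fin r → ℂ, f ⬝ᵥ v = 1 := by
  obtain ⟨i, hi⟩ := Function.ne_iff.mp hf0
  refine ⟨Pi.single i (f i)⁻¹, ?_⟩
  rw [dotProduct_single]
  exact mul_inv_cancel₀ hi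

theorem pr_mulVec (c : ℂ) (u f v : Fin r → ℂ) :
    (c • (1 : Matrix (Fin r) (Fin r) ℂ) + vecMulVec u f) *ᵥ v = c • v + (f ⬝ᵥ v) • u := by
  rw [add_mulVec, smul_mulVec, one_mulVec, vecMulVec_mulVec]
  simp

/-- an invariant form of `c + u ⊗ f` -/
theorem exists_kap {G y : Matrix (Fin r) (Fin r) ℂ} {c : ℂ} {u f : Fin r → ℂ}
    (hG : yᴴ * G * y = G) (hy : y = c • (1 : Matrix (Fin r) (Fin r) ℂ) + vecMulVec u f)
    (hc : star c * c = 1) (hf0 : f ≠ 0) : ∃ k : ℂ, ∀ w, hf G u w = k * (f ⬝ᵥ w) := by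
  obtain ⟨v0, hv0⟩ := exists_dot hf0
  have hc0 : c ≠ 0 := by
    rintro rfl
    rw [mul_zero] at hc
    exact zero_ne_one hc
  have h1 : ∀ w, f ⬝ᵥ w = 0 → hf G u w = 0 := by
    intro w hw
    have h2 := hf_inv hG v0 w
    rw [hy, pr_mulVec, pr_mulVec, hw, hv0, zero_smul, add_zero, one_smul, hf_add_left,
      hf_smul_left, hf_smul_right, hf_smul_right, ← mul_assoc, hc, one_mul] at h2
    have h3 : c * hf G u w = 0 := by
      linear_combination h2
    exact (mul_eq_zero.mp h3).resolve_left hc0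
  refine ⟨hf G u v0, fun w => ?_⟩
  have h2 := h1 (w - (f ⬝ᵥ w) • v0) (by
    rw [dotProduct_sub, dotProduct_smul, hv0, smul_eq_mul, mul_one, sub_self])
  rw [hf_sub_right, hf_smul_right] at h2
  linear_combination h2

theorem nondeg (hH : H.IsHermitian) (hU : IsUnit H) {u : Fin r → ℂ} (h : ∀ w, hf H u w = 0) :
    u = 0 := by
  have h1 : H *ᵥ u = 0 := by
    have h2 := hf_conj hH u (H *ᵥ u)
    rw [h, star_zero] at h2
    exact dotProduct_star_self_eq_zero.mp h2
  have h2 := Matrix.mulVec_injective_of_isUnit hU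
  exact h2 (by rw [h1, mulVec_zero])

/-- **one finite group** -/
theorem orbit_sign (hr : 2 ≤ r) (hH : H.IsHermitian) (hU : IsUnit H)
    (K : Subgroup (GL (Fin r) ℂ)) [Finite K]
    (hK : ∀ g ∈ K, (g : Matrix (Fin r) (Fin r) ℂ)ᴴ * H * (g : Matrix (Fin r) (Fin r) ℂ) = H)
    {y : GL (Fin r) ℂ} (hyK : y ∈ K) {c : ℂ} {u f : Fin r → ℂ}
    (hy : (y : Matrix (Fin r) (Fin r) ℂ) = c • (1 : Matrix (Fin r) (Fin r) ℂ) + vecMulVec u f)
    (hu : u ≠ 0) (hf0 : f ≠ 0) :
    star c * c = 1 ∧ f ⬝ᵥ u ≠ 0 ∧ (∃ k : ℂ, k ≠ 0 ∧ ∀ w, hf H u w = k * (f ⬝ᵥ w)) ∧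
      ∀ w ∈ Submodule.span ℂ {x | ∃ g ∈ K, x = (g : Matrix (Fin r) (Fin r) ℂ) *ᵥ u},
        w ≠ 0 → 0 < qf H u * qf H w := by
  obtain ⟨h', hP, hI⟩ := exists_form K
  have hc : star c * c = 1 := by
    obtain ⟨w, hw, hw'⟩ := exists_ker hr f
    have h1 := hf_inv (hI y hyK) w w
    rw [hy, pr_mulVec, hw', zero_smul, add_zero, hf_smul_left, hf_smul_right, ← mul_assoc] at h1
    exact mul_right_cancel₀ (hf_ne hP hw) (h1.trans (one_mul _).symm)
  obtain ⟨k', hk'⟩ := exists_kap (hI y hyK) hy hc hf0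
  obtain ⟨k, hk⟩ := exists_kap (hK y hyK) hy hc hf0
  have h1 := hf_ne hP hu
  have h2 : k' ≠ 0 := by
    rintro rfl
    rw [hk', zero_mul] at h1
    exact h1 rfl
  have h3 : f ⬝ᵥ u ≠ 0 := by
    intro h3
    rw [hk', h3, mul_zero] at h1
    exact h1 rfl
  have h4 : k ≠ 0 := by
    rintro rfl
    exact hu (nondeg hH hU fun w => by rw [hk, zero_mul])
  refine ⟨hc, h3, ⟨k, h4, hk⟩, ?_⟩
  have h5 : ∀ w, hf H u w = k / k' * hf h' u w := by
    intro w
    rw [hk, hk']
    field_simp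
  have h6 : 0 < qf h' u := qf_pos hP hu
  have h7 : k / k' = ((qf H u / qf h' u : ℝ) : ℂ) := by
    have h8 := h5 u
    rw [hf_self hH, hf_self hP.isHermitian] at h8
    have h9 : (qf h' u : ℂ) ≠ 0 := by exact_mod_cast h6.ne'
    push_cast
    rw [h8]
    field_simp
  have h8 : ∀ w ∈ Submodule.span ℂ {x | ∃ g ∈ K, x = (g : Matrix (Fin r) (Fin r) ℂ) *ᵥ u},
      ∀ x, hf H w x = k / k' * hf h' w x := by
    intro w hw
    induction hw using Submodule.span_induction with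
    | mem w hw =>
      obtain ⟨g, hg, rfl⟩ := hw
      intro x
      have h9 : x = (g : Matrix (Fin r) (Fin r) ℂ) *ᵥ
          (((g⁻¹ : GL (Fin r) ℂ) : Matrix (Fin r) (Fin r) ℂ) *ᵥ x) := by
        rw [mulVec_mulVec, ← Units.val_mul, mul_inv_cancel, Units.val_one, one_mulVec]
      rw [h9, hf_inv (hK g hg), hf_inv (hI g hg), h5]
    | zero =>
      intro x
      rw [hf_zero_left, hf_zero_left, mul_zero]
    | add v w _ _ hv hw =>
      intro x
      rw [hf_add_left, hf_add_left, hv, hw, mul_add]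
    | smul a w _ hw =>
      intro x
      rw [hf_smul_left, hf_smul_left, hw]
      ring
  intro w hw hw0
  have h9 := h8 w hw w
  rw [h7, hf_self hH, hf_self hP.isHermitian] at h9
  have h10 : qf H w = qf H u / qf h' u * qf h' w := by exact_mod_cast h9
  have h11 : qf H u ≠ 0 := by
    intro h11
    have h12 := hf_self hH u
    rw [hk, h11, Complex.ofReal_zero] at h12
    exact mul_ne_zero h4 h3 h12
  have h12 := qf_pos hP hw0
  rw [h10]
  have h13 : qf H u * (qf H u / qf h' u * qf h' w) = (qf H u * qf H u) * (qf h' w / qf h' u) := by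
    ring
  rw [h13]
  exact mul_pos (mul_self_pos.mpr h11) (div_pos h12 h6)

end Pool.Agent.PRS.Pos
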