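import Pool.Agent.PRS.PosA

/-!
# Definiteness, part 2: independent sublists
-/

set_option autoImplicit false

namespace Pool.Agent.PRS.Pos

open Matrix Pool.Agent.HZ Pool.Agent.PRS
open scoped ComplexOrder

variable {r : ℕ} {H : Matrix (Fin r) (Fin r) ℂ}

theorem isometry_closure {S : Set (GL (Fin r) ℂ)}
    (h : ∀ g ∈ S, (g : Matrix (Fin r) (Fin r) ℂ)ᴴ * H * (g : Matrix (Fin r) (Fin r) ℂ) = H) :
    ∀ g ∈ Subgroup.closure S,
      (g : Matrix (Fin r) (Fin r) ℂ)ᴴ * H * (g : Matrix (Fin r) (Fin r) ℂ) = H := by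
  intro g hg
  induction hg using Subgroup.closure_induction with
  | mem g hg => exact h g hg
  | one => rw [Units.val_one, conjTranspose_one, one_mul, mul_one]
  | mul a b _ _ ha hb =>
    rw [Units.val_mul, conjTranspose_mul]
    calc (b : Matrix (Fin r) (Fin r) ℂ)ᴴ * (a : Matrix (Fin r) (Fin r) ℂ)ᴴ * H *
          ((a : Matrix (Fin r) (Fin r) ℂ) * (b : Matrix (Fin r) (Fin r) ℂ)) =
        (b : Matrix (Fin r) (Fin r) ℂ)ᴴ * ((a : Matrix (Fin r) (Fin r) ℂ)ᴴ * H *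
          (a : Matrix (Fin r) (Fin r) ℂ)) * (b : Matrix (Fin r) (Fin r) ℂ) := by
          simp only [mul_assoc]
      _ = H := by rw [ha, hb]
  | inv a _ ha =>
    have h1 : (a : Matrix (Fin r) (Fin r) ℂ) * ((a⁻¹ : GL (Fin r) ℂ) : Matrix (Fin r) (Fin r) ℂ) =
        1 := by
      rw [← Units.val_mul, mul_inv_cancel, Units.val_one]
    calc ((a⁻¹ : GL (Fin r) ℂ) : Matrix (Fin r) (Fin r) ℂ)ᴴ * H *
          ((a⁻¹ : GL (Fin r) ℂ) : Matrix (Fin r) (Fin r) ℂ) =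
        ((a⁻¹ : GL (Fin r) ℂ) : Matrix (Fin r) (Fin r) ℂ)ᴴ *
          ((a : Matrix (Fin r) (Fin r) ℂ)ᴴ * H * (a : Matrix (Fin r) (Fin r) ℂ)) *
          ((a⁻¹ : GL (Fin r) ℂ) : Matrix (Fin r) (Fin r) ℂ) := by rw [ha]
      _ = ((a : Matrix (Fin r) (Fin r) ℂ) *
            ((a⁻¹ : GL (Fin r) ℂ) : Matrix (Fin r) (Fin r) ℂ))ᴴ * H *
          ((a : Matrix (Fin r) (Fin r) ℂ) *
            ((a⁻¹ : GL (Fin r) ℂ) : Matrix (Fin r) (Fin r) ℂ)) := by
          rw [conjTranspose_mul]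
          simp only [mul_assoc]
      _ = H := by rw [h1, conjTranspose_one, one_mul, mul_one]

theorem isometry_prod {A : List (GL (Fin r) ℂ)}
    (h : ∀ g ∈ A, (g : Matrix (Fin r) (Fin r) ℂ)ᴴ * H * (g : Matrix (Fin r) (Fin r) ℂ) = H) :
    (A.prod : Matrix (Fin r) (Fin r) ℂ)ᴴ * H * (A.prod : Matrix (Fin r) (Fin r) ℂ) = H := by
  refine isometry_closure (S := {x | x ∈ A}) h _ ?_
  exact Subgroup.list_prod_mem _ fun x hx => Subgroup.subset_closure hx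

theorem stab_closure {S : Set (GL (Fin r) ℂ)} {W : Submodule ℂ (Fin r → ℂ)}
    (h : ∀ g ∈ S, ∀ v ∈ W, (g : Matrix (Fin r) (Fin r) ℂ) *ᵥ v ∈ W) :
    Stab (Subgroup.closure S) W := by
  intro g hg
  induction hg using Subgroup.closure_induction with
  | mem g hg => exact h g hg
  | one =>
    intro v hv
    rw [Units.val_one, one_mulVec]
    exact hv
  | mul a b _ _ ha hb =>
    intro v hv
    rw [Units.val_mul, ← mulVec_mulVec]
    exact ha _ (hb v hv)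
  | inv a _ ha =>
    intro v hv
    let T : W →ₗ[ℂ] W := (Matrix.mulVecLin (a : Matrix (Fin r) (Fin r) ℂ)).restrict ha
    have hT : Function.Injective T := by
      intro x y hxy
      have h1 := congrArg Subtype.val hxy
      exact Subtype.ext (Matrix.mulVec_injective_of_isUnit a.isUnit h1)
    obtain ⟨w, hw⟩ := (LinearMap.injective_iff_surjective.mp hT) ⟨v, hv⟩
    have h1 : (a : Matrix (Fin r) (Fin r) ℂ) *ᵥ (w : Fin r → ℂ) = v := congrArg Subtype.val hw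
    rw [← h1, mulVec_mulVec, ← Units.val_mul, inv_mul_cancel, Units.val_one, one_mulVec]
    exact w.2

variable {c : GL (Fin r) ℂ → ℂ} {u f : GL (Fin r) ℂ → (Fin r → ℂ)}

/-- span of the vectors of a list -/
def VA (u : GL (Fin r) ℂ → (Fin r → ℂ)) (A : List (GL (Fin r) ℂ)) : Submodule ℂ (Fin r → ℂ) :=
  Submodule.span ℂ {x | ∃ y ∈ A, x = u y}

theorem mem_VA {A : List (GL (Fin r) ℂ)} {y : GL (Fin r) ℂ} (h : y ∈ A) : u y ∈ VA u A :=
  Submodule.subset_span ⟨y, h, rfl⟩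

theorem VA_mono {A B : List (GL (Fin r) ℂ)} (h : ∀ y ∈ A, y ∈ B) : VA u A ≤ VA u B :=
  Submodule.span_mono (by
    rintro _ ⟨y, hy, rfl⟩
    exact ⟨y, h y hy, rfl⟩)

theorem mem_VA_snoc {A : List (GL (Fin r) ℂ)} {k : GL (Fin r) ℂ} {x : Fin r → ℂ}
    (h : x ∈ VA u (A ++ [k])) : ∃ a ∈ VA u A, ∃ t : ℂ, x = a + t • u k := by
  have h1 : VA u (A ++ [k]) ≤ VA u A ⊔ Submodule.span ℂ {u k} := by
    refine Submodule.span_le.mpr ?_
    rintro _ ⟨y, hy, rfl⟩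
    rw [List.mem_append, List.mem_singleton] at hy
    rcases hy with hy | rfl
    · exact Submodule.mem_sup_left (mem_VA hy)
    · exact Submodule.mem_sup_right (Submodule.mem_span_singleton_self _)
  obtain ⟨a, ha, b, hb, rfl⟩ := Submodule.mem_sup.mp (h1 h)
  obtain ⟨t, rfl⟩ := Submodule.mem_span_singleton.mp hb
  exact ⟨a, ha, t, rfl⟩

theorem prod_mod {A : List (GL (Fin r) ℂ)}
    (hy : ∀ y ∈ A, (y : Matrix (Fin r) (Fin r) ℂ) =
      c y • (1 : Matrix (Fin r) (Fin r) ℂ) + vecMulVec (u y) (f y)) (x : Fin r → ℂ) :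
    (A.prod : Matrix (Fin r) (Fin r) ℂ) *ᵥ x - (A.map c).prod • x ∈ VA u A := by
  induction A with
  | nil =>
    rw [List.prod_nil, Units.val_one, one_mulVec, List.map_nil, List.prod_nil, one_smul, sub_self]
    exact Submodule.zero_mem _
  | cons a A ih =>
    rw [List.prod_cons, Units.val_mul, ← mulVec_mulVec, List.map_cons, List.prod_cons]
    nth_rewrite 1 [hy a (by simp)]
    rw [pr_mulVec]
    have h1 := VA_mono (u := u) (A := A) (B := a :: A) (fun y hy => by simp [hy])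
      (ih fun y hy' => hy y (by simp [hy']))
    have h2 : c a • ((A.prod : GL (Fin r) ℂ) : Matrix (Fin r) (Fin r) ℂ) *ᵥ x +
        (f a ⬝ᵥ ((A.prod : GL (Fin r) ℂ) : Matrix (Fin r) (Fin r) ℂ) *ᵥ x) • u a -
        (c a * (A.map c).prod) • x =
        c a • (((A.prod : GL (Fin r) ℂ) : Matrix (Fin r) (Fin r) ℂ) *ᵥ x - (A.map c).prod • x) +
        (f a ⬝ᵥ ((A.prod : GL (Fin r) ℂ) : Matrix (Fin r) (Fin r) ℂ) *ᵥ x) • u a := by
      rw [smul_sub, smul_smul]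
      abel
    rw [h2]
    exact Submodule.add_mem _ (Submodule.smul_mem _ _ h1)
      (Submodule.smul_mem _ _ (mem_VA (by simp)))

theorem prod_VA {A : List (GL (Fin r) ℂ)}
    (hy : ∀ y ∈ A, (y : Matrix (Fin r) (Fin r) ℂ) =
      c y • (1 : Matrix (Fin r) (Fin r) ℂ) + vecMulVec (u y) (f y)) {x : Fin r → ℂ}
    (hx : x ∈ VA u A) : (A.prod : Matrix (Fin r) (Fin r) ℂ) *ᵥ x ∈ VA u A := by
  have h := Submodule.add_mem _ (prod_mod hy x) (Submodule.smul_mem _ (A.map c).prod hx)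
  rw [sub_add_cancel] at h
  exact h

theorem prod_fix {A : List (GL (Fin r) ℂ)}
    (hy : ∀ y ∈ A, (y : Matrix (Fin r) (Fin r) ℂ) =
      c y • (1 : Matrix (Fin r) (Fin r) ℂ) + vecMulVec (u y) (f y)) {x : Fin r → ℂ}
    (hx : ∀ y ∈ A, f y ⬝ᵥ x = 0) :
    (A.prod : Matrix (Fin r) (Fin r) ℂ) *ᵥ x = (A.map c).prod • x := by
  induction A with
  | nil => rw [List.prod_nil, Units.val_one, one_mulVec, List.map_nil, List.prod_nil, one_smul]
  | cons a A ih =>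
    rw [List.prod_cons, Units.val_mul, ← mulVec_mulVec, List.map_cons, List.prod_cons,
      ih (fun y hy' => hy y (by simp [hy'])) (fun y hy' => hx y (by simp [hy'])), mulVec_smul,
      hy a (by simp), pr_mulVec, hx a (by simp), zero_smul, add_zero, smul_smul, mul_comm]

theorem prod_ne {A : List (GL (Fin r) ℂ)} (h : ∀ y ∈ A, c y ≠ 0) : (A.map c).prod ≠ 0 := by
  rw [Ne, List.prod_eq_zero_iff]
  intro h1
  obtain ⟨y, hy, hy'⟩ := List.mem_map.mp h1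
  exact h y hy hy'

/-- the induction hypothesis -/
structure Good (H : Matrix (Fin r) (Fin r) ℂ) (c : GL (Fin r) ℂ → ℂ)
    (u f : GL (Fin r) ℂ → (Fin r → ℂ)) (A : List (GL (Fin r) ℂ)) : Prop where
  pos : ∀ v ∈ VA u A, v ≠ 0 → 0 < qf H v
  proj : ∀ x, ∃ v ∈ VA u A, ∀ z ∈ VA u A, hf H z (x - v) = 0
  fix : ∀ w, (A.prod : Matrix (Fin r) (Fin r) ℂ) *ᵥ w = (A.map c).prod • w →
    ∀ j ∈ A, f j ⬝ᵥ w = 0
  ne : ∀ j ∈ A, u j ≠ 0

theorem good_nil : Good H c u f [] := by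
  have h0 : ∀ v ∈ VA u [], v = 0 := by
    intro v hv
    have h1 : {x | ∃ y ∈ ([] : List (GL (Fin r) ℂ)), x = u y} = ∅ := by
      ext x
      simp
    unfold VA at hv
    rw [h1, Submodule.span_empty] at hv
    exact (Submodule.mem_bot ℂ).mp hv
  refine ⟨fun v hv hv0 => absurd (h0 v hv) hv0, fun x => ⟨0, Submodule.zero_mem _, fun z hz => ?_⟩,
    fun w _ j hj => absurd hj List.not_mem_nil, fun j hj => absurd hj List.not_mem_nil⟩
  rw [h0 z hz, hf_zero_left]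

theorem pow_mulVec {P : Matrix (Fin r) (Fin r) ℂ} {b : ℂ} {x : Fin r → ℂ} (h : P *ᵥ x = b • x)
    (t : ℕ) : (P ^ t) *ᵥ x = b ^ t • x := by
  induction t with
  | zero => rw [pow_zero, pow_zero, one_mulVec, one_smul]
  | succ t ih => rw [pow_succ', ← mulVec_mulVec, ih, mulVec_smul, h, smul_smul, pow_succ]

/-- the average over a cyclic group -/
theorem avg_fix {P : Matrix (Fin r) (Fin r) ℂ} {b : ℂ} {m : ℕ} (hb : b ≠ 0) (hP : P ^ m = 1)
    (hbm : b ^ m = 1) (x : Fin r → ℂ) :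
    P *ᵥ (∑ t ∈ Finset.range m, (b⁻¹) ^ t • ((P ^ t) *ᵥ x)) =
      b • ∑ t ∈ Finset.range m, (b⁻¹) ^ t • ((P ^ t) *ᵥ x) := by
  have h1 : P *ᵥ (∑ t ∈ Finset.range m, (b⁻¹) ^ t • ((P ^ t) *ᵥ x)) =
      b • ∑ t ∈ Finset.range m, (b⁻¹) ^ (t + 1) • ((P ^ (t + 1)) *ᵥ x) := by
    rw [← Matrix.mulVecLin_apply, map_sum, Finset.smul_sum]
    refine Finset.sum_congr rfl fun t _ => ?_
    rw [Matrix.mulVecLin_apply, mulVec_smul, mulVec_mulVec, ← pow_succ', smul_smul]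
    congr 1
    rw [pow_succ]
    field_simp
  rw [h1]
  congr 1
  have h2 := Finset.sum_range_succ' (fun t => (b⁻¹) ^ t • ((P ^ t) *ᵥ x)) m
  rw [Finset.sum_range_succ] at h2
  have h3 : (b⁻¹) ^ m • ((P ^ m) *ᵥ x) = (b⁻¹) ^ 0 • ((P ^ 0) *ᵥ x) := by
    rw [hP, inv_pow, hbm, inv_one, pow_zero, pow_zero]
  rw [h3] at h2
  exact (add_right_cancel h2).symm

end Pool.Agent.PRS.Pos
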