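import Pool.Agent.PRS.PosB

/-!
# Definiteness, part 3: one more vector
-/

set_option autoImplicit false

namespace Pool.Agent.PRS.Pos

open Matrix Pool.Agent.HZ Pool.Agent.PRS
open scoped ComplexOrder

variable {r : ℕ} {H : Matrix (Fin r) (Fin r) ℂ}
variable {c : GL (Fin r) ℂ → ℂ} {u f : GL (Fin r) ℂ → (Fin r → ℂ)}

/-- data for the entries of a list -/
structure Dat (H : Matrix (Fin r) (Fin r) ℂ) (L : List (GL (Fin r) ℂ)) (c : GL (Fin r) ℂ → ℂ)
    (u f : GL (Fin r) ℂ → (Fin r → ℂ)) : Prop where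
  eq : ∀ y ∈ L, (y : Matrix (Fin r) (Fin r) ℂ) =
      c y • (1 : Matrix (Fin r) (Fin r) ℂ) + vecMulVec (u y) (f y)
  uf : ∀ y ∈ L, u y ≠ 0 → f y ≠ 0
  c0 : ∀ y ∈ L, c y ≠ 0
  kap : ∀ y ∈ L, u y ≠ 0 → ∃ k : ℂ, k ≠ 0 ∧ ∀ w, hf H (u y) w = k * (f y ⬝ᵥ w)
  iso : ∀ y ∈ L, (y : Matrix (Fin r) (Fin r) ℂ)ᴴ * H * (y : Matrix (Fin r) (Fin r) ℂ) = H

theorem orth {L A : List (GL (Fin r) ℂ)} (D : Dat H L c u f) (hA : ∀ y ∈ A, y ∈ L)
    (hne : ∀ y ∈ A, u y ≠ 0) {x : Fin r → ℂ} :
    (∀ y ∈ A, f y ⬝ᵥ x = 0) ↔ ∀ z ∈ VA u A, hf H z x = 0 := by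
  constructor
  · intro h z hz
    induction hz using Submodule.span_induction with
    | mem z hz =>
      obtain ⟨y, hy, rfl⟩ := hz
      obtain ⟨k, -, hk⟩ := D.kap y (hA y hy) (hne y hy)
      rw [hk, h y hy, mul_zero]
    | zero => exact hf_zero_left _
    | add a b _ _ ha hb => rw [hf_add_left, ha, hb, add_zero]
    | smul t a _ ha => rw [hf_smul_left, ha, mul_zero]
  · intro h y hy
    obtain ⟨k, hk0, hk⟩ := D.kap y (hA y hy) (hne y hy)
    have h1 := h _ (mem_VA hy)
    rw [hk] at h1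
    exact (mul_eq_zero.mp h1).resolve_left hk0

theorem exists_pow (K : Subgroup (GL (Fin r) ℂ)) [Finite K] {g : GL (Fin r) ℂ} (hg : g ∈ K) :
    ∃ m : ℕ, 0 < m ∧ (g : Matrix (Fin r) (Fin r) ℂ) ^ m = 1 := by
  obtain ⟨m, hm, hm'⟩ := (isOfFinOrder_iff_pow_eq_one.mp (isOfFinOrder_of_finite (⟨g, hg⟩ : K)))
  refine ⟨m, hm, ?_⟩
  have h1 := congrArg Subtype.val hm'
  rw [Subgroup.coe_pow] at h1
  have h2 : g ^ m = 1 := h1
  rw [← Units.val_pow_eq_pow_val, h2, Units.val_one]

theorem step (hr : 2 ≤ r) (hH : H.IsHermitian) (hU : IsUnit H) {L A : List (GL (Fin r) ℂ)}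
    {k : GL (Fin r) ℂ} (D : Dat H L c u f) (hA : ∀ y ∈ A, y ∈ L) (hk : k ∈ L)
    (G : Good H c u f A) (hkA : u k ∉ VA u A)
    (hfin : Finite (Subgroup.closure {A.prod, k} : Subgroup (GL (Fin r) ℂ)))
    (hpos : 0 < qf H (u k)) : Good H c u f (A ++ [k]) := by
  have hk0 : u k ≠ 0 := by
    intro h
    rw [h] at hkA
    exact hkA (Submodule.zero_mem _)
  have hb0 : (A.map c).prod ≠ 0 := prod_ne fun y hy => D.c0 y (hA y hy)
  have hAe : ∀ y ∈ A, (y : Matrix (Fin r) (Fin r) ℂ) =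
      c y • (1 : Matrix (Fin r) (Fin r) ℂ) + vecMulVec (u y) (f y) := fun y hy => D.eq y (hA y hy)
  obtain ⟨v, hv, hv'⟩ := G.proj (u k)
  obtain ⟨w, hw⟩ : ∃ w, w = u k - v := ⟨_, rfl⟩
  have huk : u k = v + w := by rw [hw, add_sub_cancel]
  rw [← hw] at hv'
  have hw0 : w ≠ 0 := by
    intro h
    rw [h, add_zero] at huk
    rw [huk] at hkA
    exact hkA hv
  have hfw : ∀ y ∈ A, f y ⬝ᵥ w = 0 := (orth D hA G.ne).mpr hv'
  have hPw : (A.prod : Matrix (Fin r) (Fin r) ℂ) *ᵥ w = (A.map c).prod • w := prod_fix hAe hfw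
  -- `w` is an average of the orbit of `u k`
  have hmemP : A.prod ∈ Subgroup.closure ({A.prod, k} : Set (GL (Fin r) ℂ)) :=
    Subgroup.subset_closure (by simp)
  have hmemk : k ∈ Subgroup.closure ({A.prod, k} : Set (GL (Fin r) ℂ)) :=
    Subgroup.subset_closure (by simp)
  obtain ⟨m, hm, hPm⟩ := exists_pow _ hmemP
  have hbm : (A.map c).prod ^ m = 1 := by
    have h1 := pow_mulVec hPw m
    rw [hPm, one_mulVec] at h1
    have h2 : ((A.map c).prod ^ m - 1) • w = 0 := by
      rw [sub_smul, one_smul, ← h1, sub_self]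
    exact sub_eq_zero.mp ((smul_eq_zero.mp h2).resolve_right hw0)
  obtain ⟨avg, havg⟩ : ∃ avg : (Fin r → ℂ) → (Fin r → ℂ), ∀ x, avg x =
      ∑ t ∈ Finset.range m, ((A.map c).prod⁻¹) ^ t •
        (((A.prod : Matrix (Fin r) (Fin r) ℂ) ^ t) *ᵥ x) := ⟨_, fun _ => rfl⟩
  have hz : avg v = 0 := by
    by_contra hz
    have h1 : (A.prod : Matrix (Fin r) (Fin r) ℂ) *ᵥ (avg v) = (A.map c).prod • avg v := by
      rw [havg]
      exact avg_fix hb0 hPm hbm v
    have h2 := (orth D hA G.ne).mp (G.fix _ h1)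
    have h3 : avg v ∈ VA u A := by
      rw [havg]
      refine Submodule.sum_mem _ fun t ht => Submodule.smul_mem _ _ ?_
      clear ht
      induction t with
      | zero =>
        rw [pow_zero, one_mulVec]
        exact hv
      | succ t ih =>
        rw [pow_succ', ← mulVec_mulVec]
        exact prod_VA hAe ih
    have h4 := G.pos _ h3 hz
    have h5 := h2 _ h3
    unfold qf at h4
    rw [h5] at h4
    exact lt_irrefl _ h4
  have hzw : avg w = (m : ℂ) • w := by
    rw [havg]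
    have h1 : ∀ t ∈ Finset.range m, ((A.map c).prod⁻¹) ^ t •
        (((A.prod : Matrix (Fin r) (Fin r) ℂ) ^ t) *ᵥ w) = w := by
      intro t _
      rw [pow_mulVec hPw, smul_smul, ← mul_pow, inv_mul_cancel₀ hb0, one_pow, one_smul]
    rw [Finset.sum_congr rfl h1, Finset.sum_const, Finset.card_range, Nat.cast_smul_eq_nsmul]
  have hzu : avg (u k) = (m : ℂ) • w := by
    have h1 : avg (u k) = avg v + avg w := by
      rw [havg, havg, havg, ← Finset.sum_add_distrib]
      refine Finset.sum_congr rfl fun t _ => ?_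
      rw [huk, mulVec_add, smul_add]
    rw [h1, hz, zero_add, hzw]
  have hspan : w ∈ Submodule.span ℂ {x | ∃ g ∈ Subgroup.closure ({A.prod, k} :
      Set (GL (Fin r) ℂ)), x = (g : Matrix (Fin r) (Fin r) ℂ) *ᵥ u k} := by
    have h1 : avg (u k) ∈ Submodule.span ℂ {x | ∃ g ∈ Subgroup.closure ({A.prod, k} :
        Set (GL (Fin r) ℂ)), x = (g : Matrix (Fin r) (Fin r) ℂ) *ᵥ u k} := by
      rw [havg]
      refine Submodule.sum_mem _ fun t _ => Submodule.smul_mem _ _ (Submodule.subset_span ?_)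
      exact ⟨A.prod ^ t, Subgroup.pow_mem _ hmemP t, by rw [Units.val_pow_eq_pow_val]⟩
    have hm0 : (m : ℂ) ≠ 0 := by exact_mod_cast hm.ne'
    have h2 : w = (m : ℂ)⁻¹ • avg (u k) := by
      rw [hzu, smul_smul, inv_mul_cancel₀ hm0, one_smul]
    rw [h2]
    exact Submodule.smul_mem _ _ h1
  have hKiso := isometry_closure (H := H) (S := ({A.prod, k} : Set (GL (Fin r) ℂ))) (by
    rintro g (rfl | rfl)
    · exact isometry_prod fun y hy => D.iso y (hA y hy)
    · exact D.iso _ hk)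
  obtain ⟨-, -, -, h4⟩ := orbit_sign hr hH hU _ hKiso hmemk (D.eq k hk) hk0 (D.uf k hk hk0)
  have hwpos : 0 < qf H w := by
    have h5 := h4 w hspan hw0
    exact (mul_pos_iff_of_pos_left hpos).mp h5
  have hww : hf H w w ≠ 0 := by
    rw [hf_self hH]
    exact_mod_cast hwpos.ne'
  have hvw : ∀ p ∈ VA u A, hf H w p = 0 := by
    intro p hp
    rw [hf_conj hH p w, hv' p hp, star_zero]
  have hsub := VA_mono (u := u) (A := A) (B := A ++ [k]) (fun y hy => by simp [hy])
  have hkm : u k ∈ VA u (A ++ [k]) := mem_VA (by simp)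
  -- the elements of the new space
  have hdec : ∀ x ∈ VA u (A ++ [k]), ∃ p ∈ VA u A, ∃ t : ℂ, x = p + t • w := by
    intro x hx
    obtain ⟨a, ha, t, rfl⟩ := mem_VA_snoc hx
    refine ⟨a + t • v, Submodule.add_mem _ ha (Submodule.smul_mem _ _ hv), t, ?_⟩
    rw [huk, smul_add, add_assoc]
  refine ⟨?_, ?_, ?_, ?_⟩
  · intro x hx hx0
    obtain ⟨p, hp, t, rfl⟩ := hdec x hx
    have h5 : qf H (p + t • w) = qf H p + Complex.normSq t * qf H w := by
      have h6 : hf H (p + t • w) (p + t • w) = hf H p p + (star t * t) * hf H w w := by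
        rw [hf_add_left, hf_add_right, hf_add_right, hf_smul_left, hf_smul_left, hf_smul_right,
          hf_smul_right, hv' p hp, hvw p hp]
        ring
      have h7 : star t * t = ((Complex.normSq t : ℝ) : ℂ) := by
        rw [Complex.star_def, mul_comm, Complex.mul_conj]
      rw [h7, hf_self hH, hf_self hH p, hf_self hH w] at h6
      exact_mod_cast h6
    rw [h5]
    by_cases hp0 : p = 0
    · have ht : t ≠ 0 := by
        rintro rfl
        rw [hp0, zero_smul, add_zero] at hx0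
        exact hx0 rfl
      have h8 : qf H p = 0 := by
        unfold qf
        rw [hp0, hf_zero_left]
        rfl
      rw [h8, zero_add]
      exact mul_pos (Complex.normSq_pos.mpr ht) hwpos
    · exact add_pos_of_pos_of_nonneg (G.pos p hp hp0)
        (mul_nonneg (Complex.normSq_nonneg t) hwpos.le)
  · intro x
    obtain ⟨a, ha, ha'⟩ := G.proj x
    refine ⟨a + (hf H w x / hf H w w) • w, ?_, ?_⟩
    · refine Submodule.add_mem _ (hsub ha) (Submodule.smul_mem _ _ ?_)
      rw [hw]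
      exact Submodule.sub_mem _ hkm (hsub hv)
    · intro z hz
      obtain ⟨p, hp, t, rfl⟩ := hdec z hz
      have h5 : x - (a + (hf H w x / hf H w w) • w) = (x - a) - (hf H w x / hf H w w) • w := by
        abel
      rw [h5, hf_add_left, hf_sub_right, ha' p hp, hf_smul_right, hv' p hp, hf_smul_left,
        hf_sub_right, hf_sub_right, hvw a ha, hf_smul_right, div_mul_cancel₀ _ hww]
      ring
  · intro x hx
    rw [List.prod_append, List.prod_singleton, Units.val_mul, ← mulVec_mulVec, List.map_append,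
      List.prod_append, List.map_singleton, List.prod_singleton, D.eq k hk, pr_mulVec, mulVec_add,
      mulVec_smul, mulVec_smul] at hx
    have h5 := prod_mod hAe x
    have h6 := prod_mod hAe (u k)
    have h7 : ((f k ⬝ᵥ x) * (A.map c).prod) • u k ∈ VA u A := by
      have h8 : ((f k ⬝ᵥ x) * (A.map c).prod) • u k =
          -(c k • ((A.prod : Matrix (Fin r) (Fin r) ℂ) *ᵥ x - (A.map c).prod • x)) -
          (f k ⬝ᵥ x) • ((A.prod : Matrix (Fin r) (Fin r) ℂ) *ᵥ u k - (A.map c).prod • u k) := by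
        have h9 : c k • (A.prod : Matrix (Fin r) (Fin r) ℂ) *ᵥ x =
            ((A.map c).prod * c k) • x - (f k ⬝ᵥ x) • (A.prod : Matrix (Fin r) (Fin r) ℂ) *ᵥ u k :=
          eq_sub_of_add_eq hx
        rw [smul_sub, smul_sub, smul_smul, smul_smul, h9, mul_comm (c k) (A.map c).prod]
        abel
      rw [h8]
      exact Submodule.sub_mem _ (Submodule.neg_mem _ (Submodule.smul_mem _ _ h5))
        (Submodule.smul_mem _ _ h6)
    have h8 : f k ⬝ᵥ x = 0 := by
      by_contra h8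
      have h9 : (f k ⬝ᵥ x) * (A.map c).prod ≠ 0 := mul_ne_zero h8 hb0
      have h10 := Submodule.smul_mem _ ((f k ⬝ᵥ x) * (A.map c).prod)⁻¹ h7
      rw [smul_smul, inv_mul_cancel₀ h9, one_smul] at h10
      exact hkA h10
    rw [h8, zero_smul, add_zero, mul_comm, ← smul_smul] at hx
    have h9 := smul_right_injective _ (D.c0 k hk) hx
    intro j hj
    rw [List.mem_append, List.mem_singleton] at hj
    rcases hj with hj | rfl
    · exact G.fix x h9 j hj
    · exact h8
  · intro j hj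
    rw [List.mem_append, List.mem_singleton] at hj
    rcases hj with hj | rfl
    · exact G.ne j hj
    · exact hk0

end Pool.Agent.PRS.Pos
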