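import Pool.Agent.PRS.Defs

/-!
# One arbitrary generator: the definiteness of the form (statement)
-/

set_option autoImplicit false

namespace Pool.Agent.PRS

open Matrix Pool.Agent.HZ
open scoped ComplexOrder

/-- **POSX**.  `a` is the image of `x_0`, `L` the list of the images of `x_1, ..., x_n`.
PROOF. `a ^ N = 1` (group `⟨a, y⟩`, `A = []`; if `L = []` then `r = 1`).  Fix `α` with `α ^ N = 1`;
`p = ∑ (t < N) α ^ (-t) a ^ t`, `w_j = p u_j`; `h (p u, x) = N h (u, x)` if `a x = α x`.  For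
every sublist `S` of `L` with independent `w_j` the form is positive definite on the span of the
`w_j`: induction, `w_k = v + v'`, `c = a * S.prod`, the eigenspace `F` of `c` for `b α` is
`{x | a x = α x, f_j x = 0 (j ∈ S)}`, the projection of `u_k` on it is a multiple of `v'`.  The sum
over all `α` gives the whole space. -/
def St_PosX : Prop := ∀ (r : ℕ) (a : GL (Fin r) ℂ) (L : List (GL (Fin r) ℂ))
    (H : Matrix (Fin r) (Fin r) ℂ), 0 < r →
    Irr (Subgroup.closure ({a} ∪ {x | x ∈ L})) → (∀ y ∈ L, PR y) →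
    (∀ (A : List (GL (Fin r) ℂ)) (y : GL (Fin r) ℂ), (A ++ [y]).Sublist L →
      Finite (Subgroup.closure {a * A.prod, y} : Subgroup (GL (Fin r) ℂ))) →
    (∀ (y y' : GL (Fin r) ℂ) (m : ℕ), [y, y'].Sublist L →
      Finite (Subgroup.closure {(a * (y * y' * y⁻¹)) ^ m * (y * y' * y⁻¹) *
        ((a * (y * y' * y⁻¹)) ^ m)⁻¹, y} : Subgroup (GL (Fin r) ℂ))) →
    H.IsHermitian → IsUnit H →
    (a : Matrix (Fin r) (Fin r) ℂ)ᴴ * H * (a : Matrix (Fin r) (Fin r) ℂ) = H →
    (∀ y ∈ L, (y : Matrix (Fin r) (Fin r) ℂ)ᴴ * H * (y : Matrix (Fin r) (Fin r) ℂ) = H) →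
    ∃ s : ℝ, ((s : ℂ) • H).PosDef

end Pool.Agent.PRS
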