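import Pool.Agent.PRS.POS
import Pool.Agent.PRS.StP

/-!
# Definiteness with one arbitrary generator, part 1: one eigenvalue
-/

set_option autoImplicit false

namespace Pool.Agent.PRS.Pos

open Matrix Pool.Agent.HZ Pool.Agent.PRS
open scoped ComplexOrder

variable {r : ℕ} {H : Matrix (Fin r) (Fin r) ℂ}
variable {c : GL (Fin r) ℂ → ℂ} {u f : GL (Fin r) ℂ → (Fin r → ℂ)}

/-- `m` times the projection on the eigenspace of `b` -/
noncomputable def pj (P : Matrix (Fin r) (Fin r) ℂ) (m : ℕ) (b : ℂ) :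
    (Fin r → ℂ) →ₗ[ℂ] (Fin r → ℂ) :=
  ∑ t ∈ Finset.range m, (b⁻¹) ^ t • (P ^ t).mulVecLin

variable {P : Matrix (Fin r) (Fin r) ℂ} {m : ℕ} {b : ℂ}

theorem pj_apply (x : Fin r → ℂ) :
    pj P m b x = ∑ t ∈ Finset.range m, (b⁻¹) ^ t • ((P ^ t) *ᵥ x) := by
  unfold pj
  rw [LinearMap.sum_apply]
  rfl

theorem pj_eig (hb : b ≠ 0) (hP : P ^ m = 1) (hbm : b ^ m = 1) (x : Fin r → ℂ) :
    P *ᵥ (pj P m b x) = b • pj P m b x := by
  rw [pj_apply]
  exact avg_fix hb hP hbm x

theorem pj_of_eig (hb : b ≠ 0) {x : Fin r → ℂ} (h : P *ᵥ x = b • x) :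
    pj P m b x = (m : ℂ) • x := by
  rw [pj_apply]
  have h1 : ∀ t ∈ Finset.range m, (b⁻¹) ^ t • ((P ^ t) *ᵥ x) = x := by
    intro t _
    rw [pow_mulVec h, smul_smul, ← mul_pow, inv_mul_cancel₀ hb, one_pow, one_smul]
  rw [Finset.sum_congr rfl h1, Finset.sum_const, Finset.card_range, Nat.cast_smul_eq_nsmul]

theorem pj_comm (x : Fin r → ℂ) : pj P m b (P *ᵥ x) = P *ᵥ (pj P m b x) := by
  rw [pj_apply, pj_apply, ← Matrix.mulVecLin_apply P (∑ t ∈ Finset.range m, _), map_sum]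
  refine Finset.sum_congr rfl fun t _ => ?_
  rw [Matrix.mulVecLin_apply, mulVec_smul, mulVec_mulVec, mulVec_mulVec, ← pow_succ', ← pow_succ]

theorem pj_comm' (hb : b ≠ 0) (hP : P ^ m = 1) (hbm : b ^ m = 1) (x : Fin r → ℂ) :
    pj P m b (P *ᵥ x) = b • pj P m b x := by
  rw [pj_comm, pj_eig hb hP hbm]

theorem hf_pow {a : Matrix (Fin r) (Fin r) ℂ} (ha : aᴴ * H * a = H) (t : ℕ) (v w : Fin r → ℂ) :
    hf H ((a ^ t) *ᵥ v) ((a ^ t) *ᵥ w) = hf H v w := by
  induction t with
  | zero => rw [pow_zero, one_mulVec, one_mulVec]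
  | succ t ih => rw [pow_succ', ← mulVec_mulVec, ← mulVec_mulVec, hf_inv ha, ih]

theorem hf_pj (hP : Pᴴ * H * P = H) (hb : star b * b = 1) {x : Fin r → ℂ} (h : P *ᵥ x = b • x)
    (v : Fin r → ℂ) : hf H (pj P m b v) x = (m : ℂ) * hf H v x := by
  have hb0 : b ≠ 0 := by
    rintro rfl
    rw [mul_zero] at hb
    exact zero_ne_one hb
  have hb1 : star b⁻¹ * b⁻¹ = 1 := by
    rw [star_inv₀, ← mul_inv, hb, inv_one]
  have h1 : ∀ s : Finset ℕ, hf H (∑ t ∈ s, (b⁻¹) ^ t • ((P ^ t) *ᵥ v)) x =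
      (s.card : ℂ) * hf H v x := by
    intro s
    induction s using Finset.induction_on with
    | empty => rw [Finset.sum_empty, hf_zero_left, Finset.card_empty, Nat.cast_zero, zero_mul]
    | insert t s ht ih =>
      rw [Finset.sum_insert ht, hf_add_left, ih, Finset.card_insert_of_notMem ht, hf_smul_left]
      have h2 : hf H ((P ^ t) *ᵥ v) x = (b⁻¹) ^ t * hf H v x := by
        have h3 : x = (b⁻¹) ^ t • ((P ^ t) *ᵥ x) := by
          rw [pow_mulVec h, smul_smul, ← mul_pow, inv_mul_cancel₀ hb0, one_pow, one_smul]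
        nth_rewrite 1 [h3]
        rw [hf_smul_right, hf_pow hP]
      rw [h2, ← mul_assoc, star_pow, ← mul_pow, hb1, one_pow]
      push_cast
      ring
  rw [pj_apply, h1, Finset.card_range]

theorem star_mul_self_of_pow (hm : 0 < m) (hbm : b ^ m = 1) : star b * b = 1 := by
  have h1 : ‖b‖ = 1 := Complex.norm_eq_one_of_pow_eq_one hbm hm.ne'
  rw [Complex.star_def, Complex.conj_mul', h1]
  norm_num

/-- the components of the vectors -/
noncomputable def wv (a : GL (Fin r) ℂ) (N : ℕ) (α : ℂ) (u : GL (Fin r) ℂ → (Fin r → ℂ))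
    (y : GL (Fin r) ℂ) : Fin r → ℂ := pj (a : Matrix (Fin r) (Fin r) ℂ) N α (u y)

theorem wv_zero {a : GL (Fin r) ℂ} {N : ℕ} {α : ℂ} {y : GL (Fin r) ℂ} (h : u y = 0) :
    wv a N α u y = 0 := by
  unfold wv
  rw [h, map_zero]

/-- the induction hypothesis, for one eigenvalue `α` of `a` -/
structure GoodX (H : Matrix (Fin r) (Fin r) ℂ) (a : GL (Fin r) ℂ) (N : ℕ) (α : ℂ)
    (c : GL (Fin r) ℂ → ℂ) (u f : GL (Fin r) ℂ → (Fin r → ℂ)) (A : List (GL (Fin r) ℂ)) :
    Prop where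
  pos : ∀ v ∈ VA (wv a N α u) A, v ≠ 0 → 0 < qf H v
  proj : ∀ x, ∃ v ∈ VA (wv a N α u) A, ∀ z ∈ VA (wv a N α u) A,
    hf H z (x - v) = 0
  fix : ∀ x, pj (a : Matrix (Fin r) (Fin r) ℂ) N α
    ((A.prod : Matrix (Fin r) (Fin r) ℂ) *ᵥ x - (A.map c).prod • x) = 0 →
    ∀ j ∈ A, f j ⬝ᵥ x = 0
  ne : ∀ j ∈ A, wv a N α u j ≠ 0

theorem goodX_nil (a : GL (Fin r) ℂ) (N : ℕ) (α : ℂ) : GoodX H a N α c u f [] := by
  have h0 : ∀ v ∈ VA (wv a N α u) [], v = 0 := by
    intro v hv
    have h1 : {x | ∃ y ∈ ([] : List (GL (Fin r) ℂ)), x = wv a N α u y} = ∅ := by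
      ext x
      simp
    unfold VA at hv
    rw [h1, Submodule.span_empty] at hv
    exact (Submodule.mem_bot ℂ).mp hv
  refine ⟨fun v hv hv0 => absurd (h0 v hv) hv0, fun x => ⟨0, Submodule.zero_mem _, fun z hz => ?_⟩,
    fun w _ j hj => absurd hj List.not_mem_nil, fun j hj => absurd hj List.not_mem_nil⟩
  rw [h0 z hz, hf_zero_left]

/-- data for the arbitrary generator -/
structure DatA (H : Matrix (Fin r) (Fin r) ℂ) (a : GL (Fin r) ℂ) (N : ℕ) (α : ℂ) : Prop where
  iso : (a : Matrix (Fin r) (Fin r) ℂ)ᴴ * H * (a : Matrix (Fin r) (Fin r) ℂ) = H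
  pos : 0 < N
  powa : (a : Matrix (Fin r) (Fin r) ℂ) ^ N = 1
  pow : α ^ N = 1

section

variable {a : GL (Fin r) ℂ} {N : ℕ} {α : ℂ}

theorem DatA.ne (E : DatA H a N α) : α ≠ 0 := by
  rintro rfl
  have h1 := E.pow
  rw [zero_pow E.pos.ne'] at h1
  exact zero_ne_one h1

theorem DatA.star (E : DatA H a N α) : star α * α = 1 := star_mul_self_of_pow E.pos E.pow

theorem DatA.eig (E : DatA H a N α) (x : Fin r → ℂ) :
    (a : Matrix (Fin r) (Fin r) ℂ) *ᵥ (pj (a : Matrix (Fin r) (Fin r) ℂ) N α x) =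
      α • pj (a : Matrix (Fin r) (Fin r) ℂ) N α x :=
  pj_eig E.ne E.powa E.pow x

theorem DatA.mem (E : DatA H a N α) {A : List (GL (Fin r) ℂ)} {z : Fin r → ℂ}
    (hz : z ∈ VA (wv a N α u) A) : (a : Matrix (Fin r) (Fin r) ℂ) *ᵥ z = α • z := by
  induction hz using Submodule.span_induction with
  | mem z hz =>
    obtain ⟨y, hy, rfl⟩ := hz
    exact E.eig _
  | zero => rw [mulVec_zero, smul_zero]
  | add x y _ _ hx hy => rw [mulVec_add, hx, hy, smul_add]
  | smul t x _ hx => rw [mulVec_smul, hx, smul_comm]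

theorem DatA.hf (E : DatA H a N α) {x : Fin r → ℂ}
    (hx : (a : Matrix (Fin r) (Fin r) ℂ) *ᵥ x = α • x) (v : Fin r → ℂ) :
    Pos.hf H (pj (a : Matrix (Fin r) (Fin r) ℂ) N α v) x = (N : ℂ) * Pos.hf H v x :=
  hf_pj E.iso E.star hx v

theorem DatA.hfw (E : DatA H a N α) {x : Fin r → ℂ}
    (hx : (a : Matrix (Fin r) (Fin r) ℂ) *ᵥ x = α • x) (y : GL (Fin r) ℂ) :
    Pos.hf H (wv a N α u y) x = (N : ℂ) * Pos.hf H (u y) x := E.hf hx (u y)

theorem DatA.eigw (E : DatA H a N α) (y : GL (Fin r) ℂ) :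
    (a : Matrix (Fin r) (Fin r) ℂ) *ᵥ (wv a N α u y) = α • wv a N α u y := E.eig (u y)

theorem orthX {L A : List (GL (Fin r) ℂ)} (E : DatA H a N α) (D : Dat H L c u f)
    (hA : ∀ y ∈ A, y ∈ L) (hne : ∀ y ∈ A, wv a N α u y ≠ 0) {x : Fin r → ℂ}
    (hx : (a : Matrix (Fin r) (Fin r) ℂ) *ᵥ x = α • x) :
    (∀ y ∈ A, f y ⬝ᵥ x = 0) ↔ ∀ z ∈ VA (wv a N α u) A, hf H z x = 0 := by
  have hu : ∀ y ∈ A, u y ≠ 0 := by
    intro y hy h
    exact hne y hy (wv_zero h)
  have hN : (N : ℂ) ≠ 0 := by exact_mod_cast E.pos.ne'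
  constructor
  · intro h z hz
    induction hz using Submodule.span_induction with
    | mem z hz =>
      obtain ⟨y, hy, rfl⟩ := hz
      obtain ⟨k, -, hk⟩ := D.kap y (hA y hy) (hu y hy)
      rw [E.hfw hx, hk, h y hy, mul_zero, mul_zero]
    | zero => exact hf_zero_left _
    | add a b _ _ ha hb => rw [hf_add_left, ha, hb, add_zero]
    | smul t a _ ha => rw [hf_smul_left, ha, mul_zero]
  · intro h y hy
    obtain ⟨k, hk0, hk⟩ := D.kap y (hA y hy) (hu y hy)
    have h1 : hf H (wv a N α u y) x = 0 := h _ (mem_VA (u := wv a N α u) hy)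
    rw [E.hfw hx, hk] at h1
    exact ((mul_eq_zero.mp ((mul_eq_zero.mp h1).resolve_left hN)).resolve_left hk0)

theorem stepX (hr : 2 ≤ r) (hH : H.IsHermitian) (hU : IsUnit H) {L A : List (GL (Fin r) ℂ)}
    {k : GL (Fin r) ℂ} (E : DatA H a N α) (D : Dat H L c u f) (hA : ∀ y ∈ A, y ∈ L) (hk : k ∈ L)
    (G : GoodX H a N α c u f A) (hkA : wv a N α u k ∉ VA (wv a N α u) A)
    (hfin : Finite (Subgroup.closure {a * A.prod, k} : Subgroup (GL (Fin r) ℂ)))
    (hpos : 0 < qf H (u k)) : GoodX H a N α c u f (A ++ [k]) := by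
  have hwk0 : wv a N α u k ≠ 0 := by
    intro h
    rw [h] at hkA
    exact hkA (Submodule.zero_mem _)
  have hk0 : u k ≠ 0 := fun h => hwk0 (wv_zero h)
  have hα0 := E.ne
  have hb0 : (A.map c).prod ≠ 0 := prod_ne fun y hy => D.c0 y (hA y hy)
  have hAe : ∀ y ∈ A, (y : Matrix (Fin r) (Fin r) ℂ) =
      c y • (1 : Matrix (Fin r) (Fin r) ℂ) + vecMulVec (u y) (f y) := fun y hy => D.eq y (hA y hy)
  obtain ⟨v, hv, hv'⟩ := G.proj (wv a N α u k)
  obtain ⟨w, hw⟩ : ∃ w, w = wv a N α u k - v := ⟨_, rfl⟩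
  have huk : wv a N α u k = v + w := by rw [hw, add_sub_cancel]
  rw [← hw] at hv'
  have hw0 : w ≠ 0 := by
    intro h
    rw [h, add_zero] at huk
    rw [huk] at hkA
    exact hkA hv
  have haw : (a : Matrix (Fin r) (Fin r) ℂ) *ᵥ w = α • w := by
    rw [hw, mulVec_sub, E.eigw, E.mem hv, smul_sub]
  have hfw : ∀ y ∈ A, f y ⬝ᵥ w = 0 := (orthX E D hA G.ne haw).mpr hv'
  have hbα : (A.map c).prod * α ≠ 0 := mul_ne_zero hb0 hα0
  have hPw : ((a * A.prod : GL (Fin r) ℂ) : Matrix (Fin r) (Fin r) ℂ) *ᵥ w =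
      ((A.map c).prod * α) • w := by
    rw [Units.val_mul, ← mulVec_mulVec, prod_fix hAe hfw, mulVec_smul, haw, smul_smul]
  have hmemP : a * A.prod ∈ Subgroup.closure ({a * A.prod, k} : Set (GL (Fin r) ℂ)) :=
    Subgroup.subset_closure (by simp)
  have hmemk : k ∈ Subgroup.closure ({a * A.prod, k} : Set (GL (Fin r) ℂ)) :=
    Subgroup.subset_closure (by simp)
  obtain ⟨m, hm, hPm⟩ := exists_pow _ hmemP
  have hm0 : (m : ℂ) ≠ 0 := by exact_mod_cast hm.ne'
  have hN0 : (N : ℂ) ≠ 0 := by exact_mod_cast E.pos.ne'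
  have hbm : ((A.map c).prod * α) ^ m = 1 := by
    have h1 := pow_mulVec hPw m
    rw [hPm, one_mulVec] at h1
    have h2 : (((A.map c).prod * α) ^ m - 1) • w = 0 := by
      rw [sub_smul, one_smul, ← h1, sub_self]
    exact sub_eq_zero.mp ((smul_eq_zero.mp h2).resolve_right hw0)
  have hPiso : ((a * A.prod : GL (Fin r) ℂ) : Matrix (Fin r) (Fin r) ℂ)ᴴ * H *
      ((a * A.prod : GL (Fin r) ℂ) : Matrix (Fin r) (Fin r) ℂ) = H := by
    have h1 := isometry_prod (H := H) (A := a :: A) (by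
      intro g hg
      rcases List.mem_cons.mp hg with rfl | hg
      · exact E.iso
      · exact D.iso g (hA g hg))
    rw [List.prod_cons] at h1
    exact h1
  have hbs := star_mul_self_of_pow hm hbm
  -- the eigenspace of `a * A.prod`
  have hF : ∀ x : Fin r → ℂ, ((a * A.prod : GL (Fin r) ℂ) : Matrix (Fin r) (Fin r) ℂ) *ᵥ x =
      ((A.map c).prod * α) • x →
      (∀ y ∈ A, f y ⬝ᵥ x = 0) ∧ (a : Matrix (Fin r) (Fin r) ℂ) *ᵥ x = α • x := by
    intro x hx
    rw [Units.val_mul, ← mulVec_mulVec] at hx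
    have h1 : pj (a : Matrix (Fin r) (Fin r) ℂ) N α
        ((A.prod : Matrix (Fin r) (Fin r) ℂ) *ᵥ x - (A.map c).prod • x) = 0 := by
      have h2 := pj_comm' (P := (a : Matrix (Fin r) (Fin r) ℂ)) hα0 E.powa E.pow
        ((A.prod : Matrix (Fin r) (Fin r) ℂ) *ᵥ x)
      rw [hx, map_smul, mul_comm, ← smul_smul] at h2
      have h3 := smul_right_injective _ hα0 h2
      rw [map_sub, map_smul]
      exact sub_eq_zero.mpr h3.symm
    have h2 := G.fix x h1
    refine ⟨h2, ?_⟩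
    rw [prod_fix hAe h2, mulVec_smul, ← smul_smul] at hx
    exact smul_right_injective _ hb0 hx
  -- `w` is a multiple of the projection of `u k`
  have hz : ((N : ℂ) • pj ((a * A.prod : GL (Fin r) ℂ) : Matrix (Fin r) (Fin r) ℂ) m
      ((A.map c).prod * α) (u k)) = (m : ℂ) • w := by
    refine sub_eq_zero.mp (nondeg hH hU fun x' => ?_)
    have hy : ((a * A.prod : GL (Fin r) ℂ) : Matrix (Fin r) (Fin r) ℂ) *ᵥ
        ((N : ℂ) • pj ((a * A.prod : GL (Fin r) ℂ) : Matrix (Fin r) (Fin r) ℂ) m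
          ((A.map c).prod * α) (u k) - (m : ℂ) • w) = ((A.map c).prod * α) •
        ((N : ℂ) • pj ((a * A.prod : GL (Fin r) ℂ) : Matrix (Fin r) (Fin r) ℂ) m
          ((A.map c).prod * α) (u k) - (m : ℂ) • w) := by
      rw [mulVec_sub, mulVec_smul, mulVec_smul, pj_eig hbα hPm hbm, hPw, smul_sub,
        smul_comm (N : ℂ), smul_comm (m : ℂ)]
    have h1 : ∀ x : Fin r → ℂ, ((a * A.prod : GL (Fin r) ℂ) : Matrix (Fin r) (Fin r) ℂ) *ᵥ x =
        ((A.map c).prod * α) • x →
        hf H ((N : ℂ) • pj ((a * A.prod : GL (Fin r) ℂ) : Matrix (Fin r) (Fin r) ℂ) m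
          ((A.map c).prod * α) (u k) - (m : ℂ) • w) x = 0 := by
      intro x hx
      have h2 := hF x hx
      have h3 := (orthX E D hA G.ne h2.2).mp h2.1 v hv
      have h4 : hf H w x = (N : ℂ) * hf H (u k) x := by
        have h5 : hf H (wv a N α u k) x = hf H v x + hf H w x := by rw [huk, hf_add_left]
        rw [h3, zero_add, E.hfw h2.2] at h5
        exact h5.symm
      rw [sub_eq_add_neg, hf_add_left, ← neg_smul, hf_smul_left, hf_smul_left,
        hf_pj hPiso hbs hx, h4, star_neg]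
      have h5 : star (N : ℂ) = (N : ℂ) := by
        rw [Complex.star_def, Complex.conj_natCast]
      have h6 : star (m : ℂ) = (m : ℂ) := by
        rw [Complex.star_def, Complex.conj_natCast]
      rw [h5, h6]
      ring
    have h2 := h1 _ (pj_eig hbα hPm hbm x')
    rw [hf_conj hH] at h2
    rw [hf_pj hPiso hbs hy, star_eq_zero] at h2
    have h3 := (mul_eq_zero.mp h2).resolve_left hm0
    rw [hf_conj hH, h3, star_zero]
  have hspan : w ∈ Submodule.span ℂ {x | ∃ g ∈ Subgroup.closure ({a * A.prod, k} :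
      Set (GL (Fin r) ℂ)), x = (g : Matrix (Fin r) (Fin r) ℂ) *ᵥ u k} := by
    have h1 : pj ((a * A.prod : GL (Fin r) ℂ) : Matrix (Fin r) (Fin r) ℂ) m
        ((A.map c).prod * α) (u k) ∈ Submodule.span ℂ {x | ∃ g ∈ Subgroup.closure
          ({a * A.prod, k} : Set (GL (Fin r) ℂ)),
          x = (g : Matrix (Fin r) (Fin r) ℂ) *ᵥ u k} := by
      rw [pj_apply]
      refine Submodule.sum_mem _ fun t _ => Submodule.smul_mem _ _ (Submodule.subset_span ?_)
      exact ⟨(a * A.prod) ^ t, Subgroup.pow_mem _ hmemP t, by rw [Units.val_pow_eq_pow_val]⟩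
    have h2 : w = (m : ℂ)⁻¹ • ((N : ℂ) • pj ((a * A.prod : GL (Fin r) ℂ) :
        Matrix (Fin r) (Fin r) ℂ) m ((A.map c).prod * α) (u k)) := by
      rw [hz, smul_smul, inv_mul_cancel₀ hm0, one_smul]
    rw [h2]
    exact Submodule.smul_mem _ _ (Submodule.smul_mem _ _ h1)
  have hKiso := isometry_closure (H := H) (S := ({a * A.prod, k} : Set (GL (Fin r) ℂ))) (by
    rintro g (rfl | rfl)
    · exact hPiso
    · exact D.iso _ hk)
  obtain ⟨-, -, -, h4⟩ := orbit_sign hr hH hU _ hKiso hmemk (D.eq k hk) hk0 (D.uf k hk hk0)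
  have hwpos : 0 < qf H w := by
    have h5 := h4 w hspan hw0
    exact (mul_pos_iff_of_pos_left hpos).mp h5
  have hww : hf H w w ≠ 0 := by
    rw [hf_self hH]
    exact_mod_cast hwpos.ne'
  have hvw : ∀ p ∈ VA (wv a N α u) A, hf H w p = 0 := by
    intro p hp
    rw [hf_conj hH p w, hv' p hp, star_zero]
  have hsub := VA_mono (u := wv a N α u) (A := A) (B := A ++ [k])
    (fun y hy => by simp [hy])
  have hkm : wv a N α u k ∈ VA (wv a N α u) (A ++ [k]) :=
    mem_VA (u := wv a N α u) (by simp)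
  have hdec : ∀ x ∈ VA (wv a N α u) (A ++ [k]),
      ∃ p ∈ VA (wv a N α u) A, ∃ t : ℂ, x = p + t • w := by
    intro x hx
    obtain ⟨q, hq, t, rfl⟩ := mem_VA_snoc hx
    refine ⟨q + t • v, Submodule.add_mem _ hq (Submodule.smul_mem _ _ hv), t, ?_⟩
    rw [huk, smul_add, add_assoc]
  refine ⟨?_, ?_, ?_, ?_⟩
  · intro x hx hx0
    obtain ⟨p, hp, t, rfl⟩ := hdec x hx
    have h5 : qf H (p + t • w) = qf H p + Complex.normSq t * qf H w := by
      have h6 : hf H (p + t • w) (p + t • w) = hf H p p + (star t * t) * hf H w w := by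
        rw [hf_add_left, hf_add_right, hf_add_right, hf_smul_left, hf_smul_left, hf_smul_right,
          hf_smul_right, hv' p hp, hvw p hp]
        ring
      have h7 : star t * t = ((Complex.normSq t : ℝ) : ℂ) := by
        rw [Complex.star_def, mul_comm, Complex.mul_conj]
      rw [h7, hf_self hH, hf_self hH p, hf_self hH w] at h6
      exact_mod_cast h6
    rw [h5]
    by_cases hp0 : p = 0
    · have ht : t ≠ 0 := by
        rintro rfl
        rw [hp0, zero_smul, add_zero] at hx0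
        exact hx0 rfl
      have h8 : qf H p = 0 := by
        unfold qf
        rw [hp0, hf_zero_left]
        rfl
      rw [h8, zero_add]
      exact mul_pos (Complex.normSq_pos.mpr ht) hwpos
    · exact add_pos_of_pos_of_nonneg (G.pos p hp hp0)
        (mul_nonneg (Complex.normSq_nonneg t) hwpos.le)
  · intro x
    obtain ⟨q, hq, hq'⟩ := G.proj x
    refine ⟨q + (hf H w x / hf H w w) • w, ?_, ?_⟩
    · refine Submodule.add_mem _ (hsub hq) (Submodule.smul_mem _ _ ?_)
      rw [hw]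
      exact Submodule.sub_mem _ hkm (hsub hv)
    · intro z hz
      obtain ⟨p, hp, t, rfl⟩ := hdec z hz
      have h5 : x - (q + (hf H w x / hf H w w) • w) = (x - q) - (hf H w x / hf H w w) • w := by
        abel
      rw [h5, hf_add_left, hf_sub_right, hq' p hp, hf_smul_right, hv' p hp, hf_smul_left,
        hf_sub_right, hf_sub_right, hvw q hq, hf_smul_right, div_mul_cancel₀ _ hww]
      ring
  · intro x hx
    rw [List.prod_append, List.prod_singleton, Units.val_mul, ← mulVec_mulVec, List.map_append,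
      List.prod_append, List.map_singleton, List.prod_singleton, D.eq k hk, pr_mulVec, mulVec_add,
      mulVec_smul, mulVec_smul] at hx
    have hpjVA : ∀ y ∈ VA u A,
        pj (a : Matrix (Fin r) (Fin r) ℂ) N α y ∈ VA (wv a N α u) A := by
      intro y hy
      induction hy using Submodule.span_induction with
      | mem y hy =>
        obtain ⟨z, hz, rfl⟩ := hy
        exact mem_VA (u := wv a N α u) hz
      | zero =>
        rw [map_zero]
        exact Submodule.zero_mem _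
      | add x y _ _ hx hy =>
        rw [map_add]
        exact Submodule.add_mem _ hx hy
      | smul t x _ hx =>
        rw [map_smul]
        exact Submodule.smul_mem _ _ hx
    have h5 := hpjVA _ (prod_mod hAe x)
    have h6 := hpjVA _ (prod_mod hAe (u k))
    have h9 : c k • (A.prod : Matrix (Fin r) (Fin r) ℂ) *ᵥ x +
        (f k ⬝ᵥ x) • (A.prod : Matrix (Fin r) (Fin r) ℂ) *ᵥ u k - ((A.map c).prod * c k) • x =
        c k • ((A.prod : Matrix (Fin r) (Fin r) ℂ) *ᵥ x - (A.map c).prod • x) +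
        (f k ⬝ᵥ x) • ((A.prod : Matrix (Fin r) (Fin r) ℂ) *ᵥ u k - (A.map c).prod • u k) +
        ((f k ⬝ᵥ x) * (A.map c).prod) • u k := by
      rw [smul_sub, smul_sub, smul_smul, smul_smul, mul_comm (c k) (A.map c).prod]
      abel
    rw [h9, map_add, map_add, map_smul, map_smul, map_smul] at hx
    have hwk : pj (a : Matrix (Fin r) (Fin r) ℂ) N α (u k) = wv a N α u k := rfl
    rw [hwk] at hx
    have h7 : ((f k ⬝ᵥ x) * (A.map c).prod) • wv a N α u k ∈
        VA (wv a N α u) A := by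
      rw [eq_neg_of_add_eq_zero_right hx]
      exact Submodule.neg_mem _ (Submodule.add_mem _ (Submodule.smul_mem _ _ h5)
        (Submodule.smul_mem _ _ h6))
    have h8 : f k ⬝ᵥ x = 0 := by
      by_contra h8
      have h9 : (f k ⬝ᵥ x) * (A.map c).prod ≠ 0 := mul_ne_zero h8 hb0
      have h10 := Submodule.smul_mem _ ((f k ⬝ᵥ x) * (A.map c).prod)⁻¹ h7
      rw [smul_smul, inv_mul_cancel₀ h9, one_smul] at h10
      exact hkA h10
    rw [h8, zero_smul, add_zero, zero_mul, zero_smul, add_zero] at hx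
    have h9 := (smul_eq_zero.mp hx).resolve_left (D.c0 k hk)
    intro j hj
    rw [List.mem_append, List.mem_singleton] at hj
    rcases hj with hj | rfl
    · exact G.fix x h9 j hj
    · exact h8
  · intro j hj
    rw [List.mem_append, List.mem_singleton] at hj
    rcases hj with hj | rfl
    · exact G.ne j hj
    · exact hwk0

theorem exists_goodX (hr : 2 ≤ r) (hH : H.IsHermitian) (hU : IsUnit H)
    {L : List (GL (Fin r) ℂ)} (E : DatA H a N α) (D : Dat H L c u f)
    (hfin : ∀ (A : List (GL (Fin r) ℂ)) (y : GL (Fin r) ℂ), (A ++ [y]).Sublist L →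
      Finite (Subgroup.closure {a * A.prod, y} : Subgroup (GL (Fin r) ℂ)))
    (hpos : ∀ y ∈ L, u y ≠ 0 → 0 < qf H (u y)) (L' : List (GL (Fin r) ℂ)) (hL' : L'.Sublist L) :
    ∃ A : List (GL (Fin r) ℂ), A.Sublist L' ∧
      (∀ y ∈ L', wv a N α u y ∈ VA (wv a N α u) A) ∧ GoodX H a N α c u f A := by
  induction L' using List.reverseRecOn with
  | nil => exact ⟨[], List.Sublist.refl _, fun y hy => absurd hy List.not_mem_nil, goodX_nil _ _ _⟩
  | append_singleton L' k ih =>
    obtain ⟨A, hA, h1, h2⟩ := ih ((List.sublist_append_left L' [k]).trans hL')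
    by_cases hk : wv a N α u k ∈ VA (wv a N α u) A
    · refine ⟨A, hA.trans (List.sublist_append_left L' [k]), fun y hy => ?_, h2⟩
      rw [List.mem_append, List.mem_singleton] at hy
      rcases hy with hy | rfl
      · exact h1 y hy
      · exact hk
    · have h3 : (A ++ [k]).Sublist (L' ++ [k]) := hA.append (List.Sublist.refl [k])
      have h4 := h3.trans hL'
      have hk0 : u k ≠ 0 := by
        intro h
        rw [wv_zero h] at hk
        exact hk (Submodule.zero_mem _)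
      have hkL : k ∈ L := h4.subset (by simp)
      refine ⟨A ++ [k], h3, fun y hy => ?_, stepX hr hH hU E D
        (fun y hy => h4.subset (by simp [hy])) hkL h2 hk (hfin A k h4) (hpos k hkL hk0)⟩
      rw [List.mem_append, List.mem_singleton] at hy
      rcases hy with hy | rfl
      · exact VA_mono (u := wv a N α u) (A := A) (B := A ++ [k])
          (fun z hz => by simp [hz]) (h1 y hy)
      · exact mem_VA (u := wv a N α u) (by simp)

end

end Pool.Agent.PRS.Pos
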