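import Pool.Agent.PRS.PosD

/-!
# Definiteness with one arbitrary generator, part 2: signs; all eigenvalues
-/

set_option autoImplicit false

namespace Pool.Agent.PRS.Pos

open Matrix Pool.Agent.HZ Pool.Agent.PRS
open scoped ComplexOrder

variable {r : ℕ} {H : Matrix (Fin r) (Fin r) ℂ}

theorem val_mul_inv (h : GL (Fin r) ℂ) : (h : Matrix (Fin r) (Fin r) ℂ) *
    ((h⁻¹ : GL (Fin r) ℂ) : Matrix (Fin r) (Fin r) ℂ) = 1 := by
  rw [← Units.val_mul, mul_inv_cancel, Units.val_one]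

theorem val_inv_mul (h : GL (Fin r) ℂ) : ((h⁻¹ : GL (Fin r) ℂ) : Matrix (Fin r) (Fin r) ℂ) *
    (h : Matrix (Fin r) (Fin r) ℂ) = 1 := by
  rw [← Units.val_mul, inv_mul_cancel, Units.val_one]

theorem conj_form (h y : GL (Fin r) ℂ) {c : ℂ} {u f : Fin r → ℂ}
    (hy : (y : Matrix (Fin r) (Fin r) ℂ) = c • (1 : Matrix (Fin r) (Fin r) ℂ) + vecMulVec u f) :
    ((h * y * h⁻¹ : GL (Fin r) ℂ) : Matrix (Fin r) (Fin r) ℂ) =
      c • (1 : Matrix (Fin r) (Fin r) ℂ) + vecMulVec ((h : Matrix (Fin r) (Fin r) ℂ) *ᵥ u)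
        (f ᵥ* ((h⁻¹ : GL (Fin r) ℂ) : Matrix (Fin r) (Fin r) ℂ)) := by
  rw [Units.val_mul, Units.val_mul, hy, mul_add, add_mul, mul_smul_comm, mul_one, smul_mul_assoc,
    val_mul_inv, mul_vecMulVec, vecMulVec_mul]

theorem mulVec_ne (h : GL (Fin r) ℂ) {u : Fin r → ℂ} (hu : u ≠ 0) :
    (h : Matrix (Fin r) (Fin r) ℂ) *ᵥ u ≠ 0 := by
  intro h1
  exact hu (Matrix.mulVec_injective_of_isUnit h.isUnit (by rw [h1, mulVec_zero]))

theorem vecMul_ne (h : GL (Fin r) ℂ) {f : Fin r → ℂ} (hf0 : f ≠ 0) :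
    f ᵥ* ((h⁻¹ : GL (Fin r) ℂ) : Matrix (Fin r) (Fin r) ℂ) ≠ 0 := by
  intro h1
  refine hf0 ?_
  have h2 : (f ᵥ* ((h⁻¹ : GL (Fin r) ℂ) : Matrix (Fin r) (Fin r) ℂ)) ᵥ*
      (h : Matrix (Fin r) (Fin r) ℂ) = f := by
    rw [vecMul_vecMul, val_inv_mul, vecMul_one]
  rw [← h2, h1, zero_vecMul]

theorem coef_ne (hr : 2 ≤ r) (y : GL (Fin r) ℂ) {c : ℂ} {u f : Fin r → ℂ}
    (hy : (y : Matrix (Fin r) (Fin r) ℂ) = c • (1 : Matrix (Fin r) (Fin r) ℂ) + vecMulVec u f) :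
    c ≠ 0 := by
  intro h
  obtain ⟨w, hw, hw'⟩ := exists_ker hr f
  refine mulVec_ne y hw ?_
  rw [hy, pr_mulVec, hw', h, zero_smul, zero_smul, add_zero]

theorem coef_ne' (y : GL (Fin r) ℂ) {c : ℂ} {u f : Fin r → ℂ}
    (hy : (y : Matrix (Fin r) (Fin r) ℂ) = c • (1 : Matrix (Fin r) (Fin r) ℂ) + vecMulVec u f)
    (hu : u ≠ 0) : c + f ⬝ᵥ u ≠ 0 := by
  intro h
  refine mulVec_ne y hu ?_
  rw [hy, pr_mulVec, ← add_smul, h, zero_smul]

/-- the signs of related vectors agree -/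
theorem rel_twist (hr : 2 ≤ r) (hH : H.IsHermitian) (hU : IsUnit H) {a y y' : GL (Fin r) ℂ}
    (ha : (a : Matrix (Fin r) (Fin r) ℂ)ᴴ * H * (a : Matrix (Fin r) (Fin r) ℂ) = H)
    (hyi : (y : Matrix (Fin r) (Fin r) ℂ)ᴴ * H * (y : Matrix (Fin r) (Fin r) ℂ) = H)
    (hyi' : (y' : Matrix (Fin r) (Fin r) ℂ)ᴴ * H * (y' : Matrix (Fin r) (Fin r) ℂ) = H)
    {c c' : ℂ} {u u' f f' : Fin r → ℂ}
    (hy : (y : Matrix (Fin r) (Fin r) ℂ) = c • (1 : Matrix (Fin r) (Fin r) ℂ) + vecMulVec u f)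
    (hy' : (y' : Matrix (Fin r) (Fin r) ℂ) =
      c' • (1 : Matrix (Fin r) (Fin r) ℂ) + vecMulVec u' f')
    (hu : u ≠ 0) (hu' : u' ≠ 0) (hf' : f' ≠ 0)
    (hfin : ∀ m : ℕ, Finite (Subgroup.closure {(a * (y * y' * y⁻¹)) ^ m * (y * y' * y⁻¹) *
        ((a * (y * y' * y⁻¹)) ^ m)⁻¹, y} : Subgroup (GL (Fin r) ℂ)))
    (t : ℕ) (ht : f ⬝ᵥ (((a : Matrix (Fin r) (Fin r) ℂ) ^ t) *ᵥ u') ≠ 0) :
    0 < qf H u' * qf H u := by
  have hc0 := coef_ne hr y hy
  have hc0' := coef_ne hr y' hy'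
  have hcu := coef_ne' y hy hu
  obtain ⟨y1, hy1⟩ : ∃ y1, y1 = y * y' * y⁻¹ := ⟨_, rfl⟩
  obtain ⟨g, hg⟩ : ∃ g, g = a * y1 := ⟨_, rfl⟩
  obtain ⟨u1, hu1⟩ : ∃ u1, u1 = (y : Matrix (Fin r) (Fin r) ℂ) *ᵥ u' := ⟨_, rfl⟩
  obtain ⟨f1, hf1⟩ : ∃ f1, f1 = f' ᵥ* ((y⁻¹ : GL (Fin r) ℂ) : Matrix (Fin r) (Fin r) ℂ) :=
    ⟨_, rfl⟩
  have hy1' : (y1 : Matrix (Fin r) (Fin r) ℂ) =
      c' • (1 : Matrix (Fin r) (Fin r) ℂ) + vecMulVec u1 f1 := by
    rw [hy1, hu1, hf1]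
    exact conj_form y y' hy'
  rw [← hy1, ← hg] at hfin
  by_cases hm : ∃ m : ℕ, f ⬝ᵥ (((g ^ m : GL (Fin r) ℂ) : Matrix (Fin r) (Fin r) ℂ) *ᵥ u1) ≠ 0
  · obtain ⟨m, hm⟩ := hm
    have := hfin m
    have hY : g ^ m * y1 * (g ^ m)⁻¹ = (g ^ m * y) * y' * (g ^ m * y)⁻¹ := by
      rw [hy1]
      group
    have hYf := conj_form (g ^ m * y) y' hy'
    rw [← hY] at hYf
    have hiso := isometry_closure (H := H) (S := ({a, y, y'} : Set (GL (Fin r) ℂ))) (by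
      rintro x (rfl | rfl | rfl)
      · exact ha
      · exact hyi
      · exact hyi')
    have ma : a ∈ Subgroup.closure ({a, y, y'} : Set (GL (Fin r) ℂ)) :=
      Subgroup.subset_closure (by simp)
    have my : y ∈ Subgroup.closure ({a, y, y'} : Set (GL (Fin r) ℂ)) :=
      Subgroup.subset_closure (by simp)
    have my' : y' ∈ Subgroup.closure ({a, y, y'} : Set (GL (Fin r) ℂ)) :=
      Subgroup.subset_closure (by simp)
    have my1 : y1 ∈ Subgroup.closure ({a, y, y'} : Set (GL (Fin r) ℂ)) := by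
      rw [hy1]
      exact Subgroup.mul_mem _ (Subgroup.mul_mem _ my my') (Subgroup.inv_mem _ my)
    have mg : g ∈ Subgroup.closure ({a, y, y'} : Set (GL (Fin r) ℂ)) := by
      rw [hg]
      exact Subgroup.mul_mem _ ma my1
    have mh : g ^ m * y ∈ Subgroup.closure ({a, y, y'} : Set (GL (Fin r) ℂ)) :=
      Subgroup.mul_mem _ (Subgroup.pow_mem _ mg m) my
    have mY : g ^ m * y1 * (g ^ m)⁻¹ ∈ Subgroup.closure ({a, y, y'} : Set (GL (Fin r) ℂ)) :=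
      Subgroup.mul_mem _ (Subgroup.mul_mem _ (Subgroup.pow_mem _ mg m) my1)
        (Subgroup.inv_mem _ (Subgroup.pow_mem _ mg m))
    have hKiso := isometry_closure (H := H)
      (S := ({g ^ m * y1 * (g ^ m)⁻¹, y} : Set (GL (Fin r) ℂ))) (by
      rintro x (rfl | rfl)
      · exact hiso _ mY
      · exact hyi)
    obtain ⟨-, -, -, h4⟩ := orbit_sign hr hH hU _ hKiso
      (Subgroup.subset_closure (by simp) : g ^ m * y1 * (g ^ m)⁻¹ ∈ Subgroup.closure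
        ({g ^ m * y1 * (g ^ m)⁻¹, y} : Set (GL (Fin r) ℂ))) hYf (mulVec_ne _ hu')
      (vecMul_ne _ hf')
    have hgu : ((g ^ m * y : GL (Fin r) ℂ) : Matrix (Fin r) (Fin r) ℂ) *ᵥ u' =
        ((g ^ m : GL (Fin r) ℂ) : Matrix (Fin r) (Fin r) ℂ) *ᵥ u1 := by
      rw [Units.val_mul, ← mulVec_mulVec, hu1]
    have h5 := h4 u (by
      have h6 : u = (f ⬝ᵥ (((g ^ m : GL (Fin r) ℂ) : Matrix (Fin r) (Fin r) ℂ) *ᵥ u1))⁻¹ •
          ((y : Matrix (Fin r) (Fin r) ℂ) *ᵥ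
            (((g ^ m * y : GL (Fin r) ℂ) : Matrix (Fin r) (Fin r) ℂ) *ᵥ u') -
            c • (((g ^ m * y : GL (Fin r) ℂ) : Matrix (Fin r) (Fin r) ℂ) *ᵥ u')) := by
        rw [hgu, hy, pr_mulVec, add_sub_cancel_left, smul_smul, inv_mul_cancel₀ hm, one_smul]
      rw [h6]
      refine Submodule.smul_mem _ _ (Submodule.sub_mem _ (Submodule.subset_span ?_)
        (Submodule.smul_mem _ _ (Submodule.subset_span ?_)))
      · exact ⟨y, Subgroup.subset_closure (by simp), rfl⟩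
      · exact ⟨1, Subgroup.one_mem _, by rw [Units.val_one, one_mulVec]⟩) hu
    have h6 : qf H (((g ^ m * y : GL (Fin r) ℂ) : Matrix (Fin r) (Fin r) ℂ) *ᵥ u') = qf H u' := by
      unfold qf
      rw [hf_inv (hiso _ mh)]
    rw [h6] at h5
    exact h5
  · exfalso
    have hm' : ∀ m : ℕ, f ⬝ᵥ (((g ^ m : GL (Fin r) ℂ) : Matrix (Fin r) (Fin r) ℂ) *ᵥ u1) = 0 := by
      intro m
      by_contra h
      exact hm ⟨m, h⟩
    have hu10 : u1 ≠ 0 := by
      rw [hu1]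
      exact mulVec_ne y hu'
    have hcu1 := coef_ne' y1 hy1' hu10
    obtain ⟨U, hUd⟩ : ∃ U : Submodule ℂ (Fin r → ℂ), U = Submodule.span ℂ {x | ∃ m : ℕ,
      x = ((g ^ m : GL (Fin r) ℂ) : Matrix (Fin r) (Fin r) ℂ) *ᵥ u1} := ⟨_, rfl⟩
    have hgU : ∀ x ∈ U, (g : Matrix (Fin r) (Fin r) ℂ) *ᵥ x ∈ U := by
      intro x hx
      rw [hUd] at hx ⊢
      induction hx using Submodule.span_induction with
      | mem x hx =>
        obtain ⟨m, rfl⟩ := hx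
        refine Submodule.subset_span ⟨m + 1, ?_⟩
        rw [pow_succ', Units.val_mul, mulVec_mulVec]
      | zero =>
        rw [mulVec_zero]
        exact Submodule.zero_mem _
      | add x y _ _ hx hy =>
        rw [mulVec_add]
        exact Submodule.add_mem _ hx hy
      | smul t x _ hx =>
        rw [mulVec_smul]
        exact Submodule.smul_mem _ _ hx
    have hu1U : u1 ∈ U := by
      rw [hUd]
      exact Submodule.subset_span ⟨0, by rw [pow_zero, Units.val_one, one_mulVec]⟩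
    have hau1 : (a : Matrix (Fin r) (Fin r) ℂ) *ᵥ u1 ∈ U := by
      have h1 := hgU u1 hu1U
      have h2 : (g : Matrix (Fin r) (Fin r) ℂ) *ᵥ u1 =
          (c' + f1 ⬝ᵥ u1) • ((a : Matrix (Fin r) (Fin r) ℂ) *ᵥ u1) := by
        rw [hg, Units.val_mul, ← mulVec_mulVec, hy1', pr_mulVec, ← add_smul, mulVec_smul]
      rw [h2] at h1
      have h3 := Submodule.smul_mem _ (c' + f1 ⬝ᵥ u1)⁻¹ h1
      rw [smul_smul, inv_mul_cancel₀ hcu1, one_smul] at h3
      exact h3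
    have haU : ∀ x ∈ U, (a : Matrix (Fin r) (Fin r) ℂ) *ᵥ x ∈ U := by
      intro x hx
      have h1 := hgU x hx
      have h2 : (g : Matrix (Fin r) (Fin r) ℂ) *ᵥ x =
          c' • ((a : Matrix (Fin r) (Fin r) ℂ) *ᵥ x) +
            (f1 ⬝ᵥ x) • ((a : Matrix (Fin r) (Fin r) ℂ) *ᵥ u1) := by
        rw [hg, Units.val_mul, ← mulVec_mulVec, hy1', pr_mulVec, mulVec_add, mulVec_smul,
          mulVec_smul]
      have h3 : (a : Matrix (Fin r) (Fin r) ℂ) *ᵥ x =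
          c'⁻¹ • ((g : Matrix (Fin r) (Fin r) ℂ) *ᵥ x -
            (f1 ⬝ᵥ x) • ((a : Matrix (Fin r) (Fin r) ℂ) *ᵥ u1)) := by
        rw [h2, add_sub_cancel_right, smul_smul, inv_mul_cancel₀ hc0', one_smul]
      rw [h3]
      exact Submodule.smul_mem _ _ (Submodule.sub_mem _ h1 (Submodule.smul_mem _ _ hau1))
    have hatU : ∀ t : ℕ, ((a : Matrix (Fin r) (Fin r) ℂ) ^ t) *ᵥ u1 ∈ U := by
      intro t
      induction t with
      | zero =>
        rw [pow_zero, one_mulVec]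
        exact hu1U
      | succ t ih =>
        rw [pow_succ', ← mulVec_mulVec]
        exact haU _ ih
    have hfU : ∀ x ∈ U, f ⬝ᵥ x = 0 := by
      intro x hx
      rw [hUd] at hx
      induction hx using Submodule.span_induction with
      | mem x hx =>
        obtain ⟨m, rfl⟩ := hx
        exact hm' m
      | zero => exact dotProduct_zero _
      | add x y _ _ hx hy => rw [dotProduct_add, hx, hy, add_zero]
      | smul t x _ hx => rw [dotProduct_smul, hx, smul_zero]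
    have h1 : f ⬝ᵥ u' = 0 := by
      have h2 := hfU u1 hu1U
      rw [hu1, hy, pr_mulVec, dotProduct_add, dotProduct_smul, dotProduct_smul, smul_eq_mul,
        smul_eq_mul] at h2
      have h3 : (c + f ⬝ᵥ u) * (f ⬝ᵥ u') = 0 := by
        linear_combination h2
      exact (mul_eq_zero.mp h3).resolve_left hcu
    have h2 : u1 = c • u' := by
      rw [hu1, hy, pr_mulVec, h1, zero_smul, add_zero]
    have h3 := hfU _ (hatU t)
    rw [h2, mulVec_smul, dotProduct_smul, smul_eq_mul] at h3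
    exact ht ((mul_eq_zero.mp h3).resolve_left hc0)

/-! ### all eigenvalues -/

theorem sum_pj {P : Matrix (Fin r) (Fin r) ℂ} {N : ℕ} (hN : 0 < N) {ζ : ℂ}
    (hζ : IsPrimitiveRoot ζ N) (x : Fin r → ℂ) :
    ∑ s ∈ Finset.range N, pj P N (ζ ^ s) x = (N : ℂ) • x := by
  simp only [pj_apply]
  rw [Finset.sum_comm]
  have hζ0 : ζ ≠ 0 := hζ.ne_zero hN.ne'
  have h1 : ∀ t ∈ Finset.range N, t ≠ 0 →
      ∑ s ∈ Finset.range N, ((ζ ^ s)⁻¹) ^ t • ((P ^ t) *ᵥ x) = 0 := by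
    intro t ht ht0
    rw [← Finset.sum_smul]
    have h2 : ∑ s ∈ Finset.range N, ((ζ ^ s)⁻¹) ^ t = ∑ s ∈ Finset.range N, ((ζ⁻¹) ^ t) ^ s := by
      refine Finset.sum_congr rfl fun s _ => ?_
      rw [← inv_pow, ← pow_mul, ← pow_mul, mul_comm]
    have h3 : (ζ⁻¹) ^ t ≠ 1 := by
      intro h3
      rw [inv_pow, inv_eq_one] at h3
      exact hζ.pow_ne_one_of_pos_of_lt ht0 (Finset.mem_range.mp ht) h3
    have h4 : ((ζ⁻¹) ^ t - 1) * ∑ s ∈ Finset.range N, ((ζ⁻¹) ^ t) ^ s = 0 := by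
      rw [mul_geom_sum, ← pow_mul, mul_comm, pow_mul, inv_pow, hζ.pow_eq_one, inv_one, one_pow,
        sub_self]
    rw [h2, (mul_eq_zero.mp h4).resolve_left (sub_ne_zero.mpr h3), zero_smul]
  rw [Finset.sum_eq_single_of_mem 0 (Finset.mem_range.mpr hN) h1]
  have h2 : ∀ s ∈ Finset.range N, ((ζ ^ s)⁻¹) ^ 0 • ((P ^ 0) *ᵥ x) = x := by
    intro s _
    rw [pow_zero, pow_zero, one_mulVec, one_smul]
  rw [Finset.sum_congr rfl h2, Finset.sum_const, Finset.card_range, Nat.cast_smul_eq_nsmul]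

variable {c : GL (Fin r) ℂ → ℂ} {u f : GL (Fin r) ℂ → (Fin r → ℂ)}

theorem qf_zero : qf H 0 = 0 := by
  unfold qf
  rw [hf_zero_left]
  rfl

/-- all signs positive -/
theorem posDef_of_posX (hr : 2 ≤ r) (hH : H.IsHermitian) (hU : IsUnit H) {a : GL (Fin r) ℂ}
    {L : List (GL (Fin r) ℂ)} (D : Dat H L c u f) {N : ℕ} (hN : 0 < N)
    (haN : (a : Matrix (Fin r) (Fin r) ℂ) ^ N = 1)
    (ha : (a : Matrix (Fin r) (Fin r) ℂ)ᴴ * H * (a : Matrix (Fin r) (Fin r) ℂ) = H)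
    (hfin : ∀ (A : List (GL (Fin r) ℂ)) (y : GL (Fin r) ℂ), (A ++ [y]).Sublist L →
      Finite (Subgroup.closure {a * A.prod, y} : Subgroup (GL (Fin r) ℂ)))
    (hpos : ∀ y ∈ L, u y ≠ 0 → 0 < qf H (u y))
    (htop : Submodule.span ℂ {x | ∃ y ∈ L, ∃ t : ℕ,
      x = ((a : Matrix (Fin r) (Fin r) ℂ) ^ t) *ᵥ u y} = ⊤) : H.PosDef := by
  have hζ := Complex.isPrimitiveRoot_exp N hN.ne'
  obtain ⟨ζ, hζd⟩ : ∃ ζ, ζ = Complex.exp (2 * Real.pi * Complex.I / N) := ⟨_, rfl⟩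
  rw [← hζd] at hζ
  have hE : ∀ s : ℕ, DatA H a N (ζ ^ s) := fun s => ⟨ha, hN, haN, by
    rw [← pow_mul, mul_comm, pow_mul, hζ.pow_eq_one, one_pow]⟩
  have hpos' : ∀ (s : ℕ) (v : Fin r → ℂ), pj (a : Matrix (Fin r) (Fin r) ℂ) N (ζ ^ s) v ≠ 0 →
      0 < qf H (pj (a : Matrix (Fin r) (Fin r) ℂ) N (ζ ^ s) v) := by
    intro s v hv
    obtain ⟨A, -, h1, h2⟩ := exists_goodX hr hH hU (hE s) D hfin hpos L (List.Sublist.refl L)
    refine h2.pos _ ?_ hv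
    have hvt : v ∈ Submodule.span ℂ {x | ∃ y ∈ L, ∃ t : ℕ,
        x = ((a : Matrix (Fin r) (Fin r) ℂ) ^ t) *ᵥ u y} := by
      rw [htop]
      exact Submodule.mem_top
    clear hv
    induction hvt using Submodule.span_induction with
    | mem x hx =>
      obtain ⟨y, hy, t, rfl⟩ := hx
      induction t with
      | zero =>
        rw [pow_zero, one_mulVec]
        exact h1 y hy
      | succ t ih =>
        rw [pow_succ', ← mulVec_mulVec, pj_comm' (hE s).ne haN (hE s).pow]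
        exact Submodule.smul_mem _ _ ih
    | zero =>
      rw [map_zero]
      exact Submodule.zero_mem _
    | add x y _ _ hx hy =>
      rw [map_add]
      exact Submodule.add_mem _ hx hy
    | smul t x _ hx =>
      rw [map_smul]
      exact Submodule.smul_mem _ _ hx
  have hN0 : (N : ℂ) ≠ 0 := by exact_mod_cast hN.ne'
  have hsum : ∀ v : Fin r → ℂ, (N : ℝ) * N * qf H v =
      ∑ s ∈ Finset.range N, qf H (pj (a : Matrix (Fin r) (Fin r) ℂ) N (ζ ^ s) v) := by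
    intro v
    have h1 : ∀ S : Finset ℕ, hf H v (∑ s ∈ S, pj (a : Matrix (Fin r) (Fin r) ℂ) N (ζ ^ s) v) =
        ∑ s ∈ S, hf H v (pj (a : Matrix (Fin r) (Fin r) ℂ) N (ζ ^ s) v) := by
      intro S
      induction S using Finset.induction_on with
      | empty => rw [Finset.sum_empty, Finset.sum_empty, hf_zero_right]
      | insert s S hs ih => rw [Finset.sum_insert hs, Finset.sum_insert hs, hf_add_right, ih]
    have h2 := h1 (Finset.range N)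
    rw [sum_pj hN hζ, hf_smul_right] at h2
    have h3 : ∀ s ∈ Finset.range N,
        (N : ℂ) * hf H v (pj (a : Matrix (Fin r) (Fin r) ℂ) N (ζ ^ s) v) =
        ((qf H (pj (a : Matrix (Fin r) (Fin r) ℂ) N (ζ ^ s) v) : ℝ) : ℂ) := by
      intro s _
      rw [← hf_self hH, (hE s).hf ((hE s).eig v)]
    have h4 : ((N : ℝ) * N * qf H v : ℂ) =
        ((∑ s ∈ Finset.range N, qf H (pj (a : Matrix (Fin r) (Fin r) ℂ) N (ζ ^ s) v) : ℝ) : ℂ) := by
      rw [Complex.ofReal_sum, ← Finset.sum_congr rfl h3, ← Finset.mul_sum, ← h2, hf_self hH]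
      push_cast
      ring
    exact_mod_cast h4
  refine Matrix.PosDef.of_dotProduct_mulVec_pos hH fun x hx => ?_
  have h1 : 0 < ∑ s ∈ Finset.range N,
      qf H (pj (a : Matrix (Fin r) (Fin r) ℂ) N (ζ ^ s) x) := by
    refine Finset.sum_pos' (fun s _ => ?_) ?_
    · by_cases h : pj (a : Matrix (Fin r) (Fin r) ℂ) N (ζ ^ s) x = 0
      · rw [h, qf_zero]
      · exact (hpos' s x h).le
    · by_contra h2
      have h3 : ∀ s ∈ Finset.range N, pj (a : Matrix (Fin r) (Fin r) ℂ) N (ζ ^ s) x = 0 := by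
        intro s hs
        by_contra h4
        exact h2 ⟨s, hs, hpos' s x h4⟩
      have h4 := sum_pj (P := (a : Matrix (Fin r) (Fin r) ℂ)) hN hζ x
      rw [Finset.sum_eq_zero h3] at h4
      exact (smul_ne_zero hN0 hx) h4.symm
  rw [← hsum] at h1
  have hNR : (0 : ℝ) < N := by exact_mod_cast hN
  have h2 : 0 < qf H x := (mul_pos_iff_of_pos_left (mul_pos hNR hNR)).mp h1
  have h5 : star x ⬝ᵥ (H *ᵥ x) = ((qf H x : ℝ) : ℂ) := hf_self hH x
  rw [h5]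
  exact_mod_cast h2

end Pool.Agent.PRS.Pos
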