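import Pool.Agent.PRS.Defs

/-!
# One arbitrary generator: statements, first part (algebra)

Paper: GC_PRX_h20.md in the store.  `x_0` arbitrary, `x_1, ..., x_n` multiples of
pseudo-reflections.
-/

set_option autoImplicit false

namespace Pool.Agent.PRS

open Matrix Pool.Agent.HZ Polynomial
open scoped ComplexOrder

/-! ### closed walks -/

section walks
variable {R : Type} [CommRing R] {n : ℕ}

/-- the product of the entries along the walk `i → l → k` -/
def walk (Q : Matrix (Fin n) (Fin n) R) (i : Fin n) : List (Fin n) → Fin n → R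
  | [], k => Q i k
  | j :: l, k => Q i j * walk Q j l k

/-- the product of the entries along a closed walk -/
def cyc (Q : Matrix (Fin n) (Fin n) R) : List (Fin n) → R
  | [] => 1
  | i :: l => walk Q i l i

end walks

/-- **HAM**.  Principal minors and closed walks.
`S` is integrally closed in `R` and contains all principal minors; then it contains all products
along closed walks.
PROOF. (0) `cyc (l ++ m) = cyc (m ++ l)`; splitting at a repeated vertex:
`cyc (i :: l ++ i :: m) = cyc (i :: l) * cyc (i :: m)`.  So by strong induction on the length it is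
enough to treat lists without repetition (`cyc l` with a repetition is a product of two shorter
ones).
(1) Strong induction on `k`: `cyc l ∈ S` for all `l` without repetition of length `< k`, hence for
ALL lists of length `< k`.  Let `I` be a set of `k` vertices, `H` the finite set of the lists
without repetition with support `I` which begin with a fixed element `i₀ ∈ I` (Hamiltonian cycles).
Let `N ⊆ R` be the `S`-submodule spanned by `1` and the `cyc l`, `l ∈ H`.
(2) Every closed walk in `I` of length `< 2 k` has `cyc ∈ N`: if there is no repetition it is a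
rotation of an element of `H` (length `k`) or in `S` (length `< k`); otherwise split, one factor has
length `< k`, so it is in `S`, the other one is in `N` by induction.
(3) `l ≠ m ∈ H`: `cyc l * cyc m ∈ N`.  Take the first place where they differ; rotate so that
`l = i :: (p ++ j :: q)`, `m = i :: j :: t` with `p ≠ []` (the successors of `i` are different, `j`
is the successor in `m`).  Then
`cyc l * cyc m = cyc (i :: j :: q) * cyc (i :: (p ++ j :: t))` (exchange the tails at `j`): the first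
has length `k - |p| < k`, the second `k + |p| < 2 k`.
(4) `∑ (l ∈ H) cyc l ∈ S`: `det (Q restricted to I) ∈ S` is the sum over the permutations of `I`;
the permutations which are not `k`-cycles give products of `cyc` of smaller cycles, the `k`-cycles
give `sign = (-1)^(k-1)` times `cyc l`, `l ∈ H` (bijection).
(5) By (3), (4) `(cyc l)² ∈ N`, so `N` is a ring which is a finite `S`-module: its elements are
integral over `S` (`IsIntegral.of_mem_of_fg`), so in `S`. -/
def St_Ham : Prop := ∀ (R : Type) [CommRing R] (S : Subring R) (n : ℕ)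
    (Q : Matrix (Fin n) (Fin n) R),
    (∀ x : R, IsIntegral S x → x ∈ S) →
    (∀ I : Finset (Fin n), (Q.submatrix (fun i : I => (i : Fin n)) (fun i : I => (i : Fin n))).det ∈
      S) →
    ∀ l : List (Fin n), cyc Q l ∈ S

/-- **KRN** (Kronecker).  If the product of polynomials has integral coefficients, then every
product of coefficients, one of each factor, is integral.
PROOF. If the product is zero, one factor is zero.  Otherwise all factors are
`a * ∏ (X - α)`; the product `P` has the leading coefficient `a = ∏ a_e` and the roots are the union.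
A coefficient of the factor `e` is `± a_e` times an elementary symmetric function of its roots, so
the product of coefficients is a sum of terms `± a * ∏ (α ∈ T) α`, `T` a sub-multiset of the roots
of `P`.  Such a term is integral: removing a root `γ` from a polynomial with integral coefficients
gives one with integral coefficients (`P / (X - γ)`: `q_k = ∑ (j > k) c_j γ^(j-k-1)`, and `q_k`
times the span `M` over `ℤ[c]` of `1, γ, ..., γ^(deg - 1)` is in `M`, because
`γ^(k+1) q_k = - ∑ (j ≤ k) c_j γ^j`); remove all roots not in `T`; the constant coefficient of what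
remains is `± a ∏ (α ∈ T) α`. -/
def St_Krn : Prop := ∀ (k : ℕ) (P : Fin k → ℂ[X]) (d : Fin k → ℕ),
    (∀ i, IsIntegral ℤ ((∏ e, P e).coeff i)) → IsIntegral ℤ (∏ e, (P e).coeff (d e))

/-- the matrix `Q` of polynomials of `A` and the rank one matrices `u i ⊗ f i` -/
noncomputable def Qm {r n : ℕ} (A : Matrix (Fin r) (Fin r) ℂ) (u f : Fin n → Fin r → ℂ) :
    Matrix (Fin n) (Fin n) ℂ[X] := fun i j =>
  (if j ≤ i then C (f i ⬝ᵥ u j) * A.charpoly else 0) + (if i = j then A.charpoly else 0) -
    X * (((fun a => C (f i a)) ᵥ* (charmatrix A).adjugate) ⬝ᵥ fun a => C (u j a))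

/-- **DET**.  The principal minors of `Qm` are the characteristic polynomials of the simple loops.
(`Q i j = - X N_ij` for `i < j`, `χ (1 + f i · u i) - X N_ii` for `i = j`, `χ f i · u j - X N_ij` for
`i > j`, `N_ij = f_i adj(X - A) u_j`.)
PROOF. Restrict to `I`, re-index by `Fin k`.  `g = ∏ (j) (1 + u_j ⊗ f_j)` in increasing order;
`g - 1 = ∑_j u_j ⊗ G_j` with `G_j = f_j (1 + u_(j+1) ⊗ f_(j+1)) ...` (row vector), and
`(1 - N) G = F` where `N_jl = f_j · u_l` for `j < l`.  At `t` with `χ(t) ≠ 0` (infinitely many):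
`det (t - A g) = det (t - A - A U G) = χ(t) det (1 - G (t - A)⁻¹ A U)` and
`(1 - N)(1 - G (t-A)⁻¹ A U) = 1 - N - F (t-A)⁻¹ A U`, `det (1 - N) = 1`; multiply the `k` rows by
`χ(t)`, `χ(t) (t-A)⁻¹ = adj (t - A)`, `adj (t-A) A = t adj (t-A) - χ(t)`. -/
def St_Det : Prop := ∀ (r n : ℕ) (A : Matrix (Fin r) (Fin r) ℂ) (u f : Fin n → Fin r → ℂ)
    (I : Finset (Fin n)),
    ((Qm A u f).submatrix (fun i : I => (i : Fin n)) (fun i : I => (i : Fin n))).det * A.charpoly =
      (A * ((I.sort (· ≤ ·)).map fun i => 1 + vecMulVec (u i) (f i)).prod).charpoly *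
        A.charpoly ^ I.card

/-- **INT**.  All words are integral.
PROOF. `St_Ham` with `R = ℂ[X]`, `S` = the polynomials with coefficients integral over `ℤ`
(integrally closed in `ℂ[X]`: `Polynomial.isIntegral_iff_isIntegral_coeff` or similar), `Q = Qm A u f`:
the principal minors are in `S` because by `St_Det` `det * χ` is in `S` and `χ` is monic (division
by a monic polynomial).  So all `cyc Q l ∈ S`.  Let `w = [(k_1, i_1), ...]`; the trace of
`∏ A^(k_s) u_(i_s) ⊗ f_(i_s)` is `∏_s f_(i_s) A^(k_(s+1)) u_(i_(s+1))` (cyclically).  Every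
`f_i A^k u_j`, `k ∈ ℤ`, is a linear combination with integral coefficients of the coefficients of
`Q i j`: put `p_s = ∑ (t > s) χ_t X^(t-s-1)` (Horner); `adj (X - A) = ∑ X^s p_s(A)`; the `p_s`,
`s < r`, are a basis of the polynomials of degree `< r` over the ring of integral numbers (monic of
the degrees `r - 1 - s`), and `A^k` is, also for negative `k` since `χ(0)` is a unit, a polynomial of
degree `< r` in `A` with integral coefficients.  For `i < j`, `Q i j = - X N_ij`: fine.  For `i > j`,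
`Q i j = - f_i adj(X - A) A u_j`, coefficients `- f_i p_s(A) A u_j`: write `A^k = A^(k-1) A`.  For
`i = j` subtract the integral polynomial `χ (1 + f_i u_i)`.  So the trace is a linear combination
with integral coefficients of products of coefficients of the factors of `cyc Q l`, for `i = j`
factors the coefficients are integral themselves; `St_Krn` for the other factors (write the closed
walk as a product of closed walks without repetition first, or apply `St_Krn` to the whole product:
`cyc Q l = ∏_s Q (i_s) (i_(s+1))`, where a factor `Q i i` may be replaced by its coefficients after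
splitting `cyc (i :: i :: l) = Q i i * cyc (i :: l)`). -/
def St_Int : Prop := ∀ (r n : ℕ) (A : GL (Fin r) ℂ) (u f : Fin n → Fin r → ℂ),
    (∀ i, IsIntegral ℤ (f i ⬝ᵥ u i)) →
    (∀ x : ℂ, (A : Matrix (Fin r) (Fin r) ℂ).charpoly.IsRoot x → IsIntegral ℤ x ∧
      IsIntegral ℤ x⁻¹) →
    (∀ (I : Finset (Fin n)) (x : ℂ), ((A : Matrix (Fin r) (Fin r) ℂ) *
      ((I.sort (· ≤ ·)).map fun i => 1 + vecMulVec (u i) (f i)).prod).charpoly.IsRoot x →
        IsIntegral ℤ x) →
    ∀ w : List (ℤ × Fin n), IsIntegral ℤ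
      (w.map fun p => ((A ^ p.1 : GL (Fin r) ℂ) : Matrix (Fin r) (Fin r) ℂ) *
        vecMulVec (u p.2) (f p.2)).prod.trace

/-! ### words in one arbitrary and a few rank one matrices, over a ring with a subring -/

/-- the rank one identity -/
def RO {R : Type} [CommRing R] {r : ℕ} (e : Matrix (Fin r) (Fin r) R) : Prop :=
  ∀ X : Matrix (Fin r) (Fin r) R, e * X * e = (e * X).trace • e

/-- **ONE**.  One letter: `tr (A^m e)` from the traces of the powers of `A` and of `X = A (1 + e)`.
PROOF. Strong induction on `m`; `m_l = tr (A^l e)`, `q (i, j) = tr (X^j A^i e)`.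
`X^j = A^j + ∑ (l = 1..j) A^l e X^(j-l)` (telescoping, `X - A = A e`), so
`q (i, j) = m_(i+j) + ∑ (l = 1..j) m_l q (i, j - l)` by the rank one identity, and
`tr X^m - tr A^m = ∑ (i = 0..m-1) q (i + 1, m - 1 - i) = m * m_m + ` elements of `S`. -/
def St_One : Prop := ∀ (R : Type) [CommRing R] (r : ℕ) (S : Subring R)
    (A e : Matrix (Fin r) (Fin r) R), RO e →
    (∀ m : ℕ, 0 < m → ∃ t ∈ S, (m : R) * t = 1) →
    (∀ m : ℕ, (A ^ m).trace ∈ S) → (∀ m : ℕ, ((A * (1 + e)) ^ m).trace ∈ S) →
    e.trace ∈ S → ∀ m : ℕ, (A ^ m * e).trace ∈ S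

/-- **TWO**.  Two letters `e, e'` (in this order) with `p = tr (e e')` invertible in `S`.
`g = A (1 + e)`; known: one letter words for `(A, e)`, `(A, e')`, `(g, e')` and for `A` and the letter
`e₁ = (1 - z' e') e (1 + e')` (`z'` the inverse of `1 + tr e'`).
PROOF. `t (i, j) = tr (e A^i e' A^j)`; `t (i, j) p = t (i, 0) t (0, j)` by the rank one identities.
So it is enough to see `a_i = t (i, 0), b_i = t (0, i) ∈ S` for `i ∈ ℤ`.  The known `tr (A^i e₁)` gives
`b_i - z' a_i ∈ S` (the terms `tr (A^i e)`, `z' p tr (A^i e')` are in `S`).  `m ≥ 1`, all smaller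
indices done: `g^m = A^m + ∑ (i = 1..m) A^i e g^(m-i)`, so
`tr (g^m e') - tr (A^m e') = ∑ (i = 1..m) tr (e g^(m-i) e' A^i)` and
`p tr (e g^j e' A^i) = tr (e g^j e') b_i`; `tr (e g^j e')` is in `S` for `j < m` (same telescoping:
`tr (e g^j e') = a_j + ∑ (l = 1..j) tr (e A^l) tr (e g^(j-l) e')`); the term `i = m` is `b_m`
(`j = 0`).  So `b_m ∈ S`, then `a_m ∈ S`.  Negative indices: `g⁻¹ = (1 - z e) A⁻¹` with
`z (1 + tr e) = 1`, `g^(-m) = A^(-m) - z ∑ (i = 0..m-1) g^(-i) e A^(-(m-i))`, in the same way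
`a_(-m) ∈ S`, then `b_(-m)`. -/
def St_Two : Prop := ∀ (R : Type) [CommRing R] (r : ℕ) (S : Subring R)
    (A : GL (Fin r) R) (e e' : Matrix (Fin r) (Fin r) R) (g : GL (Fin r) R) (z z' p' : R),
    RO e → RO e' → (g : Matrix (Fin r) (Fin r) R) = A * (1 + e) →
    e.trace ∈ S → e'.trace ∈ S → z ∈ S → z' ∈ S → p' ∈ S →
    z * (1 + e.trace) = 1 → z' * (1 + e'.trace) = 1 → p' * (e * e').trace = 1 →
    (e * e').trace ∈ S →
    (∀ k : ℤ, ((A ^ k : GL (Fin r) R) * e).trace ∈ S) →
    (∀ k : ℤ, ((A ^ k : GL (Fin r) R) * e').trace ∈ S) →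
    (∀ k : ℤ, ((g ^ k : GL (Fin r) R) * e').trace ∈ S) →
    (∀ k : ℤ, ((A ^ k : GL (Fin r) R) * ((1 - z' • e') * e * (1 + e'))).trace ∈ S) →
    ∀ i j : ℤ, (e * (A ^ i : GL (Fin r) R) * e' * (A ^ j : GL (Fin r) R)).trace ∈ S

/-- **THREE**.  Three letters `e₁, e₂, e₃` with `p = tr (e₁ e₂)` invertible in `S` and `e₃`
non-orthogonal to `e₁` or `e₂` (`q = tr (e₁ e₃)` or `tr (e₂ e₃)` invertible).
PROOF. Write `F (i, j, k) = tr (e₁ A^i e₂ A^j e₃ A^k)`.  By the rank one identities
`F (i, j, k) p = tr (e₁ A^i e₂) F (0, j, k)`: colour `0` between `1` and `2`.  Case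
`q = tr (e₁ e₃)`: `F (0, j, k) q = F (0, j, 0) tr (e₃ A^k e₁)`.  If `tr (e₂ e₃)` is not zero it is
invertible and `F (0, j, 0) tr (e₂ e₃) = F (0, 0, 0) tr (e₂ A^j e₃)`, done.  If it is zero then
`e₂ e₃ = e₃ e₂ = 0` and the hypothesis `hR` for `X = A^j e₃`:
`tr (X (1 - z₂ e₂) e₁ (1 + e₂)) ∈ S` reads
`tr (X e₁) + tr (X e₁ e₂) - z₂ tr (X e₂ e₁) - z₂ p tr (X e₂) ∈ S`, where `tr (X e₁ e₂) = F (0, j, 0)`,
`X e₂ = A^j e₃ e₂ = 0`, `tr (X e₁) ∈ S`.  Case `q = tr (e₂ e₃)`: the same with `1, 2` exchanged: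
`F (0, j, k) q = F (0, 0, k) tr (e₂ A^j e₃)`; if `tr (e₁ e₃) = 0` take `X = e₃ A^k`:
`tr (X e₁ e₂) = F (0, 0, k)`, `tr (X e₂ e₁) = tr (e₃ A^k e₂ e₁) = 0` because `e₁ e₃ = 0` (rotate).
The words in the other cyclic order `e₃ A^i e₂ A^j e₁ A^k` in the same way, with the relation solved
for `tr (X e₂ e₁)` (`z₂` is invertible in `S`). -/
def St_Three : Prop := ∀ (R : Type) [CommRing R] (r : ℕ) (S : Subring R)
    (A : GL (Fin r) R) (e₁ e₂ e₃ : Matrix (Fin r) (Fin r) R) (z₂ z₂' : R),
    RO e₁ → RO e₂ → RO e₃ → (∀ s ∈ S, s ≠ 0 → ∃ t ∈ S, s * t = 1) →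
    z₂ ∈ S → z₂' ∈ S → z₂ * z₂' = 1 →
    (e₁ * e₂).trace ≠ 0 → ((e₁ * e₃).trace ≠ 0 ∨ (e₂ * e₃).trace ≠ 0) →
    ((e₁ * e₃).trace = 0 → e₁ * e₃ = 0 ∧ e₃ * e₁ = 0) →
    ((e₂ * e₃).trace = 0 → e₂ * e₃ = 0 ∧ e₃ * e₂ = 0) →
    (∀ i j : ℤ, (e₁ * (A ^ i : GL (Fin r) R) * e₂ * (A ^ j : GL (Fin r) R)).trace ∈ S) →
    (∀ i j : ℤ, (e₁ * (A ^ i : GL (Fin r) R) * e₃ * (A ^ j : GL (Fin r) R)).trace ∈ S) →
    (∀ i j : ℤ, (e₂ * (A ^ i : GL (Fin r) R) * e₃ * (A ^ j : GL (Fin r) R)).trace ∈ S) →
    (∀ i j : ℤ, ((A ^ i : GL (Fin r) R) * e₃ * (A ^ j : GL (Fin r) R) *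
      ((1 - z₂ • e₂) * e₁ * (1 + e₂))).trace ∈ S) →
    (e₁ * e₂ * e₃).trace ∈ S → (e₃ * e₂ * e₁).trace ∈ S →
    ∀ i j k : ℤ,
      (e₁ * (A ^ i : GL (Fin r) R) * e₂ * (A ^ j : GL (Fin r) R) * e₃ *
        (A ^ k : GL (Fin r) R)).trace ∈ S ∧
      (e₃ * (A ^ i : GL (Fin r) R) * e₂ * (A ^ j : GL (Fin r) R) * e₁ *
        (A ^ k : GL (Fin r) R)).trace ∈ S

/-- **KRX**.  Algebraic integers with few and bounded conjugates: finitely many.
PROOF. Every root of the minimal polynomial of `x` over `ℚ` is `σ x` for some `σ ∈ Aut ℂ`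
(Helper84 / Helper12 `exists_aut`), so it has at most `N` roots, all of absolute value at most `B`:
finitely many minimal polynomials over `ℤ`. -/
def St_Krx : Prop := ∀ (N : ℕ) (B : ℝ),
    {x : ℂ | IsIntegral ℤ x ∧ (∀ σ : RingAut ℂ, ‖σ x‖ ≤ B) ∧
      (Set.range fun σ : RingAut ℂ => σ x).encard ≤ N}.Finite

end Pool.Agent.PRS
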