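import Pool.Agent.PRS.GEN
import Pool.Agent.PRS.StX1

/-!
# One arbitrary generator: statements, second part (uniqueness of the traces)

Paper: GC_PRX_h20.md in the store, step U.  Tuples `(a; y_1, ..., y_n)`: `a` is the arbitrary
element, the letters `y_i` are multiples of pseudo-reflections.  Moves: braid moves of the letters,
and the full twist of `a` around the first letter.
-/

set_option autoImplicit false

namespace Pool.Agent.PRS

open Matrix Pool.Agent.HZ

section defs
variable {R : Type} [CommRing R] {G : Type} [Group G] {r : ℕ}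

/-- reachable tuples -/
inductive Rch (a₀ : G) (M₀ : List G) : G → List G → Prop
  | refl : Rch a₀ M₀ a₀ M₀
  | move {a : G} {M M' : List G} : Rch a₀ M₀ a M → BMove M M' → Rch a₀ M₀ a M'
  | twist {a y : G} {M : List G} : Rch a₀ M₀ a (y :: M) →
      Rch a₀ M₀ ((a * y) * a * (a * y)⁻¹) ((a * y) * y * (a * y)⁻¹ :: M)
  | untwist {a y : G} {M : List G} : Rch a₀ M₀ a (y :: M) →
      Rch a₀ M₀ ((a * y)⁻¹ * a * (a * y)) ((a * y)⁻¹ * y * (a * y) :: M)

/-- beginnings of reachable tuples -/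
def RP (a₀ : G) (M₀ : List G) (a : G) (N : List G) : Prop := ∃ T, Rch a₀ M₀ a (N ++ T)

/-- a letter: a unit times `1 + el`, `el = c • ρ y - 1` of rank one, constants in `S` -/
def Lt (S : Subring R) (ρ : G →* Matrix (Fin r) (Fin r) R) (c c' z z' : G → R) (y : G) : Prop :=
  (c y ∈ S ∧ c' y ∈ S ∧ z y ∈ S ∧ z' y ∈ S) ∧ (c y * c' y = 1 ∧ z y * z' y = 1) ∧
    (el ρ c y).trace = z y - 1 ∧ RO (el ρ c y)

/-- words `a^(k_1) el(y_1) a^(k_2) el(y_2) ...` -/
def xw (ρ : G →* Matrix (Fin r) (Fin r) R) (c : G → R) (a : G) (w : List (ℤ × G)) :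
    Matrix (Fin r) (Fin r) R := (w.map fun p => ρ (a ^ p.1) * el ρ c p.2).prod

/-- the traces of all words in the powers of `a` and the letters of `N` are in `S` -/
def KX (S : Subring R) (ρ : G →* Matrix (Fin r) (Fin r) R) (c : G → R) (a : G) (N : List G) :
    Prop :=
  ∀ (j : ℤ) (w : List (ℤ × G)), (∀ p ∈ w, p.2 ∈ N) → (ρ (a ^ j) * xw ρ c a w).trace ∈ S

/-- the traces of the group generated by `a` and `N` are in `S` -/
def KG (S : Subring R) (ρ : G →* Matrix (Fin r) (Fin r) R) (a : G) (N : List G) : Prop :=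
  ∀ w ∈ Subgroup.closure ({a} ∪ {x | x ∈ N}), (ρ w).trace ∈ S

/-- the hypotheses of the uniqueness theorem -/
structure SysX (S : Subring R) (ρ : G →* Matrix (Fin r) (Fin r) R) (a₀ : G) (M₀ : List G)
    (c c' z z' : G → R) : Prop where
  conj : ∀ a b, c (b⁻¹ * a * b) = c a
  lett : ∀ a N, RP a₀ M₀ a N → ∀ y ∈ N, Lt S ρ c c' z z' y
  loops : ∀ a N, RP a₀ M₀ a N → (∀ k : ℤ, (ρ ((a * N.prod) ^ k)).trace ∈ S) ∧ (ρ N.prod).trace ∈ S
  fld : ∀ s ∈ S, s ≠ 0 → ∃ t ∈ S, s * t = 1
  nat : ∀ m : ℕ, 0 < m → ∃ t ∈ S, (m : R) * t = 1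
  par : ∀ a y y' N, RP a₀ M₀ a (y :: y' :: N) → (el ρ c y * el ρ c y').trace = 0 →
    el ρ c y * el ρ c y' = 0 ∧ el ρ c y' * el ρ c y = 0

end defs

/-- **KW**.  Words in the rank one parts and elements of the group.
PROOF. `ρ y = c' y • (1 + el y)`, `ρ y⁻¹ = c y • (1 - z' y • el y)` (as in `Sys.map_eq`,
`Sys.map_inv` of GEN.lean, from `el y * el y = (z y - 1) • el y`).
`KX → KG`: show `∀ v word, ∀ j, ((xw v) * ρ (a^j) * ρ w).trace ∈ S` by `closure_induction_left` on
`w` as in `thm_Gen` (a generator `a^±1` changes `j`; a generator `y^±1` gives two terms, `v` and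
`v ++ [(j, y)]`; rotate `a^j` to the front with `trace_mul_comm` at the end).
`KG → KX`: expand `el y = c y • ρ y - 1`: by induction on the word `w`,
`(ρ g * xw w).trace ∈ S` for all `g` in the group (`ρ g * (ρ (a^k) * (c y • ρ y - 1)) * X =
c y • (ρ (g a^k y) * X) - ρ (g a^k) * X`). -/
def St_KW : Prop := ∀ (R : Type) [CommRing R] (G : Type) [Group G] (r : ℕ) (S : Subring R)
    (ρ : G →* Matrix (Fin r) (Fin r) R) (c c' z z' : G → R) (a : G) (N : List G),
    (∀ y ∈ N, Lt S ρ c c' z z' y) → (KX S ρ c a N ↔ KG S ρ a N)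

/-- **ND**.  It is enough to treat words without repeated letters which use all letters.
PROOF. Strong induction on the length of `w`.  If a letter is repeated, rotate (`ρ (a^j)` goes
into the exponent of the first letter, `trace_mul_comm`) so that the word is
`el y * U * el y * V` with `U, V` (beginning and) ending with powers of `a`; by the rank one identity
its trace is `tr (el y * U) * tr (el y * V)`, both are traces of shorter words.  If no letter is
repeated, and the letters of `w` are all in a list `N'` which is a proper sublist of `N`, use the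
hypothesis for `N'`; otherwise `w.map Prod.snd` is a permutation of `N` (`List.Nodup`,
`List.Subperm`: if `w.map Prod.snd` is a permutation of a sublist `N'` of `N` then either `N' = N` or
it is proper). -/
def St_Nd : Prop := ∀ (R : Type) [CommRing R] (G : Type) [Group G] (r : ℕ) (S : Subring R)
    (ρ : G →* Matrix (Fin r) (Fin r) R) (c c' z z' : G → R) (a : G) (N : List G),
    (∀ y ∈ N, Lt S ρ c c' z z' y) →
    (∀ N' : List G, N'.Sublist N → N'.length < N.length → KX S ρ c a N') →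
    (∀ w : List (ℤ × G), w ≠ [] → (w.map Prod.snd).Perm N → (xw ρ c a w).trace ∈ S) →
    (∀ k : ℤ, (ρ (a ^ k)).trace ∈ S) →
    KX S ρ c a N

/-- **ZZ**.  Two letters are unrelated or related, in both directions.
PROOF. Write `e = el y`, `e' = el y'`, `g = a * y`, `A = ρ a`.  For `k : ℤ` the tuple
`(g^k a g^-k; g^k y g^-k, y')` is reachable (iterate `twist`, `untwist`: they conjugate `a` and `y` by
`g`, and `g` does not change), and `el (g^k y g^-k) = ρ(g^k) e ρ(g^-k)` by `conj`.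
(1) If `tr (ρ(g^k) e ρ(g^-k) e') = 0` for all `k : ℤ`: by `par`, `e' ρ(g^k) e = 0` and
`e ρ(g^-k) e' = 0` for all `k : ℤ`.  Then `e' ρ(g^k) = (c' y)^k • e' A^k` and `e' A^k e = 0` for
`k ≥ 0` by induction: `ρ g = c' y • A (1 + e)`, `e' ρ(g^(k+1)) = (c' y)^(k+1) e' A^(k+1) (1 + e)`,
times `e`: `0 = (c' y)^(k+1) z y • e' A^(k+1) e`, so `e' A^(k+1) e = 0`.  For `k ≤ 0` with
`ρ g⁻¹ = c y • (1 - z' y • e) A⁻¹`: `e' ρ(g^(-k-1)) = (c y)^(k+1) e' A^(-k) (1 - z' e) A⁻¹` and
`e' A^(-k) e = 0`.  In the same way `ρ(g^k) e'`, from the other side: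
`e A^k e' = 0` for all `k : ℤ` (`ρ(g^(k+1)) e' = c' A (1 + e) ρ(g^k) e' = ... `).
(2) Otherwise some `tr (ρ(g^k) e ρ(g^-k) e') ≠ 0`; if `tr (e A^i e' A^j) = 0` for all `i, j`: write
`ρ(g^k) e` as a linear combination of the `A^i e`, and `e ρ(g^-k)` of the `e A^j` (induction on `k`,
rank one identity), so the trace is zero, contradiction.  -/
def St_Zz : Prop := ∀ (R : Type) [CommRing R] (G : Type) [Group G] (r : ℕ) (S : Subring R)
    (ρ : G →* Matrix (Fin r) (Fin r) R) (a₀ : G) (M₀ : List G) (c c' z z' : G → R),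
    SysX S ρ a₀ M₀ c c' z z' → ∀ (a y y' : G) (N : List G), RP a₀ M₀ a (y :: y' :: N) →
      ((∀ k : ℤ, el ρ c y * ρ (a ^ k) * el ρ c y' = 0 ∧ el ρ c y' * ρ (a ^ k) * el ρ c y = 0) ∧
        ∀ k : ℤ, (el ρ c ((a * y) ^ k * y * ((a * y) ^ k)⁻¹) * el ρ c y').trace = 0) ∨
      ((∃ i j : ℤ, (el ρ c y * ρ (a ^ i) * el ρ c y' * ρ (a ^ j)).trace ≠ 0) ∧
        ∃ k : ℤ, (el ρ c ((a * y) ^ k * y * ((a * y) ^ k)⁻¹) * el ρ c y').trace ≠ 0)

/-- **N1**.  One letter.
PROOF. A word in the letter `y` is by the rank one identity a product of `tr (A^k e)` (`St_Nd`).  For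
`k ≥ 0`: `St_One` with `A = ρ a`, `e = el y`: `A (1 + e) = c y • ρ (a y)`, its powers have the traces
`(c y)^m tr ρ ((a y)^m)`, `loops` for the tuples `(a;)` and `(a; y)`.  For `k < 0`: `St_One` with
`ρ a⁻¹` and the rank one matrix `- z' y • e`: `ρ a⁻¹ (1 - z' e)` has the same traces of powers as
`(1 - z' e) ρ a⁻¹ = c' y • ρ ((a y)⁻¹)`, and `- z' y` is invertible in `S`. -/
def St_N1 : Prop := ∀ (R : Type) [CommRing R] (G : Type) [Group G] (r : ℕ) (S : Subring R)
    (ρ : G →* Matrix (Fin r) (Fin r) R) (a₀ : G) (M₀ : List G) (c c' z z' : G → R),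
    SysX S ρ a₀ M₀ c c' z z' → ∀ (a y : G), RP a₀ M₀ a [y] → KX S ρ c a [y]

/-- **N2**.  Two letters.
PROOF. `St_Zz` for `(a; y, y')`.  If unrelated, use `St_Nd`: words with both letters are zero (the
trace of `a^i el(y) a^j el(y')` contains `el(y) a^j el(y') = 0`).  Otherwise take `k` with
`tr (el (g^k y g^-k) el y') ≠ 0`, `g = a y`; the tuple `(g^k a g^-k; g^k y g^-k, y')` is reachable and
generates the same group (`g = (g^k a g^-k)(g^k y g^-k)`), so by `St_KW` (twice) we may assume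
`k = 0`, `p = tr (el y el y') ≠ 0`.  `St_Nd` and `St_Two` (`e = el y`, `e' = el y'`,
`g = c y • ρ (a y)`, `z = z' y`, ...): `p ∈ S` because the word `[y, y']` is in `S` by `thm_Gen` or
`Sys.words` (the pure system `[y, y']`), so `p` is invertible in `S` by `fld`; one letter words for
`(a; y)`, `(a; y')`, `(a; y'⁻¹ y y')` by hypothesis; `tr (ρ ((a y)^k) el y') ∈ S`: as in `St_N1`
(`St_One`) with `a y` in the place of `a`: the traces of the powers of `a y` and `a y y'` are in `S`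
by `loops`. -/
def St_N2 : Prop := ∀ (R : Type) [CommRing R] (G : Type) [Group G] (r : ℕ) (S : Subring R)
    (ρ : G →* Matrix (Fin r) (Fin r) R) (a₀ : G) (M₀ : List G) (c c' z z' : G → R),
    SysX S ρ a₀ M₀ c c' z z' →
    (∀ (a : G) (N : List G), RP a₀ M₀ a N → N.length < 2 → KX S ρ c a N) →
    ∀ (a y y' : G), RP a₀ M₀ a [y, y'] → KX S ρ c a [y, y']

/-- **CA**.  The first two letters may be assumed to be not orthogonal, or the first letter is
unrelated to all others.
PROOF. If for some letter `y'` of `N` (`y' ∈ N`) the tuple `(a; y, y')` is in the second case of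
`St_Zz`: move `y'` to the second place (`move_left`: it does not change, the letters before it are
conjugated), then twist: `(g^k a g^-k; g^k y g^-k, y', ...)`, `g = a y`.  The group does not change
(`BReach.closure_eq`).  Otherwise all letters of `N` are unrelated to `y`. -/
def St_Ca : Prop := ∀ (R : Type) [CommRing R] (G : Type) [Group G] (r : ℕ) (S : Subring R)
    (ρ : G →* Matrix (Fin r) (Fin r) R) (a₀ : G) (M₀ : List G) (c c' z z' : G → R),
    SysX S ρ a₀ M₀ c c' z z' → ∀ (a y : G) (N : List G), RP a₀ M₀ a (y :: N) →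
      (∀ y' ∈ N, ∀ k : ℤ, el ρ c y * ρ (a ^ k) * el ρ c y' = 0) ∨
      ∃ (a₁ y₁ y₂ : G) (N₁ : List G), RP a₀ M₀ a₁ (y₁ :: y₂ :: N₁) ∧
        (y₁ :: y₂ :: N₁).length = (y :: N).length ∧
        (el ρ c y₁ * el ρ c y₂).trace ≠ 0 ∧
        Subgroup.closure ({a₁} ∪ {x | x ∈ y₁ :: y₂ :: N₁}) = Subgroup.closure ({a} ∪ {x | x ∈ y :: N})

/-- **FT**.  Three letters: the third may be assumed to be not orthogonal to one of the others, or
it is unrelated to both.
PROOF. `g = a y₁ y₂`; for `k : ℤ` the tuple `(g^k a g^-k; g^k y₁ g^-k, g^k y₂ g^-k, y₃)` is reachable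
(`twist` with `y₁`; the move `(y₁', y₂) → (y₁' y₂ y₁'⁻¹, y₁')`; `twist`; move back
`(y₂'', y₁') → (y₂'' y₁' y₂''⁻¹, y₂'')`: this is the conjugation by `g`, which is fixed) and generates
the same group.  If all `tr (el (g^k y_i g^-k) el y₃) = 0`, `i = 1, 2`, `k : ℤ`, then by `par` (move
`y₃`, resp. `y₂` to the left) `el y₃ * ρ(g^k) * el y_i = 0` for all `k`, and
`ρ g = const • A (1 + e₁)(1 + e₂)`.  By induction on `k ≥ 0`, `el y₃ * ρ(g^k) = const • el y₃ * A^k`
and `el y₃ * A^k * e_i = 0`: with `v = el y₃ * A^(k+1)`: `v (1 + e₁)(1 + e₂) e₂ = z₂ v (1 + e₁) e₂`,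
so `v (1 + e₁) e₂ = 0`, then `v (1 + e₁)(1 + e₂) e₁ = v (1 + e₁) e₁ = z₁ v e₁`, so `v e₁ = 0`, then
`v e₂ = 0`.  `k < 0` with `ρ g⁻¹ = const • (1 - z₂' e₂)(1 - z₁' e₁) A⁻¹`. -/
def St_Ft : Prop := ∀ (R : Type) [CommRing R] (G : Type) [Group G] (r : ℕ) (S : Subring R)
    (ρ : G →* Matrix (Fin r) (Fin r) R) (a₀ : G) (M₀ : List G) (c c' z z' : G → R),
    SysX S ρ a₀ M₀ c c' z z' → ∀ (a y₁ y₂ y₃ : G), RP a₀ M₀ a [y₁, y₂, y₃] →
      (∀ k : ℤ, el ρ c y₃ * ρ (a ^ k) * el ρ c y₁ = 0 ∧ el ρ c y₃ * ρ (a ^ k) * el ρ c y₂ = 0) ∨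
      ∃ (a' y₁' y₂' : G), RP a₀ M₀ a' [y₁', y₂', y₃] ∧
        (el ρ c y₁' * el ρ c y₂').trace = (el ρ c y₁ * el ρ c y₂).trace ∧
        ((el ρ c y₁' * el ρ c y₃).trace ≠ 0 ∨ (el ρ c y₂' * el ρ c y₃).trace ≠ 0) ∧
        Subgroup.closure ({a'} ∪ {x | x ∈ [y₁', y₂', y₃]}) =
          Subgroup.closure ({a} ∪ {x | x ∈ [y₁, y₂, y₃]})

/-- **N3**.  Three letters.
PROOF. `St_Ca`: if `y₁` is unrelated to `y₂, y₃`, use `St_Nd`: a word with all three letters contains
(cyclically) `el y₁ A^k el y_j = 0`.  Otherwise pass to another tuple with the same group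
(`St_KW` twice) with `p = tr (el y₁ el y₂) ≠ 0`.  `St_Ft`: if `y₃` is unrelated to both, the same
argument; otherwise pass to the new tuple.  Then `St_Nd` and `St_Three` (`e_i = el y_i`, `z₂ = z' y₂`,
`z₂' = z y₂`): words with three different letters are, after a rotation, of the two forms there; two
letter words by hypothesis for the sublists; `hR`: `(1 - z' y₂ el y₂) el y₁ (1 + el y₂) =
el (y₂⁻¹ y₁ y₂)` (`Sys.el_conj`), two letter words of the tuple `(a; y₂⁻¹ y₁ y₂, y₃)`, reachable from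
`(a; y₁, y₂, y₃) → (a; y₂, y₂⁻¹ y₁ y₂, y₃)` and a sublist; `tr (e₁ e₂ e₃), tr (e₃ e₂ e₁) ∈ S` by the
pure system (`Sys.all_words`); `p ∈ S`, etc. by the two letter words. -/
def St_N3 : Prop := ∀ (R : Type) [CommRing R] (G : Type) [Group G] (r : ℕ) (S : Subring R)
    (ρ : G →* Matrix (Fin r) (Fin r) R) (a₀ : G) (M₀ : List G) (c c' z z' : G → R),
    SysX S ρ a₀ M₀ c c' z z' →
    (∀ (a : G) (N : List G), RP a₀ M₀ a N → N.length < 3 → KX S ρ c a N) →
    ∀ (a : G) (N : List G), RP a₀ M₀ a N → N.length = 3 → KX S ρ c a N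

/-- **N4**.  Four or more letters.
PROOF. `St_Ca`: if `y₁` is unrelated to all others, use `St_Nd`: a word with all letters, each once,
contains (cyclically) `el y₁ A^k el y_j = 0`.  Otherwise we may assume
`p = tr (el y₁ el y₂) ≠ 0`, it is in `S` (two letter words), so invertible in `S`.  `St_Nd`: let `w` be
a word with every letter exactly once, `a, b` the letters `y₁, y₂`.
CHORD: `tr (e_i X e_j Y) tr (e_i X' e_j Y') = tr (e_i X e_j Y') tr (e_i X' e_j Y)` (rank one
identities).  If `i ≠ j` are letters with `tr (e_i A^s e_j A^t) ≠ 0` for some `s, t` and `X, Y` both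
contain letters then `tr (e_i X e_j Y) ∈ S`: put `X' = A^s`, `Y' = A^t`, words in fewer letters (a
proper sublist of `N`).
(1) `a, b` not cyclic neighbours in `w`: CHORD with `s = t = 0`.
(2) `a, b` cyclic neighbours: `tr (e_a A^m e_b Y) p = tr (e_a A^m e_b) tr (e_a e_b Y)` (or with `b`
before `a`), so it is enough to treat the words `(e_a e_b Y)` and `(e_b e_a Y)`.
(3) `tr (Y el (b⁻¹ a b)) ∈ S` (words of the tuple `(a; b⁻¹ a b, rest)` with fewer letters, reachable),
and by `Sys.el_conj` it is `tr (Y e_a) + tr (Y e_a e_b) - z' b tr (Y e_b e_a) - z' b p tr (Y e_b)`; so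
`tr (Y e_a e_b) - z' b tr (Y e_b e_a) ∈ S`: one of the two words is in `S` iff the other is.
(4) `Y = A^k d ... c A^l`, with letters `d ≠ c` (at least two letters besides `a, b`).  The word
`c a b d ...`: if its trace is zero, done by (3).  Otherwise `e_c A^l e_a ≠ 0`, so `a` and `c` are
related by `St_Zz` (for `(a; a, c)`, a sublist) and they are not neighbours in the word `c b a d ...`,
which is in `S` by CHORD (the two arcs contain `b` and `d`).  By (3) done. -/
def St_N4 : Prop := ∀ (R : Type) [CommRing R] (G : Type) [Group G] (r : ℕ) (S : Subring R)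
    (ρ : G →* Matrix (Fin r) (Fin r) R) (a₀ : G) (M₀ : List G) (c c' z z' : G → R),
    SysX S ρ a₀ M₀ c c' z z' → ∀ (a : G) (N : List G), RP a₀ M₀ a N → 4 ≤ N.length →
    (∀ (a' : G) (N' : List G), RP a₀ M₀ a' N' → N'.length < N.length → KX S ρ c a' N') →
    KX S ρ c a N

/-- **UQ**.  Uniqueness of the traces: all traces are in `S`.
PROOF. Strong induction on the number of letters: `KX S ρ c a N` for all reachable tuples;
`N = []`: `loops`; then `St_N1, St_N2, St_N3, St_N4`.  `St_KW` for `(a₀; M₀)`. -/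
def St_Uq : Prop := ∀ (R : Type) [CommRing R] (G : Type) [Group G] (r : ℕ) (S : Subring R)
    (ρ : G →* Matrix (Fin r) (Fin r) R) (a₀ : G) (M₀ : List G) (c c' z z' : G → R),
    SysX S ρ a₀ M₀ c c' z z' → KG S ρ a₀ M₀

end Pool.Agent.PRS
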