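import Pool.Agent.PRS.StX2

/-!
# One arbitrary generator: basic lemmas
-/

set_option autoImplicit false

namespace Pool.Agent.PRS

open Matrix Pool.Agent.HZ

section rch
variable {G : Type} [Group G] {a₀ : G} {M₀ : List G}

theorem Rch.reach {a : G} {M M' : List G} (h : Rch a₀ M₀ a M) (h' : BReach M M') :
    Rch a₀ M₀ a M' := by
  induction h' with
  | refl => exact h
  | tail _ hs ih => exact ih.move hs

theorem Rch.length {a : G} {M : List G} (h : Rch a₀ M₀ a M) : M.length = M₀.length := by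
  induction h with
  | refl => rfl
  | move _ hm ih => rw [hm.length_eq, ih]
  | twist _ ih => simpa using ih
  | untwist _ ih => simpa using ih

theorem RP.refl : RP a₀ M₀ a₀ M₀ := ⟨[], by rw [List.append_nil]; exact Rch.refl⟩

theorem RP.of_rch {a : G} {M : List G} (h : Rch a₀ M₀ a M) : RP a₀ M₀ a M :=
  ⟨[], by rwa [List.append_nil]⟩

/-- braid moves of the letters -/
theorem RP.reach {a : G} {N N' : List G} (h : RP a₀ M₀ a N) (h' : BReach N N') : RP a₀ M₀ a N' := by
  obtain ⟨T, hT⟩ := h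
  exact ⟨T, hT.reach (h'.append_right T)⟩

/-- beginnings of lists in the braid orbit of the letters -/
theorem RP.pre {a : G} {N N' : List G} (h : RP a₀ M₀ a N) (h' : Pre N N') : RP a₀ M₀ a N' := by
  obtain ⟨B, hB⟩ := h'
  obtain ⟨T, hT⟩ := h.reach hB
  exact ⟨B ++ T, by rwa [List.append_assoc] at hT⟩

/-- sublists -/
theorem RP.sublist {a : G} {N N' : List G} (h : RP a₀ M₀ a N) (h' : N'.Sublist N) :
    RP a₀ M₀ a N' := h.pre (Pre.sublist h')

theorem RP.twist {a y : G} {N : List G} (h : RP a₀ M₀ a (y :: N)) :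
    RP a₀ M₀ ((a * y) * a * (a * y)⁻¹) ((a * y) * y * (a * y)⁻¹ :: N) := by
  obtain ⟨T, hT⟩ := h
  exact ⟨T, Rch.twist hT⟩

theorem RP.untwist {a y : G} {N : List G} (h : RP a₀ M₀ a (y :: N)) :
    RP a₀ M₀ ((a * y)⁻¹ * a * (a * y)) ((a * y)⁻¹ * y * (a * y) :: N) := by
  obtain ⟨T, hT⟩ := h
  exact ⟨T, Rch.untwist hT⟩

theorem zc_mul {g x y : G} (k : ℤ) : g ^ k * x * (g ^ k)⁻¹ * (g ^ k * y * (g ^ k)⁻¹) =
    g ^ k * (x * y) * (g ^ k)⁻¹ := by group

theorem zc_self (g : G) (k : ℤ) : g ^ k * g * (g ^ k)⁻¹ = g := by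
  rw [← _root_.zpow_add_one, add_comm, _root_.zpow_one_add]
  group

theorem zc_succ (g x : G) (k : ℤ) : g * (g ^ k * x * (g ^ k)⁻¹) * g⁻¹ =
    g ^ (k + 1) * x * (g ^ (k + 1))⁻¹ := by
  rw [add_comm, _root_.zpow_one_add]
  group

theorem zc_pred (g x : G) (k : ℤ) : g⁻¹ * (g ^ k * x * (g ^ k)⁻¹) * g =
    g ^ (k - 1) * x * (g ^ (k - 1))⁻¹ := by
  have : k - 1 = -1 + k := by ring
  rw [this, _root_.zpow_add, _root_.zpow_neg_one]
  group

/-- iterated twists around the first letter -/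
theorem RP.ztwist {a y : G} {N : List G} (h : RP a₀ M₀ a (y :: N)) (k : ℤ) :
    RP a₀ M₀ ((a * y) ^ k * a * ((a * y) ^ k)⁻¹) ((a * y) ^ k * y * ((a * y) ^ k)⁻¹ :: N) := by
  induction k using Int.induction_on with
  | zero => simpa using h
  | succ k ih =>
    have h1 := ih.twist
    rw [zc_mul, zc_self, zc_succ, zc_succ] at h1
    exact h1
  | pred k ih =>
    have h1 := ih.untwist
    rw [zc_mul, zc_self, zc_pred, zc_pred] at h1
    exact h1

/-- the full twist of the first three strands -/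
theorem RP.twist3 {a y y' : G} {N : List G} (h : RP a₀ M₀ a (y :: y' :: N)) :
    RP a₀ M₀ ((a * y * y') * a * (a * y * y')⁻¹)
      ((a * y * y') * y * (a * y * y')⁻¹ :: (a * y * y') * y' * (a * y * y')⁻¹ :: N) := by
  have h1 := h.twist
  set y1 := (a * y) * y * (a * y)⁻¹ with hy1
  set a1 := (a * y) * a * (a * y)⁻¹ with ha1
  have h2 := h1.reach (BReach.of_move (BMove.l [] N y1 y'))
  rw [List.nil_append] at h2
  have h3 := h2.twist
  have h4 := h3.reach (BReach.of_move (BMove.l [] N _ y1))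
  rw [List.nil_append] at h4
  have g1 : a1 * (y1 * y' * y1⁻¹) = a * y * y' * y1⁻¹ := by
    rw [ha1, hy1]
    group
  rw [g1] at h4
  have e1 : a * y * y' * y1⁻¹ * a1 * (a * y * y' * y1⁻¹)⁻¹ =
      (a * y * y') * a * (a * y * y')⁻¹ := by
    rw [ha1, hy1]
    group
  have e2 : a * y * y' * y1⁻¹ * (y1 * y' * y1⁻¹) * (a * y * y' * y1⁻¹)⁻¹ =
      (a * y * y') * y' * (a * y * y')⁻¹ := by
    group
  rw [e1, e2] at h4
  have e3 : a * y * y' * y' * (a * y * y')⁻¹ * y1 * (a * y * y' * y' * (a * y * y')⁻¹)⁻¹ =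
      (a * y * y') * y * (a * y * y')⁻¹ := by
    rw [hy1]
    group
  rw [e3] at h4
  exact h4

theorem RP.untwist3 {a y y' : G} {N : List G} (h : RP a₀ M₀ a (y :: y' :: N)) :
    RP a₀ M₀ ((a * y * y')⁻¹ * a * (a * y * y'))
      ((a * y * y')⁻¹ * y * (a * y * y') :: (a * y * y')⁻¹ * y' * (a * y * y') :: N) := by
  have h1 := h.reach (BReach.of_move (BMove.r [] N y y'))
  rw [List.nil_append] at h1
  have h2 := h1.untwist
  have h3 := h2.reach (BReach.of_move (BMove.r [] N _ _))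
  rw [List.nil_append] at h3
  have h4 := h3.untwist
  set g := a * y * y' with hg
  have e1 : (a * y')⁻¹ * a * (a * y') * ((a * y')⁻¹ * y' * (a * y')) = a * y' := by group
  have e2 : y'⁻¹ * y * y' = (a * y')⁻¹ * g := by rw [hg]; group
  have e3 : (a * y')⁻¹ * a * (a * y') * (y'⁻¹ * y * y') = y'⁻¹ * g := by rw [hg]; group
  rw [e3] at h4
  have f1 : (y'⁻¹ * g)⁻¹ * ((a * y')⁻¹ * a * (a * y')) * (y'⁻¹ * g) = g⁻¹ * a * g := by
    group
  have f2 : (y'⁻¹ * g)⁻¹ * (y'⁻¹ * y * y') * (y'⁻¹ * g) = g⁻¹ * y * g := by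
    group
  have f3 : (y'⁻¹ * y * y')⁻¹ * ((a * y')⁻¹ * y' * (a * y')) * (y'⁻¹ * y * y') =
      g⁻¹ * y' * g := by
    rw [hg]; group
  rw [f1, f2, f3] at h4
  exact h4

/-- iterated full twists of the first three strands -/
theorem RP.ztwist3 {a y y' : G} {N : List G} (h : RP a₀ M₀ a (y :: y' :: N)) (k : ℤ) :
    RP a₀ M₀ ((a * y * y') ^ k * a * ((a * y * y') ^ k)⁻¹)
      ((a * y * y') ^ k * y * ((a * y * y') ^ k)⁻¹ ::
        (a * y * y') ^ k * y' * ((a * y * y') ^ k)⁻¹ :: N) := by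
  induction k using Int.induction_on with
  | zero => simpa using h
  | succ k ih =>
    have h1 := ih.twist3
    rw [zc_mul, zc_mul, zc_self, zc_succ, zc_succ, zc_succ] at h1
    exact h1
  | pred k ih =>
    have h1 := ih.untwist3
    rw [zc_mul, zc_mul, zc_self, zc_pred, zc_pred, zc_pred] at h1
    exact h1

/-! ### the generated group -/

theorem cl_mem {a y : G} {N : List G} (h : y ∈ N) :
    y ∈ Subgroup.closure ({a} ∪ {x | x ∈ N}) := Subgroup.subset_closure (Or.inr h)

theorem cl_fst {a : G} {N : List G} : a ∈ Subgroup.closure ({a} ∪ {x | x ∈ N}) :=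
  Subgroup.subset_closure (Or.inl rfl)

theorem cl_reach {N N' : List G} (h : BReach N N') (a : G) :
    Subgroup.closure ({a} ∪ {x | x ∈ N'}) = Subgroup.closure ({a} ∪ {x | x ∈ N}) := by
  rw [Subgroup.closure_union, Subgroup.closure_union, h.closure_eq]

/-- conjugating `a` and some letters by an element of the group generated by them -/
theorem cl_conj {a : G} {P N : List G} {g : G}
    (hg : g ∈ Subgroup.closure ({a} ∪ {x | x ∈ P})) :
    Subgroup.closure ({g * a * g⁻¹} ∪ {x | x ∈ P.map (fun y => g * y * g⁻¹) ++ N}) =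
      Subgroup.closure ({a} ∪ {x | x ∈ P ++ N}) := by
  have hle : Subgroup.closure ({a} ∪ {x | x ∈ P}) ≤ Subgroup.closure ({a} ∪ {x | x ∈ P ++ N}) := by
    refine Subgroup.closure_mono (Set.union_subset_union_right _ fun x hx => ?_)
    exact List.mem_append_left N hx
  apply le_antisymm
  · rw [Subgroup.closure_le]
    have hg' := hle hg
    rintro x (rfl | hx)
    · exact Subgroup.mul_mem _ (Subgroup.mul_mem _ hg' cl_fst) (Subgroup.inv_mem _ hg')
    · rcases List.mem_append.1 hx with hx | hx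
      · obtain ⟨y, hy, rfl⟩ := List.mem_map.1 hx
        exact Subgroup.mul_mem _ (Subgroup.mul_mem _ hg' (cl_mem (List.mem_append_left N hy)))
          (Subgroup.inv_mem _ hg')
      · exact cl_mem (List.mem_append_right P hx)
  · have hg2 : g ∈ Subgroup.closure
        ({g * a * g⁻¹} ∪ {x | x ∈ P.map (fun y => g * y * g⁻¹) ++ N}) := by
      have h1 : g * g * g⁻¹ ∈ (Subgroup.closure ({a} ∪ {x | x ∈ P})).map
          (MulAut.conj g).toMonoidHom := ⟨g, hg, by simp [MulAut.conj_apply]⟩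
      rw [MonoidHom.map_closure] at h1
      have h2 : g * g * g⁻¹ = g := by group
      rw [h2] at h1
      refine Subgroup.closure_mono ?_ h1
      rintro x ⟨y, hy, rfl⟩
      rcases hy with rfl | hy
      · left
        simp [MulAut.conj_apply]
      · right
        refine List.mem_append_left N (List.mem_map.2 ⟨y, hy, ?_⟩)
        simp [MulAut.conj_apply]
    rw [Subgroup.closure_le]
    rintro x (rfl | hx)
    · have h1 := Subgroup.mul_mem _ (Subgroup.mul_mem _ (Subgroup.inv_mem _ hg2)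
        (cl_fst (a := g * x * g⁻¹) (N := P.map (fun y => g * y * g⁻¹) ++ N))) hg2
      have e : g⁻¹ * (g * x * g⁻¹) * g = x := by group
      rwa [e] at h1
    · rcases List.mem_append.1 hx with hx | hx
      · have h1 := Subgroup.mul_mem _ (Subgroup.mul_mem _ (Subgroup.inv_mem _ hg2)
          (cl_mem (a := g * a * g⁻¹) (N := P.map (fun y => g * y * g⁻¹) ++ N)
            (List.mem_append_left N (List.mem_map.2 ⟨x, hx, rfl⟩)))) hg2
        have e : g⁻¹ * (g * x * g⁻¹) * g = x := by group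
        rwa [e] at h1
      · exact cl_mem (List.mem_append_right _ hx)

/-- twisting does not change the group -/
theorem cl_ztwist {a y : G} {N : List G} (k : ℤ) :
    Subgroup.closure ({(a * y) ^ k * a * ((a * y) ^ k)⁻¹} ∪
      {x | x ∈ (a * y) ^ k * y * ((a * y) ^ k)⁻¹ :: N}) =
      Subgroup.closure ({a} ∪ {x | x ∈ y :: N}) := by
  have h1 := cl_conj (a := a) (P := [y]) (N := N) (g := (a * y) ^ k)
    (Subgroup.zpow_mem _ (Subgroup.mul_mem _ cl_fst (cl_mem (by simp))) k)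
  simpa using h1

theorem cl_ztwist3 {a y y' : G} {N : List G} (k : ℤ) :
    Subgroup.closure ({(a * y * y') ^ k * a * ((a * y * y') ^ k)⁻¹} ∪
      {x | x ∈ (a * y * y') ^ k * y * ((a * y * y') ^ k)⁻¹ ::
        (a * y * y') ^ k * y' * ((a * y * y') ^ k)⁻¹ :: N}) =
      Subgroup.closure ({a} ∪ {x | x ∈ y :: y' :: N}) := by
  have h1 := cl_conj (a := a) (P := [y, y']) (N := N) (g := (a * y * y') ^ k)
    (Subgroup.zpow_mem _ (Subgroup.mul_mem _ (Subgroup.mul_mem _ cl_fst (cl_mem (by simp)))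
      (cl_mem (by simp))) k)
  simpa using h1

/-- the whole tuple is in the braid orbit of the whole first tuple -/
theorem Rch.breach {a : G} {M : List G} (h : Rch a₀ M₀ a M) : BReach (a₀ :: M₀) (a :: M) := by
  induction h with
  | refl => exact BReach.refl _
  | move _ hm ih => exact ih.trans ((BReach.of_move hm).cons _)
  | @twist a y M _ ih =>
    refine ih.trans ?_
    have h1 := BReach.of_move (BMove.l [] M a y)
    have h2 := BReach.of_move (BMove.l [] M (a * y * a⁻¹) a)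
    simp only [List.nil_append] at h1 h2
    have h3 := h1.trans h2
    have e1 : a * y * a⁻¹ * a * (a * y * a⁻¹)⁻¹ = (a * y) * a * (a * y)⁻¹ := by group
    have e2 : a * y * a⁻¹ = (a * y) * y * (a * y)⁻¹ := by group
    rw [e1, e2] at h3
    exact h3
  | @untwist a y M _ ih =>
    refine ih.trans ?_
    have h1 := BReach.of_move (BMove.r [] M a y)
    have h2 := BReach.of_move (BMove.r [] M y (y⁻¹ * a * y))
    simp only [List.nil_append] at h1 h2
    have h3 := h1.trans h2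
    have e1 : y⁻¹ * a * y = (a * y)⁻¹ * a * (a * y) := by group
    have e2 : (y⁻¹ * a * y)⁻¹ * y * (y⁻¹ * a * y) = (a * y)⁻¹ * y * (a * y) := by group
    rw [e2, e1] at h3
    exact h3

end rch

section lt
variable {R : Type} [CommRing R] {G : Type} [Group G] {r : ℕ} {S : Subring R}
    {ρ : G →* Matrix (Fin r) (Fin r) R} {c c' z z' : G → R}

theorem Lt.ro {y : G} (h : Lt S ρ c c' z z' y) (X : Matrix (Fin r) (Fin r) R) :
    el ρ c y * X * el ρ c y = (el ρ c y * X).trace • el ρ c y := h.2.2.2 X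

theorem Lt.sq {y : G} (h : Lt S ρ c c' z z' y) :
    el ρ c y * el ρ c y = (z y - 1) • el ρ c y := by
  have h1 := h.ro 1
  rw [mul_one, h.2.2.1] at h1
  exact h1

theorem Lt.map_eq {y : G} (h : Lt S ρ c c' z z' y) : ρ y = c' y • (1 + el ρ c y) := by
  have h1 : 1 + el ρ c y = c y • ρ y := by
    rw [el]
    abel
  rw [h1, smul_smul, mul_comm, h.2.1.1, one_smul]

theorem Lt.map_inv {y : G} (h : Lt S ρ c c' z z' y) : ρ y⁻¹ = c y • (1 - z' y • el ρ c y) := by
  have h1 : ρ y * (c y • (1 - z' y • el ρ c y)) = 1 := by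
    rw [h.map_eq, smul_mul_smul_comm, mul_comm (c' y), h.2.1.1, one_smul,
      mul_sub, add_mul, add_mul, one_mul, one_mul, mul_one, mul_smul_comm, h.sq, smul_smul]
    have h2 : z' y * (z y - 1) = 1 - z' y := by
      have := h.2.1.2
      linear_combination this
    rw [h2, sub_smul, one_smul]
    abel
  have h2 : ρ y⁻¹ * ρ y = 1 := by rw [← map_mul, inv_mul_cancel, map_one]
  calc ρ y⁻¹ = ρ y⁻¹ * (ρ y * (c y • (1 - z' y • el ρ c y))) := by rw [h1, mul_one]
    _ = c y • (1 - z' y • el ρ c y) := by rw [← mul_assoc, h2, one_mul]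

/-- the rank one part of a conjugate element -/
theorem el_cj (hc : ∀ a b, c (b⁻¹ * a * b) = c a) (g y : G) :
    el ρ c (g * y * g⁻¹) = ρ g * el ρ c y * ρ g⁻¹ := by
  have h2 : ρ g * ρ g⁻¹ = 1 := by rw [← map_mul, mul_inv_cancel, map_one]
  have h3 := hc y g⁻¹
  rw [inv_inv] at h3
  rw [el, el, h3, mul_sub, sub_mul, mul_one, h2, mul_smul_comm, smul_mul_assoc, map_mul, map_mul]

theorem el_cj' (hc : ∀ a b, c (b⁻¹ * a * b) = c a) (g y : G) :
    el ρ c (g⁻¹ * y * g) = ρ g⁻¹ * el ρ c y * ρ g := by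
  have h := el_cj (ρ := ρ) hc g⁻¹ y
  rwa [inv_inv] at h

/-- the rank one part of `b⁻¹ * a * b` for a letter `b` -/
theorem Lt.el_conj {b : G} (h : Lt S ρ c c' z z' b) (hc : ∀ a b, c (b⁻¹ * a * b) = c a) (a : G) :
    el ρ c (b⁻¹ * a * b) = (1 - z' b • el ρ c b) * el ρ c a * (1 + el ρ c b) := by
  rw [el_cj' hc, h.map_eq, h.map_inv, smul_mul_assoc, smul_mul_smul_comm, h.2.1.1, one_smul]

theorem Lt.el_conj' {b : G} (h : Lt S ρ c c' z z' b) (hc : ∀ a b, c (b⁻¹ * a * b) = c a) (a : G) :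
    el ρ c (b⁻¹ * a * b) = el ρ c a + el ρ c a * el ρ c b - z' b • (el ρ c b * el ρ c a) -
      (z' b * (el ρ c b * el ρ c a).trace) • el ρ c b := by
  rw [h.el_conj hc, sub_mul, one_mul, smul_mul_assoc, mul_add, mul_one, sub_mul,
    smul_mul_assoc, h.ro, smul_smul]
  abel

theorem map_ne (g : G) : ρ g * ρ g⁻¹ = 1 := by rw [← map_mul, mul_inv_cancel, map_one]

theorem map_en (g : G) : ρ g⁻¹ * ρ g = 1 := by rw [← map_mul, inv_mul_cancel, map_one]

theorem xw_nil (a : G) : xw ρ c a [] = 1 := rfl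

theorem xw_cons (a : G) (p : ℤ × G) (w : List (ℤ × G)) :
    xw ρ c a (p :: w) = ρ (a ^ p.1) * el ρ c p.2 * xw ρ c a w := by
  simp [xw]

theorem xw_append (a : G) (v w : List (ℤ × G)) :
    xw ρ c a (v ++ w) = xw ρ c a v * xw ρ c a w := by
  simp [xw]

end lt

section sysx
variable {R : Type} [CommRing R] {G : Type} [Group G] {r : ℕ} {S : Subring R}
    {ρ : G →* Matrix (Fin r) (Fin r) R} {a₀ : G} {M₀ : List G} {c c' z z' : G → R}

/-- the letters of a reachable tuple are a pure system -/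
theorem SysX.sys (h : SysX S ρ a₀ M₀ c c' z z') {a : G} {N : List G} (hN : RP a₀ M₀ a N) :
    Sys S ρ N c c' z z' where
  conj := h.conj
  mem L hL y hy := (h.lett a L (hN.pre hL) y hy).1
  unit L hL y hy := (h.lett a L (hN.pre hL) y hy).2.1
  tr L hL y hy := (h.lett a L (hN.pre hL) y hy).2.2.1
  one L hL y hy := (h.lett a L (hN.pre hL) y hy).2.2.2
  loops L hL := (h.loops a L (hN.pre hL)).2

/-- pure words -/
theorem SysX.pure (h : SysX S ρ a₀ M₀ c c' z z') {a : G} {N : List G} (hN : RP a₀ M₀ a N)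
    (w : List G) (hw : ∀ x ∈ w, x ∈ N) : ((w.map (el ρ c)).prod).trace ∈ S :=
  (h.sys hN).all_words w.length w hw rfl

/-- tuples with the same group -/
theorem KX_of_closure (hK : St_KW) {a a' : G} {N N' : List G}
    (hN : ∀ y ∈ N, Lt S ρ c c' z z' y) (hN' : ∀ y ∈ N', Lt S ρ c c' z z' y)
    (he : Subgroup.closure ({a'} ∪ {x | x ∈ N'}) = Subgroup.closure ({a} ∪ {x | x ∈ N}))
    (h : KX S ρ c a' N') : KX S ρ c a N := by
  rw [hK R G r S ρ c c' z z' a N hN]
  rw [hK R G r S ρ c c' z z' a' N' hN'] at h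
  intro w hw
  exact h w (he ▸ hw)

end sysx

end Pool.Agent.PRS
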