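import Pool.Agent.PRS.StX2

/-!
# PRX module UQ

`thm_Uq`: uniqueness of the traces, assembly of the steps for one, two, three and at least four
letters.
-/

set_option autoImplicit false

namespace Pool.Agent.PRS

open Matrix Pool.Agent.HZ

theorem thm_Uq (hK : St_KW) (h1 : St_N1) (h2 : St_N2) (h3 : St_N3) (h4 : St_N4) : St_Uq := by
  intro R _ G _ r S ρ a₀ M₀ c c' z z' hS
  have key : ∀ (n : ℕ) (a : G) (N : List G), RP a₀ M₀ a N → N.length = n → KX S ρ c a N := by
    intro n
    induction n using Nat.strong_induction_on with
    | _ n ih =>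
      intro a N hN hn
      rcases lt_or_ge n 4 with h | h
      · match N, hn with
        | [], hn =>
          intro j w hw
          have hw0 : w = [] := by
            rcases w with _ | ⟨p, w⟩
            · rfl
            · exact absurd (hw p (by simp)) (by simp)
          subst hw0
          have h5 := (hS.loops a [] hN).1 j
          simpa [xw] using h5
        | [y], hn => exact h1 R G r S ρ a₀ M₀ c c' z z' hS a y hN
        | [y, y'], hn =>
          refine h2 R G r S ρ a₀ M₀ c c' z z' hS (fun a' N' hN' hlt => ?_) a y y' hN
          exact ih N'.length (by simp at hn; omega) a' N' hN' rfl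
        | [y, y', y''], hn =>
          refine h3 R G r S ρ a₀ M₀ c c' z z' hS (fun a' N' hN' hlt => ?_) a _ hN rfl
          exact ih N'.length (by simp at hn; omega) a' N' hN' rfl
        | _ :: _ :: _ :: _ :: _, hn =>
          simp only [List.length_cons] at hn
          omega
      · refine h4 R G r S ρ a₀ M₀ c c' z z' hS a N hN (by omega) (fun a' N' hN' hlt => ?_)
        exact ih N'.length (by omega) a' N' hN' rfl
  have hM : RP a₀ M₀ a₀ M₀ := ⟨[], by rw [List.append_nil]; exact Rch.refl⟩
  exact (hK R G r S ρ c c' z z' a₀ M₀ (hS.lett a₀ M₀ hM)).mp (key _ a₀ M₀ hM rfl)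

end Pool.Agent.PRS
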